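import Mathlib

/-!
# Permutation flow shops: definitions

`m` machines `P_1, …, P_m` in tandem, `n` tasks.  The time of task `i` on machine `j` is
`T (i, j)` with `i : Fin n`, `j : Fin m` (both counted from `0`).
-/

open Finset MeasureTheory

namespace Pool.Agent.H98.FlowShop

/-- One row of completion times.  If `prev j = C_{i-1,j}` and `a (j-1)` is the time of the `i`-th
processed task on machine `P_j`, then `completionRow prev a j = C_{i,j}`:
`C_{i,0} = 0` and `C_{i,j+1} = max C_{i-1,j+1} C_{i,j} + a j`. -/
noncomputable def completionRow (prev a : ℕ → ℝ) (j : ℕ) : ℝ :=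
  Nat.rec (motive := fun _ => ℝ) 0 (fun j c => max (prev (j + 1)) c + a j) j

/-- Completion times `C_{i,j}` of a permutation flow shop in which the `i`-th processed task
(`i = 1, 2, …`) needs time `t (i-1) (j-1)` on machine `P_j` (`j = 1, 2, …`):
`C_{0,j} = C_{i,0} = 0` and `C_{i,j} = max C_{i-1,j} C_{i,j-1} + t (i-1) (j-1)`
(see `completion_zero_left`, `completion_zero_right`, `completion_succ`). -/
noncomputable def completion (t : ℕ → ℕ → ℝ) (i : ℕ) : ℕ → ℝ :=
  Nat.rec (motive := fun _ => ℕ → ℝ) (fun _ => 0) (fun i prev => completionRow prev (t i)) i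

lemma completion_zero_left (t : ℕ → ℕ → ℝ) (j : ℕ) : completion t 0 j = 0 := rfl

lemma completion_zero_right (t : ℕ → ℕ → ℝ) (i : ℕ) : completion t i 0 = 0 := by
  cases i <;> rfl

lemma completion_succ (t : ℕ → ℕ → ℝ) (i j : ℕ) : completion t (i + 1) (j + 1) =
    max (completion t i (j + 1)) (completion t (i + 1) j) + t i j := rfl

/-- The operation times in processing order: the task in position `i` (counted from `0`) is
`π i`, and its time on the machine with index `j` (counted from `0`) is `T (π i, j)`.  Outside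
the range of tasks and machines the value is `0` (never used by the makespan). -/
def ordered {n m : ℕ} (T : Fin n × Fin m → ℝ) (π : Equiv.Perm (Fin n)) (i j : ℕ) : ℝ :=
  if h : i < n ∧ j < m then T (π ⟨i, h.1⟩, ⟨j, h.2⟩) else 0

/-- The makespan `L^π_{m,n} = C_{n,m}` of the schedule `π`. -/
noncomputable def makespan {n m : ℕ} (T : Fin n × Fin m → ℝ) (π : Equiv.Perm (Fin n)) : ℝ :=
  completion (ordered T π) n m

/-- The optimal makespan `L^*_{m,n} = min_π L^π_{m,n}`. -/
noncomputable def optMakespan {n m : ℕ} (T : Fin n × Fin m → ℝ) : ℝ :=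
  (Finset.univ : Finset (Equiv.Perm (Fin n))).inf' Finset.univ_nonempty (makespan T)

/-- The expected error `E[α^*_{m,n}] = E[L^*_{m,n} - (n + m - 1) τ]` of the optimal policy, when
the `m n` operation times are i.i.d. with law `F` and `τ` is the mean of `F`. -/
noncomputable def expOptError (F : Measure ℝ) (m n : ℕ) : ℝ :=
  ∫ T : Fin n × Fin m → ℝ, (optMakespan T - ((n : ℝ) + m - 1) * ∫ x, x ∂F)
    ∂(Measure.pi fun _ : Fin n × Fin m => F)

end Pool.Agent.H98.FlowShop
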