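import Mathlib

open Finset

namespace Pool.Agent.H98.Steinitz

variable {ι : Type*} [DecidableEq ι]

/-- The invariant of the Grinberg-Sevastyanov proof of the Steinitz lemma. -/
def Good (d : ℕ) (v : ι → (Fin d → ℝ)) (A : Finset ι) : Prop :=
  ∃ μ : ι → ℝ, (∀ i ∈ A, 0 ≤ μ i ∧ μ i ≤ 1) ∧ ∑ i ∈ A, μ i = (A.card : ℝ) - d ∧
    ∑ i ∈ A, μ i • v i = 0

/-- Key finite-dimensional fact: a feasible point of the polytope with no zero coordinate and
maximal square sum has few fractional coordinates, which contradicts the value of the sum. -/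
lemma exists_zero {κ : Type*} [Fintype κ] [DecidableEq κ] (d : ℕ) (v : κ → (Fin d → ℝ))
    (hcard : d + 1 ≤ Fintype.card κ)
    (hne : ∃ μ : κ → ℝ, (∀ i, 0 ≤ μ i ∧ μ i ≤ 1) ∧ ∑ i, μ i = (Fintype.card κ : ℝ) - d ∧
      ∑ i, μ i • v i = 0) :
    ∃ μ : κ → ℝ, (∀ i, 0 ≤ μ i ∧ μ i ≤ 1) ∧ ∑ i, μ i = (Fintype.card κ : ℝ) - 1 - d ∧
      ∑ i, μ i • v i = 0 ∧ ∃ i, μ i = 0 := by
  classical
  set k : ℝ := (Fintype.card κ : ℝ) with hk
  have hk1 : (d : ℝ) + 1 ≤ k := by rw [hk]; exact_mod_cast hcard
  -- the feasible set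
  let F : Set (κ → ℝ) := {μ | (∀ i, 0 ≤ μ i ∧ μ i ≤ 1) ∧ ∑ i, μ i = k - 1 - d ∧
    ∑ i, μ i • v i = 0}
  have hFne : F.Nonempty := by
    obtain ⟨μ, h1, h2, h3⟩ := hne
    have hpos : 0 < k - d := by linarith
    set r : ℝ := (k - 1 - d) / (k - d) with hr
    have hr0 : 0 ≤ r := by rw [hr]; apply div_nonneg <;> linarith
    have hr1 : r ≤ 1 := by rw [hr, div_le_one hpos]; linarith
    refine ⟨fun i => r * μ i, ?_, ?_, ?_⟩
    · intro i
      obtain ⟨h0, h1'⟩ := h1 i
      exact ⟨mul_nonneg hr0 h0, by nlinarith⟩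
    · rw [← Finset.mul_sum, h2, hr]
      field_simp
    · have : ∑ i, (r * μ i) • v i = r • ∑ i, μ i • v i := by
        rw [Finset.smul_sum]
        refine Finset.sum_congr rfl fun i _ => ?_
        rw [mul_smul]
      rw [this, h3, smul_zero]
  have hFcomp : IsCompact F := by
    have hI : IsCompact (Set.Icc (0 : κ → ℝ) 1) := isCompact_Icc
    have hcl : IsClosed {μ : κ → ℝ | ∑ i, μ i = k - 1 - d ∧ ∑ i, μ i • v i = 0} := by
      apply IsClosed.inter
      · exact isClosed_eq (by fun_prop) continuous_const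
      · exact isClosed_eq (by fun_prop) continuous_const
    have : F = Set.Icc (0 : κ → ℝ) 1 ∩
        {μ : κ → ℝ | ∑ i, μ i = k - 1 - d ∧ ∑ i, μ i • v i = 0} := by
      ext μ
      simp only [F, Set.mem_setOf_eq, Set.mem_inter_iff, Set.mem_Icc, Pi.le_def, Pi.zero_apply,
        Pi.one_apply]
      constructor
      · rintro ⟨h1, h2, h3⟩
        exact ⟨⟨fun i => (h1 i).1, fun i => (h1 i).2⟩, h2, h3⟩
      · rintro ⟨⟨h1, h1'⟩, h2, h3⟩
        exact ⟨fun i => ⟨h1 i, h1' i⟩, h2, h3⟩
    rw [this]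
    exact hI.inter_right hcl
  obtain ⟨μ, hμF, hμmax⟩ := hFcomp.exists_isMaxOn hFne
    (f := fun μ : κ → ℝ => ∑ i, μ i ^ 2) (by fun_prop)
  obtain ⟨h01, hsum, hvec⟩ := hμF
  refine ⟨μ, h01, hsum, hvec, ?_⟩
  by_contra hno
  push Not at hno
  have hpos : ∀ i, 0 < μ i := fun i => lt_of_le_of_ne (h01 i).1 (Ne.symm (hno i))
  -- fractional coordinates
  let Fr : Finset κ := Finset.univ.filter (fun i => μ i < 1)
  have hone : ∀ i, i ∉ Fr → μ i = 1 := by
    intro i hi
    simp only [Fr, Finset.mem_filter, Finset.mem_univ, true_and, not_lt] at hi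
    exact le_antisymm (h01 i).2 hi
  have hsumFr : ∑ i ∈ Fr, (1 - μ i) = d + 1 := by
    have h1 : ∑ i, (1 - μ i) = d + 1 := by
      rw [Finset.sum_sub_distrib, hsum]
      simp [hk]
      ring
    rw [← h1]
    apply Finset.sum_subset (Finset.subset_univ _)
    intro i _ hi
    rw [hone i hi]; ring
  have hFrne : Fr.Nonempty := by
    rw [Finset.nonempty_iff_ne_empty]
    intro he
    rw [he] at hsumFr
    simp at hsumFr
    have : (0 : ℝ) < (d : ℝ) + 1 := by positivity
    linarith
  have hFrcard : (d : ℝ) + 1 < Fr.card := by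
    rw [← hsumFr]
    calc ∑ i ∈ Fr, (1 - μ i) < ∑ i ∈ Fr, (1 : ℝ) := by
          apply Finset.sum_lt_sum_of_nonempty hFrne
          intro i _
          linarith [hpos i]
      _ = Fr.card := by simp
  have hFrcard' : d + 1 < Fr.card := by exact_mod_cast hFrcard
  -- a nonzero direction
  let Φ : (Fr → ℝ) →ₗ[ℝ] (ℝ × (Fin d → ℝ)) :=
    { toFun := fun h => (∑ i, h i, ∑ i, h i • v i)
      map_add' := by
        intro x y
        ext
        · simp [Finset.sum_add_distrib]
        · simp [Finset.sum_add_distrib, add_mul]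
      map_smul' := by
        intro c x
        ext
        · simp [Finset.mul_sum]
        · simp [Finset.mul_sum, mul_assoc] }
  have hker : LinearMap.ker Φ ≠ ⊥ := by
    apply LinearMap.ker_ne_bot_of_finrank_lt
    simp
    omega
  obtain ⟨h, hhker, hhne⟩ := Submodule.exists_mem_ne_zero_of_ne_bot hker
  have hΦ : Φ h = 0 := hhker
  have hh1 : ∑ i, h i = 0 := congrArg Prod.fst hΦ
  have hh2 : ∑ i, h i • v i = 0 := congrArg Prod.snd hΦ
  -- extension by zero
  let g : κ → ℝ := fun i => if hi : i ∈ Fr then h ⟨i, hi⟩ else 0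
  have hgFr : ∀ i : Fr, g i = h i := by
    intro i; simp [g]
  have hgout : ∀ i, i ∉ Fr → g i = 0 := by
    intro i hi; simp [g, hi]
  have hg1 : ∑ i, g i = 0 := by
    rw [← hh1]
    rw [← Finset.sum_subset (Finset.subset_univ Fr) (fun i _ hi => hgout i hi)]
    rw [← Finset.sum_coe_sort Fr]
    exact Finset.sum_congr rfl fun i _ => hgFr i
  have hg2 : ∑ i, g i • v i = 0 := by
    rw [← hh2]
    rw [← Finset.sum_subset (Finset.subset_univ Fr)
      (fun i _ hi => by rw [hgout i hi, zero_smul])]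
    rw [← Finset.sum_coe_sort Fr (fun i => g i • v i)]
    exact Finset.sum_congr rfl fun i _ => by rw [hgFr i]
  have hgne : 0 < ∑ i, g i ^ 2 := by
    have : ∃ i : Fr, h i ≠ 0 := by
      by_contra hcon
      push Not at hcon
      exact hhne (funext hcon)
    obtain ⟨i, hi⟩ := this
    apply Finset.sum_pos' (fun i _ => sq_nonneg _)
    refine ⟨i, Finset.mem_univ _, ?_⟩
    rw [hgFr i]
    positivity
  -- small step
  obtain ⟨ε, hε, hεle⟩ : ∃ ε : ℝ, 0 < ε ∧ ∀ i, i ∈ Fr → ε * |g i| ≤ μ i ∧ ε * |g i| ≤ 1 - μ i := by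
    let e : κ → ℝ := fun i => min (μ i) (1 - μ i) / (|g i| + 1)
    have he : ∀ i ∈ Fr, 0 < e i := by
      intro i hi
      simp only [Fr, Finset.mem_filter, Finset.mem_univ, true_and] at hi
      have h1 : 0 < min (μ i) (1 - μ i) := lt_min (hpos i) (by linarith)
      have h2 : 0 < |g i| + 1 := by positivity
      exact div_pos h1 h2
    refine ⟨Fr.inf' hFrne e, ?_, ?_⟩
    · rw [Finset.lt_inf'_iff]
      exact he
    · intro i hi
      have h1 : Fr.inf' hFrne e ≤ e i := Finset.inf'_le _ hi
      have h2 : 0 < |g i| + 1 := by positivity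
      have h3 : e i * |g i| ≤ e i * (|g i| + 1) := by
        apply mul_le_mul_of_nonneg_left _ (he i hi).le
        linarith
      have h4 : e i * (|g i| + 1) = min (μ i) (1 - μ i) := by
        simp only [e]
        field_simp
      have h5 : Fr.inf' hFrne e * |g i| ≤ min (μ i) (1 - μ i) := by
        calc Fr.inf' hFrne e * |g i| ≤ e i * |g i| :=
              mul_le_mul_of_nonneg_right h1 (abs_nonneg _)
          _ ≤ _ := h3
          _ = _ := h4
      exact ⟨h5.trans (min_le_left _ _), h5.trans (min_le_right _ _)⟩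
  have hfeas : ∀ s : ℝ, |s| = ε → (fun i => μ i + s * g i) ∈ F := by
    intro s hs
    refine ⟨?_, ?_, ?_⟩
    · intro i
      by_cases hi : i ∈ Fr
      · obtain ⟨h1, h2⟩ := hεle i hi
        have h3 : |s * g i| = ε * |g i| := by rw [abs_mul, hs]
        have h4 := abs_le.mp h3.le
        constructor <;> simp only <;> linarith [h4.1, h4.2]
      · simp only [hgout i hi, mul_zero, add_zero]
        exact h01 i
    · rw [Finset.sum_add_distrib, ← Finset.mul_sum, hg1, mul_zero, add_zero, hsum]
    · have : ∑ i, (μ i + s * g i) • v i = ∑ i, μ i • v i + s • ∑ i, g i • v i := by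
        rw [Finset.smul_sum, ← Finset.sum_add_distrib]
        refine Finset.sum_congr rfl fun i _ => ?_
        rw [add_smul, mul_smul]
      rw [this, hvec, hg2, smul_zero, add_zero]
  have hp := hμmax (hfeas ε (abs_of_pos hε))
  have hm := hμmax (hfeas (-ε) (by rw [abs_neg, abs_of_pos hε]))
  simp only [Set.mem_setOf_eq] at hp hm
  have hexp : ∑ i, (μ i + ε * g i) ^ 2 + ∑ i, (μ i + -ε * g i) ^ 2 =
      2 * ∑ i, μ i ^ 2 + 2 * ε ^ 2 * ∑ i, g i ^ 2 := by
    rw [← Finset.sum_add_distrib, Finset.mul_sum, Finset.mul_sum, ← Finset.sum_add_distrib]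
    refine Finset.sum_congr rfl fun i _ => ?_
    ring
  have : 0 < 2 * ε ^ 2 * ∑ i, g i ^ 2 := by positivity
  linarith

lemma Good.step {d : ℕ} {v : ι → (Fin d → ℝ)} {A : Finset ι} (h : Good d v A)
    (hcard : d + 1 ≤ A.card) : ∃ i ∈ A, Good d v (A.erase i) := by
  classical
  obtain ⟨μ, h1, h2, h3⟩ := h
  have key := exists_zero (κ := A) d (fun i => v i) (by simpa using hcard)
    ⟨fun i => μ i, fun i => h1 i i.2, by
      rw [Finset.sum_coe_sort A (fun i => μ i), h2]; simp, by
      rw [Finset.sum_coe_sort A (fun i => μ i • v i), h3]⟩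
  obtain ⟨lam, g1, g2, g3, i₀, hi₀⟩ := key
  let g : ι → ℝ := fun i => if hi : i ∈ A then lam ⟨i, hi⟩ else 0
  have hg : ∀ i : A, g i = lam i := by intro i; simp [g]
  refine ⟨i₀, i₀.2, g, ?_, ?_, ?_⟩
  · intro i hi
    have hiA : i ∈ A := Finset.mem_of_mem_erase hi
    have := hg ⟨i, hiA⟩
    simp only at this
    rw [this]
    exact g1 _
  · have hz : g i₀ = 0 := by rw [hg i₀, hi₀]
    have e1 : ∑ i ∈ A.erase i₀, g i = ∑ i ∈ A, g i := by
      rw [← Finset.add_sum_erase A g i₀.2, hz, zero_add]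
    rw [e1, ← Finset.sum_coe_sort A g]
    simp_rw [hg]
    rw [g2, Finset.card_erase_of_mem i₀.2]
    have : 1 ≤ A.card := by omega
    push_cast [Nat.cast_sub this]
    simp
  · have hz : g i₀ = 0 := by rw [hg i₀, hi₀]
    have e1 : ∑ i ∈ A.erase i₀, g i • v i = ∑ i ∈ A, g i • v i := by
      rw [← Finset.add_sum_erase A (fun i => g i • v i) i₀.2]
      simp only [hz, zero_smul, zero_add]
    rw [e1, ← Finset.sum_coe_sort A (fun i => g i • v i)]
    simp_rw [hg]
    exact g3

lemma norm_sum_le_card {d : ℕ} {v : ι → (Fin d → ℝ)} {K : ℝ} (hK : ∀ i, ‖v i‖ ≤ K)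
    (A : Finset ι) : ‖∑ i ∈ A, v i‖ ≤ A.card * K := by
  calc ‖∑ i ∈ A, v i‖ ≤ ∑ i ∈ A, ‖v i‖ := norm_sum_le _ _
    _ ≤ ∑ i ∈ A, K := Finset.sum_le_sum fun i _ => hK i
    _ = A.card * K := by simp

lemma Good.norm_le {d : ℕ} {v : ι → (Fin d → ℝ)} {A : Finset ι} (h : Good d v A) {K : ℝ}
    (hK : ∀ i, ‖v i‖ ≤ K) : ‖∑ i ∈ A, v i‖ ≤ d * K := by
  obtain ⟨μ, h1, h2, h3⟩ := h
  have e : ∑ i ∈ A, v i = ∑ i ∈ A, (1 - μ i) • v i := by
    have : ∑ i ∈ A, (1 - μ i) • v i = ∑ i ∈ A, v i - ∑ i ∈ A, μ i • v i := by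
      rw [← Finset.sum_sub_distrib]
      refine Finset.sum_congr rfl fun i _ => ?_
      rw [sub_smul, one_smul]
    rw [this, h3, sub_zero]
  rw [e]
  calc ‖∑ i ∈ A, (1 - μ i) • v i‖ ≤ ∑ i ∈ A, ‖(1 - μ i) • v i‖ := norm_sum_le _ _
    _ ≤ ∑ i ∈ A, (1 - μ i) * K := by
        apply Finset.sum_le_sum
        intro i hi
        rw [norm_smul, Real.norm_eq_abs, abs_of_nonneg (by linarith [(h1 i hi).2])]
        exact mul_le_mul_of_nonneg_left (hK i) (by linarith [(h1 i hi).2])
    _ = d * K := by
        rw [← Finset.sum_mul, Finset.sum_sub_distrib, h2]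
        simp

/-- Every good set can be enumerated with all partial sums bounded. -/
lemma exists_list {d : ℕ} {v : ι → (Fin d → ℝ)} {K : ℝ} (hK : ∀ i, ‖v i‖ ≤ K) (hK0 : 0 ≤ K)
    (N : ℕ) : ∀ A : Finset ι, A.card = N → (d ≤ A.card → Good d v A) →
      ∃ l : List ι, l.Nodup ∧ l.toFinset = A ∧
        ∀ k, ‖((l.take k).map v).sum‖ ≤ d * K := by
  induction N with
  | zero =>
    intro A hA _
    refine ⟨[], List.nodup_nil, ?_, ?_⟩
    · rw [Finset.card_eq_zero] at hA
      simp [hA]
    · intro k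
      simp only [List.take_nil, List.map_nil, List.sum_nil, norm_zero]
      positivity
  | succ N ih =>
    intro A hA hgood
    have hi : ∃ i ∈ A, (d ≤ (A.erase i).card → Good d v (A.erase i)) := by
      by_cases hd : d + 1 ≤ A.card
      · obtain ⟨i, hi, hg⟩ := (hgood (by omega)).step hd
        exact ⟨i, hi, fun _ => hg⟩
      · obtain ⟨i, hi⟩ : A.Nonempty := by
          rw [← Finset.card_pos]; omega
        refine ⟨i, hi, fun h => ?_⟩
        rw [Finset.card_erase_of_mem hi] at h
        omega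
    obtain ⟨i, hiA, hgi⟩ := hi
    obtain ⟨l, hl1, hl2, hl3⟩ := ih (A.erase i) (by rw [Finset.card_erase_of_mem hiA]; omega) hgi
    have hil : i ∉ l := by
      intro h
      have : i ∈ l.toFinset := List.mem_toFinset.mpr h
      rw [hl2] at this
      exact Finset.notMem_erase i A this
    have hnd : (l ++ [i]).Nodup := by
      rw [List.nodup_append]
      refine ⟨hl1, List.nodup_singleton _, ?_⟩
      intro a ha b hb hab
      simp only [List.mem_singleton] at hb
      subst hb
      exact hil (hab ▸ ha)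
    have hfs : (l ++ [i]).toFinset = A := by
      rw [List.toFinset_append, hl2]
      ext x
      simp only [Finset.mem_union, Finset.mem_erase, List.mem_toFinset, List.mem_singleton]
      constructor
      · rintro (⟨_, h⟩ | h)
        · exact h
        · exact h ▸ hiA
      · intro h
        by_cases hx : x = i
        · exact Or.inr hx
        · exact Or.inl ⟨hx, h⟩
    refine ⟨l ++ [i], hnd, hfs, ?_⟩
    intro k
    by_cases hk : k ≤ l.length
    · rw [List.take_append_of_le_length hk]
      exact hl3 k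
    · have : (l ++ [i]).take k = l ++ [i] := by
        apply List.take_of_length_le
        simp
        omega
      rw [this]
      have e : ((l ++ [i]).map v).sum = ∑ x ∈ A, v x := by
        rw [← hfs, List.sum_toFinset v hnd]
      rw [e]
      by_cases hd : d ≤ A.card
      · exact (hgood hd).norm_le hK
      · have h1 := norm_sum_le_card hK A
        have h2 : (A.card : ℝ) ≤ d := by
          have : A.card ≤ d := by omega
          exact_mod_cast this
        calc ‖∑ x ∈ A, v x‖ ≤ A.card * K := h1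
          _ ≤ d * K := mul_le_mul_of_nonneg_right h2 hK0

/-- **Steinitz lemma** (Grinberg-Sevastyanov constant), sup norm on `ℝ^d`: a finite family of
vectors with sum zero and norms at most `K` can be ordered so that all partial sums have norm at
most `d * K`. -/
theorem steinitz {n d : ℕ} (v : Fin n → (Fin d → ℝ)) {K : ℝ} (hK0 : 0 ≤ K)
    (hK : ∀ i, ‖v i‖ ≤ K) (hsum : ∑ i, v i = 0) :
    ∃ π : Equiv.Perm (Fin n), ∀ k : ℕ, k ≤ n →
      ‖∑ i ∈ Finset.univ.filter (fun i : Fin n => (i : ℕ) < k), v (π i)‖ ≤ d * K := by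
  classical
  have hgood : d ≤ (Finset.univ : Finset (Fin n)).card → Good d v Finset.univ := by
    intro hd
    simp only [Finset.card_univ, Fintype.card_fin] at hd
    rcases Nat.eq_zero_or_pos n with hn | hn
    · subst hn
      have : d = 0 := by omega
      subst this
      exact ⟨fun _ => 0, by simp, by simp, by simp⟩
    · have hn' : (0 : ℝ) < n := by exact_mod_cast hn
      have hdn : (d : ℝ) ≤ n := by exact_mod_cast hd
      refine ⟨fun _ => ((n : ℝ) - d) / n, ?_, ?_, ?_⟩
      · intro i _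
        constructor
        · apply div_nonneg <;> linarith
        · rw [div_le_one hn']
          have : (0 : ℝ) ≤ d := by positivity
          linarith
      · simp
        field_simp
      · rw [← Finset.smul_sum, hsum, smul_zero]
  obtain ⟨l, hl1, hl2, hl3⟩ := exists_list hK hK0 n Finset.univ (by simp) hgood
  have hlen : l.length = n := by
    have := List.toFinset_card_of_nodup hl1
    rw [hl2] at this
    simpa using this.symm
  let f : Fin n → Fin n := fun i => l.get (i.cast hlen.symm)
  have hinj : Function.Injective f := by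
    intro a b hab
    have := (List.nodup_iff_injective_get.mp hl1) hab
    simpa using this
  let π : Equiv.Perm (Fin n) := Equiv.ofBijective f ((Fintype.bijective_iff_injective_and_card f).mpr
    ⟨hinj, rfl⟩)
  refine ⟨π, fun k hk => ?_⟩
  have key : ∑ i ∈ Finset.univ.filter (fun i : Fin n => (i : ℕ) < k), v (π i) =
      ((l.take k).map v).sum := by
    have : ∀ k ≤ n, ∑ i ∈ Finset.univ.filter (fun i : Fin n => (i : ℕ) < k), v (π i) =
      ((l.take k).map v).sum := by
      intro k
      induction k with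
      | zero => intro _; simp
      | succ k ih =>
        intro hk
        have hk' : k < n := by omega
        have hkl : k < l.length := by omega
        rw [List.take_succ_eq_append_getElem hkl, List.map_append, List.sum_append,
          ← ih (by omega)]
        have hfil : Finset.univ.filter (fun i : Fin n => (i : ℕ) < k + 1) =
            insert ⟨k, hk'⟩ (Finset.univ.filter (fun i : Fin n => (i : ℕ) < k)) := by
          ext x
          simp only [Finset.mem_filter, Finset.mem_univ, true_and, Finset.mem_insert, Fin.ext_iff]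
          omega
        rw [hfil, Finset.sum_insert (by simp), add_comm]
        simp [π, f]
    exact this k hk
  rw [key]
  exact hl3 k

end Pool.Agent.H98.Steinitz
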