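import Mathlib
import Pool.Agent.H98.Steinitz
import Pool.Agent.H98.FlowShopDefs

open Finset MeasureTheory

namespace Pool.Agent.H98.FlowShop

lemma ordered_of_lt {n m : ℕ} (T : Fin n × Fin m → ℝ) (π : Equiv.Perm (Fin n)) {i j : ℕ}
    (hi : i < n) (hj : j < m) : ordered T π i j = T (π ⟨i, hi⟩, ⟨j, hj⟩) := by
  simp [ordered, hi, hj]

/-- Deterministic bound: the optimal makespan exceeds the largest machine load by at most
`m (2 m + 1)` times the largest operation time. -/
theorem optMakespan_le {n m : ℕ} (T : Fin n × Fin m → ℝ) {B M : ℝ} (h0 : ∀ p, 0 ≤ T p)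
    (hB : ∀ p, T p ≤ B) (hB0 : 0 ≤ B) (hM : ∀ j, ∑ i, T (i, j) ≤ M) (hM0 : 0 ≤ M) :
    optMakespan T ≤ M + m * (2 * m + 1) * B := by
  classical
  rcases Nat.eq_zero_or_pos n with hn | hn
  · subst hn
    have : optMakespan T ≤ makespan T 1 := Finset.inf'_le _ (Finset.mem_univ _)
    have h2 : makespan T 1 = 0 := completion_zero_left _ _
    rw [h2] at this
    have h3 : 0 ≤ (m : ℝ) * (2 * m + 1) * B := by positivity
    linarith
  have hn' : (0 : ℝ) < n := by exact_mod_cast hn
  -- loads
  set S : Fin m → ℝ := fun j => ∑ i, T (i, j) with hS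
  have hS0 : ∀ j, 0 ≤ S j := fun j => Finset.sum_nonneg fun i _ => h0 _
  have hSB : ∀ j, S j / n ≤ B := by
    intro j
    rw [div_le_iff₀ hn']
    calc S j ≤ ∑ i : Fin n, B := Finset.sum_le_sum fun i _ => hB _
      _ = B * n := by simp [mul_comm]
  let v : Fin n → (Fin m → ℝ) := fun i j => T (i, j) - S j / n
  have hv : ∀ i, ‖v i‖ ≤ B := by
    intro i
    rw [pi_norm_le_iff_of_nonneg hB0]
    intro j
    rw [Real.norm_eq_abs, abs_le]
    have h1 := h0 (i, j)
    have h2 := hB (i, j)
    have h3 : 0 ≤ S j / n := div_nonneg (hS0 j) hn'.le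
    have h4 := hSB j
    constructor <;> simp only [v] <;> linarith
  have hvsum : ∑ i, v i = 0 := by
    ext j
    simp only [v, Finset.sum_apply, Finset.sum_sub_distrib, Finset.sum_const, Finset.card_univ,
      Fintype.card_fin, nsmul_eq_mul, Pi.zero_apply]
    field_simp
    simp [hS]
  obtain ⟨π, hπ⟩ := Steinitz.steinitz v hB0 hv hvsum
  have hle : optMakespan T ≤ makespan T π := Finset.inf'_le _ (Finset.mem_univ _)
  refine hle.trans ?_
  -- partial sums
  let E : ℕ → Fin m → ℝ := fun k j =>
    ∑ i ∈ Finset.univ.filter (fun i : Fin n => (i : ℕ) < k), v (π i) j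
  have hE : ∀ k, k ≤ n → ∀ j, |E k j| ≤ m * B := by
    intro k hk j
    have h1 := hπ k hk
    have h2 := (pi_norm_le_iff_of_nonneg (by positivity : (0 : ℝ) ≤ m * B)).mp h1 j
    rw [Real.norm_eq_abs, Finset.sum_apply] at h2
    exact h2
  have hEsucc : ∀ k (hk : k < n) j, E (k + 1) j = E k j + (T (π ⟨k, hk⟩, j) - S j / n) := by
    intro k hk j
    have hfil : Finset.univ.filter (fun i : Fin n => (i : ℕ) < k + 1) =
        insert ⟨k, hk⟩ (Finset.univ.filter (fun i : Fin n => (i : ℕ) < k)) := by
      ext x
      simp only [Finset.mem_filter, Finset.mem_univ, true_and, Finset.mem_insert, Fin.ext_iff]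
      omega
    simp only [E]
    rw [hfil, Finset.sum_insert (by simp), add_comm]
  have hE0 : ∀ j, E 0 j = 0 := by intro j; simp [E]
  set c : ℝ := (2 * m + 1) * B with hc
  have hc0 : 0 ≤ c := by positivity
  have main : ∀ i, i ≤ n → ∀ j (hj : j < m),
      completion (ordered T π) i (j + 1) ≤ E i ⟨j, hj⟩ + i / n * M + (j + 1) * c := by
    intro i
    induction i with
    | zero =>
      intro _ j hj
      rw [completion_zero_left, hE0]
      simp
      positivity
    | succ i ihi =>
      intro hi j
      have hSM : ∀ j, S j / n ≤ M / n := fun j => div_le_div_of_nonneg_right (hM j) hn'.le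
      have hcast : (((i + 1 : ℕ) : ℝ)) / n * M = (i : ℝ) / n * M + M / n := by
        push_cast; ring
      induction j with
      | zero =>
        intro hj
        rw [completion_succ, completion_zero_right, ordered_of_lt T π (by omega) hj,
          hEsucc i (by omega), hcast]
        have h1 := ihi (by omega) 0 hj
        have h2 := abs_le.mp (hE i (by omega) ⟨0, hj⟩)
        have h3 : 0 ≤ (i : ℝ) / n * M := by positivity
        have h4 := hSM ⟨0, hj⟩
        have h5 : (m : ℝ) * B ≤ c := by rw [hc]; nlinarith
        have h6 : max (completion (ordered T π) i (0 + 1)) 0 ≤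
            E i ⟨0, hj⟩ + i / n * M + c := by
          apply max_le
          · simpa using h1
          · linarith [h2.1]
        push_cast
        linarith
      | succ j ihj =>
        intro hj
        rw [completion_succ, ordered_of_lt T π (by omega) hj]
        have h1 := ihi (by omega) (j + 1) hj
        have h2 := ihj (by omega)
        have h4 := hSM ⟨j + 1, hj⟩
        have h5 := hB (π ⟨i, by omega⟩, ⟨j + 1, hj⟩)
        have h6 := hEsucc i (by omega) ⟨j + 1, hj⟩
        rw [← max_add_add_right]
        apply max_le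
        · rw [h6, hcast]
          push_cast at h1 ⊢
          linarith
        · have h7 := abs_le.mp (hE (i + 1) (by omega) ⟨j + 1, hj⟩)
          have h8 := abs_le.mp (hE (i + 1) (by omega) ⟨j, by omega⟩)
          have h9 : c = 2 * (m * B) + B := by rw [hc]; ring
          push_cast at h2 ⊢
          have : ((j : ℝ) + 1 + 1) * c = (j + 1) * c + c := by ring
          rw [this]
          linarith [h7.1, h8.2]
  rcases Nat.eq_zero_or_pos m with hm | hm
  · subst hm
    rw [makespan, completion_zero_right]
    simp
    exact hM0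
  · have h1 := main n le_rfl (m - 1) (by omega)
    have hm1 : m - 1 + 1 = m := by omega
    rw [hm1] at h1
    have h2 : E n ⟨m - 1, by omega⟩ = 0 := by
      have : Finset.univ.filter (fun i : Fin n => (i : ℕ) < n) = Finset.univ := by
        ext x; simp
      simp only [E]
      rw [this]
      have h3 := Equiv.sum_comp π (fun i => v i ⟨m - 1, by omega⟩)
      rw [h3]
      have := congrFun hvsum ⟨m - 1, by omega⟩
      simpa using this
    rw [h2, div_self hn'.ne'] at h1
    have h3 : ((m - 1 : ℕ) : ℝ) + 1 = m := by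
      rw [Nat.cast_sub hm]; simp
    rw [h3] at h1
    rw [makespan]
    rw [hc] at h1
    linarith

end Pool.Agent.H98.FlowShop
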