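import Mathlib
import Pool.Agent.H98.FlowShop

open Finset MeasureTheory ProbabilityTheory
open scoped NNReal

namespace Pool.Agent.H98.FlowShop

/-- Truncation from above: `x` if `x ≤ B` and `0` otherwise. -/
noncomputable def lo (B x : ℝ) : ℝ := if x ≤ B then x else 0

/-- The large part: `x` if `B < x` and `0` otherwise. -/
noncomputable def hi (B x : ℝ) : ℝ := if B < x then x else 0

/-- The truncated second moment `∫_{x > b} x^2 dF`. -/
noncomputable def tail (F : Measure ℝ) (b : ℝ) : ℝ := ∫ x, (hi b x) ^ 2 ∂F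

lemma lo_add_hi (B x : ℝ) : lo B x + hi B x = x := by
  unfold lo hi
  split_ifs <;> first | linarith | simp

lemma measurable_lo (B : ℝ) : Measurable (lo B) := by
  unfold lo
  exact Measurable.ite measurableSet_Iic measurable_id measurable_const

lemma measurable_hi (B : ℝ) : Measurable (hi B) := by
  unfold hi
  exact Measurable.ite measurableSet_Ioi measurable_id measurable_const

lemma abs_lo_le (B x : ℝ) : |lo B x| ≤ |x| := by
  unfold lo
  split_ifs <;> simp

lemma abs_hi_le (B x : ℝ) : |hi B x| ≤ |x| := by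
  unfold hi
  split_ifs <;> simp

variable {F : Measure ℝ} [IsProbabilityMeasure F]

lemma integrable_id_of_memLp (hF2 : MemLp id 2 F) : Integrable id F :=
  hF2.integrable (by norm_num)

lemma memLp_lo (hF2 : MemLp id 2 F) (B : ℝ) : MemLp (lo B) 2 F :=
  hF2.mono (measurable_lo B).aestronglyMeasurable (ae_of_all _ fun x => by
    simpa using abs_lo_le B x)

lemma memLp_hi (hF2 : MemLp id 2 F) (B : ℝ) : MemLp (hi B) 2 F :=
  hF2.mono (measurable_hi B).aestronglyMeasurable (ae_of_all _ fun x => by
    simpa using abs_hi_le B x)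

lemma tail_nonneg (b : ℝ) : 0 ≤ tail F b := integral_nonneg fun _ => sq_nonneg _

lemma tail_antitone (hF2 : MemLp id 2 F) {b b' : ℝ} (h0 : 0 ≤ b) (h : b ≤ b') :
    tail F b' ≤ tail F b := by
  apply integral_mono (memLp_hi hF2 b').integrable_sq (memLp_hi hF2 b).integrable_sq
  intro x
  simp only [hi]
  split_ifs <;> first | linarith | nlinarith

lemma tail_tendsto (hF2 : MemLp id 2 F) {ε : ℝ} (hε : 0 < ε) :
    ∃ b₀ : ℝ, 0 < b₀ ∧ ∀ b, b₀ ≤ b → tail F b ≤ ε := by
  have h : Filter.Tendsto (fun k : ℕ => tail F (k : ℝ)) Filter.atTop (nhds (∫ _x, (0 : ℝ) ∂F)) := by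
    unfold tail
    apply tendsto_integral_of_dominated_convergence (fun x => x ^ 2)
    · intro k
      exact ((measurable_hi k).pow_const 2).aestronglyMeasurable
    · exact hF2.integrable_sq
    · intro k
      refine ae_of_all _ fun x => ?_
      rw [Real.norm_eq_abs, abs_pow, ← sq_abs x]
      exact pow_le_pow_left₀ (abs_nonneg _) (abs_hi_le _ _) 2
    · refine ae_of_all _ fun x => ?_
      apply tendsto_const_nhds.congr'
      filter_upwards [Filter.eventually_ge_atTop (⌈x⌉₊)] with k hk
      have : x ≤ k := (Nat.le_ceil x).trans (by exact_mod_cast hk)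
      simp [hi, not_lt.mpr this]
  rw [integral_zero] at h
  have h2 := (h.eventually (ge_mem_nhds hε)).exists_forall_of_atTop
  obtain ⟨N, hN⟩ := h2
  refine ⟨N + 1, by positivity, fun b hb => ?_⟩
  exact (tail_antitone hF2 (by positivity) (by linarith)).trans (hN N le_rfl)

lemma integral_hi_le (hF2 : MemLp id 2 F) {b : ℝ} (hb : 0 < b) :
    ∫ x, hi b x ∂F ≤ tail F b / b := by
  rw [le_div_iff₀ hb, ← integral_mul_const]
  apply integral_mono (((memLp_hi hF2 b).integrable (by norm_num)).mul_const b)
    (memLp_hi hF2 b).integrable_sq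
  intro x
  simp only [hi]
  split_ifs <;> nlinarith

section product

variable {n m : ℕ}

lemma integrable_ordered (hF : Integrable id F) (π : Equiv.Perm (Fin n)) (i j : ℕ) :
    Integrable (fun T : Fin n × Fin m → ℝ => ordered T π i j)
      (Measure.pi fun _ : Fin n × Fin m => F) := by
  unfold ordered
  split_ifs with h
  · exact integrable_comp_eval (μ := fun _ : Fin n × Fin m => F) (f := id) hF
  · exact integrable_const _

lemma integrable_completion (hF : Integrable id F) (π : Equiv.Perm (Fin n)) (i : ℕ) :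
    ∀ j, Integrable (fun T : Fin n × Fin m → ℝ => completion (ordered T π) i j)
      (Measure.pi fun _ : Fin n × Fin m => F) := by
  induction i with
  | zero => intro j; simp only [completion_zero_left]; exact integrable_const _
  | succ i ihi =>
    intro j
    induction j with
    | zero => simp only [completion_zero_right]; exact integrable_const _
    | succ j ihj =>
      simp only [completion_succ]
      exact ((ihi (j + 1)).sup ihj).add (integrable_ordered hF π i j)

lemma integrable_makespan (hF : Integrable id F) (π : Equiv.Perm (Fin n)) :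
    Integrable (fun T : Fin n × Fin m → ℝ => makespan T π)
      (Measure.pi fun _ : Fin n × Fin m => F) :=
  integrable_completion hF π n m

/-- The optimal makespan is integrable as soon as `F` has a finite mean. -/
lemma integrable_optMakespan (hF : Integrable id F) :
    Integrable (fun T : Fin n × Fin m → ℝ => optMakespan T)
      (Measure.pi fun _ : Fin n × Fin m => F) := by
  have h : (fun T : Fin n × Fin m → ℝ => optMakespan T) =
      (Finset.univ : Finset (Equiv.Perm (Fin n))).inf' Finset.univ_nonempty
        (fun π => fun T : Fin n × Fin m → ℝ => makespan T π) := by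
    ext T
    rw [Finset.inf'_apply]
    rfl
  rw [h]
  refine Finset.inf'_induction (p := fun f : (Fin n × Fin m → ℝ) → ℝ =>
    Integrable f (Measure.pi fun _ : Fin n × Fin m => F)) _ _ ?_ ?_
  · intro f hf g hg
    exact hf.inf hg
  · intro π _
    exact integrable_makespan hF π

lemma integrable_optError (hF : Integrable id F) :
    Integrable (fun T : Fin n × Fin m → ℝ =>
      optMakespan T - ((n : ℝ) + m - 1) * ∫ x, x ∂F)
      (Measure.pi fun _ : Fin n × Fin m => F) :=
  (integrable_optMakespan hF).sub (integrable_const _)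

/-- centred sum of the truncated times on machine `j`. -/
noncomputable def A (F : Measure ℝ) (B : ℝ) (j : Fin m) (T : Fin n × Fin m → ℝ) : ℝ :=
  ∑ i, (lo B (T (i, j)) - ∫ x, lo B x ∂F)

/-- centred sum of the large parts on machine `j`. -/
noncomputable def Y (F : Measure ℝ) (B : ℝ) (j : Fin m) (T : Fin n × Fin m → ℝ) : ℝ :=
  ∑ i, (hi B (T (i, j)) - ∫ x, hi B x ∂F)

lemma sum_eq (hF2 : MemLp id 2 F) (B : ℝ) (j : Fin m) (T : Fin n × Fin m → ℝ) :
    ∑ i, T (i, j) = n * (∫ x, x ∂F) + A F B j T + Y F B j T := by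
  have h1 : ∫ x, x ∂F = ∫ x, lo B x ∂F + ∫ x, hi B x ∂F := by
    rw [← integral_add ((memLp_lo hF2 B).integrable (by norm_num))
      ((memLp_hi hF2 B).integrable (by norm_num))]
    congr 1
    ext x
    rw [lo_add_hi]
  have h2 : ∀ i, T (i, j) = ∫ x, x ∂F + (lo B (T (i, j)) - ∫ x, lo B x ∂F) +
      (hi B (T (i, j)) - ∫ x, hi B x ∂F) := by
    intro i
    have := lo_add_hi B (T (i, j))
    rw [h1]
    linarith
  unfold A Y
  rw [Finset.sum_congr rfl fun i _ => h2 i, Finset.sum_add_distrib, Finset.sum_add_distrib]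
  simp

lemma subG_A (hF0 : ∀ᵐ x ∂F, 0 ≤ x) {B : ℝ} (hB : 0 ≤ B) (j : Fin m) :
    HasSubgaussianMGF (A (n := n) F B j) (∑ _i : Fin n, (‖B - 0‖₊ / 2) ^ 2)
      (Measure.pi fun _ : Fin n × Fin m => F) := by
  have hind : iIndepFun (fun (p : Fin n × Fin m) (T : Fin n × Fin m → ℝ) =>
      (lo B (T p) - ∫ x, lo B x ∂F)) (Measure.pi fun _ : Fin n × Fin m => F) :=
    iIndepFun_pi (X := fun (_ : Fin n × Fin m) (x : ℝ) => lo B x - ∫ x, lo B x ∂F)
      (fun _ => ((measurable_lo B).sub_const _).aemeasurable)
  have hind2 : iIndepFun (fun (i : Fin n) (T : Fin n × Fin m → ℝ) =>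
      (lo B (T (i, j)) - ∫ x, lo B x ∂F)) (Measure.pi fun _ : Fin n × Fin m => F) :=
    hind.precomp (g := fun i : Fin n => (i, j)) (fun a b h => by simpa using h)
  have hsub : HasSubgaussianMGF (fun x => lo B x - ∫ x, lo B x ∂F) ((‖B - 0‖₊ / 2) ^ 2) F := by
    apply hasSubgaussianMGF_of_mem_Icc (measurable_lo B).aemeasurable
    filter_upwards [hF0] with x hx
    unfold lo
    split_ifs with h
    · exact ⟨hx, h⟩
    · exact ⟨le_rfl, hB⟩
  have := HasSubgaussianMGF.sum_of_iIndepFun hind2 (c := fun _ => (‖B - 0‖₊ / 2) ^ 2)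
    (s := Finset.univ) ?_
  · exact this
  · intro i _
    have hmp := measurePreserving_eval (fun _ : Fin n × Fin m => F) (i, j)
    have h2 : HasSubgaussianMGF (fun x => lo B x - ∫ x, lo B x ∂F) ((‖B - 0‖₊ / 2) ^ 2)
        ((Measure.pi fun _ : Fin n × Fin m => F).map (Function.eval (i, j))) := by
      rw [hmp.map_eq]; exact hsub
    exact HasSubgaussianMGF.of_map hmp.measurable.aemeasurable h2

lemma memLp_hi_eval (hF2 : MemLp id 2 F) (B : ℝ) (p : Fin n × Fin m) :
    MemLp (fun T : Fin n × Fin m → ℝ => hi B (T p) - ∫ x, hi B x ∂F) 2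
      (Measure.pi fun _ : Fin n × Fin m => F) :=
  ((memLp_hi hF2 B).sub (memLp_const _)).comp_measurePreserving
    (measurePreserving_eval (fun _ : Fin n × Fin m => F) p)

lemma memLp_Y (hF2 : MemLp id 2 F) (B : ℝ) (j : Fin m) :
    MemLp (Y (n := n) F B j) 2 (Measure.pi fun _ : Fin n × Fin m => F) := by
  unfold Y
  exact memLp_finsetSum _ fun i _ => memLp_hi_eval hF2 B (i, j)

lemma integral_Y_sq (hF2 : MemLp id 2 F) (B : ℝ) (j : Fin m) :
    ∫ T, (Y (n := n) F B j T) ^ 2 ∂(Measure.pi fun _ : Fin n × Fin m => F) ≤ n * tail F B := by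
  set P := (Measure.pi fun _ : Fin n × Fin m => F) with hP
  let X : Fin n → (Fin n × Fin m → ℝ) → ℝ := fun i T => hi B (T (i, j)) - ∫ x, hi B x ∂F
  have hX : ∀ i, MemLp (X i) 2 P := fun i => memLp_hi_eval hF2 B (i, j)
  have hint : Integrable (hi B) F := (memLp_hi hF2 B).integrable (by norm_num)
  have hX0 : ∀ i, ∫ T, X i T ∂P = 0 := by
    intro i
    have := integral_comp_eval (μ := fun _ : Fin n × Fin m => F) (i := (i, j))
      (f := fun x => hi B x - ∫ x, hi B x ∂F)
      ((measurable_hi B).sub_const _).aestronglyMeasurable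
    rw [← hP] at this
    simp only [X]
    rw [this, integral_sub hint (integrable_const _)]
    simp
  have hind : iIndepFun (fun (p : Fin n × Fin m) (T : Fin n × Fin m → ℝ) =>
      (hi B (T p) - ∫ x, hi B x ∂F)) P :=
    iIndepFun_pi (X := fun (_ : Fin n × Fin m) (x : ℝ) => hi B x - ∫ x, hi B x ∂F)
      (fun _ => ((measurable_hi B).sub_const _).aemeasurable)
  have hind2 : iIndepFun X P :=
    hind.precomp (g := fun i : Fin n => (i, j)) (fun a b h => by simpa using h)
  have hvar : Var[∑ i, X i; P] = ∑ i, Var[X i; P] := by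
    apply IndepFun.variance_sum (fun i _ => hX i)
    intro a _ b _ hab
    exact hind2.indepFun hab
  have hYX : Y (n := n) F B j = ∑ i, X i := by
    ext T; simp [Y, X]
  have hEY : ∫ T, (∑ i, X i) T ∂P = 0 := by
    simp only [Finset.sum_apply]
    rw [integral_finsetSum _ fun i _ => (hX i).integrable (by norm_num)]
    exact Finset.sum_eq_zero fun i _ => hX0 i
  have h1 : ∫ T, (Y (n := n) F B j T) ^ 2 ∂P = Var[∑ i, X i; P] := by
    rw [variance_of_integral_eq_zero (memLp_finsetSum' _ fun i _ => hX i).aemeasurable hEY, hYX]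
  rw [h1, hvar]
  have h2 : ∀ i, Var[X i; P] ≤ tail F B := by
    intro i
    rw [variance_of_integral_eq_zero (hX i).aemeasurable (hX0 i)]
    have := integral_comp_eval (μ := fun _ : Fin n × Fin m => F) (i := (i, j))
      (f := fun x => (hi B x - ∫ x, hi B x ∂F) ^ 2)
      (((measurable_hi B).sub_const _).pow_const 2).aestronglyMeasurable
    rw [← hP] at this
    simp only [X]
    rw [this]
    have h3 := variance_eq_integral (μ := F) (X := hi B) (measurable_hi B).aemeasurable
    rw [← h3]
    have h4 := variance_le_expectation_sq (μ := F) (X := hi B) (measurable_hi B).aestronglyMeasurable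
    simpa [tail] using h4
  calc ∑ i, Var[X i; P] ≤ ∑ _i : Fin n, tail F B := Finset.sum_le_sum fun i _ => h2 i
    _ = n * tail F B := by simp

/-- Non-asymptotic upper bound for the expected error of the optimal schedule. -/
theorem expOptError_le (hF0 : ∀ᵐ x ∂F, 0 ≤ x) (hF2 : MemLp id 2 F) (hm : 1 ≤ m) (hn : 1 ≤ n)
    {B s b : ℝ} (hB : 0 ≤ B) (hs : 0 < s) (hb : 0 < b) :
    expOptError F m n ≤ √n * (Real.log m + B ^ 2 / 8) +
      (m * (n * tail F B) / (2 * s) + s / 2) +
      m * (2 * m + 1) * (b + (m * n) * (tail F b / b)) := by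
  classical
  set P := (Measure.pi fun _ : Fin n × Fin m => F) with hP
  have hn' : (0 : ℝ) < n := by exact_mod_cast hn
  have hm' : (0 : ℝ) < m := by exact_mod_cast hm
  have hsn : 0 < √(n : ℝ) := Real.sqrt_pos.mpr hn'
  set a : ℝ := Real.log m + B ^ 2 / 8 with ha
  set τ : ℝ := ∫ x, x ∂F with hτ
  have hτ0 : 0 ≤ τ := integral_nonneg_of_ae hF0
  let U1 : (Fin n × Fin m → ℝ) → ℝ := fun T =>
    √n * ((a - 1) + ∑ j : Fin m, Real.exp ((1 / √n) * A F B j T - a))
  let U2 : (Fin n × Fin m → ℝ) → ℝ := fun T => (∑ j : Fin m, (Y F B j T) ^ 2) / (2 * s) + s / 2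
  let W : (Fin n × Fin m → ℝ) → ℝ := fun T => b + ∑ p, hi b (T p)
  -- integrability
  have hmgfint : ∀ j : Fin m, Integrable (fun T => Real.exp ((1 / √n) * A F B j T)) P := fun j =>
    (subG_A hF0 hB j).integrable_exp_mul _
  have hU1int : Integrable U1 P := by
    apply Integrable.const_mul
    apply Integrable.add (integrable_const _)
    apply integrable_finsetSum
    intro j _
    have : (fun T => Real.exp ((1 / √n) * A F B j T - a)) =
        fun T => Real.exp ((1 / √n) * A (n := n) F B j T) * Real.exp (-a) := by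
      ext T; rw [← Real.exp_add]; ring_nf
    rw [this]
    exact (hmgfint j).mul_const _
  have hYint : ∀ j : Fin m, Integrable (fun T => (Y (n := n) F B j T) ^ 2) P := fun j =>
    (memLp_Y hF2 B j).integrable_sq
  have hU2int : Integrable U2 P := by
    apply Integrable.add _ (integrable_const _)
    apply Integrable.div_const
    exact integrable_finsetSum _ fun j _ => hYint j
  have hhi : Integrable (hi b) F := (memLp_hi hF2 b).integrable (by norm_num)
  have hWint : Integrable W P := by
    apply Integrable.add (integrable_const _)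
    exact integrable_finsetSum _ fun p _ =>
      integrable_comp_eval (μ := fun _ : Fin n × Fin m => F) hhi
  -- integrals
  have hU1 : ∫ T, U1 T ∂P ≤ √n * a := by
    simp only [U1]
    rw [integral_const_mul]
    apply mul_le_mul_of_nonneg_left _ hsn.le
    have hint : ∀ j ∈ (Finset.univ : Finset (Fin m)),
        Integrable (fun T => Real.exp ((1 / √n) * A (n := n) F B j T - a)) P := by
      intro j _
      have : (fun T => Real.exp ((1 / √n) * A F B j T - a)) =
          fun T => Real.exp ((1 / √n) * A (n := n) F B j T) * Real.exp (-a) := by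
        ext T; rw [← Real.exp_add]; ring_nf
      rw [this]
      exact (hmgfint j).mul_const _
    rw [integral_add (integrable_const _) (integrable_finsetSum _ hint),
      integral_finsetSum _ hint]
    have hj : ∀ j ∈ (Finset.univ : Finset (Fin m)),
        ∫ T, Real.exp ((1 / √n) * A (n := n) F B j T - a) ∂P ≤ Real.exp (B ^ 2 / 8 - a) := by
      intro j _
      have e1 : (fun T => Real.exp ((1 / √n) * A F B j T - a)) =
          fun T => Real.exp ((1 / √n) * A (n := n) F B j T) * Real.exp (-a) := by
        ext T; rw [← Real.exp_add]; ring_nf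
      rw [e1, integral_mul_const]
      have h1 := (subG_A (n := n) hF0 hB j).mgf_le (1 / √n)
      rw [← hP] at h1
      have h2 : mgf (A (n := n) F B j) P (1 / √n) =
          ∫ T, Real.exp ((1 / √n) * A (n := n) F B j T) ∂P := rfl
      rw [h2] at h1
      have h3 : ((∑ _i : Fin n, (‖B - 0‖₊ / 2) ^ 2 : ℝ≥0) : ℝ) * (1 / √n) ^ 2 / 2 = B ^ 2 / 8 := by
        push_cast
        simp only [sub_zero, Finset.sum_const, Finset.card_univ, Fintype.card_fin, nsmul_eq_mul,
          Real.norm_eq_abs, div_pow, sq_abs, one_pow]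
        rw [Real.sq_sqrt hn'.le]
        field_simp
        norm_num
      rw [h3] at h1
      calc (∫ T, Real.exp ((1 / √n) * A (n := n) F B j T) ∂P) * Real.exp (-a)
          ≤ Real.exp (B ^ 2 / 8) * Real.exp (-a) :=
            mul_le_mul_of_nonneg_right h1 (Real.exp_pos _).le
        _ = Real.exp (B ^ 2 / 8 - a) := by rw [← Real.exp_add]; ring_nf
    have hsum := Finset.sum_le_sum hj
    have hexp : (∑ _j : Fin m, Real.exp (B ^ 2 / 8 - a)) = 1 := by
      rw [Finset.sum_const, Finset.card_univ, Fintype.card_fin, nsmul_eq_mul, ha]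
      have : B ^ 2 / 8 - (Real.log m + B ^ 2 / 8) = - Real.log m := by ring
      rw [this, Real.exp_neg, Real.exp_log hm']
      field_simp
    rw [hexp] at hsum
    have : ∫ _T : Fin n × Fin m → ℝ, (a - 1) ∂P = a - 1 := by simp
    rw [this]
    linarith
  have hU2 : ∫ T, U2 T ∂P ≤ m * (n * tail F B) / (2 * s) + s / 2 := by
    simp only [U2]
    rw [integral_add (Integrable.div_const (integrable_finsetSum _ fun j _ => hYint j) _)
      (integrable_const _), integral_div, integral_finsetSum _ fun j _ => hYint j]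
    have h1 : ∑ j : Fin m, ∫ T, (Y (n := n) F B j T) ^ 2 ∂P ≤ ∑ _j : Fin m, n * tail F B :=
      Finset.sum_le_sum fun j _ => integral_Y_sq hF2 B j
    have h2 : (∑ _j : Fin m, n * tail F B) = m * (n * tail F B) := by simp
    rw [h2] at h1
    have h3 : ∫ _T : Fin n × Fin m → ℝ, s / 2 ∂P = s / 2 := by simp
    rw [h3]
    have h4 := div_le_div_of_nonneg_right h1 (by positivity : (0 : ℝ) ≤ 2 * s)
    linarith
  have hW : ∫ T, W T ∂P ≤ b + (m * n) * (tail F b / b) := by
    simp only [W]
    have hint : ∀ p ∈ (Finset.univ : Finset (Fin n × Fin m)),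
        Integrable (fun T : Fin n × Fin m → ℝ => hi b (T p)) P := fun p _ =>
      integrable_comp_eval (μ := fun _ : Fin n × Fin m => F) hhi
    rw [integral_add (integrable_const _) (integrable_finsetSum _ hint),
      integral_finsetSum _ hint]
    have h1 : ∀ p : Fin n × Fin m, ∫ T : Fin n × Fin m → ℝ, hi b (T p) ∂P ≤ tail F b / b := by
      intro p
      have := integral_comp_eval (μ := fun _ : Fin n × Fin m => F) (i := p) (f := hi b)
        (measurable_hi b).aestronglyMeasurable
      rw [← hP] at this
      rw [this]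
      exact integral_hi_le hF2 hb
    have h2 : ∑ p : Fin n × Fin m, ∫ T : Fin n × Fin m → ℝ, hi b (T p) ∂P ≤
        ∑ _p : Fin n × Fin m, tail F b / b := Finset.sum_le_sum fun p _ => h1 p
    have h3 : (∑ _p : Fin n × Fin m, tail F b / b) = (m * n) * (tail F b / b) := by
      rw [Finset.sum_const, Finset.card_univ, Fintype.card_prod, Fintype.card_fin,
        Fintype.card_fin, nsmul_eq_mul]
      push_cast
      ring
    rw [h3] at h2
    have h4 : ∫ _T : Fin n × Fin m → ℝ, b ∂P = b := by simp
    rw [h4]
    linarith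
  -- pointwise bound
  have hpos : ∀ᵐ T ∂P, ∀ p, 0 ≤ T p := by
    rw [ae_all_iff]
    intro p
    exact (measurePreserving_eval (fun _ : Fin n × Fin m => F) p).quasiMeasurePreserving.ae hF0
  have hpt : ∀ᵐ T ∂P, optMakespan T - ((n : ℝ) + m - 1) * τ ≤
      U1 T + U2 T + m * (2 * m + 1) * W T := by
    filter_upwards [hpos] with T hT
    have hhi0 : ∀ p, 0 ≤ hi b (T p) := by
      intro p; unfold hi; split_ifs
      · exact hT p
      · exact le_rfl
    have hTW : ∀ p, T p ≤ W T := by
      intro p
      have h1 : T p ≤ b + hi b (T p) := by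
        unfold hi
        split_ifs with h
        · linarith
        · linarith
      have h2 : hi b (T p) ≤ ∑ p, hi b (T p) :=
        Finset.single_le_sum (f := fun p => hi b (T p)) (fun p _ => hhi0 p) (Finset.mem_univ p)
      simp only [W]
      linarith
    have hW0 : 0 ≤ W T := by
      have := Finset.sum_nonneg (s := Finset.univ) fun p _ => hhi0 p
      simp only [W]
      linarith
    have hload : ∀ j, ∑ i, T (i, j) ≤ n * τ + (U1 T + U2 T) := by
      intro j
      rw [sum_eq hF2 B j T]
      have h1 : A F B j T ≤ U1 T := by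
        have e1 : (1 / √n) * A F B j T - a + 1 ≤ Real.exp ((1 / √n) * A F B j T - a) :=
          Real.add_one_le_exp _
        have e2 : Real.exp ((1 / √n) * A F B j T - a) ≤
            ∑ j : Fin m, Real.exp ((1 / √n) * A F B j T - a) :=
          Finset.single_le_sum (f := fun j => Real.exp ((1 / √n) * A F B j T - a))
            (fun j _ => (Real.exp_pos _).le) (Finset.mem_univ j)
        have e3 : (1 / √n) * A F B j T ≤
            (a - 1) + ∑ j : Fin m, Real.exp ((1 / √n) * A F B j T - a) := by linarith
        have e4 := mul_le_mul_of_nonneg_left e3 hsn.le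
        have e5 : √(n : ℝ) * ((1 / √n) * A F B j T) = A F B j T := by field_simp
        rw [e5] at e4
        exact e4
      have h2 : Y F B j T ≤ U2 T := by
        have e1 : (Y F B j T) ^ 2 ≤ ∑ j : Fin m, (Y F B j T) ^ 2 :=
          Finset.single_le_sum (f := fun j => (Y F B j T) ^ 2)
            (fun j _ => sq_nonneg _) (Finset.mem_univ j)
        have e2 : Y F B j T ≤ (Y F B j T) ^ 2 / (2 * s) + s / 2 := by
          have : (Y F B j T) ^ 2 / (2 * s) + s / 2 - Y F B j T = (Y F B j T - s) ^ 2 / (2 * s) := by
            field_simp; ring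
          have h3 : 0 ≤ (Y F B j T - s) ^ 2 / (2 * s) := by positivity
          linarith
        have e3 := div_le_div_of_nonneg_right e1 (by positivity : (0 : ℝ) ≤ 2 * s)
        simp only [U2]
        linarith
      linarith
    have hM0 : 0 ≤ n * τ + (U1 T + U2 T) := by
      refine le_trans ?_ (hload ⟨0, by omega⟩)
      exact Finset.sum_nonneg fun i _ => hT _
    have h1 := optMakespan_le T hT hTW hW0 hload hM0
    have h2 : 0 ≤ ((m : ℝ) - 1) * τ := by
      apply mul_nonneg _ hτ0
      have : (1 : ℝ) ≤ m := by exact_mod_cast hm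
      linarith
    nlinarith
  calc expOptError F m n
      ≤ ∫ T, (U1 T + U2 T + m * (2 * m + 1) * W T) ∂P := by
        unfold expOptError
        exact integral_mono_ae (integrable_optError (integrable_id_of_memLp hF2))
          ((hU1int.add hU2int).add (hWint.const_mul _)) hpt
    _ = ∫ T, U1 T ∂P + ∫ T, U2 T ∂P + m * (2 * m + 1) * ∫ T, W T ∂P := by
        have e1 := integral_add (f := fun T => U1 T + U2 T) (hU1int.add hU2int)
          (hWint.const_mul ((m : ℝ) * (2 * m + 1)))
        have e2 := integral_add hU1int hU2int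
        rw [integral_const_mul] at e1
        rw [e1, e2]
    _ ≤ _ := by
        have : (m : ℝ) * (2 * m + 1) * ∫ T, W T ∂P ≤
            m * (2 * m + 1) * (b + (m * n) * (tail F b / b)) :=
          mul_le_mul_of_nonneg_left hW (by positivity)
        linarith

end product

end Pool.Agent.H98.FlowShop
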