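import Pool.Agent.H98.RSConf

/-! Adding one bar to a configuration: invariant sets, merging and splitting of cycles. -/

set_option autoImplicit false

open Set

namespace Pool.Agent.H98.RS

variable {V : Type*}

/-- the configuration with one more bar -/
def addBar (B : V → V → ℝ → Prop) (a b : V) (t : ℝ) : V → V → ℝ → Prop :=
  fun x y s => B x y s ∨ (s = t ∧ ((x = a ∧ y = b) ∨ (x = b ∧ y = a)))

variable {B : V → V → ℝ → Prop}

lemma Good.addBar (hG : Good B) {a b : V} {t : ℝ} (ht : 0 < t) (ha : ∀ u, ¬ B a u t)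
    (hb : ∀ u, ¬ B b u t) : Good (addBar B a b t) where
  symm := by
    rintro u v s (h | ⟨h1, ⟨h2, h3⟩ | ⟨h2, h3⟩⟩)
    · exact Or.inl (hG.symm h)
    · exact Or.inr ⟨h1, Or.inr ⟨h3, h2⟩⟩
    · exact Or.inr ⟨h1, Or.inl ⟨h3, h2⟩⟩
  pos := by
    rintro u v s (h | ⟨h1, _⟩)
    · exact hG.pos h
    · rw [h1]; exact ht
  uniq := by
    rintro v u u' s (h | ⟨h1, ⟨h2, h3⟩ | ⟨h2, h3⟩⟩) (h' | ⟨h1', ⟨h2', h3'⟩ | ⟨h2', h3'⟩⟩)
    · exact hG.uniq h h'
    · subst h1' h2'
      exact absurd h (ha _)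
    · subst h1' h2'
      exact absurd h (hb _)
    · subst h1 h2
      exact absurd h' (ha _)
    · rw [h3, h3']
    · rw [h3, h3', ← h2, ← h2']
    · subst h1 h2
      exact absurd h' (hb _)
    · rw [h3, h3', ← h2, ← h2']
    · rw [h3, h3']
  fin := by
    intro v
    refine ((hG.fin v).insert t).subset ?_
    rintro s ⟨u, h | ⟨h, _⟩⟩
    · exact Or.inr ⟨u, h⟩
    · exact Or.inl h

/-- Insertion and deletion of a bar both of whose sides have the same membership. -/
theorem inv_addBar_iff (hG : Good B) {a b : V} {t : ℝ} (ht : 0 < t) (ha : ∀ u, ¬ B a u t)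
    (hb : ∀ u, ¬ B b u t) {I : Set (V × ℝ)} (hI : (a, t) ∈ I ↔ (b, t) ∈ I) :
    Inv (addBar B a b t) I ↔ Inv B I := by
  have hG' := hG.addBar ht ha hb
  -- one side: the states at `a`
  have main : ∀ p : V × ℝ,
      (step (RS.addBar B a b t) p = step B p) ∨
      (∃ x y : V, ((x = a ∧ y = b) ∨ (x = b ∧ y = a)) ∧ p.1 = x ∧
        step (RS.addBar B a b t) p = (y, t) ∧ step B p = step B (x, t) ∧
        step (RS.addBar B a b t) (x, t) = step B (x, t)) := by
    intro p
    have key : ∀ x y : V, ((x = a ∧ y = b) ∨ (x = b ∧ y = a)) → p.1 = x → p.2 < t →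
        (∀ u s, p.2 < s → s < t → ¬ B p.1 u s) →
        (step (RS.addBar B a b t) p = (y, t) ∧ step B p = step B (x, t)) := by
      intro x y hxy hpx hlt hno
      constructor
      · refine step_of_next hG' ⟨hlt, Or.inr ⟨rfl, ?_⟩, ?_⟩
        · rw [hpx]; exact hxy
        · rintro u s hs (h | ⟨h, _⟩)
          · by_contra hc
            exact hno u s hs (not_le.mp hc) h
          · exact h.ge
      · have hp : p = (x, p.2) := Prod.ext hpx rfl
        rw [hp]
        refine step_congr_time hG hlt.le (fun u s hs hs' hB => ?_)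
        rcases lt_or_eq_of_le hs' with h | h
        · exact hno u s hs h (by rw [hpx]; exact hB)
        · rw [h] at hB
          rcases hxy with ⟨h1, _⟩ | ⟨h1, _⟩
          · exact ha u (h1 ▸ hB)
          · exact hb u (h1 ▸ hB)
    have same : ∀ x : V, step (RS.addBar B a b t) (x, t) = step B (x, t) := by
      intro x
      rcases step_cases hG (x, t) with h | ⟨h, h'⟩
      · refine step_of_next hG' ⟨h.1, Or.inl h.2.1, ?_⟩
        rintro u s hs (hB | ⟨h1, _⟩)
        · exact h.2.2 u s hs hB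
        · exact absurd h1 (ne_of_gt hs)
      · rw [h']
        refine step_of_none ?_
        rintro u s hs (hB | ⟨h1, _⟩)
        · exact h u s hs hB
        · exact absurd h1 (ne_of_gt hs)
    by_cases hcase : (p.1 = a ∨ p.1 = b) ∧ p.2 < t ∧ (∀ u s, p.2 < s → s < t → ¬ B p.1 u s)
    · right
      obtain ⟨h1, h2, h3⟩ := hcase
      rcases h1 with h1 | h1
      · obtain ⟨h4, h5⟩ := key a b (Or.inl ⟨rfl, rfl⟩) h1 h2 h3
        exact ⟨a, b, Or.inl ⟨rfl, rfl⟩, h1, h4, h5, same a⟩
      · obtain ⟨h4, h5⟩ := key b a (Or.inr ⟨rfl, rfl⟩) h1 h2 h3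
        exact ⟨b, a, Or.inr ⟨rfl, rfl⟩, h1, h4, h5, same b⟩
    · left
      have hstep : ∀ s, p.2 < s → (s = t ∧ (p.1 = a ∨ p.1 = b)) →
          ∃ u s', p.2 < s' ∧ s' < t ∧ B p.1 u s' := by
        rintro s hs ⟨rfl, h2⟩
        by_contra hcon
        push Not at hcon
        exact hcase ⟨h2, hs, fun u s' h1 h3 h4 => hcon u s' h1 h3 h4⟩
      rcases step_cases hG p with h | ⟨h, h'⟩
      · refine step_of_next hG' ⟨h.1, Or.inl h.2.1, ?_⟩
        rintro u s hs (hB | ⟨h1, h2⟩)
        · exact h.2.2 u s hs hB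
        · obtain ⟨u', s', h3, h4, h5⟩ := hstep s hs ⟨h1, by rcases h2 with h | h <;> simp [h.1]⟩
          have := h.2.2 u' s' h3 h5
          linarith
      · rw [h']
        refine step_of_none ?_
        rintro u s hs (hB | ⟨h1, h2⟩)
        · exact h u s hs hB
        · obtain ⟨u', s', h3, h4, h5⟩ := hstep s hs ⟨h1, by rcases h2 with h | h <;> simp [h.1]⟩
          exact h u' s' h3 h5
  have hI' : ∀ x y : V, ((x = a ∧ y = b) ∨ (x = b ∧ y = a)) → ((x, t) ∈ I ↔ (y, t) ∈ I) := by
    rintro x y (⟨rfl, rfl⟩ | ⟨rfl, rfl⟩)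
    · exact hI
    · exact hI.symm
  constructor
  · intro h p
    rcases main p with h1 | ⟨x, y, hxy, hpx, h1, h2, h3⟩
    · rw [h p, h1]
    · rw [h p, h1, ← hI' x y hxy, h (x, t), h3, h2]
  · intro h p
    rcases main p with h1 | ⟨x, y, hxy, hpx, h1, h2, h3⟩
    · rw [h p, h1]
    · rw [h p, h1, ← hI' x y hxy, h (x, t), h2]

/-! ### Orbits -/

/-- For a configuration on a finite vertex set there are finitely many states. -/
lemma finite_isSt [Finite V] (hG : Good B) : {p | IsSt B p}.Finite := by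
  have : {p | IsSt B p} ⊆ ⋃ v : V, (fun t => (v, t)) '' (insert 0 {t | ∃ u, B v u t}) := by
    rintro ⟨v, t⟩ h
    rw [mem_iUnion]
    refine ⟨v, t, ?_, rfl⟩
    rcases h with h | h
    · left; exact h
    · right; exact h
  exact (Set.finite_iUnion (fun v => ((hG.fin v).insert 0).image _)).subset this

/-- the states form a periodic system: each state returns -/
lemma periodic_of_finite (hG : Good B) {p : V × ℝ} (hp : IsSt B p)
    (hfin : {q | ∃ n : ℕ, (step B)^[n] p = q}.Finite) :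
    ∃ n : ℕ, 0 < n ∧ (step B)^[n] p = p := by
  have hst : ∀ n : ℕ, IsSt B ((step B)^[n] p) := by
    intro n
    cases n with
    | zero => exact hp
    | succ n => rw [Function.iterate_succ_apply']; exact isSt_step hG _
  have hnotinj : ¬ Function.Injective (fun n : ℕ => (step B)^[n] p) := by
    intro hinj
    have := Set.infinite_range_of_injective hinj
    exact this (hfin.subset (by rintro _ ⟨n, rfl⟩; exact ⟨n, rfl⟩))
  have key : ∀ i j : ℕ, (step B)^[i] p = (step B)^[i + j] p → (step B)^[j] p = p := by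
    intro i
    induction i with
    | zero => intro j h; simpa using h.symm
    | succ i ih =>
      intro j h
      apply ih
      apply step_inj hG (hst _) (hst _)
      have h1 : i + 1 + j = (i + j) + 1 := by ring
      rw [h1, Function.iterate_succ_apply', Function.iterate_succ_apply'] at h
      exact h
  obtain ⟨i, j, hij, hne⟩ : ∃ i j : ℕ, (step B)^[i] p = (step B)^[j] p ∧ i ≠ j := by
    by_contra hcon
    push Not at hcon
    exact hnotinj (fun i j h => by
      by_contra hne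
      exact hne (hcon i j h))
  rcases lt_or_gt_of_ne hne with h | h
  · refine ⟨j - i, by omega, key i (j - i) ?_⟩
    rw [hij]; congr 1; omega
  · refine ⟨i - j, by omega, key j (i - j) ?_⟩
    rw [← hij]; congr 1; omega

/-- the set of all states whose image lies on the orbit of the periodic state `p` -/
def orbitSet (B : V → V → ℝ → Prop) (p : V × ℝ) : Set (V × ℝ) :=
  {q | ∃ n : ℕ, (step B)^[n] p = step B q}

lemma mem_orbitSet_self (p : V × ℝ) : p ∈ orbitSet B p := ⟨1, rfl⟩

lemma inv_orbitSet (hG : Good B) {p : V × ℝ} (hp : IsSt B p) {m : ℕ} (hm : 0 < m)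
    (hper : (step B)^[m] p = p) : Inv B (orbitSet B p) := by
  have hst : ∀ n : ℕ, IsSt B ((step B)^[n] p) := by
    intro n
    cases n with
    | zero => exact hp
    | succ n => rw [Function.iterate_succ_apply']; exact isSt_step hG _
  intro q
  constructor
  · rintro ⟨n, hn⟩
    exact ⟨n + 1, by rw [Function.iterate_succ_apply', hn]⟩
  · rintro ⟨n, hn⟩
    -- replace `n` by `n + m ≥ 1`
    have h1 : (step B)^[n + m] p = (step B)^[n] p := by
      rw [Function.iterate_add_apply, hper]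
    obtain ⟨k, hk⟩ : ∃ k, n + m = k + 1 := ⟨n + m - 1, by omega⟩
    rw [← h1, hk, Function.iterate_succ_apply'] at hn
    exact ⟨k, step_inj hG (hst k) (isSt_step hG _) hn⟩

lemma finite_isSt_orbitSet (hG : Good B) {p : V × ℝ}
    (hfin : {q | ∃ n : ℕ, (step B)^[n] p = q}.Finite) :
    {q | IsSt B q ∧ q ∈ orbitSet B p}.Finite := by
  refine Set.Finite.of_finite_image (f := step B) (hfin.subset ?_) ?_
  · rintro _ ⟨q, ⟨_, n, hn⟩, rfl⟩
    exact ⟨n, hn⟩
  · intro q hq q' hq' h
    exact step_inj hG hq.1 hq'.1 h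

lemma iterate_mod {p : V × ℝ} {m : ℕ} (hper : (step B)^[m] p = p) (n : ℕ) :
    (step B)^[n] p = (step B)^[n % m] p := by
  have h : ∀ k : ℕ, (step B)^[m * k] p = p := by
    intro k
    induction k with
    | zero => simp
    | succ k ih => rw [Nat.mul_succ, Function.iterate_add_apply, hper, ih]
  conv_lhs => rw [← Nat.mod_add_div n m]
  rw [Function.iterate_add_apply, h]

lemma not_mem_orbitSet (hG : Good B) {p q : V × ℝ} (hp : IsSt B p) (hq : IsSt B q) {m : ℕ}
    (hm : 0 < m) (hper : (step B)^[m] p = p) (hne : ∀ i < m, (step B)^[i] p ≠ q) :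
    q ∉ orbitSet B p := by
  have hst : ∀ n : ℕ, IsSt B ((step B)^[n] p) := by
    intro n
    cases n with
    | zero => exact hp
    | succ n => rw [Function.iterate_succ_apply']; exact isSt_step hG _
  rintro ⟨n, hn⟩
  have h1 : (step B)^[n + m] p = (step B)^[n] p := by
    rw [Function.iterate_add_apply, hper]
  obtain ⟨k, hk⟩ : ∃ k, n + m = k + 1 := ⟨n + m - 1, by omega⟩
  rw [← h1, hk, Function.iterate_succ_apply'] at hn
  have h2 := step_inj hG (hst k) hq hn
  rw [iterate_mod hper k] at h2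
  exact hne _ (Nat.mod_lt _ hm) h2

/-- The step of the configuration with the bar `(a, b, t)` is the step of the configuration with
two bars without effect at `(a, t)` and `(b, t)`, followed by an exchange of these two states. -/
lemma step_addBar_swap [DecidableEq (V × ℝ)] (hG : Good B) {a b : V} (hab : a ≠ b) {t : ℝ}
    (ht : 0 < t) (ha : ∀ u, ¬ B a u t) (hb : ∀ u, ¬ B b u t) (p : V × ℝ) :
    step (RS.addBar B a b t) p =
      Equiv.swap (a, t) (b, t) (step (RS.addBar (RS.addBar B a a t) b b t) p) := by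
  have hG' := hG.addBar ht ha hb
  have hG1 : Good (RS.addBar B a a t) := hG.addBar ht ha ha
  have hb1 : ∀ u, ¬ RS.addBar B a a t b u t := by
    rintro u (h | ⟨_, ⟨h, _⟩ | ⟨h, _⟩⟩)
    · exact hb u h
    · exact hab h.symm
    · exact hab h.symm
  have hG2 : Good (RS.addBar (RS.addBar B a a t) b b t) := hG1.addBar ht hb1 hb1
  rcases step_cases hG2 p with h | ⟨h, h'⟩
  · set q := step (RS.addBar (RS.addBar B a a t) b b t) p with hq
    obtain ⟨h1, h2, h3⟩ := h
    have hmin : ∀ u s, p.2 < s → RS.addBar B a b t p.1 u s → q.2 ≤ s := by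
      rintro u s hs (hB | ⟨h5, ⟨h6, h7⟩ | ⟨h6, h7⟩⟩)
      · exact h3 u s hs (Or.inl (Or.inl hB))
      · exact h3 a s hs (Or.inl (Or.inr ⟨h5, Or.inl ⟨h6, rfl⟩⟩))
      · exact h3 b s hs (Or.inr ⟨h5, Or.inl ⟨h6, rfl⟩⟩)
    rcases h2 with (h2 | ⟨h4, h5⟩) | ⟨h4, h5⟩
    · have hqa : q ≠ (a, t) := by
        intro h
        rw [h] at h2
        exact ha _ (hG.symm h2)
      have hqb : q ≠ (b, t) := by
        intro h
        rw [h] at h2
        exact hb _ (hG.symm h2)
      rw [Equiv.swap_apply_of_ne_of_ne hqa hqb]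
      exact step_of_next hG' ⟨h1, Or.inl h2, hmin⟩
    · have hpa : p.1 = a := by rcases h5 with h | h <;> exact h.1
      have hqa : q = (a, t) := by
        refine Prod.ext ?_ h4
        rcases h5 with h | h <;> exact h.2
      rw [hqa, Equiv.swap_apply_left]
      rw [hqa] at h1 hmin
      exact step_of_next hG' ⟨h1, Or.inr ⟨rfl, Or.inl ⟨hpa, rfl⟩⟩, hmin⟩
    · have hpb : p.1 = b := by rcases h5 with h | h <;> exact h.1
      have hqb : q = (b, t) := by
        refine Prod.ext ?_ h4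
        rcases h5 with h | h <;> exact h.2
      rw [hqb, Equiv.swap_apply_right]
      rw [hqb] at h1 hmin
      exact step_of_next hG' ⟨h1, Or.inr ⟨rfl, Or.inr ⟨hpb, rfl⟩⟩, hmin⟩
  · rw [h', Equiv.swap_apply_of_ne_of_ne]
    · refine step_of_none ?_
      rintro u s hs (hB | ⟨h5, ⟨h6, h7⟩ | ⟨h6, h7⟩⟩)
      · exact h u s hs (Or.inl (Or.inl hB))
      · exact h a s hs (Or.inl (Or.inr ⟨h5, Or.inl ⟨h6, rfl⟩⟩))
      · exact h b s hs (Or.inr ⟨h5, Or.inl ⟨h6, rfl⟩⟩)
    · intro h
      have : (0 : ℝ) = t := (Prod.ext_iff.mp h).2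
      linarith
    · intro h
      have : (0 : ℝ) = t := (Prod.ext_iff.mp h).2
      linarith

/-- Adding a bar either splits one cycle into two or merges two cycles. -/
theorem split_or_merge [Finite V] (hG : Good B) {a b : V} (hab : a ≠ b) {t : ℝ}
    (ht : 0 < t) (ha : ∀ u, ¬ B a u t) (hb : ∀ u, ¬ B b u t) :
    ((∀ I, Inv B I → ((a, t) ∈ I ↔ (b, t) ∈ I)) ∧
      ∃ J, Inv (addBar B a b t) J ∧ (a, t) ∈ J ∧ (b, t) ∉ J) ∨
    ((∃ I, Inv B I ∧ (a, t) ∈ I ∧ (b, t) ∉ I) ∧
      ∀ J, Inv (addBar B a b t) J → ((a, t) ∈ J ↔ (b, t) ∈ J)) := by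
  classical
  have hG' := hG.addBar ht ha hb
  have hG1 : Good (RS.addBar B a a t) := hG.addBar ht ha ha
  have hb1 : ∀ u, ¬ RS.addBar B a a t b u t := by
    rintro u (h | ⟨_, ⟨h, _⟩ | ⟨h, _⟩⟩)
    · exact hb u h
    · exact hab h.symm
    · exact hab h.symm
  have hG2 : Good (RS.addBar (RS.addBar B a a t) b b t) := hG1.addBar ht hb1 hb1
  have hinv : ∀ I, Inv (RS.addBar (RS.addBar B a a t) b b t) I ↔ Inv B I := by
    intro I
    rw [inv_addBar_iff hG1 ht hb1 hb1 Iff.rfl, inv_addBar_iff hG ht ha ha Iff.rfl]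
  set C := RS.addBar (RS.addBar B a a t) b b t with hC
  set B' := RS.addBar B a b t with hB'
  have hswap : ∀ p, step B' p = Equiv.swap (a, t) (b, t) (step C p) :=
    fun p => step_addBar_swap hG hab ht ha hb p
  have hne : (a, t) ≠ (b, t) := fun h => hab (Prod.ext_iff.mp h).1
  have haC : IsSt C (a, t) := Or.inr ⟨a, Or.inl (Or.inr ⟨rfl, Or.inl ⟨rfl, rfl⟩⟩)⟩
  have hbC : IsSt C (b, t) := Or.inr ⟨b, Or.inr ⟨rfl, Or.inl ⟨rfl, rfl⟩⟩⟩
  have haB : IsSt B' (a, t) := Or.inr ⟨b, Or.inr ⟨rfl, Or.inl ⟨rfl, rfl⟩⟩⟩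
  have hbB : IsSt B' (b, t) := Or.inr ⟨a, Or.inr ⟨rfl, Or.inr ⟨rfl, rfl⟩⟩⟩
  have hstC : ∀ n : ℕ, IsSt C ((step C)^[n] (a, t)) := by
    intro n
    cases n with
    | zero => exact haC
    | succ n => rw [Function.iterate_succ_apply']; exact isSt_step hG2 _
  have hfin : {q | ∃ n : ℕ, (step C)^[n] (a, t) = q}.Finite :=
    (finite_isSt hG2).subset (by rintro _ ⟨n, rfl⟩; exact hstC n)
  obtain ⟨n0, hn0, hn0'⟩ := periodic_of_finite hG2 haC hfin
  have hex : ∃ n : ℕ, 0 < n ∧ ((step C)^[n] (a, t) = (a, t) ∨ (step C)^[n] (a, t) = (b, t)) :=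
    ⟨n0, hn0, Or.inl hn0'⟩
  set m := Nat.find hex with hm
  obtain ⟨hm0, hm1⟩ := Nat.find_spec hex
  have hmin : ∀ i, 0 < i → i < m → (step C)^[i] (a, t) ≠ (a, t) ∧ (step C)^[i] (a, t) ≠ (b, t) := by
    intro i hi hlt
    have := Nat.find_min hex hlt
    push Not at this
    exact this hi
  have hagree : ∀ i, i < m → (step B')^[i] (a, t) = (step C)^[i] (a, t) := by
    intro i
    induction i with
    | zero => intro _; rfl
    | succ i ih =>
      intro hi
      rw [Function.iterate_succ_apply', Function.iterate_succ_apply', ih (by omega), hswap]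
      have h := hmin (i + 1) (by omega) hi
      rw [Function.iterate_succ_apply'] at h
      exact Equiv.swap_apply_of_ne_of_ne h.1 h.2
  have hlast : (step B')^[m] (a, t) = Equiv.swap (a, t) (b, t) ((step C)^[m] (a, t)) := by
    obtain ⟨k, hk⟩ : ∃ k, m = k + 1 := ⟨m - 1, by omega⟩
    rw [hk, Function.iterate_succ_apply', Function.iterate_succ_apply', hagree k (by omega), hswap]
  have horb : ∀ (D : V → V → ℝ → Prop) (I : Set (V × ℝ)), Inv D I → ∀ (n : ℕ) (p : V × ℝ),
      (p ∈ I ↔ (step D)^[n] p ∈ I) := by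
    intro D I hI n
    induction n with
    | zero => intro p; rfl
    | succ n ih => intro p; rw [Function.iterate_succ_apply, hI p]; exact ih _
  have hneb : ∀ i < m, (step C)^[i] (a, t) ≠ (b, t) := by
    intro i hi
    rcases Nat.eq_zero_or_pos i with h | h
    · rw [h]; exact hne
    · exact (hmin i h hi).2
  rcases hm1 with hm1 | hm1
  · right
    rw [← hm] at hm1
    rw [hm1, Equiv.swap_apply_left] at hlast
    refine ⟨⟨orbitSet C (a, t), (hinv _).mp (inv_orbitSet hG2 haC hm0 hm1), mem_orbitSet_self _,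
      not_mem_orbitSet hG2 haC hbC hm0 hm1 hneb⟩, fun J hJ => ?_⟩
    rw [horb B' J hJ m (a, t), hlast]
  · left
    rw [← hm] at hm1
    rw [hm1, Equiv.swap_apply_right] at hlast
    refine ⟨fun I hI => ?_, orbitSet B' (a, t), inv_orbitSet hG' haB hm0 hlast,
      mem_orbitSet_self _, not_mem_orbitSet hG' haB hbB hm0 hlast ?_⟩
    · rw [horb C I ((hinv I).mpr hI) m (a, t), hm1]
    · intro i hi
      rw [hagree i hi]
      exact hneb i hi

end Pool.Agent.H98.RS
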