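import Pool.Agent.H98.RSMeas

/-! Joint law of some coordinates and of the others. -/

set_option autoImplicit false

open Set MeasureTheory ProbabilityTheory Filter
open scoped ENNReal NNReal Topology

namespace Pool.Agent.H98.RS

section block

variable {ι X : Type*} [MeasurableSpace X] (ν : Measure X) [IsProbabilityMeasure ν]

open Classical in
/-- replace the coordinates outside `S` by fixed ones -/
noncomputable def proj (S : Set ι) (ω₀ : ι → X) (ω : ι → X) : ι → X :=
  fun i => if i ∈ S then ω i else ω₀ i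

lemma measurable_proj (S : Set ι) (ω₀ : ι → X) : Measurable (proj S ω₀) := by
  refine measurable_pi_lambda _ (fun i => ?_)
  by_cases h : i ∈ S
  · simp only [proj, h, if_true]
    exact measurable_pi_apply i
  · simp only [proj, h, if_false]
    exact measurable_const

omit [MeasurableSpace X] in
lemma proj_apply {S : Set ι} {ω₀ ω : ι → X} {i : ι} (h : i ∈ S) : proj S ω₀ ω i = ω i := by
  simp only [proj, h, if_true]

lemma depOn_proj {S : Set ι} (ω₀ : ι → X) {A : Set (ι → X)} (hA : MeasurableSet A) :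
    DepOn S (proj S ω₀ ⁻¹' A) := by
  refine ⟨measurable_proj S ω₀ hA, fun ω ω' hh => ?_⟩
  have : proj S ω₀ ω = proj S ω₀ ω' := by
    funext i
    by_cases h : i ∈ S
    · rw [proj_apply h, proj_apply h, hh i h]
    · simp only [proj, h, if_false]
  change proj S ω₀ ω ∈ A ↔ proj S ω₀ ω' ∈ A
  rw [this]

/-- Law of the pair of a coordinate outside `S` and the others. -/
theorem block_one {S : Set ι} {e : ι} (he : e ∉ S) {D : Set ((ι → X) × X)}
    (hD : MeasurableSet D)
    (hdep : ∀ ω ω' : ι → X, (∀ i ∈ S, ω i = ω' i) → ∀ x, ((ω, x) ∈ D ↔ (ω', x) ∈ D)) :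
    prodLaw ν ι {ω | (ω, ω e) ∈ D} = ((prodLaw ν ι).prod ν) D := by
  obtain ⟨x₀⟩ : Nonempty X := ν.nonempty_of_neZero
  set ω₀ : ι → X := fun _ => x₀ with hω₀
  set P := prodLaw ν ι with hP
  have hF := measurable_proj S ω₀
  have hprob : IsProbabilityMeasure (P.map (proj S ω₀)) :=
    Measure.isProbabilityMeasure_map hF.aemeasurable
  have hlaw : P.map (fun ω => (proj S ω₀ ω, ω e)) = (P.map (proj S ω₀)).prod ν := by
    symm
    apply Measure.prod_eq
    intro A C hA hC
    rw [Measure.map_apply (hF.prodMk (measurable_pi_apply e)) (hA.prod hC),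
      Measure.map_apply hF hA]
    have h1 : (fun ω => (proj S ω₀ ω, ω e)) ⁻¹' (A ×ˢ C) =
        (proj S ω₀ ⁻¹' A) ∩ {ω | ω e ∈ C} := by
      ext ω; rfl
    rw [h1, indep_disjoint ν (depOn_proj ω₀ hA) (depOn_coord e hC)
      (Set.disjoint_singleton_right.mpr he), prodLaw_coord ν e hC]
  have hDproj : ∀ ω x, (proj S ω₀ ω, x) ∈ D ↔ (ω, x) ∈ D := fun ω x =>
    hdep _ _ (fun i hi => proj_apply hi) x
  calc P {ω | (ω, ω e) ∈ D} = P ((fun ω => (proj S ω₀ ω, ω e)) ⁻¹' D) := by
        congr 1
        ext ω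
        exact (hDproj ω (ω e)).symm
    _ = ((P.map (proj S ω₀)).prod ν) D := by
        rw [← Measure.map_apply (hF.prodMk (measurable_pi_apply e)) hD, hlaw]
    _ = ∫⁻ ω', ν (Prod.mk ω' ⁻¹' D) ∂(P.map (proj S ω₀)) := Measure.prod_apply hD
    _ = ∫⁻ ω, ν (Prod.mk (proj S ω₀ ω) ⁻¹' D) ∂P :=
        lintegral_map (measurable_measure_prodMk_left hD) hF
    _ = ∫⁻ ω, ν (Prod.mk ω ⁻¹' D) ∂P := by
        congr 1
        funext ω
        congr 1
        ext x
        exact hDproj ω x
    _ = (P.prod ν) D := (Measure.prod_apply hD).symm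

end block

section marks

variable {E : Type*} {T : ℝ}

/-- two coordinates with one bar each -/
theorem block_two {S : Set E} {e₁ e₂ : E} (h₁ : e₁ ∉ S) (h₂ : e₂ ∉ S) (h₁₂ : e₁ ≠ e₂)
    {D : Set ((E → Marks) × (ℝ × ℝ))} (hD : MeasurableSet D)
    (hdep : ∀ ω ω' : E → Marks, (∀ i ∈ S, ω i = ω' i) → ∀ x, ((ω, x) ∈ D ↔ (ω', x) ∈ D)) :
    prodLaw (ptsLaw T) E {ω | (ω e₁).1 = 1 ∧ (ω e₂).1 = 1 ∧
      (ω, ((ω e₁).2 0, (ω e₂).2 0)) ∈ D} =
    poissonMeasure T.toNNReal {1} * poissonMeasure T.toNNReal {1} *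
      ((prodLaw (ptsLaw T) E).prod ((unif T).prod (unif T))) D := by
  set P := prodLaw (ptsLaw T) E with hP
  set ν := ptsLaw T with hν
  have mcount : Measurable (fun m : Marks => m.1) := measurable_fst
  have mtime : Measurable (fun m : Marks => m.2 0) := (measurable_pi_apply 0).comp measurable_snd
  have hone : MeasurableSet {m : Marks | m.1 = 1} :=
    mcount (MeasurableSet.of_discrete (s := {1}))
  have hmap : ν.map (fun m => m.2 0) = unif T := ptsLaw_time 0
  -- one coordinate, conditioned to have one bar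
  have hpoint : ∀ A : Set ℝ, MeasurableSet A → ν {m | m.1 = 1 ∧ m.2 0 ∈ A} =
      poissonMeasure T.toNNReal {1} * unif T A := fun A hA => ptsLaw_count_time {1} hA 0
  have hint : ∀ f : ℝ → ℝ≥0∞, Measurable f →
      ∫⁻ m in {m : Marks | m.1 = 1}, f (m.2 0) ∂ν =
        poissonMeasure T.toNNReal {1} * ∫⁻ x, f x ∂(unif T) := by
    intro f hf
    have h1 : (ν.restrict {m : Marks | m.1 = 1}).map (fun m => m.2 0) =
        poissonMeasure T.toNNReal {1} • unif T := by
      ext A hA
      rw [Measure.map_apply mtime hA, Measure.restrict_apply (mtime hA), Measure.smul_apply,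
        smul_eq_mul, ← hpoint A hA]
      congr 1
      ext m
      simp only [mem_inter_iff, mem_preimage, mem_ofPred_eq]
      tauto
    rw [← lintegral_map hf mtime, h1, lintegral_smul_measure, smul_eq_mul]
  -- the set with the second coordinate integrated
  set D1 : Set ((E → Marks) × Marks) := {p | p.2.1 = 1 ∧ (p.1 e₂).1 = 1 ∧
    (p.1, (p.2.2 0, (p.1 e₂).2 0)) ∈ D} with hD1
  have mD1 : MeasurableSet D1 := by
    have h1 : MeasurableSet {p : (E → Marks) × Marks | p.2.1 = 1} := measurable_snd hone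
    have h2 : MeasurableSet {p : (E → Marks) × Marks | (p.1 e₂).1 = 1} := by
      have h4 : Measurable (fun p : (E → Marks) × Marks => p.1 e₂) :=
        (measurable_pi_apply e₂).comp measurable_fst
      exact h4 hone
    have h3 : Measurable (fun p : (E → Marks) × Marks => (p.1, (p.2.2 0, (p.1 e₂).2 0))) :=
      measurable_fst.prodMk ((mtime.comp measurable_snd).prodMk
        (mtime.comp ((measurable_pi_apply e₂).comp measurable_fst)))
    exact h1.inter (h2.inter (h3 hD))
  have step1 : P {ω | (ω e₁).1 = 1 ∧ (ω e₂).1 = 1 ∧ (ω, ((ω e₁).2 0, (ω e₂).2 0)) ∈ D} =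
      (P.prod ν) D1 := by
    rw [← block_one ν (S := insert e₂ S) (e := e₁) ?_ mD1 ?_]
    · rfl
    · rintro (h | h)
      · exact h₁₂ h
      · exact h₁ h
    · intro ω ω' hh m
      have h4 : ω e₂ = ω' e₂ := hh e₂ (mem_insert _ _)
      simp only [hD1, mem_ofPred_eq]
      rw [h4, hdep ω ω' (fun i hi => hh i (mem_insert_of_mem _ hi))]
  rw [step1, Measure.prod_apply_symm mD1]
  -- for a fixed first mark
  have step2 : ∀ m : Marks, P ((fun ω => (ω, m)) ⁻¹' D1) =
      ({m : Marks | m.1 = 1} : Set Marks).indicator (fun m =>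
        poissonMeasure T.toNNReal {1} * (P.prod (unif T)) {p | (p.1, (m.2 0, p.2)) ∈ D}) m := by
    intro m
    by_cases hm : m.1 = 1
    · rw [indicator_of_mem (by exact hm)]
      set D2 : Set ((E → Marks) × Marks) := {p | p.2.1 = 1 ∧ (p.1, (m.2 0, p.2.2 0)) ∈ D} with hD2
      have mD2 : MeasurableSet D2 := by
        have h1 : MeasurableSet {p : (E → Marks) × Marks | p.2.1 = 1} := measurable_snd hone
        have h3 : Measurable (fun p : (E → Marks) × Marks => (p.1, (m.2 0, p.2.2 0))) :=
          measurable_fst.prodMk (measurable_const.prodMk (mtime.comp measurable_snd))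
        exact h1.inter (h3 hD)
      have h5 : (fun ω => (ω, m)) ⁻¹' D1 = {ω : E → Marks | (ω, ω e₂) ∈ D2} := by
        ext ω
        simp only [hD1, hD2, mem_preimage, mem_ofPred_eq, hm, true_and]
      rw [h5, block_one ν (S := S) h₂ mD2 (fun ω ω' hh x => by
        simp only [hD2, mem_ofPred_eq]
        rw [hdep ω ω' hh])]
      have h6 : MeasurableSet {p : (E → Marks) × ℝ | (p.1, (m.2 0, p.2)) ∈ D} := by
        have h3 : Measurable (fun p : (E → Marks) × ℝ => (p.1, (m.2 0, p.2))) :=
          measurable_fst.prodMk (measurable_const.prodMk measurable_snd)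
        exact h3 hD
      rw [Measure.prod_apply mD2, Measure.prod_apply h6, ← lintegral_const_mul]
      · congr 1
        funext ω
        have h7 : MeasurableSet {x : ℝ | (ω, (m.2 0, x)) ∈ D} := by
          have h3 : Measurable (fun x : ℝ => (ω, (m.2 0, x))) :=
            measurable_const.prodMk (measurable_const.prodMk measurable_id)
          exact h3 hD
        exact hpoint _ h7
      · exact measurable_measure_prodMk_left h6
    · rw [indicator_of_notMem (by exact hm)]
      have h5 : (fun ω => (ω, m)) ⁻¹' D1 = (∅ : Set (E → Marks)) := by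
        ext ω
        simp only [hD1, mem_preimage, mem_ofPred_eq, hm, false_and, mem_empty_iff_false]
      rw [h5, measure_empty]
  rw [lintegral_congr step2, lintegral_indicator hone]
  have mg : Measurable (fun x : ℝ => (P.prod (unif T)) {p | (p.1, (x, p.2)) ∈ D}) := by
    have h3 : Measurable (fun q : ℝ × ((E → Marks) × ℝ) => (q.2.1, (q.1, q.2.2))) :=
      (measurable_fst.comp measurable_snd).prodMk (measurable_fst.prodMk
        (measurable_snd.comp measurable_snd))
    exact measurable_measure_prodMk_left (ν := P.prod (unif T)) (h3 hD)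
  have h8 := hint (fun x => poissonMeasure T.toNNReal {1} *
    (P.prod (unif T)) {p | (p.1, (x, p.2)) ∈ D}) (mg.const_mul _)
  rw [h8, lintegral_const_mul _ mg, ← mul_assoc]
  congr 1
  -- Fubini
  have mD' : ∀ x : ℝ, MeasurableSet {p : (E → Marks) × ℝ | (p.1, (x, p.2)) ∈ D} := fun x => by
    have h3 : Measurable (fun p : (E → Marks) × ℝ => (p.1, (x, p.2))) :=
      measurable_fst.prodMk (measurable_const.prodMk measurable_snd)
    exact h3 hD
  rw [Measure.prod_apply hD]
  have h9 : ∀ x : ℝ, (P.prod (unif T)) {p | (p.1, (x, p.2)) ∈ D} =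
      ∫⁻ ω, unif T {y | (ω, (x, y)) ∈ D} ∂P := fun x => Measure.prod_apply (mD' x)
  rw [lintegral_congr h9]
  have h10 : ∀ ω : E → Marks, ((unif T).prod (unif T)) (Prod.mk ω ⁻¹' D) =
      ∫⁻ x, unif T {y | (ω, (x, y)) ∈ D} ∂(unif T) := fun ω =>
    Measure.prod_apply (measurable_prodMk_left hD)
  rw [lintegral_congr h10, lintegral_lintegral_swap]
  have h11 : Measurable (fun q : (ℝ × (E → Marks)) × ℝ => (q.1.2, (q.1.1, q.2))) :=
    (measurable_snd.comp measurable_fst).prodMk ((measurable_fst.comp measurable_fst).prodMk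
      measurable_snd)
  exact (measurable_measure_prodMk_left (ν := unif T) (h11 hD)).aemeasurable

/-- one coordinate with two bars -/
theorem block_leaf {S : Set E} {e : E} (he : e ∉ S)
    {D : Set ((E → Marks) × (ℝ × ℝ))} (hD : MeasurableSet D)
    (hdep : ∀ ω ω' : E → Marks, (∀ i ∈ S, ω i = ω' i) → ∀ x, ((ω, x) ∈ D ↔ (ω', x) ∈ D)) :
    prodLaw (ptsLaw T) E {ω | (ω e).1 = 2 ∧ (ω, ((ω e).2 0, (ω e).2 1)) ∈ D} =
    poissonMeasure T.toNNReal {2} *
      ((prodLaw (ptsLaw T) E).prod ((unif T).prod (unif T))) D := by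
  set P := prodLaw (ptsLaw T) E with hP
  set ν := ptsLaw T with hν
  have mcount : Measurable (fun m : Marks => m.1) := measurable_fst
  have mtime : Measurable (fun m : Marks => (m.2 0, m.2 1)) :=
    ((measurable_pi_apply 0).comp measurable_snd).prodMk
      ((measurable_pi_apply 1).comp measurable_snd)
  have htwo : MeasurableSet {m : Marks | m.1 = 2} :=
    mcount (MeasurableSet.of_discrete (s := {2}))
  have hpoint : ∀ A : Set (ℝ × ℝ), MeasurableSet A → ν {m | m.1 = 2 ∧ (m.2 0, m.2 1) ∈ A} =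
      poissonMeasure T.toNNReal {2} * ((unif T).prod (unif T)) A := by
    intro A hA
    have h1 := ptsLaw_rect (T := T) {2} (C := {t | (t 0, t 1) ∈ A})
    have h2 : (Measure.infinitePi fun _ : ℕ => unif T) {t | (t 0, t 1) ∈ A} =
        ((unif T).prod (unif T)) A := by
      rw [← Measure.infinitePi_map_eval_prod (P := fun _ : ℕ => unif T) (i := 0) (j := 1)
        (by norm_num), Measure.map_apply (by fun_prop) hA]
      rfl
    rw [h2] at h1
    exact h1
  set D1 : Set ((E → Marks) × Marks) := {p | p.2.1 = 2 ∧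
    (p.1, (p.2.2 0, p.2.2 1)) ∈ D} with hD1
  have mD1 : MeasurableSet D1 := by
    have h1 : MeasurableSet {p : (E → Marks) × Marks | p.2.1 = 2} := measurable_snd htwo
    have h3 : Measurable (fun p : (E → Marks) × Marks => (p.1, (p.2.2 0, p.2.2 1))) :=
      measurable_fst.prodMk (mtime.comp measurable_snd)
    exact h1.inter (h3 hD)
  have step1 : P {ω | (ω e).1 = 2 ∧ (ω, ((ω e).2 0, (ω e).2 1)) ∈ D} = (P.prod ν) D1 := by
    rw [← block_one ν (S := S) (e := e) he mD1 ?_]
    · rfl
    · intro ω ω' hh m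
      simp only [hD1, mem_ofPred_eq]
      rw [hdep ω ω' hh]
  rw [step1, Measure.prod_apply mD1, Measure.prod_apply hD, ← lintegral_const_mul]
  · congr 1
    funext ω
    have h7 : MeasurableSet {x : ℝ × ℝ | (ω, x) ∈ D} := measurable_prodMk_left hD
    exact hpoint _ h7
  · exact measurable_measure_prodMk_left hD

end marks

end Pool.Agent.H98.RS
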