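import Mathlib

/-! Deterministic part: configurations of bars, the trajectory map, invariant sets. -/

set_option autoImplicit false

open Set

namespace Pool.Agent.H98.RS

variable {V : Type*}

/-- Standing assumptions on the relation `B v u t` (there is a bar between `v` and `u` at
time `t`).  A bar joining a vertex to itself is allowed, it has no effect. -/
structure Good (B : V → V → ℝ → Prop) : Prop where
  symm : ∀ {u v t}, B u v t → B v u t
  pos : ∀ {u v t}, B u v t → 0 < t
  uniq : ∀ {v u u' t}, B v u t → B v u' t → u = u'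
  fin : ∀ v, {t | ∃ u, B v u t}.Finite

/-- `q` is reached from `p` through the first bar after `p`. -/
def IsNext (B : V → V → ℝ → Prop) (p q : V × ℝ) : Prop :=
  p.2 < q.2 ∧ B p.1 q.1 q.2 ∧ ∀ u t, p.2 < t → B p.1 u t → q.2 ≤ t

open Classical in
/-- one step of the trajectory -/
noncomputable def step (B : V → V → ℝ → Prop) (p : V × ℝ) : V × ℝ :=
  if h : ∃ q, IsNext B p q then h.choose else (p.1, 0)

/-- invariant sets of states -/
def Inv (B : V → V → ℝ → Prop) (I : Set (V × ℝ)) : Prop := ∀ p, p ∈ I ↔ step B p ∈ I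

/-- times at which something happens at the vertex, including `0` -/
def IsSt (B : V → V → ℝ → Prop) (p : V × ℝ) : Prop := p.2 = 0 ∨ ∃ u, B p.1 u p.2

variable {B : V → V → ℝ → Prop}

lemma IsNext.unique (hG : Good B) {p q q' : V × ℝ} (h : IsNext B p q) (h' : IsNext B p q') :
    q = q' := by
  have h1 : q.2 = q'.2 := le_antisymm (h.2.2 _ _ h'.1 h'.2.1) (h'.2.2 _ _ h.1 h.2.1)
  have h2 : B p.1 q'.1 q.2 := by rw [h1]; exact h'.2.1
  exact Prod.ext (hG.uniq h.2.1 h2) h1

lemma step_of_next (hG : Good B) {p q : V × ℝ} (h : IsNext B p q) : step B p = q := by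
  classical
  have hex : ∃ q, IsNext B p q := ⟨q, h⟩
  rw [step, dif_pos hex]
  exact IsNext.unique hG hex.choose_spec h

lemma step_of_none {p : V × ℝ} (h : ∀ u t, p.2 < t → ¬ B p.1 u t) : step B p = (p.1, 0) := by
  classical
  rw [step, dif_neg]
  rintro ⟨q, hq⟩
  exact h q.1 q.2 hq.1 hq.2.1

lemma next_or_none (hG : Good B) (p : V × ℝ) :
    (∃ q, IsNext B p q) ∨ (∀ u t, p.2 < t → ¬ B p.1 u t) := by
  by_cases h : ∃ u t, p.2 < t ∧ B p.1 u t
  · left
    obtain ⟨u, t, ht, hB⟩ := h
    have hfin : {t | p.2 < t ∧ ∃ u, B p.1 u t}.Finite :=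
      (hG.fin p.1).subset (fun t ht => ht.2)
    have hne : {t | p.2 < t ∧ ∃ u, B p.1 u t}.Nonempty := ⟨t, ht, u, hB⟩
    obtain ⟨t0, ht0, hmin⟩ := hfin.exists_minimal hne
    obtain ⟨hlt, u0, hu0⟩ := ht0
    refine ⟨(u0, t0), hlt, hu0, fun u' t' ht' hB' => ?_⟩
    rcases le_total t0 t' with h | h
    · exact h
    · exact hmin ⟨ht', u', hB'⟩ h
  · right
    intro u t ht hB
    exact h ⟨u, t, ht, hB⟩

lemma step_cases (hG : Good B) (p : V × ℝ) :
    IsNext B p (step B p) ∨ ((∀ u t, p.2 < t → ¬ B p.1 u t) ∧ step B p = (p.1, 0)) := by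
  rcases next_or_none hG p with ⟨q, hq⟩ | h
  · left
    rw [step_of_next hG hq]
    exact hq
  · right
    exact ⟨h, step_of_none h⟩

/-- two states at the same vertex without bars in between have the same image -/
lemma step_congr_time (hG : Good B) {v : V} {s s' : ℝ} (hs : s ≤ s')
    (h : ∀ u t, s < t → t ≤ s' → ¬ B v u t) : step B (v, s) = step B (v, s') := by
  rcases step_cases hG (v, s') with h1 | ⟨h1, h2⟩
  · refine step_of_next hG ⟨lt_of_le_of_lt hs h1.1, h1.2.1, fun u t ht hB => ?_⟩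
    rcases le_or_gt t s' with h3 | h3
    · exact absurd hB (h u t ht h3)
    · exact h1.2.2 u t h3 hB
  · rw [h2]
    refine step_of_none (fun u t ht hB => ?_)
    rcases le_or_gt t s' with h3 | h3
    · exact h u t ht h3 hB
    · exact h1 u t h3 hB

lemma Inv.const (hG : Good B) {I : Set (V × ℝ)} (hI : Inv B I) {v : V} {s s' : ℝ} (hs : s ≤ s')
    (h : ∀ u t, s < t → t ≤ s' → ¬ B v u t) : (v, s) ∈ I ↔ (v, s') ∈ I := by
  rw [hI (v, s), hI (v, s'), step_congr_time hG hs h]

lemma Inv.cross (hG : Good B) {I : Set (V × ℝ)} (hI : Inv B I) {v u : V} {s t : ℝ} (hs : s < t)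
    (hB : B v u t) (h : ∀ u' t', s < t' → t' < t → ¬ B v u' t') : (v, s) ∈ I ↔ (u, t) ∈ I := by
  rw [hI (v, s), step_of_next hG (q := (u, t)) ⟨hs, hB, fun u' t' ht' hB' => ?_⟩]
  by_contra hlt
  exact h u' t' ht' (not_le.mp hlt) hB'

lemma Inv.compl {I : Set (V × ℝ)} (hI : Inv B I) : Inv B Iᶜ := fun p => not_congr (hI p)

/-- If all bars at `v` in `(s, s']` join states with the same membership, then the membership at
`v` is the same at the times `s` and `s'`. -/
lemma Inv.agree_interval (hG : Good B) {I : Set (V × ℝ)} (hI : Inv B I) {v : V} {s s' : ℝ}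
    (hs : s ≤ s') (h : ∀ u t, s < t → t ≤ s' → B v u t → ((v, t) ∈ I ↔ (u, t) ∈ I)) :
    (v, s) ∈ I ↔ (v, s') ∈ I := by
  have key : ∀ n : ℕ, ∀ s : ℝ, s ≤ s' →
      (∀ u t, s < t → t ≤ s' → B v u t → ((v, t) ∈ I ↔ (u, t) ∈ I)) →
      {t | s < t ∧ ∃ u, B v u t}.ncard = n → ((v, s) ∈ I ↔ (v, s') ∈ I) := by
    intro n
    induction n using Nat.strong_induction_on with
    | _ n ih =>
      intro s hs h hn
      rcases step_cases hG (v, s) with h1 | ⟨h1, h2⟩
      · set q := step B (v, s) with hq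
        rcases le_or_gt q.2 s' with h3 | h3
        · have hlt : s < q.2 := h1.1
          have h4 := h q.1 q.2 hlt h3 h1.2.1
          have h5 : (v, s) ∈ I ↔ (v, q.2) ∈ I := by
            rw [hI (v, s), ← hq, h4]
          rw [h5]
          refine ih ({t | q.2 < t ∧ ∃ u, B v u t}.ncard) ?_ q.2 h3
            (fun u t ht ht' hB => h u t (hlt.trans ht) ht' hB) rfl
          rw [← hn]
          refine Set.ncard_lt_ncard ?_ ((hG.fin v).subset (fun t ht => ht.2))
          refine ⟨fun t ht => ⟨hlt.trans ht.1, ht.2⟩, fun hsub => ?_⟩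
          have : q.2 ∈ {t | q.2 < t ∧ ∃ u, B v u t} := hsub ⟨hlt, q.1, h1.2.1⟩
          exact lt_irrefl _ this.1
        · exact hI.const hG hs (fun u t ht ht' hB => by
            have := h1.2.2 u t ht hB
            linarith)
      · exact hI.const hG hs (fun u t ht _ hB => h1 u t ht hB)
  exact key _ s hs h rfl

/-- Same with a bar at the end of the interval. -/
lemma Inv.agree_pre (hG : Good B) {I : Set (V × ℝ)} (hI : Inv B I) {v w : V} {s t : ℝ}
    (hs : s < t) (hB : B v w t)
    (h : ∀ u t', s < t' → t' < t → B v u t' → ((v, t') ∈ I ↔ (u, t') ∈ I)) :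
    (v, s) ∈ I ↔ (w, t) ∈ I := by
  -- the last time before `t`
  have hfin : (insert s {t' | s < t' ∧ t' < t ∧ ∃ u, B v u t'}).Finite :=
    ((hG.fin v).subset (fun t ht => ht.2.2)).insert s
  obtain ⟨s0, hs0, hmax⟩ := hfin.exists_maximal ⟨s, mem_insert _ _⟩
  have h0 : s ≤ s0 := by
    rcases hs0 with h | h
    · exact h.ge
    · exact h.1.le
  have h1 : s0 < t := by
    rcases hs0 with h | h
    · rw [h]; exact hs
    · exact h.2.1
  have h2 : ∀ u' t', s0 < t' → t' < t → ¬ B v u' t' := by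
    intro u' t' ht1 ht2 hB'
    have := hmax (Or.inr ⟨lt_of_le_of_lt h0 ht1, ht2, u', hB'⟩) ht1.le
    linarith
  rw [← hI.cross hG h1 hB h2]
  exact hI.agree_interval hG h0 (fun u t' ht1 ht2 hB' =>
    h u t' ht1 (lt_of_le_of_lt ht2 h1) hB')

/-- If all bars at `v` join states with the same membership then the membership is constant. -/
lemma Inv.agree_all (hG : Good B) {I : Set (V × ℝ)} (hI : Inv B I) {v : V}
    (h : ∀ u t, B v u t → ((v, t) ∈ I ↔ (u, t) ∈ I)) (s s' : ℝ) :
    (v, s) ∈ I ↔ (v, s') ∈ I := by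
  rcases le_total s s' with hs | hs
  · exact hI.agree_interval hG hs (fun u t _ _ hB => h u t hB)
  · exact (hI.agree_interval hG hs (fun u t _ _ hB => h u t hB)).symm

lemma isSt_step (hG : Good B) (p : V × ℝ) : IsSt B (step B p) := by
  rcases step_cases hG p with h | ⟨_, h⟩
  · right
    exact ⟨p.1, hG.symm h.2.1⟩
  · left
    rw [h]

lemma isSt_nonneg (hG : Good B) {p : V × ℝ} (h : IsSt B p) : 0 ≤ p.2 := by
  rcases h with h | ⟨u, hu⟩
  · exact h.ge
  · exact (hG.pos hu).le

lemma step_inj (hG : Good B) {p q : V × ℝ} (hp : IsSt B p) (hq : IsSt B q)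
    (h : step B p = step B q) : p = q := by
  -- it is enough to exclude `p.2 < q.2` when the vertices agree
  have aux : ∀ p q : V × ℝ, IsSt B p → IsSt B q → p.1 = q.1 → step B p = step B q →
      ¬ p.2 < q.2 := by
    intro p q hp hq hv h hlt
    have hpos : 0 < q.2 := lt_of_le_of_lt (isSt_nonneg hG hp) hlt
    rcases hq with h0 | ⟨u, hu⟩
    · linarith
    · rw [← hv] at hu
      rcases step_cases hG p with h1 | ⟨h1, _⟩
      · have h2 := h1.2.2 u q.2 hlt hu
        rcases step_cases hG q with h3 | ⟨h3, h4⟩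
        · rw [h] at h2
          have := h3.1
          linarith
        · rw [h, h4] at h1
          have := h1.1
          have := isSt_nonneg hG hp
          simp at *
          linarith
      · exact h1 u q.2 hlt hu
  have hv : p.1 = q.1 := by
    rcases step_cases hG p with h1 | ⟨h1, h2⟩
    · rcases step_cases hG q with h3 | ⟨h3, h4⟩
      · rw [← h] at h3
        exact hG.uniq (hG.symm h1.2.1) (hG.symm h3.2.1)
      · rw [h, h4] at h1
        have := h1.1
        have := isSt_nonneg hG hp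
        simp at *
        linarith
    · rcases step_cases hG q with h3 | ⟨h3, h4⟩
      · rw [← h, h2] at h3
        have := h3.1
        have := isSt_nonneg hG hq
        simp at *
        linarith
      · rw [h2, h4] at h
        exact (Prod.ext_iff.mp h).1
  rcases lt_trichotomy p.2 q.2 with h1 | h1 | h1
  · exact absurd h1 (aux p q hp hq hv h)
  · exact Prod.ext hv h1
  · exact absurd h1 (aux q p hq hp hv.symm h.symm)

/-- the last state at `v` before `t` -/
lemma exists_last (hG : Good B) (v : V) {t : ℝ} (ht : 0 < t) :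
    ∃ s, 0 ≤ s ∧ s < t ∧ IsSt B (v, s) ∧ ∀ u t', s < t' → t' < t → ¬ B v u t' := by
  have hfin : (insert 0 {t' | t' < t ∧ ∃ u, B v u t'}).Finite :=
    ((hG.fin v).subset (fun t ht => ht.2)).insert 0
  obtain ⟨s0, hs0, hmax⟩ := hfin.exists_maximal ⟨0, mem_insert _ _⟩
  refine ⟨s0, ?_, ?_, ?_, ?_⟩
  · rcases hs0 with h | ⟨_, u, hu⟩
    · exact h.ge
    · exact (hG.pos hu).le
  · rcases hs0 with h | h
    · rw [h]; exact ht
    · exact h.1
  · rcases hs0 with h | ⟨_, u, hu⟩
    · left; exact h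
    · right; exact ⟨u, hu⟩
  · intro u t' ht1 ht2 hB
    have := hmax (Or.inr ⟨ht2, u, hB⟩) ht1.le
    linarith

/-- the last state at `v` -/
lemma exists_top (hG : Good B) (v : V) :
    ∃ s, 0 ≤ s ∧ IsSt B (v, s) ∧ ∀ u t', s < t' → ¬ B v u t' := by
  have hfin : (insert 0 {t' | ∃ u, B v u t'}).Finite := (hG.fin v).insert 0
  obtain ⟨s0, hs0, hmax⟩ := hfin.exists_maximal ⟨0, mem_insert _ _⟩
  refine ⟨s0, ?_, ?_, ?_⟩
  · rcases hs0 with h | ⟨u, hu⟩
    · exact h.ge
    · exact (hG.pos hu).le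
  · rcases hs0 with h | ⟨u, hu⟩
    · left; exact h
    · right; exact ⟨u, hu⟩
  · intro u t' ht1 hB
    have := hmax (Or.inr ⟨u, hB⟩) ht1.le
    linarith

lemma exists_pred (hG : Good B) {q : V × ℝ} (hq : IsSt B q) : ∃ p, IsSt B p ∧ step B p = q := by
  obtain ⟨v, t⟩ := q
  rcases hq with h | ⟨u, hu⟩
  · simp only at h
    subst h
    obtain ⟨s, _, hs1, hs2⟩ := exists_top hG v
    exact ⟨(v, s), hs1, step_of_none hs2⟩
  · simp only at hu
    obtain ⟨s, hs0, hs1, hs2, hs3⟩ := exists_last hG u (hG.pos hu)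
    refine ⟨(u, s), hs2, step_of_next hG ⟨hs1, hG.symm hu, fun u' t' ht' hB' => ?_⟩⟩
    by_contra hlt
    exact hs3 u' t' ht' (not_le.mp hlt) hB'

/-- Conservation: if only one bar joins `W` to its complement and the invariant set `I` has
finitely many states then both sides of the bar have the same membership. -/
theorem Inv.conservation (hG : Good B) {I : Set (V × ℝ)} (hI : Inv B I)
    (hfin : {p | IsSt B p ∧ p ∈ I}.Finite) {W : Set V} {c z : V} {t₀ : ℝ} (hc : c ∈ W)
    (hz : z ∉ W) (hB : B c z t₀)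
    (honly : ∀ x y t, x ∈ W → y ∉ W → B x y t → x = c ∧ y = z ∧ t = t₀) :
    (c, t₀) ∈ I ↔ (z, t₀) ∈ I := by
  classical
  have hSfin : {p | IsSt B p ∧ p ∈ I ∧ p.1 ∈ W}.Finite := hfin.subset (fun p hp => ⟨hp.1, hp.2.1⟩)
  set A : Finset (V × ℝ) := hSfin.toFinset with hA
  have memA : ∀ p, p ∈ A ↔ (IsSt B p ∧ p ∈ I ∧ p.1 ∈ W) := by
    intro p; rw [hA, Set.Finite.mem_toFinset]; rfl
  -- states leaving
  set X := A.filter (fun p => (step B p).1 ∉ W) with hX
  have hXstep : ∀ p ∈ X, step B p = (z, t₀) := by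
    intro p hp
    rw [hX, Finset.mem_filter, memA] at hp
    rcases step_cases hG p with h | ⟨_, h⟩
    · obtain ⟨_, h2, h3⟩ := honly p.1 _ _ hp.1.2.2 hp.2 h.2.1
      exact Prod.ext h2 h3
    · exfalso
      apply hp.2
      rw [h]
      exact hp.1.2.2
  have hcz : c ≠ z := fun h => hz (h ▸ hc)
  have hct : IsSt B (c, t₀) := Or.inr ⟨z, hB⟩
  have hzt : IsSt B (z, t₀) := Or.inr ⟨c, hG.symm hB⟩
  -- the map from `A \ X` onto `A \ {(c,t₀)}`
  have hcard : (A.filter (fun p => (step B p).1 ∈ W)).card = (A.erase (c, t₀)).card := by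
    refine Finset.card_bij (fun p _ => step B p) ?_ ?_ ?_
    · intro p hp
      rw [Finset.mem_filter, memA] at hp
      rw [Finset.mem_erase, memA]
      refine ⟨?_, isSt_step hG p, (hI p).mp hp.1.2.1, hp.2⟩
      intro h
      rcases step_cases hG p with h1 | ⟨_, h1⟩
      · rw [h] at h1
        have := hG.uniq (hG.symm h1.2.1) hB
        exact hz (this ▸ hp.1.2.2)
      · rw [h] at h1
        have h2 : t₀ = 0 := (Prod.ext_iff.mp h1).2
        have := hG.pos hB
        linarith
    · intro p hp q hq h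
      rw [Finset.mem_filter, memA] at hp hq
      exact step_inj hG hp.1.1 hq.1.1 h
    · intro q hq
      rw [Finset.mem_erase, memA] at hq
      obtain ⟨p, hp1, hp2⟩ := exists_pred hG hq.2.1
      refine ⟨p, ?_, hp2⟩
      rw [Finset.mem_filter, memA]
      have hpI : p ∈ I := (hI p).mpr (hp2 ▸ hq.2.2.1)
      refine ⟨⟨hp1, hpI, ?_⟩, by rw [hp2]; exact hq.2.2.2⟩
      by_contra hpW
      rcases step_cases hG p with h1 | ⟨_, h1⟩
      · rw [hp2] at h1
        obtain ⟨h2, h3, h4⟩ := honly q.1 p.1 q.2 hq.2.2.2 hpW (hG.symm h1.2.1)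
        exact hq.1 (Prod.ext h2 h4)
      · rw [hp2] at h1
        exact hpW (by rw [← (Prod.ext_iff.mp h1).1]; exact hq.2.2.2)
  have hsum : X.card + (A.filter (fun p => (step B p).1 ∈ W)).card = A.card := by
    rw [hX, add_comm]
    exact Finset.card_filter_add_card_filter_not (s := A) (fun p => (step B p).1 ∈ W)
  have hXcard : X.Nonempty ↔ (c, t₀) ∈ A := by
    constructor
    · intro hne
      by_contra hnot
      rw [Finset.erase_eq_of_notMem hnot] at hcard
      have := Finset.card_pos.mpr hne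
      omega
    · intro hmem
      have h1 := Finset.card_erase_of_mem hmem
      have h2 := Finset.card_pos.mpr ⟨_, hmem⟩
      apply Finset.card_pos.mp
      omega
  have h1 : (c, t₀) ∈ I ↔ (c, t₀) ∈ A := by
    rw [memA]
    exact ⟨fun h => ⟨hct, h, hc⟩, fun h => h.2.1⟩
  have h2 : (z, t₀) ∈ I ↔ X.Nonempty := by
    constructor
    · intro h
      obtain ⟨p, hp1, hp2⟩ := exists_pred hG hzt
      refine ⟨p, ?_⟩
      rw [hX, Finset.mem_filter, memA]
      have hpI : p ∈ I := (hI p).mpr (hp2 ▸ h)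
      have hp3 : p.1 = c := by
        rcases step_cases hG p with h1 | ⟨_, h1⟩
        · rw [hp2] at h1
          exact hG.uniq (hG.symm h1.2.1) (hG.symm hB)
        · rw [hp2] at h1
          have h2 : t₀ = 0 := (Prod.ext_iff.mp h1).2
          have := hG.pos hB
          linarith
      exact ⟨⟨hp1, hpI, by rw [hp3]; exact hc⟩, by rw [hp2]; exact hz⟩
    · rintro ⟨p, hp⟩
      have h3 := hXstep p hp
      rw [hX, Finset.mem_filter, memA] at hp
      rw [← h3]
      exact (hI p).mp hp.1.2.1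
  rw [h1, h2, hXcard]

end Pool.Agent.H98.RS
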