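import Pool.Agent.H98.RSBar

/-! Number of invariant sets; effect of adding bars at a leaf. -/

set_option autoImplicit false

open Set

namespace Pool.Agent.H98.RS

variable {V : Type*} {B : V → V → ℝ → Prop}

/-- number of invariant sets (two to the number of cycles) -/
noncomputable def zc (B : V → V → ℝ → Prop) : ℕ := {I : Set (V × ℝ) | Inv B I}.ncard

lemma inv_iterate {I : Set (V × ℝ)} (hI : Inv B I) (n : ℕ) (p : V × ℝ) :
    p ∈ I ↔ (step B)^[n] p ∈ I := by
  induction n generalizing p with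
  | zero => rfl
  | succ n ih => rw [Function.iterate_succ_apply, hI p]; exact ih _

lemma exists_zero_time [Finite V] (hG : Good B) (p : V × ℝ) :
    ∃ n : ℕ, ((step B)^[n] p).2 = 0 := by
  by_contra hcon
  push Not at hcon
  have hmono : StrictMono (fun n : ℕ => ((step B)^[n] p).2) := by
    apply strictMono_nat_of_lt_succ
    intro n
    rw [Function.iterate_succ_apply']
    rcases step_cases hG ((step B)^[n] p) with h | ⟨_, h⟩
    · exact h.1
    · exfalso
      apply hcon (n + 1)
      rw [Function.iterate_succ_apply', h]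
  have hinj : Function.Injective (fun n : ℕ => (step B)^[n + 1] p) := by
    intro i j h
    have h2 : i + 1 = j + 1 := by
      apply hmono.injective
      simp only at h ⊢
      rw [h]
    omega
  have := Set.infinite_range_of_injective hinj
  apply this
  refine (finite_isSt hG).subset ?_
  rintro _ ⟨n, rfl⟩
  simp only
  rw [Function.iterate_succ_apply']
  exact isSt_step hG _

lemma inv_injOn [Finite V] (hG : Good B) :
    Set.InjOn (fun I : Set (V × ℝ) => {v | (v, (0 : ℝ)) ∈ I}) {I | Inv B I} := by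
  intro I hI J hJ h
  ext p
  obtain ⟨n, hn⟩ := exists_zero_time hG p
  rw [inv_iterate hI n, inv_iterate hJ n]
  have : (step B)^[n] p = (((step B)^[n] p).1, 0) := Prod.ext rfl hn
  rw [this]
  exact Set.ext_iff.mp h _

lemma finite_inv [Finite V] (hG : Good B) : {I : Set (V × ℝ) | Inv B I}.Finite :=
  Set.Finite.of_finite_image (Set.toFinite _) (inv_injOn hG)

lemma zc_le [Finite V] (hG : Good B) : zc B ≤ 2 ^ Nat.card V := by
  have h1 : zc B ≤ (Set.univ : Set (Set V)).ncard :=
    Set.ncard_le_ncard_of_injOn _ (fun _ _ => mem_univ _) (inv_injOn hG) (Set.toFinite _)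
  refine h1.trans ?_
  rw [Set.ncard_univ]
  have : Fintype V := Fintype.ofFinite V
  classical
  rw [Nat.card_eq_fintype_card, Nat.card_eq_fintype_card, Fintype.card_set]

lemma zc_pos [Finite V] (hG : Good B) : 0 < zc B := by
  rw [zc, Set.ncard_pos (finite_inv hG)]
  exact ⟨∅, fun p => by simp⟩

/-- Isolated vertices. -/
lemma le_zc [Finite V] (hG : Good B) (S : Set V) (hS : ∀ v ∈ S, ∀ u t, ¬ B v u t) :
    2 ^ S.ncard ≤ zc B := by
  classical
  have h1 : (𝒫 S).ncard ≤ zc B := by
    refine Set.ncard_le_ncard_of_injOn (fun A : Set V => {p : V × ℝ | p.1 ∈ A}) ?_ ?_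
      (finite_inv hG)
    · intro A hA p
      simp only [mem_ofPred_eq]
      rcases step_cases hG p with h | ⟨_, h⟩
      · constructor
        · intro hp
          exact absurd h.2.1 (hS _ (hA hp) _ _)
        · intro hp
          exact absurd (hG.symm h.2.1) (hS _ (hA hp) _ _)
      · rw [h]
    · intro A _ A' _ h
      ext v
      have := Set.ext_iff.mp h (v, 0)
      simpa using this
  refine le_trans ?_ h1
  rw [Set.ncard_powerset]

lemma Inv.symmDiff {I J : Set (V × ℝ)} (hI : Inv B I) (hJ : Inv B J) : Inv B (symmDiff I J) := by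
  intro p
  rw [Set.mem_symmDiff, Set.mem_symmDiff, hI p, hJ p]

/-- Adding one bar at most doubles the number of invariant sets. -/
theorem zc_addBar_le [Finite V] (hG : Good B) {a b : V} {t : ℝ}
    (ht : 0 < t) (ha : ∀ u, ¬ B a u t) (hb : ∀ u, ¬ B b u t) :
    zc (addBar B a b t) ≤ 2 * zc B := by
  classical
  have hG' := hG.addBar ht ha hb
  set Z' := {I : Set (V × ℝ) | Inv (RS.addBar B a b t) I} with hZ'
  set H := {I : Set (V × ℝ) | (a, t) ∈ I ↔ (b, t) ∈ I} with hH
  have hfin : Z'.Finite := finite_inv hG'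
  have h1 : (Z' ∩ H).ncard ≤ zc B := by
    refine Set.ncard_le_ncard ?_ (finite_inv hG)
    rintro I ⟨h1, h2⟩
    exact (inv_addBar_iff hG ht ha hb h2).mp h1
  have h2 : (Z' \ H).ncard ≤ (Z' ∩ H).ncard := by
    rcases (Z' \ H).eq_empty_or_nonempty with h | ⟨C, hC1, hC2⟩
    · rw [h]; simp
    · refine Set.ncard_le_ncard_of_injOn (fun I => symmDiff I C) ?_ ?_ (hfin.inter_of_left _)
      · rintro I ⟨hI1, hI2⟩
        refine ⟨hI1.symmDiff hC1, ?_⟩
        simp only [hH, mem_ofPred_eq, Set.mem_symmDiff] at hC2 hI2 ⊢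
        tauto
      · intro I _ J _ h
        exact symmDiff_left_injective C h
  have h3 : Z'.ncard = (Z' ∩ H).ncard + (Z' \ H).ncard :=
    (Set.ncard_inter_add_ncard_sdiff_eq_ncard _ _ hfin).symm
  rw [zc, ← hZ', h3]
  omega

/-- Adding a bar between two different cycles halves the number of invariant sets. -/
theorem two_mul_zc_addBar_le [Finite V] (hG : Good B) {a b : V} (hab : a ≠ b) {t : ℝ}
    (ht : 0 < t) (ha : ∀ u, ¬ B a u t) (hb : ∀ u, ¬ B b u t)
    (hsep : ∃ I, Inv B I ∧ (a, t) ∈ I ∧ (b, t) ∉ I) :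
    2 * zc (addBar B a b t) ≤ zc B := by
  classical
  have hG' := hG.addBar ht ha hb
  set Z := {I : Set (V × ℝ) | Inv B I} with hZ
  set H := {I : Set (V × ℝ) | (a, t) ∈ I ↔ (b, t) ∈ I} with hH
  have hfin : Z.Finite := finite_inv hG
  obtain ⟨C, hC1, hC2, hC3⟩ := hsep
  have hmerge : ∀ J, Inv (RS.addBar B a b t) J → ((a, t) ∈ J ↔ (b, t) ∈ J) := by
    rcases split_or_merge hG hab ht ha hb with h | h
    · exact absurd ((h.1 C hC1).mp hC2) hC3
    · exact h.2
  have h1 : zc (RS.addBar B a b t) ≤ (Z ∩ H).ncard := by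
    refine Set.ncard_le_ncard ?_ (hfin.inter_of_left _)
    intro I hI
    exact ⟨(inv_addBar_iff hG ht ha hb (hmerge I hI)).mp hI, hmerge I hI⟩
  have h2 : (Z ∩ H).ncard ≤ (Z \ H).ncard := by
    refine Set.ncard_le_ncard_of_injOn (fun I => symmDiff I C) ?_ ?_ hfin.sdiff
    · rintro I ⟨hI1, hI2⟩
      refine ⟨Inv.symmDiff hI1 hC1, ?_⟩
      simp only [hH, mem_ofPred_eq, Set.mem_symmDiff] at hI2 ⊢
      tauto
    · intro I _ J _ h
      exact symmDiff_left_injective C h
  have h3 : Z.ncard = (Z ∩ H).ncard + (Z \ H).ncard :=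
    (Set.ncard_inter_add_ncard_sdiff_eq_ncard _ _ hfin).symm
  have h4 : zc B = Z.ncard := rfl
  omega

/-! ### Adding bars at a leaf -/

/-- add the bars `(l, y, τ 0), …, (l, y, τ (n-1))` -/
def addBars (B : V → V → ℝ → Prop) (l y : V) (τ : ℕ → ℝ) (n : ℕ) : V → V → ℝ → Prop :=
  fun a b s => B a b s ∨ (∃ i, i < n ∧ s = τ i ∧ ((a = l ∧ b = y) ∨ (a = y ∧ b = l)))

lemma addBars_zero (B : V → V → ℝ → Prop) (l y : V) (τ : ℕ → ℝ) : addBars B l y τ 0 = B := by
  funext a b s
  simp [addBars]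

lemma addBars_succ (B : V → V → ℝ → Prop) (l y : V) (τ : ℕ → ℝ) (n : ℕ) :
    addBars B l y τ (n + 1) = addBar (addBars B l y τ n) l y (τ n) := by
  funext a b s
  simp only [addBars, addBar, eq_iff_iff]
  constructor
  · rintro (h | ⟨i, hi, h1, h2⟩)
    · exact Or.inl (Or.inl h)
    · rcases Nat.lt_succ_iff_lt_or_eq.mp hi with h | h
      · exact Or.inl (Or.inr ⟨i, h, h1, h2⟩)
      · subst h
        exact Or.inr ⟨h1, h2⟩
  · rintro ((h | ⟨i, hi, h1, h2⟩) | ⟨h1, h2⟩)
    · exact Or.inl h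
    · exact Or.inr ⟨i, by omega, h1, h2⟩
    · exact Or.inr ⟨n, by omega, h1, h2⟩

section leaf

variable {l y : V} {τ : ℕ → ℝ}

lemma leaf_fresh (hl : ∀ u t, ¬ B l u t) (hτ : Function.Injective τ)
    (hτB : ∀ i u, ¬ B y u (τ i)) (hly : l ≠ y) (n : ℕ) :
    (∀ u, ¬ addBars B l y τ n l u (τ n)) ∧ (∀ u, ¬ addBars B l y τ n y u (τ n)) := by
  constructor
  · rintro u (h | ⟨i, hi, h1, _⟩)
    · exact hl _ _ h
    · exact absurd (hτ h1) (by omega)
  · rintro u (h | ⟨i, hi, h1, _⟩)
    · exact hτB n u h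
    · exact absurd (hτ h1) (by omega)

lemma good_addBars (hG : Good B) (hl : ∀ u t, ¬ B l u t) (hτ : Function.Injective τ)
    (hpos : ∀ i, 0 < τ i) (hτB : ∀ i u, ¬ B y u (τ i)) (hly : l ≠ y) (n : ℕ) :
    Good (addBars B l y τ n) := by
  induction n with
  | zero => rw [addBars_zero]; exact hG
  | succ n ih =>
    rw [addBars_succ]
    have h := leaf_fresh (τ := τ) hl hτ hτB hly n
    exact ih.addBar (hpos n) h.1 h.2

/-- membership at the isolated leaf can be chosen -/
lemma inv_leaf (hG : Good B) (hl : ∀ u t, ¬ B l u t) {I : Set (V × ℝ)} (hI : Inv B I)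
    (c : Prop) : Inv B {p | (p.1 = l ∧ c) ∨ (p.1 ≠ l ∧ p ∈ I)} := by
  intro p
  have hstay : (step B p).1 = l ↔ p.1 = l := by
    rcases step_cases hG p with h | ⟨_, h⟩
    · constructor
      · intro h'
        exact absurd (h' ▸ hG.symm h.2.1) (hl _ _)
      · intro h'
        exact absurd (h' ▸ h.2.1) (hl _ _)
    · rw [h]
  simp only [mem_ofPred_eq, ne_eq, hstay, ← hI p]

open Classical in
/-- Effect of the bars of one leaf on the number of invariant sets. -/
theorem leaf_step [Finite V] (hG : Good B) (hl : ∀ u t, ¬ B l u t) (hτ : Function.Injective τ)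
    (hpos : ∀ i, 0 < τ i) (hτB : ∀ i u, ¬ B y u (τ i)) (hly : l ≠ y) (n : ℕ) :
    zc (addBars B l y τ n) * 2 ^ (if n = 1 then 1 else if n = 2 ∧
      ¬ (∀ I, Inv B I → ((y, τ 0) ∈ I ↔ (y, τ 1) ∈ I)) then 2 else 0) ≤
      zc B * 2 ^ (n - 2) := by
  have hgood := good_addBars (τ := τ) hG hl hτ hpos hτB hly
  have hfresh := leaf_fresh (τ := τ) (B := B) hl hτ hτB hly
  -- first bar
  have h1 : 2 * zc (addBars B l y τ 1) ≤ zc B := by
    rw [addBars_succ, addBars_zero]
    have h := hfresh 0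
    rw [addBars_zero] at h
    refine two_mul_zc_addBar_le hG hly (hpos 0) h.1 h.2 ⟨{p | (p.1 = l ∧ True) ∨ (p.1 ≠ l ∧
      p ∈ (∅ : Set (V × ℝ)))}, inv_leaf hG hl (fun p => by simp) _, ?_, ?_⟩
    · simp
    · simp [hly.symm]
  -- further bars
  have h2 : ∀ k, zc (addBars B l y τ (k + 1)) ≤ 2 ^ k * zc (addBars B l y τ 1) := by
    intro k
    induction k with
    | zero => simp
    | succ k ih =>
      rw [addBars_succ]
      have h := hfresh (k + 1)
      refine (zc_addBar_le (hgood (k + 1)) (hpos _) h.1 h.2).trans ?_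
      rw [pow_succ]
      nlinarith
  rcases Nat.lt_trichotomy n 2 with hn | hn | hn
  · interval_cases n
    · simp [addBars_zero]
    · simp only [if_true, pow_one]
      have : 1 - 2 = 0 := rfl
      rw [this]
      omega
  · subst hn
    by_cases hR : ∀ I, Inv B I → ((y, τ 0) ∈ I ↔ (y, τ 1) ∈ I)
    · have := h2 1
      simp only [Nat.reduceAdd] at this
      rw [if_neg (by norm_num), if_neg (by tauto)]
      simp
      omega
    · have h3 : 2 * zc (addBars B l y τ 2) ≤ zc (addBars B l y τ 1) := by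
        rw [addBars_succ (n := 1)]
        have h := hfresh 1
        refine two_mul_zc_addBar_le (hgood 1) hly (hpos 1) h.1 h.2 ?_
        push Not at hR
        obtain ⟨I, hI, hI'⟩ := hR
        -- wlog `(y, τ 0) ∈ I`, otherwise complement
        have key : ∀ I : Set (V × ℝ), Inv B I → ((y, τ 0) ∈ I ∧ (y, τ 1) ∉ I) →
            ∃ I, Inv (addBars B l y τ 1) I ∧ (l, τ 1) ∈ I ∧ (y, τ 1) ∉ I := by
          rintro I hI ⟨h4, h5⟩
          refine ⟨{p | (p.1 = l ∧ True) ∨ (p.1 ≠ l ∧ p ∈ I)}, ?_, ?_, ?_⟩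
          · rw [addBars_succ, addBars_zero]
            have h6 := hfresh 0
            rw [addBars_zero] at h6
            refine (inv_addBar_iff hG (hpos 0) h6.1 h6.2 ?_).mpr (inv_leaf hG hl hI _)
            simp [hly.symm, h4]
          · simp
          · simp [hly.symm, h5]
        rcases hI' with h4 | h4
        · exact key I hI h4
        · exact key Iᶜ hI.compl ⟨by simpa using h4.1, by simpa using h4.2⟩
      rw [if_neg (by norm_num), if_pos ⟨rfl, hR⟩]
      simp
      omega
  · rw [if_neg (by omega), if_neg (by omega)]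
    obtain ⟨k, hk⟩ : ∃ k, n = k + 3 := ⟨n - 3, by omega⟩
    subst hk
    have := h2 (k + 2)
    have e : k + 3 - 2 = k + 1 := by omega
    rw [e]
    calc zc (addBars B l y τ (k + 3)) * 2 ^ 0 ≤ 2 ^ (k + 2) * zc (addBars B l y τ 1) := by
          simpa using this
      _ = 2 ^ (k + 1) * (2 * zc (addBars B l y τ 1)) := by ring
      _ ≤ 2 ^ (k + 1) * zc B := Nat.mul_le_mul_left _ h1
      _ = _ := by ring

end leaf

end Pool.Agent.H98.RS
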