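import Pool.Agent.H98.RSMarks

/-! The finite rooted graph attached to the vertices of the tree: deterministic part. -/

set_option autoImplicit false

open Set

namespace Pool.Agent.H98.RS

/-- tree vertices of the gadget -/
abbrev TV (n d : ℕ) := {u : List (Fin d) // u.length ≤ n}
/-- vertices of the gadget: tree vertices, the hub `inr none`, the leaves `inr (some r)` -/
abbrev GV (n d k : ℕ) := TV n d ⊕ Option (Fin k)
/-- tree edges, named by their lower end -/
abbrev TE (n d : ℕ) := {c : List (Fin d) // c ≠ [] ∧ c.length ≤ n}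
/-- edges from the bottom of the tree to the hub -/
abbrev YE (n d : ℕ) := {l : List (Fin d) // l.length = n}
/-- edges of the gadget -/
abbrev GE (n d k : ℕ) := TE n d ⊕ (YE n d ⊕ Fin k)

variable {n d k : ℕ}

/-- endpoints of the edges -/
def gends : GE n d k → GV n d k × GV n d k
  | Sum.inl c => (Sum.inl ⟨c.1.tail, by
      have := c.2.2
      simp only [List.length_tail]
      omega⟩, Sum.inl ⟨c.1, c.2.2⟩)
  | Sum.inr (Sum.inl l) => (Sum.inl ⟨l.1, l.2.le⟩, Sum.inr none)
  | Sum.inr (Sum.inr r) => (Sum.inr (some r), Sum.inr none)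

/-- the root of the gadget -/
def groot : GV n d k := Sum.inl ⟨[], Nat.zero_le _⟩
/-- the hub -/
def ghub : GV n d k := Sum.inr none

/-- number of bars on a tree edge -/
def tN (η : GE n d k → Marks) (c : List (Fin d)) : ℕ :=
  if h : c ≠ [] ∧ c.length ≤ n then (η (Sum.inl ⟨c, h⟩)).1 else 0

/-- number of bars on an edge to the hub -/
def yN (η : GE n d k → Marks) (l : List (Fin d)) : ℕ :=
  if h : l.length = n then (η (Sum.inr (Sum.inl ⟨l, h⟩))).1 else 0

/-- `c` lies below `u` and all the tree edges from `u` to `c` have bars -/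
def conn (η : GE n d k → Marks) (u c : List (Fin d)) : Prop :=
  u <:+ c ∧ ∀ c', c' <:+ c → u.length < c'.length → 1 ≤ tN η c'

lemma conn_refl (η : GE n d k → Marks) (u : List (Fin d)) : conn η u u :=
  ⟨List.suffix_rfl, fun c' h h' => absurd h.length_le (not_le.mpr h')⟩

lemma conn_cons_iff (η : GE n d k → Marks) (u c : List (Fin d)) (i : Fin d) :
    conn η u (i :: c) ↔ i :: c = u ∨ (conn η u c ∧ 1 ≤ tN η (i :: c)) := by
  constructor
  · rintro ⟨h1, h2⟩
    rw [List.suffix_cons_iff] at h1
    rcases h1 with h1 | h1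
    · left; exact h1.symm
    · right
      refine ⟨⟨h1, fun c' h3 h4 => h2 c' (h3.trans (List.suffix_cons i c)) h4⟩, ?_⟩
      apply h2 _ List.suffix_rfl
      have := h1.length_le
      simp only [List.length_cons]
      omega
  · rintro (h | ⟨⟨h1, h2⟩, h3⟩)
    · rw [h]; exact conn_refl η u
    · refine ⟨h1.trans (List.suffix_cons i c), fun c' h4 h5 => ?_⟩
      rw [List.suffix_cons_iff] at h4
      rcases h4 with h4 | h4
      · rw [h4]; exact h3
      · exact h2 c' h4 h5

lemma locFin_gends : LocFin (gends : GE n d k → GV n d k × GV n d k) := by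
  intro v
  have h1 : Finite (TE n d) := by
    have : Finite {c : List (Fin d) // c.length ≤ n} := List.finite_length_le _ _
    exact Finite.of_injective (fun c : TE n d => (⟨c.1, c.2.2⟩ : {c : List (Fin d) // c.length ≤ n}))
      (fun a b h => Subtype.ext (by simpa using h))
  have h2 : Finite (YE n d) := List.finite_length_eq _ _
  exact Set.toFinite _

instance : Finite (GV n d k) := by
  have : Finite {c : List (Fin d) // c.length ≤ n} := List.finite_length_le _ _
  infer_instance

/-- a bar of the gadget -/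
lemma gbar_cases {η : GE n d k → Marks} {x y : GV n d k} {t : ℝ} (h : bars gends η x y t) :
    (∃ (c : TE n d) (i : ℕ), i < (η (Sum.inl c)).1 ∧ (η (Sum.inl c)).2 i = t ∧
      ((x = (gends (k := k) (Sum.inl c)).1 ∧ y = Sum.inl ⟨c.1, c.2.2⟩) ∨
       (y = (gends (k := k) (Sum.inl c)).1 ∧ x = Sum.inl ⟨c.1, c.2.2⟩))) ∨
    (∃ (l : YE n d) (i : ℕ), i < (η (Sum.inr (Sum.inl l))).1 ∧
      (η (Sum.inr (Sum.inl l))).2 i = t ∧
      ((x = Sum.inl ⟨l.1, l.2.le⟩ ∧ y = ghub) ∨ (y = Sum.inl ⟨l.1, l.2.le⟩ ∧ x = ghub))) ∨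
    (∃ (r : Fin k) (i : ℕ), i < (η (Sum.inr (Sum.inr r))).1 ∧
      (η (Sum.inr (Sum.inr r))).2 i = t ∧
      ((x = Sum.inr (some r) ∧ y = ghub) ∨ (y = Sum.inr (some r) ∧ x = ghub))) := by
  obtain ⟨e, h1, i, h2, h3⟩ := h
  rcases e with c | l | r
  · left
    refine ⟨c, i, h2, h3, ?_⟩
    rcases h1 with h | h
    · left; exact ⟨h.1.symm, h.2.symm⟩
    · right; exact ⟨h.1.symm, h.2.symm⟩
  · right; left
    refine ⟨l, i, h2, h3, ?_⟩
    rcases h1 with h | h
    · left; exact ⟨h.1.symm, h.2.symm⟩
    · right; exact ⟨h.1.symm, h.2.symm⟩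
  · right; right
    refine ⟨r, i, h2, h3, ?_⟩
    rcases h1 with h | h
    · left; exact ⟨h.1.symm, h.2.symm⟩
    · right; exact ⟨h.1.symm, h.2.symm⟩

/-- The bars between a region of the tree below `u` and its complement. The region consists of
the vertices connected to `u` that are not below `c₀`. -/
lemma region_cross {η : GE n d k → Marks} (u : List (Fin d)) (c₀ : Option (List (Fin d)))
    {x y : GV n d k} {t : ℝ}
    (hx : ∃ c : TV n d, x = Sum.inl c ∧ conn η u c.1 ∧ ∀ z ∈ c₀, ¬ z <:+ c.1)
    (hy : ¬ ∃ c : TV n d, y = Sum.inl c ∧ conn η u c.1 ∧ ∀ z ∈ c₀, ¬ z <:+ c.1)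
    (h : bars gends η x y t) :
    (∃ (c : TE n d) (i : ℕ), i < (η (Sum.inl c)).1 ∧ (η (Sum.inl c)).2 i = t ∧ some c.1 = c₀ ∧
      x = (gends (k := k) (Sum.inl c)).1 ∧ y = Sum.inl ⟨c.1, c.2.2⟩) ∨
    (∃ (c : TE n d) (i : ℕ), i < (η (Sum.inl c)).1 ∧ (η (Sum.inl c)).2 i = t ∧ c.1 = u ∧
      y = (gends (k := k) (Sum.inl c)).1 ∧ x = Sum.inl ⟨c.1, c.2.2⟩) ∨
    (∃ (l : YE n d) (i : ℕ), i < (η (Sum.inr (Sum.inl l))).1 ∧
      (η (Sum.inr (Sum.inl l))).2 i = t ∧ conn η u l.1 ∧ (∀ z ∈ c₀, ¬ z <:+ l.1) ∧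
      x = Sum.inl ⟨l.1, l.2.le⟩ ∧ y = ghub) := by
  obtain ⟨cx, hcx, hcx1, hcx2⟩ := hx
  rcases gbar_cases h with ⟨c, i, hi, hit, hc⟩ | ⟨l, i, hi, hit, hc⟩ | ⟨r, i, hi, hit, hc⟩
  · obtain ⟨c, hcne, hcn⟩ := c
    obtain ⟨j, c', rfl⟩ : ∃ j c', c = j :: c' := by
      cases c with
      | nil => exact absurd rfl hcne
      | cons j c' => exact ⟨j, c', rfl⟩
    have htN : 1 ≤ tN η (j :: c') := by
      rw [tN, dif_pos ⟨hcne, hcn⟩]
      omega
    rcases hc with ⟨h1, h2⟩ | ⟨h1, h2⟩
    · left
      refine ⟨⟨j :: c', hcne, hcn⟩, i, hi, hit, ?_, h1, h2⟩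
      have e1 : cx.1 = c' := by
        rw [hcx] at h1
        have := Sum.inl.inj h1
        rw [this]
        rfl
      have hconn : conn η u (j :: c') := by
        rw [conn_cons_iff]
        right
        exact ⟨e1 ▸ hcx1, htN⟩
      by_contra hne
      apply hy
      refine ⟨⟨j :: c', hcn⟩, h2, hconn, fun z hz hzs => ?_⟩
      rw [List.suffix_cons_iff] at hzs
      rcases hzs with hzs | hzs
      · apply hne
        change some (j :: c') = c₀
        rw [← hzs]
        exact (Option.mem_def.mp hz).symm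
      · exact hcx2 z hz (e1 ▸ hzs)
    · right; left
      refine ⟨⟨j :: c', hcne, hcn⟩, i, hi, hit, ?_, h1, h2⟩
      have e1 : cx.1 = j :: c' := by
        rw [hcx] at h2
        have := Sum.inl.inj h2
        rw [this]
      rw [e1, conn_cons_iff] at hcx1
      rcases hcx1 with h3 | ⟨h3, _⟩
      · exact h3
      · exfalso
        apply hy
        refine ⟨⟨c', by simp only [List.length_cons] at hcn; omega⟩, h1, h3, fun z hz hzs => ?_⟩
        apply hcx2 z hz
        rw [e1]
        exact hzs.trans (List.suffix_cons _ _)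
  · rcases hc with ⟨h1, h2⟩ | ⟨h1, h2⟩
    · right; right
      refine ⟨l, i, hi, hit, ?_, ?_, h1, h2⟩
      · rw [hcx] at h1
        have := Sum.inl.inj h1
        rw [this] at hcx1
        exact hcx1
      · rw [hcx] at h1
        have := Sum.inl.inj h1
        rw [this] at hcx2
        exact hcx2
    · rw [hcx] at h2
      simp [ghub] at h2
  · rcases hc with ⟨h1, h2⟩ | ⟨h1, h2⟩
    · rw [hcx] at h1
      simp at h1
    · rw [hcx] at h2
      simp [ghub] at h2

lemma good_gbars {η : GE n d k → Marks} (hη : Generic η) : Good (bars gends η) :=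
  good_bars locFin_gends hη

lemma tN_eq {η : GE n d k → Marks} (c : TE n d) : tN η c.1 = (η (Sum.inl c)).1 := by
  rw [tN, dif_pos c.2]

lemma yN_eq {η : GE n d k → Marks} (l : YE n d) : yN η l.1 = (η (Sum.inr (Sum.inl l))).1 := by
  rw [yN, dif_pos l.2]

/-- Conservation across the edge above `c` (with one bar), when everything above is closed. -/
lemma agree_above {η : GE n d k → Marks} (hη : Generic η) {I : Set (GV n d k × ℝ)}
    (hI : Inv (bars gends η) I) (u : List (Fin d)) (c : TE n d)
    (hu : ∀ c' : TE n d, c'.1 = u → (η (Sum.inl c')).1 = 0)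
    (huc : conn η u c.1.tail) (h1 : (η (Sum.inl c)).1 = 1)
    (hy : ∀ l : YE n d, conn η u l.1 → ¬ c.1 <:+ l.1 → (η (Sum.inr (Sum.inl l))).1 = 0) :
    ((gends (k := k) (Sum.inl c)).1, (η (Sum.inl c)).2 0) ∈ I ↔
      ((gends (k := k) (Sum.inl c)).2, (η (Sum.inl c)).2 0) ∈ I := by
  have hG := good_gbars hη
  set W : Set (GV n d k) := {x | ∃ c' : TV n d, x = Sum.inl c' ∧ conn η u c'.1 ∧
    ∀ z ∈ some c.1, ¬ z <:+ c'.1} with hW
  have hlen : ∀ c : TE n d, c.1.tail.length < c.1.length := by
    intro c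
    have := List.length_pos_iff.mpr c.2.1
    rw [List.length_tail]
    omega
  refine Inv.conservation hG hI ((finite_isSt hG).subset (fun p hp => hp.1)) (W := W) ?_ ?_ ?_ ?_
  · refine ⟨⟨c.1.tail, by have := hlen c; have := c.2.2; omega⟩, rfl, huc, ?_⟩
    intro z hz hzs
    rw [Option.mem_some] at hz
    subst hz
    have h := hzs.length_le
    change c.1.length ≤ c.1.tail.length at h
    have := hlen c
    omega
  · rintro ⟨c', h2, _, h4⟩
    have h5 : c.1 = c'.1 := by
      have := Sum.inl.inj h2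
      rw [← this]
    exact h4 c.1 rfl (by rw [h5])
  · exact ⟨Sum.inl c, Or.inl ⟨rfl, rfl⟩, 0, by rw [h1]; norm_num, rfl⟩
  · intro x y t hx hy' hB
    rcases region_cross u (some c.1) hx hy' hB with ⟨c', i, hi, hit, hc, hx', hy''⟩ |
      ⟨c', i, hi, hit, hc, hx', hy''⟩ | ⟨l, i, hi, hit, hl1, hl2, hx', hy''⟩
    · have : c' = c := Subtype.ext (Option.some.inj hc)
      subst this
      rw [h1] at hi
      have : i = 0 := by omega
      subst this
      exact ⟨hx', hy'', hit.symm⟩
    · rw [hu c' hc] at hi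
      exact absurd hi (Nat.not_lt_zero _)
    · rw [hy l hl1 (hl2 c.1 rfl)] at hi
      exact absurd hi (Nat.not_lt_zero _)

/-- The part of the gadget below `c`, when it is not linked to the hub, is attached by the bars
of the edge `c` only. -/
lemma below_cross {η : GE n d k → Marks} (c : TE n d)
    (hy : ∀ l : YE n d, conn η c.1 l.1 → (η (Sum.inr (Sum.inl l))).1 = 0)
    (h1 : (η (Sum.inl c)).1 ≤ 1) {t₀ : ℝ}
    (hB : bars gends η (gends (k := k) (Sum.inl c)).2 (gends (k := k) (Sum.inl c)).1 t₀) :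
    ∃ W : Set (GV n d k), (gends (k := k) (Sum.inl c)).2 ∈ W ∧
      (gends (k := k) (Sum.inl c)).1 ∉ W ∧
      ∀ x y t, x ∈ W → y ∉ W → bars gends η x y t →
        x = (gends (k := k) (Sum.inl c)).2 ∧ y = (gends (k := k) (Sum.inl c)).1 ∧ t = t₀ := by
  have hlen : ∀ c : TE n d, c.1.tail.length < c.1.length := by
    intro c
    have := List.length_pos_iff.mpr c.2.1
    rw [List.length_tail]
    omega
  set W : Set (GV n d k) := {x | ∃ c' : TV n d, x = Sum.inl c' ∧ conn η c.1 c'.1 ∧
    ∀ z ∈ (none : Option (List (Fin d))), ¬ z <:+ c'.1} with hW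
  have hmem : (gends (k := k) (Sum.inl c)).2 ∈ W :=
    ⟨⟨c.1, c.2.2⟩, rfl, conn_refl η _, fun z hz => by simp at hz⟩
  have hnot : (gends (k := k) (Sum.inl c)).1 ∉ W := by
    rintro ⟨c', h2, h3, _⟩
    have h4 : c'.1 = c.1.tail := by
      have := Sum.inl.inj h2
      rw [← this]
    have := h3.1.length_le
    rw [h4] at this
    have := hlen c
    omega
  have hcross : ∀ x y t, x ∈ W → y ∉ W → bars gends η x y t →
      (η (Sum.inl c)).1 = 1 ∧ (η (Sum.inl c)).2 0 = t ∧
        x = (gends (k := k) (Sum.inl c)).2 ∧ y = (gends (k := k) (Sum.inl c)).1 := by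
    intro x y t hx hy' hB
    rcases region_cross c.1 none hx hy' hB with ⟨c', i, hi, hit, hc, hx', hy''⟩ |
      ⟨c', i, hi, hit, hc, hx', hy''⟩ | ⟨l, i, hi, hit, hl1, hl2, hx', hy''⟩
    · exact absurd hc (by simp)
    · have : c' = c := Subtype.ext hc
      subst this
      have : i = 0 := by omega
      subst this
      exact ⟨by omega, hit, hy'', hx'⟩
    · rw [hy l hl1] at hi
      exact absurd hi (Nat.not_lt_zero _)
  have h0 := hcross _ _ _ hmem hnot hB
  refine ⟨W, hmem, hnot, fun x y t hx hy' hB' => ?_⟩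
  have h2 := hcross x y t hx hy' hB'
  exact ⟨h2.2.2.1, h2.2.2.2, h2.2.1.symm.trans h0.2.1⟩

/-- Cleanness of the root of the gadget. -/
theorem clean_root {η : GE n d k → Marks} (hc1 : ∀ c : TE n d, c.1.length = 1 →
      (η (Sum.inl c)).1 ≤ 1)
    (hy : ∀ l : YE n d, conn η [] l.1 → (η (Sum.inr (Sum.inl l))).1 = 0) (hn : 0 < n)
    (x : GV n d k) (t : ℝ) (hB : bars gends η groot x t) :
    ∃ W : Set (GV n d k), x ∈ W ∧ groot ∉ W ∧
      ∀ p q s, p ∈ W → q ∉ W → bars gends η p q s → p = x ∧ q = groot ∧ s = t := by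
  rcases gbar_cases hB with ⟨c, i, hi, hit, hc⟩ | ⟨l, i, hi, hit, hc⟩ | ⟨r, i, hi, hit, hc⟩
  · rcases hc with ⟨h1, h2⟩ | ⟨h1, h2⟩
    · have h3 : c.1.tail = [] := by
        have := Sum.inl.inj h1
        exact (congrArg Subtype.val this).symm
      have hlen : c.1.length = 1 := by
        have h4 := List.length_pos_iff.mpr c.2.1
        have h5 : c.1.tail.length = 0 := by rw [h3]; rfl
        rw [List.length_tail] at h5
        omega
      have hx : x = (gends (k := k) (Sum.inl c)).2 := h2
      have hr : groot = (gends (k := k) (Sum.inl c)).1 := h1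
      have hy' : ∀ l : YE n d, conn η c.1 l.1 → (η (Sum.inr (Sum.inl l))).1 = 0 := by
        intro l hl
        apply hy l
        refine ⟨List.nil_suffix, fun c' h4 h5 => ?_⟩
        rcases Nat.lt_or_ge 1 c'.length with h6 | h6
        · exact hl.2 c' h4 (by omega)
        · have h7 : c'.length = 1 := by
            simp only [List.length_nil] at h5
            omega
          have h8 : c' = c.1 := by
            have h9 : c' <:+ c.1 := List.suffix_of_suffix_length_le h4 hl.1 (by omega)
            exact h9.eq_of_length (by omega)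
          rw [h8, tN_eq c]
          omega
      obtain ⟨W, hW1, hW2, hW3⟩ := below_cross (k := k) c hy' (hc1 c hlen) (t₀ := t) (by
        rw [← hx, ← hr]
        exact ⟨Sum.inl c, Or.inr ⟨hr.symm, hx.symm⟩, i, hi, hit⟩)
      refine ⟨W, hx ▸ hW1, hr ▸ hW2, fun p q s hp hq hpq => ?_⟩
      rw [hx, hr]
      exact hW3 p q s hp hq hpq
    · exfalso
      have : c.1 = [] := by
        have := Sum.inl.inj h2
        exact (congrArg Subtype.val this).symm
      exact c.2.1 this
  · exfalso
    rcases hc with ⟨h1, h2⟩ | ⟨h1, h2⟩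
    · have h3 : l.1 = [] := by
        have := Sum.inl.inj h1
        exact (congrArg Subtype.val this).symm
      have := l.2
      rw [h3] at this
      simp at this
      omega
    · simp [groot, ghub] at h2
  · exfalso
    rcases hc with ⟨h1, h2⟩ | ⟨h1, h2⟩
    · simp [groot] at h1
    · simp [groot, ghub] at h2

lemma conn_trans {η : GE n d k → Marks} {u c l : List (Fin d)} (h1 : conn η u c)
    (h2 : conn η c l) : conn η u l := by
  refine ⟨h1.1.trans h2.1, fun c' h3 h4 => ?_⟩
  rcases Nat.lt_or_ge c.length c'.length with h5 | h5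
  · exact h2.2 c' h3 h5
  · exact h1.2 c' (List.suffix_of_suffix_length_le h3 h2.1 h5) h4

/-- A clean path: the membership in an invariant set is the same along the path. -/
theorem clean_path {η : GE n d k → Marks} (hη : Generic η) (L : YE n d) (u : List (Fin d))
    (huL : u <:+ L.1)
    (ha : ∀ c' : TE n d, c'.1 = u → (η (Sum.inl c')).1 = 0)
    (hb : ∀ c : TE n d, c.1 <:+ L.1 → u.length < c.1.length → (η (Sum.inl c)).1 = 1)
    (hyL : (η (Sum.inr (Sum.inl L))).1 = 1)
    (hc : ∀ c : TE n d, c.1.tail <:+ L.1 → u.length < c.1.length → (η (Sum.inl c)).1 ≤ 1)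
    (hd : ∀ l : YE n d, l ≠ L → conn η u l.1 → (η (Sum.inr (Sum.inl l))).1 = 0)
    {I : Set (GV n d k × ℝ)} (hI : Inv (bars gends η) I) (c : TV n d) (hcL : c.1 <:+ L.1)
    (huc : u.length ≤ c.1.length) (s : ℝ) :
    (Sum.inl c, s) ∈ I ↔ (ghub, (η (Sum.inr (Sum.inl L))).2 0) ∈ I := by
  have hG := good_gbars hη
  have hlen : ∀ c : TE n d, c.1.length = c.1.tail.length + 1 := by
    intro c
    have := List.length_pos_iff.mpr c.2.1
    rw [List.length_tail]
    omega
  have hconn : ∀ v : List (Fin d), v <:+ L.1 → u.length ≤ v.length → conn η u v := by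
    intro v hv huv
    refine ⟨List.suffix_of_suffix_length_le huL hv huv, fun c' h1 h2 => ?_⟩
    have h3 : c' ≠ [] := by
      rintro rfl
      simp at h2
    have h4 : c'.length ≤ n := by
      have h5 := (h1.trans hv).length_le
      rw [L.2] at h5
      exact h5
    have := hb ⟨c', h3, h4⟩ (h1.trans hv) h2
    rw [tN_eq ⟨c', h3, h4⟩, this]
  -- edges of the path
  have step1 : ∀ c : TE n d, c.1 <:+ L.1 → u.length < c.1.length →
      (((gends (k := k) (Sum.inl c)).1, (η (Sum.inl c)).2 0) ∈ I ↔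
      ((gends (k := k) (Sum.inl c)).2, (η (Sum.inl c)).2 0) ∈ I) := by
    intro c h1 h2
    refine agree_above hη hI u c ha (hconn _ ((List.tail_suffix _).trans h1) ?_) (hb c h1 h2) ?_
    · have := hlen c
      omega
    · intro l hl hcl
      apply hd l _ hl
      rintro rfl
      exact hcl h1
  -- other edges at the path
  have step2 : ∀ c : TE n d, c.1.tail <:+ L.1 → u.length < c.1.length → ¬ c.1 <:+ L.1 →
      ∀ i, i < (η (Sum.inl c)).1 → (((gends (k := k) (Sum.inl c)).1, (η (Sum.inl c)).2 i) ∈ I ↔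
      ((gends (k := k) (Sum.inl c)).2, (η (Sum.inl c)).2 i) ∈ I) := by
    intro c h1 h2 h3 i hi
    have h4 := hc c h1 h2
    have h5 : i = 0 := by omega
    subst h5
    have h6 : conn η u c.1 := by
      obtain ⟨c, hcne, hcn⟩ := c
      cases c with
      | nil => exact absurd rfl hcne
      | cons j c' =>
        rw [conn_cons_iff]
        right
        refine ⟨hconn _ h1 ?_, ?_⟩
        · simp only [List.length_cons] at h2
          omega
        · rw [tN_eq (k := k) ⟨j :: c', hcne, hcn⟩]
          omega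
    have hB : bars gends η (gends (k := k) (Sum.inl c)).2 (gends (k := k) (Sum.inl c)).1
        ((η (Sum.inl c)).2 0) := ⟨Sum.inl c, Or.inr ⟨rfl, rfl⟩, 0, hi, rfl⟩
    obtain ⟨W, hW1, hW2, hW3⟩ := below_cross (k := k) c (fun l hl => hd l (by
      rintro rfl
      exact h3 hl.1) (conn_trans h6 hl)) h4 hB
    exact (Inv.conservation hG hI ((finite_isSt hG).subset (fun p hp => hp.1)) hW1 hW2 hB hW3).symm
  -- the edge to the hub
  have hLn : L.1.length = n := L.2
  have step3 : ((Sum.inl ⟨L.1, L.2.le⟩ : GV n d k), (η (Sum.inr (Sum.inl L))).2 0) ∈ I ↔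
      (ghub, (η (Sum.inr (Sum.inl L))).2 0) ∈ I := by
    refine Inv.conservation hG hI ((finite_isSt hG).subset (fun p hp => hp.1))
      (W := {x | ∃ c' : TV n d, x = Sum.inl c' ∧ conn η u c'.1 ∧
        ∀ z ∈ (none : Option (List (Fin d))), ¬ z <:+ c'.1}) ?_ ?_ ?_ ?_
    · exact ⟨⟨L.1, L.2.le⟩, rfl, hconn _ List.suffix_rfl (huL.length_le), fun z hz => by
        simp at hz⟩
    · rintro ⟨c', h, _⟩
      simp [ghub] at h
    · exact ⟨Sum.inr (Sum.inl L), Or.inl ⟨rfl, rfl⟩, 0, by rw [hyL]; norm_num, rfl⟩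
    · intro x y t hx hy' hB
      rcases region_cross u none hx hy' hB with ⟨c', i, hi, hit, hc', hx', hy''⟩ |
        ⟨c', i, hi, hit, hc', hx', hy''⟩ | ⟨l, i, hi, hit, hl1, hl2, hx', hy''⟩
      · exact absurd hc' (by simp)
      · rw [ha c' hc'] at hi
        exact absurd hi (Nat.not_lt_zero _)
      · by_cases hl : l = L
        · subst hl
          rw [hyL] at hi
          have : i = 0 := by omega
          subst this
          exact ⟨hx', hy'', hit.symm⟩
        · rw [hd l hl hl1] at hi
          exact absurd hi (Nat.not_lt_zero _)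
  -- all bars at a path vertex agree
  have step4 : ∀ c : TV n d, c.1 <:+ L.1 → u.length ≤ c.1.length → ∀ (x : GV n d k) (t : ℝ),
      bars gends η (Sum.inl c) x t → ((Sum.inl c, t) ∈ I ↔ (x, t) ∈ I) := by
    intro c h1 h2 x t hB
    rcases gbar_cases hB with ⟨c', i, hi, hit, hc'⟩ | ⟨l, i, hi, hit, hl⟩ | ⟨r, i, hi, hit, hr⟩
    · rcases hc' with ⟨h3, h4⟩ | ⟨h3, h4⟩
      · -- `c'` is a child
        have h5 : c'.1.tail = c.1 := by
          have := Sum.inl.inj h3
          rw [this]
        have h7 := hlen c'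
        by_cases h6 : c'.1 <:+ L.1
        · have h8 := hb c' h6 (by rw [h5] at h7; omega)
          have : i = 0 := by omega
          subst this
          have := step1 c' h6 (by rw [h5] at h7; omega)
          rw [h3, h4, ← hit]
          exact this
        · have := step2 c' (h5 ▸ h1) (by rw [h5] at h7; omega) h6 i hi
          rw [h3, h4, ← hit]
          exact this
      · -- `c' = c`
        have h5 : c'.1 = c.1 := by
          have := Sum.inl.inj h4
          rw [this]
        by_cases h6 : c'.1 = u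
        · rw [ha c' h6] at hi
          exact absurd hi (Nat.not_lt_zero _)
        · have h7 : u.length < c'.1.length := by
            rcases Nat.lt_or_ge u.length c'.1.length with h | h
            · exact h
            · exfalso
              apply h6
              have h8 : c'.1 <:+ L.1 := h5 ▸ h1
              exact (List.suffix_of_suffix_length_le h8 huL h).eq_of_length
                (le_antisymm h (by rw [h5]; exact h2))
          have h8 := hb c' (h5 ▸ h1) h7
          have : i = 0 := by omega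
          subst this
          have := step1 c' (h5 ▸ h1) h7
          rw [h3, h4, ← hit]
          exact this.symm
    · rcases hl with ⟨h3, h4⟩ | ⟨h3, h4⟩
      · have h5 : l.1 = c.1 := by
          have := Sum.inl.inj h3
          rw [this]
        have h6 : l = L := by
          apply Subtype.ext
          have h7 : l.1 <:+ L.1 := h5 ▸ h1
          exact h7.eq_of_length (by rw [l.2, L.2])
        subst h6
        have : i = 0 := by omega
        subst this
        rw [h3, h4, ← hit]
        exact step3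
      · simp [ghub] at h4
    · rcases hr with ⟨h3, h4⟩ | ⟨h3, h4⟩
      · simp at h3
      · simp [ghub] at h4
  -- along the path
  have step5 : ∀ m : ℕ, ∀ c : TV n d, c.1 <:+ L.1 → u.length ≤ c.1.length →
      n - c.1.length = m → ∀ s, ((Sum.inl c, s) ∈ I ↔
        (ghub, (η (Sum.inr (Sum.inl L))).2 0) ∈ I) := by
    intro m
    induction m with
    | zero =>
      intro c h1 h2 h3 s
      have h4 : c.1.length = n := by have := c.2; omega
      have h5 : c = ⟨L.1, L.2.le⟩ := Subtype.ext (h1.eq_of_length (by rw [h4, hLn]))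
      subst h5
      rw [← step3]
      exact hI.agree_all hG (step4 _ h1 h2) _ _
    | succ m ih =>
      intro c h1 h2 h3 s
      -- the next path vertex
      obtain ⟨p, hp⟩ := h1
      have hpne : p ≠ [] := by
        rintro rfl
        have : c.1.length = L.1.length := by rw [← hp]; simp
        omega
      obtain ⟨q, j, rfl⟩ : ∃ q j, p = q ++ [j] :=
        ⟨p.dropLast, p.getLast hpne, (List.dropLast_append_getLast hpne).symm⟩
      have h4 : (j :: c.1) <:+ L.1 := ⟨q, by rw [← hp]; simp⟩
      have h5 : (j :: c.1).length ≤ n := h4.length_le.trans_eq hLn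
      have h6 := step1 ⟨j :: c.1, by simp, h5⟩ h4 (by simp only [List.length_cons]; omega)
      have h7 := ih ⟨j :: c.1, h5⟩ h4 (by simp only [List.length_cons]; omega)
        (by simp only [List.length_cons]; omega) ((η (Sum.inl ⟨j :: c.1, by simp, h5⟩)).2 0)
      rw [← h7]
      have h8 : ((Sum.inl c : GV n d k), s) ∈ I ↔
          (Sum.inl c, (η (Sum.inl ⟨j :: c.1, by simp, h5⟩)).2 0) ∈ I :=
        hI.agree_all hG (step4 _ ⟨q ++ [j], hp⟩ h2) _ _
      rw [h8]
      exact h6
  exact step5 _ c hcL huc rfl s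

end Pool.Agent.H98.RS
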