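import Pool.Agent.H98.RSParam

/-! Choice of the parameters and the result for the decorated tree. -/

set_option autoImplicit false

open Set MeasureTheory ProbabilityTheory Filter
open scoped ENNReal NNReal Topology

namespace Pool.Agent.H98.RS

/-- The numerical choice. -/
lemma exists_params {δ : ℝ} (hδ : 0 < δ) (hδ1 : δ ≤ 1 / 100) :
    ∃ (n d b : ℕ) (T₁ T₂ : ℝ), 0 < n ∧ 2 ≤ d ∧ 2 ≤ b ∧ 0 < T₁ ∧ T₁ < T₂ ∧ T₂ ≤ 1 / 8 ∧
      2 ≤ d * T₂ ∧ (d : ℝ) ^ n * T₂ ^ (n + 1) = 1 / 32 ∧ 2 * n * d * T₂ ^ 2 ≤ 1 / 8 ∧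
      4 * ((n : ℝ) + 1) * T₂ ≤ 1 ∧ T₂ ≤ δ / 1000 ∧ d * T₁ ^ 2 ≤ δ / 1000 ∧
      (d : ℝ) ^ n * T₁ ^ (n + 1) ≤ δ / 1000 ∧ b * T₂ ≤ 1 + δ / 4 ∧ 1 + δ / 20 ≤ b * T₁ := by
  set ρ : ℝ := 1 / (1 + δ / 16) with hρ
  have hρ0 : 0 < ρ := by positivity
  have hρ1 : ρ < 1 := by
    rw [hρ, div_lt_one (by positivity)]
    linarith
  -- choice of `n`
  obtain ⟨m, hm⟩ : ∃ m : ℕ, ρ ^ m < δ / 1000 := exists_pow_lt_of_lt_one (by positivity) hρ1
  set n := m + 2 with hn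
  have hρn : ρ ^ (n + 1) ≤ δ / 1000 := by
    have h1 : ρ ^ (n + 1) ≤ ρ ^ m := pow_le_pow_of_le_one hρ0.le hρ1.le (by omega)
    linarith
  -- choice of `θ`
  set θ : ℝ := (1 / 32 : ℝ) ^ ((1 : ℝ) / ((n : ℝ) + 1)) with hθ
  have hn0 : (0 : ℝ) < (n : ℝ) + 1 := by positivity
  have hθ0 : 0 < θ := by positivity
  have hθn : θ ^ (n + 1) = 1 / 32 := by
    rw [hθ, ← Real.rpow_natCast, ← Real.rpow_mul (by norm_num)]
    push_cast
    rw [one_div_mul_cancel hn0.ne', Real.rpow_one]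
  have hθ1 : θ ≤ 1 := Real.rpow_le_one (by norm_num) (by norm_num) (by positivity)
  -- choice of `q`
  obtain ⟨q, hq⟩ := exists_nat_ge (2 / θ + 16 * n + 1000 / δ + 4 * (n + 1) + 8)
  have hp1 : 0 < 2 / θ := by positivity
  have hp2 : 0 < 1000 / δ := by positivity
  have hp3 : (0 : ℝ) ≤ n := Nat.cast_nonneg n
  have hq1 : 2 / θ ≤ q := by linarith
  have hq2 : 16 * (n : ℝ) ≤ q := by linarith
  have hq3 : 1000 / δ ≤ q := by linarith
  have hq4 : 4 * ((n : ℝ) + 1) ≤ q := by linarith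
  have hq5 : (8 : ℝ) ≤ q := by linarith
  have hq0 : (0 : ℝ) < q := by linarith
  have hq1' : (1 : ℝ) ≤ q := by linarith
  set T₂ : ℝ := θ / (q : ℝ) ^ n with hT₂
  have hT₂0 : 0 < T₂ := by positivity
  have hqn : (q : ℝ) ≤ (q : ℝ) ^ n := le_self_pow₀ hq1' (by omega)
  have hT₂q : T₂ ≤ 1 / q := by
    rw [hT₂]
    exact div_le_div₀ (by norm_num) hθ1 hq0 hqn
  have hT₂q' : T₂ * q ≤ 1 := by
    rw [le_div_iff₀ hq0] at hT₂q
    exact hT₂q
  set d := q ^ (n + 1) with hd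
  have hdT : (d : ℝ) * T₂ = θ * q := by
    rw [hd, hT₂]
    push_cast
    field_simp
    ring
  have hdT2 : (d : ℝ) * T₂ ^ 2 ≤ 1 / q := by
    have h1 : (d : ℝ) * T₂ ^ 2 = θ ^ 2 / (q : ℝ) ^ (m + 1) := by
      rw [hd, hT₂, hn]
      push_cast
      field_simp
      ring
    rw [h1]
    refine div_le_div₀ (by norm_num) (pow_le_one₀ hθ0.le hθ1) hq0 ?_
    exact le_self_pow₀ hq1' (by omega)
  have hdnT : (d : ℝ) ^ n * T₂ ^ (n + 1) = 1 / 32 := by
    rw [← hθn, hd, hT₂]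
    push_cast
    rw [div_pow, ← pow_mul, ← pow_mul]
    have : (n + 1) * n = n * (n + 1) := by ring
    rw [this]
    field_simp
  set T₁ : ℝ := T₂ * ρ with hT₁
  have hT₁0 : 0 < T₁ := by positivity
  have hT₁2 : T₁ < T₂ := by
    rw [hT₁]
    nlinarith
  set b := ⌈(1 + δ / 8) / T₂⌉₊ with hb
  have hb1 : 1 + δ / 8 ≤ b * T₂ := by
    have := Nat.le_ceil ((1 + δ / 8) / T₂)
    rw [div_le_iff₀ hT₂0] at this
    exact this
  have hb2 : b * T₂ ≤ 1 + δ / 8 + T₂ := by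
    have h1 : (b : ℝ) < (1 + δ / 8) / T₂ + 1 := Nat.ceil_lt_add_one (by positivity)
    have h2 := mul_lt_mul_of_pos_right h1 hT₂0
    have h3 : ((1 + δ / 8) / T₂ + 1) * T₂ = 1 + δ / 8 + T₂ := by
      field_simp
    linarith
  have hqinv : 1 / (q : ℝ) ≤ δ / 1000 := by
    rw [div_le_div_iff₀ hq0 (by norm_num)]
    rw [div_le_iff₀ hδ] at hq3
    linarith
  have hT₂s : T₂ ≤ δ / 1000 := hT₂q.trans hqinv
  have hb3 : 2 ≤ b := by
    by_contra hlt
    have h1 : b ≤ 1 := by omega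
    have h2 : (b : ℝ) ≤ 1 := by exact_mod_cast h1
    have h3 : (b : ℝ) * T₂ ≤ 1 * T₂ := mul_le_mul_of_nonneg_right h2 hT₂0.le
    linarith
  refine ⟨n, d, b, T₁, T₂, by omega, ?_, hb3, hT₁0, hT₁2, by linarith, ?_, hdnT, ?_, ?_, hT₂s,
    ?_, ?_, ?_, ?_⟩
  · rw [hd]
    have h8 : 8 ≤ q := by exact_mod_cast hq5
    calc 2 ≤ q := by omega
      _ ≤ q ^ (n + 1) := Nat.le_self_pow (by omega) q
  · rw [hdT]
    rw [div_le_iff₀ hθ0] at hq1
    linarith
  · have h1 : 2 * (n : ℝ) * d * T₂ ^ 2 = 2 * n * (d * T₂ ^ 2) := by ring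
    rw [h1]
    have h2 : 2 * (n : ℝ) * (d * T₂ ^ 2) ≤ 2 * n * (1 / q) :=
      mul_le_mul_of_nonneg_left hdT2 (by positivity)
    have h3 : 2 * (n : ℝ) * (1 / q) ≤ 1 / 8 := by
      rw [mul_one_div, div_le_div_iff₀ hq0 (by norm_num)]
      linarith
    linarith
  · have h1 : 4 * ((n : ℝ) + 1) * T₂ ≤ q * T₂ := mul_le_mul_of_nonneg_right hq4 hT₂0.le
    linarith
  · have h1 : T₁ ^ 2 ≤ T₂ ^ 2 := pow_le_pow_left₀ hT₁0.le hT₁2.le 2
    have h2 : (d : ℝ) * T₁ ^ 2 ≤ d * T₂ ^ 2 := mul_le_mul_of_nonneg_left h1 (Nat.cast_nonneg d)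
    linarith
  · rw [hT₁, mul_pow, ← mul_assoc, hdnT]
    linarith [pow_pos hρ0 (n + 1)]
  · linarith
  · have h1 : (b : ℝ) * T₁ = b * T₂ * ρ := by rw [hT₁]; ring
    rw [h1]
    have h2 : (1 + δ / 8) * ρ ≤ b * T₂ * ρ := mul_le_mul_of_nonneg_right hb1 hρ0.le
    refine le_trans ?_ h2
    rw [hρ, mul_one_div, le_div_iff₀ (by positivity)]
    nlinarith

/-- the numerical condition at the smaller time -/
lemma num_small {δ κ T : ℝ} {b : ℕ} (hδ : 0 < δ) (hδ1 : δ ≤ 1 / 100)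
    (hκ : κ ≤ δ / 500) (hT : 0 < T) (hTs : T ≤ δ / 1000) (hb1 : 1 + δ / 20 ≤ b * T)
    (hb2 : b * T ≤ 1 + δ / 4) :
    δ / 100 ≤ (1 - κ) * (((1 + T) * Real.exp (-T)) ^ b -
      ((1 + T) * Real.exp (-T) - T * Real.exp (-T) * (δ / 100)) ^ b) := by
  set u := (1 + T) * Real.exp (-T) with hu
  set p := T * Real.exp (-T) with hp
  set r := δ / 100 with hr
  have he0 := Real.exp_pos (-T)
  have he1 : 1 - T ≤ Real.exp (-T) := by
    have := Real.add_one_le_exp (-T)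
    linarith
  have he2 : Real.exp (-T) ≤ 1 := Real.exp_le_one_iff.mpr (by linarith)
  have hu1 : u ≤ 1 := by
    have h1 := Real.add_one_le_exp T
    have h2 : (1 + T) * Real.exp (-T) ≤ Real.exp T * Real.exp (-T) :=
      mul_le_mul_of_nonneg_right (by linarith) he0.le
    rw [← Real.exp_add, add_neg_cancel, Real.exp_zero] at h2
    exact h2
  have hu2 : 1 - T ^ 2 ≤ u := by
    rw [hu]
    nlinarith
  have hp0 : 0 < p := by positivity
  have hpT : p ≤ T := by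
    rw [hp]
    nlinarith
  have hr0 : 0 < r := by positivity
  have hr1 : r ≤ 1 := by rw [hr]; linarith
  have hpr : p * r ≤ T * r := mul_le_mul_of_nonneg_right hpT hr0.le
  have hv : 0 ≤ u - p * r := by
    have h1 : T * r ≤ T := by nlinarith
    nlinarith
  have hvu : u - p * r ≤ u := by
    have := mul_pos hp0 hr0
    linarith
  have h1 := pow_sub_pow_ge hv hvu hu1 b
  have h2 := pow_ge_bernoulli hv b
  have hb0 : (0 : ℝ) ≤ b := Nat.cast_nonneg b
  -- `b (1 - v) ≤ δ / 80`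
  have h3 : (b : ℝ) * (1 - (u - p * r)) ≤ δ / 60 := by
    have h4 : 1 - (u - p * r) ≤ T * (T + r) := by nlinarith
    have h5 : (b : ℝ) * (1 - (u - p * r)) ≤ b * (T * (T + r)) := mul_le_mul_of_nonneg_left h4 hb0
    have h6 : (b : ℝ) * (T * (T + r)) = (b * T) * (T + r) := by ring
    have h7 : (b * T) * (T + r) ≤ (1 + δ / 4) * (T + r) :=
      mul_le_mul_of_nonneg_right hb2 (by positivity)
    have h8 : (1 + δ / 4) * (T + r) ≤ δ / 60 := by
      rw [hr]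
      nlinarith
    linarith
  have h4 : 1 - δ / 60 ≤ (u - p * r) ^ b := by linarith
  have h5 : (b : ℝ) * (u - (u - p * r)) * (1 - δ / 60) ≤ u ^ b - (u - p * r) ^ b := by
    refine le_trans ?_ h1
    refine mul_le_mul_of_nonneg_left h4 ?_
    have : u - (u - p * r) = p * r := by ring
    rw [this]
    positivity
  have h6 : (b : ℝ) * (u - (u - p * r)) = b * p * r := by ring
  rw [h6] at h5
  have h7 : (1 + δ / 20) * (1 - T) ≤ b * p := by
    have h8 : (b : ℝ) * p = (b * T) * Real.exp (-T) := by rw [hp]; ring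
    rw [h8]
    exact mul_le_mul hb1 he1 (by linarith) (by positivity)
  have h8 : (1 + δ / 20) * (1 - δ / 1000) * r * (1 - δ / 60) ≤ u ^ b - (u - p * r) ^ b := by
    refine le_trans ?_ h5
    refine mul_le_mul_of_nonneg_right ?_ (by linarith)
    refine mul_le_mul_of_nonneg_right ?_ hr0.le
    refine le_trans ?_ h7
    refine mul_le_mul_of_nonneg_left (by linarith) (by positivity)
  have h9 : (1 - δ / 500) * ((1 + δ / 20) * (1 - δ / 1000) * r * (1 - δ / 60)) ≤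
      (1 - κ) * (u ^ b - (u - p * r) ^ b) := by
    refine mul_le_mul (by linarith) h8 ?_ (by linarith)
    have h10 : 0 ≤ 1 - δ / 1000 := by linarith
    have h11 : 0 ≤ 1 - δ / 60 := by linarith
    positivity
  refine le_trans ?_ h9
  have h10 : 1 ≤ (1 - δ / 500) * ((1 + δ / 20) * (1 - δ / 1000) * (1 - δ / 60)) := by
    have e1 : 1 - δ / 500 - δ / 1000 ≤ (1 - δ / 500) * (1 - δ / 1000) := by nlinarith
    have e2 : 1 + δ / 20 - δ / 60 - δ / 1000 ≤ (1 + δ / 20) * (1 - δ / 60) := by nlinarith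
    have e3 : (1 - δ / 500) * ((1 + δ / 20) * (1 - δ / 1000) * (1 - δ / 60)) =
      ((1 - δ / 500) * (1 - δ / 1000)) * ((1 + δ / 20) * (1 - δ / 60)) := by ring
    rw [e3]
    have e4 : (1 - δ / 500 - δ / 1000) * (1 + δ / 20 - δ / 60 - δ / 1000) ≤
        ((1 - δ / 500) * (1 - δ / 1000)) * ((1 + δ / 20) * (1 - δ / 60)) :=
      mul_le_mul e1 e2 (by nlinarith) (by
        have : 0 ≤ 1 - δ / 1000 := by linarith
        have : 0 ≤ 1 - δ / 500 := by linarith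
        positivity)
    refine le_trans ?_ e4
    nlinarith
  calc r = r * 1 := by ring
    _ ≤ r * ((1 - δ / 500) * ((1 + δ / 20) * (1 - δ / 1000) * (1 - δ / 60))) :=
      mul_le_mul_of_nonneg_left h10 hr0.le
    _ = _ := by ring

instance (n d k : ℕ) : Countable (GE n d k) := by
  have : Finite (TE n d) := inferInstance
  have : Finite (YE n d) := inferInstance
  infer_instance

/-- The decorated tree has infinite cycles at some time and none at a later time. -/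
theorem tree_main : ∃ (b n d k : ℕ) (T₁ T₂ : ℝ), 0 < n ∧ 2 ≤ d ∧ 2 ≤ b ∧ 0 < T₁ ∧ T₁ < T₂ ∧
    (∀ᵐ ω ∂(prodLaw (ptsLaw T₁) (TrE b (GE n d k))),
      ∃ v, (cyc (bars (tends gends groot) ω) v).Infinite) ∧
    (∀ᵐ ω ∂(prodLaw (ptsLaw T₂) (TrE b (GE n d k))),
      ∀ v, ¬ (cyc (bars (tends gends groot) ω) v).Infinite) := by
  obtain ⟨δ, hδ⟩ : ∃ δ : ℝ, δ = 1 / 2 ^ 24 := ⟨_, rfl⟩
  have hδ0 : 0 < δ := by rw [hδ]; positivity
  have hδ1 : δ ≤ 1 / 100 := by rw [hδ]; norm_num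
  have hδ2 : 0 ≤ 1 - δ := by linarith
  obtain ⟨n, d, b, T₁, T₂, hn, hd2, hb, hT₁, hT₁₂, hT8, hdT, hdn, h2nd, h4n, hTs, hdT1, hdn1,
    hb2, hb1⟩ := exists_params hδ0 hδ1
  have hT₂ : 0 < T₂ := hT₁.trans hT₁₂
  obtain ⟨k, hk⟩ := exists_leaves hT₂ hT8 hn hd2 hdT hdn.le h2nd
  refine ⟨b, n, d, k, T₁, T₂, hn, hd2, hb, hT₁, hT₁₂, ?_, ?_⟩
  · refine ae_infinite (κ := δ / 500) (r := δ / 100) locFin_gends hT₁ hb
      (measurableSet_Clset (n := n) (d := d) (k := k)) (fun η _ hη => clean_of_Clset hn hη) ?_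
      (by positivity) (by linarith) ?_
    · refine le_trans ?_ (prob_Clset hT₁.le)
      linarith
    · refine num_small hδ0 hδ1 le_rfl hT₁ (by linarith) hb1 ?_
      have : (b : ℝ) * T₁ ≤ b * T₂ := mul_le_mul_of_nonneg_left hT₁₂.le (Nat.cast_nonneg b)
      linarith
  · refine ae_no_infinite locFin_gends hT₂ (Blset b k hn T₂) (fun u j i =>
      depOn_Blset hn T₂ u j i) (fun u j i ω hω h => blocked_of_Blset hn u j i hω h) ?_
      (β := ENNReal.ofReal (T₂ ^ 2 * δ)) ?_ ?_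
    · rintro u j i ω ⟨⟨h1, _⟩, ⟨h2, _⟩, _⟩
      exact ⟨h1.ge, h2.ge⟩
    · intro u j i
      have h1 := prob_Blset (k := k) (d := d) hT₂ hn u j i
      have h2 : T₂ ^ 2 * δ ≤ (prodLaw (ptsLaw T₂) (TrE b (GE n d k))).real
          (Blset b k hn T₂ u j i) := by
        refine le_trans ?_ h1
        -- lower bound for the gadget
        have hexp1 : 1 / 2 ≤ Real.exp (-(2 * ((n : ℝ) + 1) * T₂)) := by
          have := Real.add_one_le_exp (-(2 * ((n : ℝ) + 1) * T₂))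
          linarith
        have e1 : ((d : ℝ) ^ n * (T₂ * Real.exp (-T₂)) ^ (n + 1)) ^ 2 =
            (1 / 32) ^ 2 * Real.exp (-(2 * ((n : ℝ) + 1) * T₂)) := by
          rw [← hdn, mul_pow T₂, ← Real.exp_nat_mul]
          have : Real.exp (-(2 * ((n : ℝ) + 1) * T₂)) =
              Real.exp (((n + 1 : ℕ) : ℝ) * -T₂) ^ 2 := by
            rw [← Real.exp_nat_mul]
            congr 1
            push_cast
            ring
          rw [this]
          ring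
        have h3 : 1 / 2 ^ 19 ≤ (prodLaw (ptsLaw T₂) (GE n d k)).real (Qall k hn T₂) := by
          refine le_trans ?_ hk
          rw [e1]
          have : (1 / 32 : ℝ) ^ 2 * (1 / 2) ≤
              (1 / 32) ^ 2 * Real.exp (-(2 * ((n : ℝ) + 1) * T₂)) :=
            mul_le_mul_of_nonneg_left hexp1 (by positivity)
          have h4 : (1 / 2 ^ 19 : ℝ) = (1 / 32 : ℝ) ^ 2 * (1 / 2) / 256 := by norm_num
          rw [h4]
          exact div_le_div_of_nonneg_right this (by norm_num)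
        have hexp2 : 1 - 2 * T₂ ≤ Real.exp (-T₂) ^ 2 := by
          rw [← Real.exp_nat_mul]
          have := Real.add_one_le_exp (((2 : ℕ) : ℝ) * -T₂)
          push_cast at this ⊢
          linarith
        have hbT : (b : ℝ) * T₂ ^ 2 ≤ 1 / 4 := by
          have : (b : ℝ) * T₂ ^ 2 = (b * T₂) * T₂ := by ring
          rw [this]
          nlinarith
        have hhalf : 1 / 2 ≤ Real.exp (-T₂) ^ 2 * (1 - b * T₂ ^ 2) := by
          have h5 : (1 - 2 * T₂) * (3 / 4) ≤ Real.exp (-T₂) ^ 2 * (1 - b * T₂ ^ 2) :=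
            mul_le_mul hexp2 (by linarith) (by norm_num) (by positivity)
          linarith
        have e2 : (T₂ * Real.exp (-T₂)) ^ 2 / 16 * (1 - b * T₂ ^ 2) *
            (prodLaw (ptsLaw T₂) (GE n d k)).real (Qall k hn T₂) =
            T₂ ^ 2 / 16 * ((Real.exp (-T₂) ^ 2 * (1 - b * T₂ ^ 2)) *
            (prodLaw (ptsLaw T₂) (GE n d k)).real (Qall k hn T₂)) := by ring
        have h6 : (1 / 2 : ℝ) * (1 / 2 ^ 19) ≤ (Real.exp (-T₂) ^ 2 * (1 - b * T₂ ^ 2)) *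
            (prodLaw (ptsLaw T₂) (GE n d k)).real (Qall k hn T₂) :=
          mul_le_mul hhalf h3 (by norm_num) (by linarith)
        have h7 := mul_le_mul_of_nonneg_left h6 (show 0 ≤ T₂ ^ 2 / 16 by positivity)
        refine le_trans (le_of_eq ?_) (le_trans h7 (le_of_eq ?_))
        · rw [hδ]; ring
        · ring
      rw [Measure.real] at h2
      exact ENNReal.ofReal_le_of_le_toReal h2
    · rw [← ENNReal.ofReal_sub _ (by positivity), ← ENNReal.ofReal_natCast,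
        ← ENNReal.ofReal_mul (Nat.cast_nonneg b), ← ENNReal.ofReal_mul (by positivity),
        ← ENNReal.ofReal_one]
      apply (ENNReal.ofReal_lt_ofReal_iff (by norm_num)).mpr
      have e1 : (b : ℝ) * b * (T₂ * T₂ - T₂ ^ 2 * δ) = (b * T₂) ^ 2 * (1 - δ) := by ring
      rw [e1]
      have h1 : (b * T₂) ^ 2 ≤ (1 + δ / 4) ^ 2 := pow_le_pow_left₀ (by positivity) hb2 2
      have h2 : (b * T₂) ^ 2 * (1 - δ) ≤ (1 + δ / 4) ^ 2 * (1 - δ) :=
        mul_le_mul_of_nonneg_right h1 hδ2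
      refine lt_of_le_of_lt h2 ?_
      nlinarith

end Pool.Agent.H98.RS
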