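import Pool.Agent.H98.RSHub

/-! The gadget: the events used for the blocking, and the change of the number of leaves. -/

set_option autoImplicit false

open Set MeasureTheory ProbabilityTheory Filter
open scoped ENNReal NNReal Topology

namespace Pool.Agent.H98.RS

/-! ### Embedding of a configuration in a larger vertex set -/

section embed

variable {V V' : Type*} {B : V → V → ℝ → Prop} {B' : V' → V' → ℝ → Prop} {j : V → V'}

lemma step_embed (hG : Good B) (hG' : Good B')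
    (h1 : ∀ x y t, B' (j x) (j y) t ↔ B x y t)
    (h2 : ∀ x' y' t, B' x' y' t → ∃ x y, j x = x' ∧ j y = y') (v : V) (s : ℝ) :
    step B' (j v, s) = (j (step B (v, s)).1, (step B (v, s)).2) := by
  rcases step_cases hG (v, s) with ⟨h3, h4, h5⟩ | ⟨h3, h4⟩
  · refine step_of_next hG' ⟨h3, (h1 _ _ _).mpr h4, ?_⟩
    intro u' t ht hB
    obtain ⟨x, y, _, hy⟩ := h2 _ _ _ hB
    change B' (j v) u' t at hB
    rw [← hy, h1] at hB
    exact h5 y t ht hB
  · rw [h4]
    refine step_of_none ?_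
    intro u' t ht hB
    obtain ⟨x, y, _, hy⟩ := h2 _ _ _ hB
    change B' (j v) u' t at hB
    rw [← hy, h1] at hB
    exact h3 y t ht hB

theorem same_embed (hG : Good B) (hG' : Good B') (hj : Function.Injective j)
    (h1 : ∀ x y t, B' (j x) (j y) t ↔ B x y t)
    (h2 : ∀ x' y' t, B' x' y' t → ∃ x y, j x = x' ∧ j y = y') (y : V) (s s' : ℝ) :
    Same B (y, s) (y, s') ↔ Same B' (j y, s) (j y, s') := by
  have hstep := step_embed hG hG' h1 h2
  constructor
  · intro h I' hI'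
    have hinv : Inv B {p | (j p.1, p.2) ∈ I'} := by
      intro p
      have := hI' (j p.1, p.2)
      rw [hstep] at this
      exact this
    exact h _ hinv
  · intro h I hI
    have hinv : Inv B' {p' | ∃ p ∈ I, (j p.1, p.2) = p'} := by
      intro p'
      by_cases hr : ∃ v, j v = p'.1
      · obtain ⟨v, hv⟩ := hr
        have e : p' = (j v, p'.2) := Prod.ext hv.symm rfl
        rw [e, hstep]
        constructor
        · rintro ⟨p, hp, hpe⟩
          obtain ⟨h3, h4⟩ := Prod.ext_iff.mp hpe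
          have h5 : p = (v, p'.2) := Prod.ext (hj h3) h4
          exact ⟨step B (v, p'.2), (hI _).mp (h5 ▸ hp), rfl⟩
        · rintro ⟨p, hp, hpe⟩
          obtain ⟨h3, h4⟩ := Prod.ext_iff.mp hpe
          have h5 : p = step B (v, p'.2) := Prod.ext (hj h3) h4
          exact ⟨(v, p'.2), (hI _).mpr (h5 ▸ hp), rfl⟩
      · -- isolated vertex
        have h3 : step B' p' = (p'.1, 0) := by
          refine step_of_none (fun u t _ hB => ?_)
          obtain ⟨x, _, hx, _⟩ := h2 _ _ _ hB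
          exact hr ⟨x, hx⟩
        rw [h3]
        constructor
        · rintro ⟨p, _, hpe⟩
          exact absurd ⟨p.1, (Prod.ext_iff.mp hpe).1⟩ hr
        · rintro ⟨p, _, hpe⟩
          exact absurd ⟨p.1, (Prod.ext_iff.mp hpe).1⟩ hr
    have h3 := h _ hinv
    constructor
    · intro h4
      obtain ⟨p, hp, hpe⟩ := h3.mp ⟨_, h4, rfl⟩
      obtain ⟨h5, h6⟩ := Prod.ext_iff.mp hpe
      have : p = (y, s') := Prod.ext (hj h5) h6
      exact this ▸ hp
    · intro h4
      obtain ⟨p, hp, hpe⟩ := h3.mpr ⟨_, h4, rfl⟩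
      obtain ⟨h5, h6⟩ := Prod.ext_iff.mp hpe
      have : p = (y, s) := Prod.ext (hj h5) h6
      exact this ▸ hp

end embed

lemma bars_rem_eq {V E : Type*} (ends : E → V × V) (Z : Set E) (ω : E → Marks) :
    bars ends (rem Z ω) = subBars ends Zᶜ ω := by
  funext x y t
  simp only [bars, subBars, eq_iff_iff]
  constructor
  · rintro ⟨e, h1, i, h2, h3⟩
    have h4 : e ∉ Z := by
      intro hZ
      rw [rem_of_mem hZ] at h2
      exact absurd h2 (Nat.not_lt_zero _)
    rw [rem_of_notMem h4] at h2 h3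
    exact ⟨⟨e, h4⟩, h1, i, h2, h3⟩
  · rintro ⟨⟨e, h4⟩, h1, i, h2, h3⟩
    refine ⟨e, h1, i, ?_, ?_⟩
    · rw [rem_of_notMem h4]; exact h2
    · rw [rem_of_notMem h4]; exact h3

variable {n d k K : ℕ}

/-- the edge is on one of the two paths -/
def onPath (L₁ L₂ : YE n d) (c : TE n d) : Prop := c.1 <:+ L₁.1 ∨ c.1 <:+ L₂.1

/-- the first edge of the path to `L` -/
def top (hn : 0 < n) (L : YE n d) : TE n d := ⟨L.1.drop (n - 1), by
  have h := L.2
  constructor
  · intro h0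
    have := congrArg List.length h0
    rw [List.length_drop, h] at this
    simp at this
    omega
  · rw [List.length_drop, h]; omega⟩

lemma top_length (hn : 0 < n) (L : YE n d) : (top hn L).1.length = 1 := by
  change (L.1.drop (n - 1)).length = 1
  rw [List.length_drop, L.2]; omega

lemma top_suffix (hn : 0 < n) (L : YE n d) : (top hn L).1 <:+ L.1 := List.drop_suffix _ _

lemma eq_top {hn : 0 < n} {L : YE n d} {c : TE n d} (h1 : c.1 <:+ L.1) (h2 : c.1.length = 1) :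
    c = top hn L := by
  apply Subtype.ext
  exact (List.suffix_of_suffix_length_le h1 (top_suffix hn L)
    (by rw [h2, top_length])).eq_of_length (by rw [h2, top_length])

/-- the event on the edges other than the four special ones -/
def Dset (k : ℕ) (L₁ L₂ : YE n d) : Set (GE n d k → Marks) :=
  {η | (∀ c : TE n d, onPath L₁ L₂ c → 1 < c.1.length → (η (Sum.inl c)).1 = 1) ∧
    (∀ c : TE n d, (c.1.tail <:+ L₁.1 ∨ c.1.tail <:+ L₂.1) → ¬ onPath L₁ L₂ c →
      (η (Sum.inl c)).1 ≤ 1) ∧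
    ∀ l : YE n d, l ≠ L₁ → l ≠ L₂ →
      ¬ ((∀ c : TE n d, c.1 <:+ l.1 → ¬ onPath L₁ L₂ c → 1 ≤ (η (Sum.inl c)).1) ∧
        1 ≤ (η (Sum.inr (Sum.inl l))).1)}

/-- change of the number of leaves -/
def emb (hk : k ≤ K) : GE n d k → GE n d K := Sum.map id (Sum.map id (Fin.castLE hk))

/-- the corresponding map on the vertices -/
def vemb (hk : k ≤ K) : GV n d k → GV n d K := Sum.map id (Option.map (Fin.castLE hk))

lemma emb_injective (hk : k ≤ K) : Function.Injective (emb (n := n) (d := d) hk) :=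
  Function.injective_id.sumMap (Function.injective_id.sumMap (Fin.castLE_injective hk))

lemma vemb_injective (hk : k ≤ K) : Function.Injective (vemb (n := n) (d := d) hk) :=
  Function.injective_id.sumMap (Option.map_injective (Fin.castLE_injective hk))

lemma gends_emb (hk : k ≤ K) (e : GE n d k) :
    gends (emb hk e) = (vemb hk (gends e).1, vemb hk (gends e).2) := by
  rcases e with c | l | r
  · rfl
  · rfl
  · rfl

lemma Dset_emb (hk : k ≤ K) (L₁ L₂ : YE n d) (ω : GE n d K → Marks) :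
    (fun e => ω (emb hk e)) ∈ Dset k L₁ L₂ ↔ ω ∈ Dset K L₁ L₂ := Iff.rfl

/-- the leaves -/
def leafE (K : ℕ) : Fin K → GE n d K := fun r => Sum.inr (Sum.inr r)

/-- The hub events of the gadgets with `k` and `K` leaves. -/
theorem hubSet_emb (hk : k ≤ K) (x₁ x₂ : TE n d) (L₁ L₂ : YE n d) (ω : GE n d K → Marks)
    (x : ℝ × ℝ) :
    ((fun e => ω (emb hk e)), x) ∈ hubSet gends ghub (fourEdges x₁ x₂ L₁ L₂)ᶜ (Dset k L₁ L₂) ↔
    (ω, x) ∈ hubSet gends ghub (stage (fourEdges x₁ x₂ L₁ L₂) (leafE K) k) (Dset K L₁ L₂) := by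
  have hmem : ∀ e : GE n d k, emb hk e ∈ stage (fourEdges x₁ x₂ L₁ L₂) (leafE K) k ↔
      e ∉ (fourEdges x₁ x₂ L₁ L₂ : Set (GE n d k)) := by
    intro e
    rcases e with c | l | r
    · simp [stage, fourEdges, emb, leafE]
    · simp [stage, fourEdges, emb, leafE]
    · simp only [stage, fourEdges, emb, leafE, Sum.map_inr, mem_ofPred_eq, mem_insert_iff,
        mem_singleton_iff]
      constructor
      · rintro _
        simp
      · intro _
        refine ⟨by simp, fun r' hr' h => ?_⟩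
        have := Sum.inr.inj (Sum.inr.inj h)
        rw [this] at hr'
        simp only [Fin.val_castLE] at hr'
        have := r.2
        omega
  have hsurj : ∀ e ∈ stage (fourEdges x₁ x₂ L₁ L₂) (leafE K) k, ∃ e' : GE n d k,
      emb hk e' = e := by
    rintro (c | l | r) he
    · exact ⟨Sum.inl c, rfl⟩
    · exact ⟨Sum.inr (Sum.inl l), rfl⟩
    · by_cases hr : r.1 < k
      · exact ⟨Sum.inr (Sum.inr ⟨r.1, hr⟩), rfl⟩
      · exact absurd rfl (he.2 r (by omega))
  simp only [hubSet, mem_ofPred_eq]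
  refine and_congr (Dset_emb hk L₁ L₂ ω) ?_
  have hgen : Generic (fun e : ((fourEdges x₁ x₂ L₁ L₂)ᶜ : Set (GE n d k)) => ω (emb hk e.1)) ↔
      Generic (fun e : stage (fourEdges x₁ x₂ L₁ L₂) (leafE K) k => ω e.1) := by
    constructor
    · intro h
      constructor
      · rintro ⟨e, he⟩ i
        obtain ⟨e', rfl⟩ := hsurj e he
        exact h.pos ⟨e', (hmem e').mp he⟩ i
      · rintro ⟨e, he⟩ i ⟨f, hf⟩ i' hh
        obtain ⟨e', rfl⟩ := hsurj e he
        obtain ⟨f', rfl⟩ := hsurj f hf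
        obtain ⟨h1, h2⟩ := h.inj ⟨e', (hmem e').mp he⟩ i ⟨f', (hmem f').mp hf⟩ i' hh
        have h3 : e' = f' := congrArg Subtype.val h1
        exact ⟨Subtype.ext (congrArg (emb hk) h3), h2⟩
    · intro h
      constructor
      · rintro ⟨e, he⟩ i
        exact h.pos ⟨emb hk e, (hmem e).mpr he⟩ i
      · rintro ⟨e, he⟩ i ⟨f, hf⟩ i' hh
        obtain ⟨h1, h2⟩ := h.inj ⟨emb hk e, (hmem e).mpr he⟩ i ⟨emb hk f, (hmem f).mpr hf⟩ i' hh
        exact ⟨Subtype.ext (emb_injective hk (congrArg Subtype.val h1)), h2⟩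
  rw [hgen]
  refine and_congr_right (fun hg => ?_)
  have hG' : Good (subBars gends (stage (fourEdges x₁ x₂ L₁ L₂) (leafE K) k) ω) :=
    good_bars (locFin_sub locFin_gends _) hg
  have hG : Good (subBars gends ((fourEdges x₁ x₂ L₁ L₂)ᶜ : Set (GE n d k))
      (fun e => ω (emb hk e))) :=
    good_bars (locFin_sub locFin_gends _) (hgen.mpr hg)
  refine same_embed hG hG' (vemb_injective hk) ?_ ?_ ghub x.1 x.2
  · intro a b t
    constructor
    · rintro ⟨⟨e, he⟩, h1, i, h2, h3⟩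
      obtain ⟨e', rfl⟩ := hsurj e he
      refine ⟨⟨e', (hmem e').mp he⟩, ?_, i, h2, h3⟩
      simp only [gends_emb] at h1
      rcases h1 with ⟨h, h'⟩ | ⟨h, h'⟩
      · left; exact ⟨vemb_injective hk h, vemb_injective hk h'⟩
      · right; exact ⟨vemb_injective hk h, vemb_injective hk h'⟩
    · rintro ⟨⟨e, he⟩, h1, i, h2, h3⟩
      refine ⟨⟨emb hk e, (hmem e).mpr he⟩, ?_, i, h2, h3⟩
      simp only [gends_emb]
      rcases h1 with ⟨h, h'⟩ | ⟨h, h'⟩
      · left
        simp only at h h'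
        rw [h, h']
        exact ⟨rfl, rfl⟩
      · right
        simp only at h h'
        rw [h, h']
        exact ⟨rfl, rfl⟩
  · rintro a b t ⟨⟨e, he⟩, h1, i, h2, h3⟩
    obtain ⟨e', rfl⟩ := hsurj e he
    simp only [gends_emb] at h1
    rcases h1 with ⟨h, h'⟩ | ⟨h, h'⟩
    · exact ⟨_, _, h, h'⟩
    · exact ⟨_, _, h', h⟩

/-- the part of the blocking event that concerns the hub -/
def Hset (k : ℕ) (hn : 0 < n) (L₁ L₂ : YE n d) : Set (GE n d k → Marks) :=
  {η | (η (Sum.inr (Sum.inl L₁))).1 = 1 ∧ (η (Sum.inr (Sum.inl L₂))).1 = 1 ∧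
    (η, ((η (Sum.inr (Sum.inl L₁))).2 0, (η (Sum.inr (Sum.inl L₂))).2 0)) ∈
      hubSet gends ghub (fourEdges (top hn L₁) (top hn L₂) L₁ L₂)ᶜ (Dset k L₁ L₂)}

/-- the blocking event for a pair of paths -/
def Qset (k : ℕ) (hn : 0 < n) (T : ℝ) (L₁ L₂ : YE n d) : Set (GE n d k → Marks) :=
  {η | (η (Sum.inl (top hn L₁))).1 = 1 ∧ (η (Sum.inl (top hn L₁))).2 0 ∈ Set.Ioo 0 (T / 4)} ∩
  ({η | (η (Sum.inl (top hn L₂))).1 = 1 ∧
    (η (Sum.inl (top hn L₂))).2 0 ∈ Set.Ioo (T / 2) (3 * T / 4)} ∩ Hset k hn L₁ L₂)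

/-- Separation on the event `Qset`. -/
theorem sep_of_Qset {hn : 0 < n} {T : ℝ} {L₁ L₂ : YE n d} (hne : top hn L₁ ≠ top hn L₂)
    {η : GE n d k → Marks} (hη : Generic η) (hQ : η ∈ Qset k hn T L₁ L₂) {a b : ℝ}
    (ha : a ∈ Set.Ioo (T / 4) (T / 2)) (hb : b ∈ Set.Ioo (3 * T / 4) T) :
    ∃ I, Inv (bars gends η) I ∧ (groot, a) ∈ I ∧ (groot, b) ∉ I := by
  obtain ⟨⟨hx1, hx1t⟩, ⟨hx2, hx2t⟩, hy1, hy2, ⟨hDa, hDb, hDc⟩, _, hsame⟩ := hQ
  have h1 : ∀ c : TE n d, c.1 <:+ L₁.1 ∨ c.1 <:+ L₂.1 → (η (Sum.inl c)).1 = 1 := by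
    intro c hc
    rcases Nat.lt_or_ge 1 c.1.length with h | h
    · exact hDa c hc h
    · have h2 : c.1.length = 1 := by
        have := List.length_pos_iff.mpr c.2.1
        omega
      rcases hc with hc | hc
      · rw [eq_top hc h2]; exact hx1
      · rw [eq_top hc h2]; exact hx2
  refine separated hη L₁ L₂ (top hn L₁) (top hn L₂) (top_length hn _) (top_length hn _)
    (top_suffix hn _) (top_suffix hn _) hne h1 hy1 hy2 ?_ ?_ ?_ ?_ ?_ ?_
  · intro c hc
    by_cases hp : onPath L₁ L₂ c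
    · exact (h1 c hp).le
    · exact hDb c hc hp
  · intro l hl1 hl2 hconn
    by_contra hne0
    apply hDc l hl1 hl2
    refine ⟨fun c hc _ => ?_, Nat.one_le_iff_ne_zero.mpr hne0⟩
    have := hconn.2 c.1 hc (List.length_pos_iff.mpr c.2.1)
    rw [tN_eq c] at this
    exact this
  · exact hx1t.2.trans ha.1
  · exact ha.2.trans hx2t.1
  · exact hx2t.2.trans hb.1
  · rw [bars_rem_eq]
    exact hsame

/-- The events of different pairs are disjoint. -/
theorem Qset_disjoint {hn : 0 < n} {T : ℝ} {L₁ L₂ L₁' L₂' : YE n d}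
    (hne : top hn L₁ ≠ top hn L₂) (hT : 0 < T)
    {η : GE n d k → Marks} (hQ : η ∈ Qset k hn T L₁ L₂) (hQ' : η ∈ Qset k hn T L₁' L₂') :
    L₁ = L₁' ∧ L₂ = L₂' := by
  obtain ⟨⟨hx1, hx1t⟩, ⟨hx2, hx2t⟩, hy1, hy2, ⟨hDa, hDb, hDc⟩, _, hsame⟩ := hQ
  obtain ⟨⟨hx1', hx1t'⟩, ⟨hx2', hx2t'⟩, hy1', hy2', ⟨hDa', hDb', hDc'⟩, _, hsame'⟩ := hQ'
  have h1 : ∀ c : TE n d, c.1 <:+ L₁.1 ∨ c.1 <:+ L₂.1 → (η (Sum.inl c)).1 = 1 := by
    intro c hc
    rcases Nat.lt_or_ge 1 c.1.length with h | h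
    · exact hDa c hc h
    · have h2 : c.1.length = 1 := by
        have := List.length_pos_iff.mpr c.2.1
        omega
      rcases hc with hc | hc
      · rw [eq_top hc h2]; exact hx1
      · rw [eq_top hc h2]; exact hx2
  have hL12 : L₁ ≠ L₂ := by
    rintro rfl
    exact hne rfl
  have key1 : L₁ = L₁' ∨ L₁ = L₂' := by
    by_contra hcon
    push Not at hcon
    exact hDc' L₁ hcon.1 hcon.2 ⟨fun c hc _ => (h1 c (Or.inl hc)).ge, hy1.ge⟩
  have key2 : L₂ = L₁' ∨ L₂ = L₂' := by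
    by_contra hcon
    push Not at hcon
    exact hDc' L₂ hcon.1 hcon.2 ⟨fun c hc _ => (h1 c (Or.inr hc)).ge, hy2.ge⟩
  rcases key1 with h | h
  · refine ⟨h, ?_⟩
    rcases key2 with h2 | h2
    · exact absurd (h.trans h2.symm) hL12
    · exact h2
  · exfalso
    rw [h] at hx1t
    have := hx1t.2
    have := hx2t'.1
    linarith

end Pool.Agent.H98.RS
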