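import Pool.Agent.H98.RSGadA

/-! The gadget: probability bounds. -/

set_option autoImplicit false

open Set MeasureTheory ProbabilityTheory Filter
open scoped ENNReal NNReal Topology

namespace Pool.Agent.H98.RS

variable {n d k K : ℕ}

instance : Finite (TE n d) := by
  have : Finite {c : List (Fin d) // c.length ≤ n} := List.finite_length_le _ _
  exact Finite.of_injective (fun c : TE n d => (⟨c.1, c.2.2⟩ : {c : List (Fin d) // c.length ≤ n}))
    (fun a b h => Subtype.ext (by simpa using h))

instance : Finite (YE n d) := List.finite_length_eq _ _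

noncomputable instance : Fintype (TE n d) := Fintype.ofFinite _
noncomputable instance : Fintype (YE n d) := Fintype.ofFinite _

lemma card_YE (n d : ℕ) : Fintype.card (YE n d) = d ^ n := by
  have h := card_vector (α := Fin d) n
  rw [Fintype.card_fin] at h
  rw [← h]
  exact Fintype.card_congr (Equiv.refl _)

/-- measurability of conditions on the numbers of bars -/
lemma depOn_count (e : GE n d k) (s : Set ℕ) :
    DepOn {e} {ω : GE n d k → Marks | (ω e).1 ∈ s} :=
  depOn_coord e (A := {m : Marks | m.1 ∈ s})
    (measurable_fst (MeasurableSet.of_discrete (s := s)))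

lemma prob_count {T : ℝ} (e : GE n d k) (s : Set ℕ) :
    prodLaw (ptsLaw T) (GE n d k) {ω | (ω e).1 ∈ s} = poissonMeasure T.toNNReal s := by
  have h4 := prodLaw_coord (ptsLaw T) e (A := {m : Marks | m.1 ∈ s})
    (measurable_fst (MeasurableSet.of_discrete (s := s)))
  rw [ptsLaw_count] at h4
  exact h4

/-- probability that the edges below level `j` of the path to `l` and its hub edge are open -/
lemma prob_path {T : ℝ} (hT : 0 ≤ T) (l : YE n d) (j : ℕ) :
    prodLaw (ptsLaw T) (GE n d k) {η | (∀ c : TE n d, c.1 <:+ l.1 → j < c.1.length →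
      1 ≤ (η (Sum.inl c)).1) ∧ 1 ≤ (η (Sum.inr (Sum.inl l))).1} ≤
    ENNReal.ofReal T ^ (n - j + 1) := by
  set f : Option (Fin (n - j)) → GE n d k := fun o => match o with
    | none => Sum.inr (Sum.inl l)
    | some i => Sum.inl ⟨l.1.drop i.1, by
        have h := l.2
        have h2 := i.2
        constructor
        · intro h0
          have := congrArg List.length h0
          rw [List.length_drop, h] at this
          simp at this
          omega
        · rw [List.length_drop, h]; omega⟩ with hf
  have hinj : Function.Injective f := by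
    intro a b h
    match a, b with
    | none, none => rfl
    | none, some i => simp [hf] at h
    | some i, none => simp [hf] at h
    | some i, some i' =>
      have h1 := congrArg Subtype.val (Sum.inl.inj h)
      have h2 := congrArg List.length h1
      simp only [List.length_drop] at h2
      rw [l.2] at h2
      have h3 := i.2
      have h4 := i'.2
      congr 1
      apply Fin.ext
      omega
  set A : Set Marks := {m | 1 ≤ m.1} with hA
  have mA : MeasurableSet A := measurable_fst (MeasurableSet.of_discrete (s := {n : ℕ | 1 ≤ n}))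
  have h1 : {η : GE n d k → Marks | (∀ c : TE n d, c.1 <:+ l.1 → j < c.1.length →
      1 ≤ (η (Sum.inl c)).1) ∧ 1 ≤ (η (Sum.inr (Sum.inl l))).1} ⊆
      {η | (fun o => η (f o)) ∈ {ζ : Option (Fin (n - j)) → Marks | ∀ o ∈ (Finset.univ :
        Finset (Option (Fin (n - j)))), ζ o ∈ A}} := by
    rintro η ⟨h2, h3⟩ o _
    match o with
    | none => exact h3
    | some i =>
      refine h2 ⟨l.1.drop i.1, _⟩ (List.drop_suffix _ _) ?_
      change j < (l.1.drop i.1).length
      rw [List.length_drop, l.2]
      have := i.2
      omega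
  refine (measure_mono h1).trans ?_
  have mset : MeasurableSet {ζ : Option (Fin (n - j)) → Marks | ∀ o ∈ (Finset.univ :
        Finset (Option (Fin (n - j)))), ζ o ∈ A} := by
    have : {ζ : Option (Fin (n - j)) → Marks | ∀ o ∈ (Finset.univ :
        Finset (Option (Fin (n - j)))), ζ o ∈ A} = ⋂ o, {ζ | ζ o ∈ A} := by
      ext ζ; simp
    rw [this]
    exact MeasurableSet.iInter fun o => measurable_pi_apply o mA
  rw [prodLaw_reindex (ptsLaw T) hinj mset, prodLaw_finset (ptsLaw T) _ (fun o _ => mA)]
  have h2 : ptsLaw T A ≤ ENNReal.ofReal T := by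
    have := ptsLaw_count (T := T) {n | 1 ≤ n}
    change ptsLaw T {m | m.1 ∈ {n : ℕ | 1 ≤ n}} ≤ _
    rw [this]
    exact po_ge_one hT
  calc ∏ _o : Option (Fin (n - j)), ptsLaw T A ≤ ∏ _o : Option (Fin (n - j)), ENNReal.ofReal T :=
        Finset.prod_le_prod' (fun _ _ => h2)
    _ = ENNReal.ofReal T ^ (n - j + 1) := by simp

open Classical in
/-- number of bottom vertices below a given vertex -/
lemma card_below (u : List (Fin d)) :
    (Finset.univ.filter (fun l : YE n d => u <:+ l.1)).card ≤ d ^ (n - u.length) := by
  rw [← card_YE (n - u.length) d, ← Finset.card_univ]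
  by_cases hu : u.length ≤ n
  · refine Finset.card_le_card_of_injOn
      (fun l : YE n d => (⟨l.1.take (n - u.length), by
        have := l.2
        rw [List.length_take, this]; omega⟩ : YE (n - u.length) d))
      (fun _ _ => Finset.mem_coe.mpr (Finset.mem_univ _)) ?_
    intro l hl l' hl' h
    simp only [Finset.coe_filter, Finset.mem_univ, true_and, mem_ofPred_eq] at hl hl'
    have h1 : l.1.take (n - u.length) = l'.1.take (n - u.length) := congrArg Subtype.val h
    obtain ⟨p, hp⟩ := hl
    obtain ⟨p', hp'⟩ := hl'
    have e1 : p.length = n - u.length := by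
      have := congrArg List.length hp
      rw [List.length_append, l.2] at this
      omega
    have e2 : p'.length = n - u.length := by
      have := congrArg List.length hp'
      rw [List.length_append, l'.2] at this
      omega
    apply Subtype.ext
    rw [← hp, ← hp'] at h1 ⊢
    rw [← e1, List.take_left, e1, ← e2, List.take_left] at h1
    rw [h1]
  · have : Finset.univ.filter (fun l : YE n d => u <:+ l.1) = ∅ := by
      ext l
      simp only [Finset.mem_filter, Finset.mem_univ, true_and, Finset.notMem_empty, iff_false]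
      intro h
      have := h.length_le
      rw [l.2] at this
      exact hu this
    rw [this]
    simp

/-- suffix of given length -/
def suf (L : YE n d) (j : ℕ) : List (Fin d) := L.1.drop (n - j)

lemma suf_length (L : YE n d) {j : ℕ} (hj : j ≤ n) : (suf L j).length = j := by
  rw [suf, List.length_drop, L.2]; omega

lemma suf_suffix (L : YE n d) (j : ℕ) : suf L j <:+ L.1 := List.drop_suffix _ _

/-- branching level -/
lemma exists_branch (L₁ L₂ l : YE n d) (h1 : l ≠ L₁) (h2 : l ≠ L₂) :
    ∃ j < n, (suf L₁ j <:+ l.1 ∨ suf L₂ j <:+ l.1) ∧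
      ∀ c : TE n d, c.1 <:+ l.1 → j < c.1.length → ¬ onPath L₁ L₂ c := by
  classical
  -- the largest level of agreement
  have hex : ∃ j, j ≤ n ∧ (suf l j <:+ L₁.1 ∨ suf l j <:+ L₂.1) := by
    refine ⟨0, Nat.zero_le _, Or.inl ?_⟩
    have : suf l 0 = [] := by
      apply List.eq_nil_of_length_eq_zero
      rw [suf_length l (Nat.zero_le _)]
    rw [this]
    exact List.nil_suffix
  obtain ⟨j, ⟨hjn, hj⟩, hmax⟩ : ∃ j, (j ≤ n ∧ (suf l j <:+ L₁.1 ∨ suf l j <:+ L₂.1)) ∧
      ∀ j', (j' ≤ n ∧ (suf l j' <:+ L₁.1 ∨ suf l j' <:+ L₂.1)) → j' ≤ j := by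
    obtain ⟨j0, hj0⟩ := hex
    have hfin : {j | j ≤ n ∧ (suf l j <:+ L₁.1 ∨ suf l j <:+ L₂.1)}.Finite :=
      (Set.finite_Iic n).subset (fun j hj => hj.1)
    obtain ⟨j, hj, hmax⟩ := hfin.exists_maximal ⟨j0, hj0⟩
    refine ⟨j, hj, fun j' hj' => ?_⟩
    rcases le_total j j' with h | h
    · exact hmax hj' h
    · exact h
  have hlt : j < n := by
    rcases Nat.lt_or_ge j n with h | h
    · exact h
    · exfalso
      have hjeq : j = n := by omega
      have hs : suf l j = l.1 := by rw [suf, hjeq]; simp
      rw [hs] at hj
      rcases hj with hj | hj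
      · exact h1 (Subtype.ext (hj.eq_of_length (by rw [l.2, L₁.2])))
      · exact h2 (Subtype.ext (hj.eq_of_length (by rw [l.2, L₂.2])))
  refine ⟨j, hlt, ?_, ?_⟩
  · have hl : (suf l j).length = j := suf_length l hjn
    rcases hj with hj | hj
    · left
      have : suf l j = suf L₁ j :=
        (List.suffix_of_suffix_length_le hj (suf_suffix L₁ j)
          (by rw [hl, suf_length L₁ hjn])).eq_of_length (by rw [hl, suf_length L₁ hjn])
      rw [← this]
      exact suf_suffix l j
    · right
      have : suf l j = suf L₂ j :=
        (List.suffix_of_suffix_length_le hj (suf_suffix L₂ j)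
          (by rw [hl, suf_length L₂ hjn])).eq_of_length (by rw [hl, suf_length L₂ hjn])
      rw [← this]
      exact suf_suffix l j
  · intro c hc hlen hp
    have h3 : c.1 = suf l c.1.length :=
      (List.suffix_of_suffix_length_le hc (suf_suffix l _)
        (by rw [suf_length l c.2.2])).eq_of_length (by rw [suf_length l c.2.2])
    have h4 := hmax c.1.length ⟨c.2.2, by
      rw [← h3]
      exact hp⟩
    omega

end Pool.Agent.H98.RS
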