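import Pool.Agent.H98.RSGadB

/-! The gadget: probability of the event `Dset`. -/

set_option autoImplicit false

open Set MeasureTheory ProbabilityTheory Filter
open scoped ENNReal NNReal Topology

namespace Pool.Agent.H98.RS

variable {n d k K : ℕ}

/-- edges on which `Dset` depends -/
def SDset (k : ℕ) (L₁ L₂ : YE n d) : Set (GE n d k) :=
  {e | (∃ c : TE n d, e = Sum.inl c ∧ (onPath L₁ L₂ c → 1 < c.1.length)) ∨
    (∃ l : YE n d, e = Sum.inr (Sum.inl l) ∧ l ≠ L₁ ∧ l ≠ L₂)}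

lemma depOn_imp {ι X : Type*} [MeasurableSpace X] {S : Set ι} {A : Set (ι → X)} (p : Prop)
    (h : p → DepOn S A) : DepOn S {ω | p → ω ∈ A} := by
  by_cases hp : p
  · have : {ω | p → ω ∈ A} = A := by
      ext ω; simp [hp]
    rw [this]
    exact h hp
  · have : {ω | p → ω ∈ A} = Set.univ := by
      ext ω; simp [hp]
    rw [this]
    exact DepOn.univ

/-- first condition of `Dset` -/
def DA (k : ℕ) (L₁ L₂ : YE n d) : Set (GE n d k → Marks) :=
  {η | ∀ c : TE n d, onPath L₁ L₂ c → 1 < c.1.length → (η (Sum.inl c)).1 = 1}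
/-- second condition of `Dset` -/
def DB (k : ℕ) (L₁ L₂ : YE n d) : Set (GE n d k → Marks) :=
  {η | ∀ c : TE n d, (c.1.tail <:+ L₁.1 ∨ c.1.tail <:+ L₂.1) → ¬ onPath L₁ L₂ c →
      (η (Sum.inl c)).1 ≤ 1}
/-- the event excluded by the third condition of `Dset` -/
def DF (k : ℕ) (L₁ L₂ l : YE n d) : Set (GE n d k → Marks) :=
  {η | (∀ c : TE n d, c.1 <:+ l.1 → ¬ onPath L₁ L₂ c → 1 ≤ (η (Sum.inl c)).1) ∧
        1 ≤ (η (Sum.inr (Sum.inl l))).1}
/-- third condition of `Dset` -/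
def DC (k : ℕ) (L₁ L₂ : YE n d) : Set (GE n d k → Marks) :=
  {η | ∀ l : YE n d, l ≠ L₁ → l ≠ L₂ → η ∈ (DF k L₁ L₂ l)ᶜ}

lemma Dset_eq (L₁ L₂ : YE n d) : Dset k L₁ L₂ = DA k L₁ L₂ ∩ (DB k L₁ L₂ ∩ DC k L₁ L₂) := rfl

lemma depOn_DA (L₁ L₂ : YE n d) {S : Set (GE n d k)}
    (hS : ∀ c : TE n d, onPath L₁ L₂ c → 1 < c.1.length → Sum.inl c ∈ S) :
    DepOn S (DA k L₁ L₂) := by
  have : DA k L₁ L₂ = ⋂ c : TE n d, {η | (onPath L₁ L₂ c ∧ 1 < c.1.length) →
      η ∈ {η : GE n d k → Marks | (η (Sum.inl c)).1 ∈ ({1} : Set ℕ)}} := by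
    ext η
    simp only [DA, mem_ofPred_eq, mem_iInter, mem_singleton_iff]
    exact ⟨fun h c hc => h c hc.1 hc.2, fun h c h1 h2 => h c ⟨h1, h2⟩⟩
  rw [this]
  refine DepOn.iInter (fun c => depOn_imp _ (fun h => (depOn_count _ _).mono ?_))
  rintro _ rfl
  exact hS c h.1 h.2

lemma depOn_DB (L₁ L₂ : YE n d) {S : Set (GE n d k)}
    (hS : ∀ c : TE n d, ¬ onPath L₁ L₂ c → Sum.inl c ∈ S) :
    DepOn S (DB k L₁ L₂) := by
  have : DB k L₁ L₂ = ⋂ c : TE n d, {η | ((c.1.tail <:+ L₁.1 ∨ c.1.tail <:+ L₂.1) ∧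
      ¬ onPath L₁ L₂ c) →
      η ∈ {η : GE n d k → Marks | (η (Sum.inl c)).1 ∈ ({n | n ≤ 1} : Set ℕ)}} := by
    ext η
    simp only [DB, mem_ofPred_eq, mem_iInter]
    exact ⟨fun h c hc => h c hc.1 hc.2, fun h c h1 h2 => h c ⟨h1, h2⟩⟩
  rw [this]
  refine DepOn.iInter (fun c => depOn_imp _ (fun h => (depOn_count _ _).mono ?_))
  rintro _ rfl
  exact hS c h.2

lemma depOn_DF (L₁ L₂ l : YE n d) {S : Set (GE n d k)}
    (hS : ∀ c : TE n d, ¬ onPath L₁ L₂ c → Sum.inl c ∈ S)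
    (hS' : Sum.inr (Sum.inl l) ∈ S) :
    DepOn S (DF k L₁ L₂ l) := by
  have : DF k L₁ L₂ l = (⋂ c : TE n d, {η | (c.1 <:+ l.1 ∧ ¬ onPath L₁ L₂ c) →
      η ∈ {η : GE n d k → Marks | (η (Sum.inl c)).1 ∈ ({n | 1 ≤ n} : Set ℕ)}}) ∩
      {η : GE n d k → Marks | (η (Sum.inr (Sum.inl l))).1 ∈ ({n | 1 ≤ n} : Set ℕ)} := by
    ext η
    simp only [DF, mem_ofPred_eq, mem_iInter, mem_inter_iff]
    exact ⟨fun h => ⟨fun c hc => h.1 c hc.1 hc.2, h.2⟩, fun h => ⟨fun c h1 h2 => h.1 c ⟨h1, h2⟩, h.2⟩⟩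
  rw [this]
  refine DepOn.inter (DepOn.iInter (fun c => depOn_imp _ (fun h => (depOn_count _ _).mono ?_)))
    ((depOn_count _ _).mono ?_)
  · rintro _ rfl
    exact hS c h.2
  · rintro _ rfl
    exact hS'

lemma depOn_DC (L₁ L₂ : YE n d) {S : Set (GE n d k)}
    (hS : ∀ c : TE n d, ¬ onPath L₁ L₂ c → Sum.inl c ∈ S)
    (hS' : ∀ l : YE n d, l ≠ L₁ → l ≠ L₂ → Sum.inr (Sum.inl l) ∈ S) :
    DepOn S (DC k L₁ L₂) := by
  have : DC k L₁ L₂ = ⋂ l : YE n d, {η | (l ≠ L₁ ∧ l ≠ L₂) → η ∈ (DF k L₁ L₂ l)ᶜ} := by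
    ext η
    simp only [DC, mem_ofPred_eq, mem_iInter]
    exact ⟨fun h c hc => h c hc.1 hc.2, fun h c h1 h2 => h c ⟨h1, h2⟩⟩
  rw [this]
  exact DepOn.iInter (fun l => depOn_imp _ (fun h => (depOn_DF L₁ L₂ l hS
    (hS' l h.1 h.2)).compl))

lemma depOn_Dset (L₁ L₂ : YE n d) : DepOn (SDset k L₁ L₂) (Dset k L₁ L₂) := by
  rw [Dset_eq]
  refine DepOn.inter (depOn_DA L₁ L₂ ?_) (DepOn.inter (depOn_DB L₁ L₂ ?_) (depOn_DC L₁ L₂ ?_ ?_))
  · intro c _ h2
    exact Or.inl ⟨c, rfl, fun _ => h2⟩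
  · intro c h
    exact Or.inl ⟨c, rfl, fun h' => absurd h' h⟩
  · intro c h
    exact Or.inl ⟨c, rfl, fun h' => absurd h' h⟩
  · intro l h1 h2
    exact Or.inr ⟨l, rfl, h1, h2⟩

/-! ### Probabilities -/

lemma prob_DB_compl {T : ℝ} (hT : 0 ≤ T) (L₁ L₂ : YE n d) :
    prodLaw (ptsLaw T) (GE n d k) (DB k L₁ L₂)ᶜ ≤ ENNReal.ofReal (2 * n * d * T ^ 2) := by
  classical
  -- number of edges hanging from a path
  have hcard : ∀ L : YE n d, (Finset.univ.filter (fun c : TE n d => c.1.tail <:+ L.1)).card ≤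
      n * d := by
    intro L
    have h1 : (Finset.univ : Finset (Fin n × Fin d)).card = n * d := by simp
    rw [← h1]
    refine Finset.card_le_card_of_injOn (fun c : TE n d => (⟨c.1.length - 1, by
      have := c.2.2
      have := List.length_pos_iff.mpr c.2.1
      omega⟩, c.1.head c.2.1)) (fun _ _ => Finset.mem_coe.mpr (Finset.mem_univ _)) ?_
    intro c hc c' hc' h
    simp only [Finset.coe_filter, Finset.mem_univ, true_and, mem_ofPred_eq] at hc hc'
    obtain ⟨h2, h3⟩ := Prod.ext_iff.mp h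
    have h4 : c.1.length - 1 = c'.1.length - 1 := congrArg Fin.val h2
    have h5 : c.1.tail = c'.1.tail := by
      refine (List.suffix_of_suffix_length_le hc hc' ?_).eq_of_length ?_
      · rw [List.length_tail, List.length_tail]; omega
      · rw [List.length_tail, List.length_tail]; omega
    apply Subtype.ext
    rw [← List.cons_head_tail c.2.1, ← List.cons_head_tail c'.2.1, h5]
    congr 1
  have h1 : (DB k L₁ L₂)ᶜ ⊆ ⋃ c ∈ (Finset.univ.filter (fun c : TE n d => c.1.tail <:+ L₁.1) ∪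
      Finset.univ.filter (fun c : TE n d => c.1.tail <:+ L₂.1)),
      {η : GE n d k → Marks | (η (Sum.inl c)).1 ∈ {n : ℕ | 2 ≤ n}} := by
    intro η hη
    simp only [DB, mem_compl_iff, mem_ofPred_eq, not_forall] at hη
    obtain ⟨c, h2, h3, h4⟩ := hη
    simp only [mem_iUnion]
    refine ⟨c, ?_, ?_⟩
    · rw [Finset.mem_union, Finset.mem_filter, Finset.mem_filter]
      rcases h2 with h | h
      · left; exact ⟨Finset.mem_univ _, h⟩
      · right; exact ⟨Finset.mem_univ _, h⟩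
    · change 2 ≤ (η (Sum.inl c)).1
      exact Nat.lt_of_not_le h4
  refine (measure_mono h1).trans ((measure_biUnion_finset_le _ _).trans ?_)
  calc ∑ c ∈ (Finset.univ.filter (fun c : TE n d => c.1.tail <:+ L₁.1) ∪
      Finset.univ.filter (fun c : TE n d => c.1.tail <:+ L₂.1)),
        prodLaw (ptsLaw T) (GE n d k) {η | (η (Sum.inl c)).1 ∈ {n : ℕ | 2 ≤ n}}
      ≤ ∑ _c ∈ (Finset.univ.filter (fun c : TE n d => c.1.tail <:+ L₁.1) ∪
      Finset.univ.filter (fun c : TE n d => c.1.tail <:+ L₂.1)), ENNReal.ofReal (T ^ 2) := by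
        refine Finset.sum_le_sum (fun c _ => ?_)
        rw [prob_count]
        exact po_ge_two hT
    _ = ((Finset.univ.filter (fun c : TE n d => c.1.tail <:+ L₁.1) ∪
      Finset.univ.filter (fun c : TE n d => c.1.tail <:+ L₂.1)).card : ℝ≥0∞) *
        ENNReal.ofReal (T ^ 2) := by rw [Finset.sum_const, nsmul_eq_mul]
    _ ≤ ((2 * (n * d) : ℕ) : ℝ≥0∞) * ENNReal.ofReal (T ^ 2) := by
        refine mul_le_mul' ?_ le_rfl
        have := (Finset.card_union_le (Finset.univ.filter (fun c : TE n d => c.1.tail <:+ L₁.1))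
          (Finset.univ.filter (fun c : TE n d => c.1.tail <:+ L₂.1)))
        have h2 := hcard L₁
        have h3 := hcard L₂
        exact_mod_cast (by omega : (Finset.univ.filter (fun c : TE n d => c.1.tail <:+ L₁.1) ∪
          Finset.univ.filter (fun c : TE n d => c.1.tail <:+ L₂.1)).card ≤ 2 * (n * d))
    _ = ENNReal.ofReal (2 * n * d * T ^ 2) := by
        rw [← ENNReal.ofReal_natCast, ← ENNReal.ofReal_mul (by positivity)]
        congr 1
        push_cast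
        ring

lemma sum_geom_bound {T : ℝ} (hT : 0 ≤ T) (h2 : 2 ≤ d * T) : ∀ n : ℕ, 0 < n →
    ∑ j ∈ Finset.range n, (d : ℝ) ^ (n - j) * T ^ (n - j + 1) ≤ 2 * ((d : ℝ) ^ n * T ^ (n + 1)) := by
  intro n hn
  induction n with
  | zero => omega
  | succ n ih =>
    rw [Finset.sum_range_succ']
    have h1 : ∀ j ∈ Finset.range n, (d : ℝ) ^ (n + 1 - (j + 1)) * T ^ (n + 1 - (j + 1) + 1) =
        (d : ℝ) ^ (n - j) * T ^ (n - j + 1) := by
      intro j _
      rw [Nat.add_sub_add_right]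
    rw [Finset.sum_congr rfl h1]
    simp only [Nat.sub_zero]
    rcases Nat.eq_zero_or_pos n with h | h
    · subst h
      simp
      nlinarith [mul_nonneg (Nat.cast_nonneg d : (0:ℝ) ≤ d) (sq_nonneg T)]
    · have h3 := ih h
      have h4 : 2 * ((d : ℝ) ^ n * T ^ (n + 1)) ≤ (d : ℝ) ^ (n + 1) * T ^ (n + 1 + 1) := by
        have : (d : ℝ) ^ (n + 1) * T ^ (n + 1 + 1) = (d * T) * ((d : ℝ) ^ n * T ^ (n + 1)) := by
          ring
        rw [this]
        exact mul_le_mul_of_nonneg_right h2 (by positivity)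
      linarith

lemma prob_DC_compl {T : ℝ} (hT : 0 ≤ T) (hT1 : T ≤ 1) (hn : 0 < n) (h2 : 2 ≤ d * T)
    (L₁ L₂ : YE n d) :
    prodLaw (ptsLaw T) (GE n d k) (DC k L₁ L₂)ᶜ ≤
      ENNReal.ofReal (4 * ((d : ℝ) ^ n * T ^ (n + 1))) := by
  classical
  set P := prodLaw (ptsLaw T) (GE n d k) with hP
  set t := ENNReal.ofReal T with ht
  have h1 : (DC k L₁ L₂)ᶜ ⊆ ⋃ l ∈ (Finset.univ.filter (fun l : YE n d => l ≠ L₁ ∧ l ≠ L₂)),
      DF k L₁ L₂ l := by
    intro η hη
    simp only [DC, mem_compl_iff, mem_ofPred_eq, not_forall, not_not] at hη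
    obtain ⟨l, h3, h4, h5⟩ := hη
    simp only [mem_iUnion]
    exact ⟨l, by simp [h3, h4], h5⟩
  have h3 : ∀ l ∈ (Finset.univ.filter (fun l : YE n d => l ≠ L₁ ∧ l ≠ L₂)), P (DF k L₁ L₂ l) ≤
      ∑ j ∈ Finset.range n, ((if suf L₁ j <:+ l.1 then 1 else 0) +
        (if suf L₂ j <:+ l.1 then 1 else 0)) * t ^ (n - j + 1) := by
    intro l hl
    rw [Finset.mem_filter] at hl
    obtain ⟨j, hj, hbr, hno⟩ := exists_branch L₁ L₂ l hl.2.1 hl.2.2
    have h4 : P (DF k L₁ L₂ l) ≤ t ^ (n - j + 1) := by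
      refine (measure_mono ?_).trans (prob_path hT l j)
      rintro η ⟨h5, h6⟩
      exact ⟨fun c hc hlen => h5 c hc (hno c hc hlen), h6⟩
    refine h4.trans ?_
    have h5 : t ^ (n - j + 1) ≤ ((if suf L₁ j <:+ l.1 then 1 else 0) +
        (if suf L₂ j <:+ l.1 then 1 else 0)) * t ^ (n - j + 1) := by
      have h6 : (1 : ℝ≥0∞) ≤ (if suf L₁ j <:+ l.1 then 1 else 0) +
        (if suf L₂ j <:+ l.1 then 1 else 0) := by
        rcases hbr with h | h
        · rw [if_pos h]; exact le_self_add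
        · rw [if_pos h]; exact le_add_self
      calc t ^ (n - j + 1) = 1 * t ^ (n - j + 1) := (one_mul _).symm
        _ ≤ _ := mul_le_mul' h6 le_rfl
    exact h5.trans (Finset.single_le_sum (f := fun j => ((if suf L₁ j <:+ l.1 then 1 else 0) +
        (if suf L₂ j <:+ l.1 then 1 else 0)) * t ^ (n - j + 1)) (fun _ _ => bot_le)
        (Finset.mem_range.mpr hj))
  refine (measure_mono h1).trans ((measure_biUnion_finset_le _ _).trans
    ((Finset.sum_le_sum h3).trans ?_))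
  rw [Finset.sum_comm]
  have h4 : ∀ j ∈ Finset.range n, ∑ l ∈ (Finset.univ.filter (fun l : YE n d => l ≠ L₁ ∧ l ≠ L₂)),
      ((if suf L₁ j <:+ l.1 then 1 else 0) + (if suf L₂ j <:+ l.1 then 1 else 0)) *
        t ^ (n - j + 1) ≤ ENNReal.ofReal (2 * ((d : ℝ) ^ (n - j) * T ^ (n - j + 1))) := by
    intro j hj
    rw [Finset.mem_range] at hj
    rw [← Finset.sum_mul]
    have h5 : ∀ L : YE n d, (∑ l : YE n d, if suf L j <:+ l.1 then (1 : ℝ≥0∞) else 0) ≤
        ((d ^ (n - j) : ℕ) : ℝ≥0∞) := by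
      intro L
      rw [Finset.sum_boole]
      have := card_below (n := n) (suf L j)
      rw [suf_length L hj.le] at this
      exact_mod_cast this
    calc (∑ l ∈ (Finset.univ.filter (fun l : YE n d => l ≠ L₁ ∧ l ≠ L₂)),
        ((if suf L₁ j <:+ l.1 then (1 : ℝ≥0∞) else 0) + (if suf L₂ j <:+ l.1 then 1 else 0))) *
        t ^ (n - j + 1)
        ≤ (∑ l : YE n d, ((if suf L₁ j <:+ l.1 then (1 : ℝ≥0∞) else 0) +
          (if suf L₂ j <:+ l.1 then 1 else 0))) * t ^ (n - j + 1) := by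
          refine mul_le_mul' ?_ le_rfl
          exact Finset.sum_le_sum_of_subset (Finset.filter_subset _ _)
      _ ≤ (((d ^ (n - j) : ℕ) : ℝ≥0∞) + ((d ^ (n - j) : ℕ) : ℝ≥0∞)) * t ^ (n - j + 1) := by
          rw [Finset.sum_add_distrib]
          exact mul_le_mul' (add_le_add (h5 L₁) (h5 L₂)) le_rfl
      _ = ENNReal.ofReal (2 * ((d : ℝ) ^ (n - j) * T ^ (n - j + 1))) := by
          rw [ht, ← ENNReal.ofReal_pow hT, ← ENNReal.ofReal_natCast, ← ENNReal.ofReal_add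
            (by positivity) (by positivity), ← ENNReal.ofReal_mul (by positivity)]
          congr 1
          push_cast
          ring
  refine (Finset.sum_le_sum h4).trans ?_
  rw [← ENNReal.ofReal_sum_of_nonneg (fun j _ => by positivity)]
  apply ENNReal.ofReal_le_ofReal
  rw [← Finset.mul_sum]
  have := sum_geom_bound (d := d) hT h2 n hn
  linarith

/-- number of path edges -/
lemma prob_DA {T : ℝ} (hT : 0 < T) (hT1 : T ≤ 1) (L₁ L₂ : YE n d) :
    (T * Real.exp (-T)) ^ (2 * (n - 1)) ≤ (prodLaw (ptsLaw T) (GE n d k)).real (DA k L₁ L₂) := by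
  classical
  set P := prodLaw (ptsLaw T) (GE n d k) with hP
  set s : Finset (GE n d k) := (Finset.univ.filter (fun c : TE n d => onPath L₁ L₂ c ∧
    1 < c.1.length)).image Sum.inl with hs
  have h1 : DA k L₁ L₂ = {η | ∀ e ∈ s, η e ∈ {m : Marks | m.1 = 1}} := by
    ext η
    simp only [DA, mem_ofPred_eq, hs, Finset.mem_image, Finset.mem_filter, Finset.mem_univ,
      true_and, forall_exists_index, and_imp]
    constructor
    · rintro h e c h2 h3 rfl
      exact h c h2 h3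
    · intro h c h2 h3
      exact h _ c h2 h3 rfl
  have hcard1 : ∀ L : YE n d, (Finset.univ.filter (fun c : TE n d => c.1 <:+ L.1 ∧
      1 < c.1.length)).card ≤ n - 1 := by
    intro L
    have h2 : (Finset.range (n - 1)).card = n - 1 := by simp
    refine le_trans ?_ h2.le
    refine Finset.card_le_card_of_injOn (fun c : TE n d => c.1.length - 2) ?_ ?_
    · intro c hc
      simp only [Finset.coe_filter, Finset.mem_univ, true_and, mem_ofPred_eq] at hc
      have := c.2.2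
      simp only [Finset.coe_range, mem_Iio]
      omega
    · intro c hc c' hc' h
      simp only [Finset.coe_filter, Finset.mem_univ, true_and, mem_ofPred_eq] at hc hc'
      have h4 : c.1.length - 2 = c'.1.length - 2 := h
      apply Subtype.ext
      exact (List.suffix_of_suffix_length_le hc.1 hc'.1 (by omega)).eq_of_length (by omega)
  have hcard : s.card ≤ 2 * (n - 1) := by
    have h2 : (Finset.univ.filter (fun c : TE n d => onPath L₁ L₂ c ∧ 1 < c.1.length)) ⊆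
        (Finset.univ.filter (fun c : TE n d => c.1 <:+ L₁.1 ∧ 1 < c.1.length)) ∪
        (Finset.univ.filter (fun c : TE n d => c.1 <:+ L₂.1 ∧ 1 < c.1.length)) := by
      intro c hc
      simp only [Finset.mem_filter, Finset.mem_univ, true_and, Finset.mem_union] at hc ⊢
      rcases hc.1 with h | h
      · left; exact ⟨h, hc.2⟩
      · right; exact ⟨h, hc.2⟩
    have h3 := Finset.card_le_card h2
    have h4 := Finset.card_union_le (Finset.univ.filter (fun c : TE n d => c.1 <:+ L₁.1 ∧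
      1 < c.1.length)) (Finset.univ.filter (fun c : TE n d => c.1 <:+ L₂.1 ∧ 1 < c.1.length))
    have h5 := hcard1 L₁
    have h6 := hcard1 L₂
    have h7 : s.card ≤ (Finset.univ.filter (fun c : TE n d => onPath L₁ L₂ c ∧
      1 < c.1.length)).card := Finset.card_image_le
    omega
  have hone : MeasurableSet {m : Marks | m.1 = 1} :=
    measurable_fst (MeasurableSet.of_discrete (s := ({1} : Set ℕ)))
  have hν : ptsLaw T {m : Marks | m.1 = 1} = ENNReal.ofReal (T * Real.exp (-T)) := by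
    have := ptsLaw_count (T := T) {1}
    rw [po_one hT.le] at this
    exact this
  have hp0 : 0 ≤ T * Real.exp (-T) := by positivity
  have hp1 : T * Real.exp (-T) ≤ 1 := by
    have : Real.exp (-T) ≤ 1 := by rw [Real.exp_le_one_iff]; linarith
    nlinarith [Real.exp_pos (-T)]
  rw [Measure.real, h1, hP, prodLaw_finset (ptsLaw T) s (fun _ _ => hone), Finset.prod_const, hν,
    ← ENNReal.ofReal_pow hp0, ENNReal.toReal_ofReal (by positivity)]
  exact pow_le_pow_of_le_one hp0 hp1 hcard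

theorem prob_Dset {T : ℝ} (hT : 0 < T) (hT1 : T ≤ 1) (hn : 0 < n) (h2 : 2 ≤ d * T)
    (hlam : (d : ℝ) ^ n * T ^ (n + 1) ≤ 1 / 32) (hd : 2 * n * d * T ^ 2 ≤ 1 / 8)
    (L₁ L₂ : YE n d) :
    (T * Real.exp (-T)) ^ (2 * (n - 1)) / 2 ≤
      (prodLaw (ptsLaw T) (GE n d k)).real (Dset k L₁ L₂) := by
  set P := prodLaw (ptsLaw T) (GE n d k) with hP
  have hdA : DepOn {e : GE n d k | ∃ c, e = Sum.inl c ∧ onPath L₁ L₂ c} (DA k L₁ L₂) :=
    depOn_DA L₁ L₂ (fun c h _ => ⟨c, rfl, h⟩)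
  have hdBC : DepOn {e : GE n d k | ∃ c, e = Sum.inl c ∧ onPath L₁ L₂ c}ᶜ
      (DB k L₁ L₂ ∩ DC k L₁ L₂) := by
    refine DepOn.inter (depOn_DB L₁ L₂ ?_) (depOn_DC L₁ L₂ ?_ ?_)
    · rintro c h ⟨c', h1, h3⟩
      rw [Sum.inl.inj h1] at h
      exact h h3
    · rintro c h ⟨c', h1, h3⟩
      rw [Sum.inl.inj h1] at h
      exact h h3
    · rintro l _ _ ⟨c', h1, _⟩
      simp at h1
  have hind := indep_disjoint (ptsLaw T) hdA hdBC disjoint_compl_right
  have hBC : 1 / 2 ≤ P.real (DB k L₁ L₂ ∩ DC k L₁ L₂) := by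
    have h3 : P (DB k L₁ L₂ ∩ DC k L₁ L₂)ᶜ ≤ ENNReal.ofReal (1 / 4) := by
      rw [compl_inter]
      refine (measure_union_le _ _).trans ?_
      refine (add_le_add (prob_DB_compl hT.le L₁ L₂) (prob_DC_compl hT.le hT1 hn h2 L₁ L₂)).trans ?_
      rw [← ENNReal.ofReal_add (by positivity) (by positivity)]
      apply ENNReal.ofReal_le_ofReal
      linarith
    have h4 : P.real (DB k L₁ L₂ ∩ DC k L₁ L₂)ᶜ ≤ 1 / 4 := by
      rw [Measure.real]
      have := ENNReal.toReal_mono ENNReal.ofReal_ne_top h3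
      rwa [ENNReal.toReal_ofReal (by norm_num)] at this
    rw [probReal_compl_eq_one_sub hdBC.meas] at h4
    linarith
  rw [Dset_eq, Measure.real, hind, ENNReal.toReal_mul]
  have h5 := prob_DA (k := k) hT hT1 L₁ L₂
  have h6 : 0 ≤ (T * Real.exp (-T)) ^ (2 * (n - 1)) := by positivity
  calc (T * Real.exp (-T)) ^ (2 * (n - 1)) / 2 = (T * Real.exp (-T)) ^ (2 * (n - 1)) * (1 / 2) := by
        ring
    _ ≤ P.real (DA k L₁ L₂) * P.real (DB k L₁ L₂ ∩ DC k L₁ L₂) :=
        mul_le_mul h5 hBC (by norm_num) measureReal_nonneg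

end Pool.Agent.H98.RS
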