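import Pool.Agent.H98.RSGadC

/-! The gadget: choice of the number of leaves and probability of the blocking event. -/

set_option autoImplicit false

open Set MeasureTheory ProbabilityTheory Filter
open scoped ENNReal NNReal Topology

namespace Pool.Agent.H98.RS

variable {n d k K : ℕ}

lemma SDset_subset (hn : 0 < n) (L₁ L₂ : YE n d) :
    SDset k L₁ L₂ ⊆ (fourEdges (top hn L₁) (top hn L₂) L₁ L₂)ᶜ := by
  rintro e he h
  rcases he with ⟨c, rfl, hc⟩ | ⟨l, rfl, h1, h2⟩
  · simp only [fourEdges, mem_insert_iff, mem_singleton_iff, Sum.inl.injEq, reduceCtorEq,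
      false_or] at h
    rcases h with h | h
    · have := hc (Or.inl (by rw [h]; exact top_suffix hn L₁))
      rw [h, top_length] at this
      omega
    · have := hc (Or.inr (by rw [h]; exact top_suffix hn L₂))
      rw [h, top_length] at this
      omega
  · simp only [fourEdges, mem_insert_iff, mem_singleton_iff, Sum.inr.injEq, Sum.inl.injEq,
      reduceCtorEq, or_false] at h
    rcases h with h | h
    · exact h1 h
    · exact h2 h

lemma hub_dep_four (hn : 0 < n) (L₁ L₂ : YE n d) (ω ω' : GE n d k → Marks)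
    (hh : ∀ i ∈ ((fourEdges (top hn L₁) (top hn L₂) L₁ L₂)ᶜ : Set (GE n d k)), ω i = ω' i)
    (x : ℝ × ℝ) :
    (ω, x) ∈ hubSet gends ghub (fourEdges (top hn L₁) (top hn L₂) L₁ L₂)ᶜ (Dset k L₁ L₂) ↔
    (ω', x) ∈ hubSet gends ghub (fourEdges (top hn L₁) (top hn L₂) L₁ L₂)ᶜ (Dset k L₁ L₂) :=
  hubSet_dep gends ghub ((depOn_Dset L₁ L₂).mono (SDset_subset hn L₁ L₂)) ω ω' hh x

lemma measurableSet_hub_four (hn : 0 < n) (L₁ L₂ : YE n d) :
    MeasurableSet (hubSet (gends (k := k)) ghub (fourEdges (top hn L₁) (top hn L₂) L₁ L₂)ᶜ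
      (Dset k L₁ L₂)) :=
  measurableSet_hubSet locFin_gends ghub _ (depOn_Dset L₁ L₂).meas

/-- the measure of the hub set -/
noncomputable def qval (T : ℝ) (K : ℕ) (hn : 0 < n) (L₁ L₂ : YE n d) (k : ℕ) : ℝ :=
  (((prodLaw (ptsLaw T) (GE n d K)).prod ((unif T).prod (unif T)))
        (hubSet gends ghub (stage (fourEdges (top hn L₁) (top hn L₂) L₁ L₂) (leafE K) k)
          (Dset K L₁ L₂))).toReal

lemma prob_Hset {T : ℝ} (hT : 0 ≤ T) (hn : 0 < n) (hk : k ≤ K) {L₁ L₂ : YE n d} (hL : L₁ ≠ L₂) :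
    (prodLaw (ptsLaw T) (GE n d k)).real (Hset k hn L₁ L₂) =
      (T * Real.exp (-T)) ^ 2 * qval T K hn L₁ L₂ k := by
  have h1 := block_two (T := T) (S := (fourEdges (top hn L₁) (top hn L₂) L₁ L₂)ᶜ)
    (e₁ := (Sum.inr (Sum.inl L₁) : GE n d k)) (e₂ := Sum.inr (Sum.inl L₂))
    (by simp [fourEdges]) (by simp [fourEdges]) (by simpa using hL)
    (measurableSet_hub_four hn L₁ L₂) (hub_dep_four hn L₁ L₂)
  have h2 : ((prodLaw (ptsLaw T) (GE n d k)).prod ((unif T).prod (unif T)))
      (hubSet gends ghub (fourEdges (top hn L₁) (top hn L₂) L₁ L₂)ᶜ (Dset k L₁ L₂)) =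
      ((prodLaw (ptsLaw T) (GE n d K)).prod ((unif T).prod (unif T)))
        (hubSet gends ghub (stage (fourEdges (top hn L₁) (top hn L₂) L₁ L₂) (leafE K) k)
          (Dset K L₁ L₂)) := by
    have hm : Measurable (fun ω : GE n d K → Marks => fun e : GE n d k => ω (emb hk e)) :=
      measurable_pi_lambda _ (fun e => measurable_pi_apply _)
    have hlaw : (prodLaw (ptsLaw T) (GE n d K)).map
        (fun ω : GE n d K → Marks => fun e : GE n d k => ω (emb hk e)) =
        prodLaw (ptsLaw T) (GE n d k) :=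
      Measure.map_infinitePi_infinitePi_of_inj (P := fun _ => ptsLaw T) (emb_injective hk)
    have h3 : ((prodLaw (ptsLaw T) (GE n d K)).prod ((unif T).prod (unif T))).map
        (Prod.map (fun ω : GE n d K → Marks => fun e : GE n d k => ω (emb hk e)) id) =
        (prodLaw (ptsLaw T) (GE n d k)).prod ((unif T).prod (unif T)) := by
      rw [← Measure.map_prod_map _ _ hm measurable_id, hlaw, Measure.map_id]
    rw [← h3, Measure.map_apply (hm.prodMap measurable_id) (measurableSet_hub_four hn L₁ L₂)]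
    congr 1
    ext ⟨ω, x⟩
    exact hubSet_emb hk _ _ L₁ L₂ ω x
  rw [h2] at h1
  have h4 : (prodLaw (ptsLaw T) (GE n d k)).real (Hset k hn L₁ L₂) =
      (poissonMeasure T.toNNReal {1} * poissonMeasure T.toNNReal {1} *
        ((prodLaw (ptsLaw T) (GE n d K)).prod ((unif T).prod (unif T)))
        (hubSet gends ghub (stage (fourEdges (top hn L₁) (top hn L₂) L₁ L₂) (leafE K) k)
          (Dset K L₁ L₂))).toReal := by
    rw [← h1]
    rfl
  rw [h4, ENNReal.toReal_mul, ENNReal.toReal_mul, po_one hT,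
    ENNReal.toReal_ofReal (by positivity), qval]
  ring

lemma depOn_Hset (hn : 0 < n) (L₁ L₂ : YE n d) :
    DepOn {e : GE n d k | e ≠ Sum.inl (top hn L₁) ∧ e ≠ Sum.inl (top hn L₂)} (Hset k hn L₁ L₂) := by
  have m1 : Measurable (fun ω : GE n d k → Marks => (ω, ((ω (Sum.inr (Sum.inl L₁))).2 0,
      (ω (Sum.inr (Sum.inl L₂))).2 0))) :=
    measurable_id.prodMk ((measurable_time _ 0).prodMk (measurable_time _ 0))
  refine ⟨?_, fun ω ω' hh => ?_⟩
  · exact (depOn_count (Sum.inr (Sum.inl L₁)) {1}).meas.inter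
      ((depOn_count (Sum.inr (Sum.inl L₂)) {1}).meas.inter (m1 (measurableSet_hub_four hn L₁ L₂)))
  · have h1 : ω (Sum.inr (Sum.inl L₁)) = ω' (Sum.inr (Sum.inl L₁)) := hh _ (by simp)
    have h2 : ω (Sum.inr (Sum.inl L₂)) = ω' (Sum.inr (Sum.inl L₂)) := hh _ (by simp)
    have h3 := hub_dep_four hn L₁ L₂ ω ω' (fun e he => hh e (by
      constructor
      · rintro rfl
        exact he (by simp [fourEdges])
      · rintro rfl
        exact he (by simp [fourEdges])))
    simp only [Hset, mem_ofPred_eq]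
    rw [h1, h2, h3]

lemma depOn_quarter (e : GE n d k) (a b : ℝ) :
    DepOn {e} {η : GE n d k → Marks | (η e).1 = 1 ∧ (η e).2 0 ∈ Set.Ioo a b} := by
  refine depOn_coord e (A := {m : Marks | m.1 = 1 ∧ m.2 0 ∈ Set.Ioo a b}) ?_
  exact (measurable_fst (MeasurableSet.of_discrete (s := ({1} : Set ℕ)))).inter
    (((measurable_pi_apply 0).comp measurable_snd) measurableSet_Ioo)

lemma prob_quarter {T : ℝ} (hT : 0 < T) (e : GE n d k) {a b : ℝ} (ha : 0 ≤ a) (hb : b ≤ T)
    (hab : (b - a) / T = 1 / 4) :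
    (prodLaw (ptsLaw T) (GE n d k)).real {η | (η e).1 = 1 ∧ (η e).2 0 ∈ Set.Ioo a b} =
      T * Real.exp (-T) / 4 := by
  have h1 := prodLaw_coord (ptsLaw T) e (A := {m : Marks | m.1 = 1 ∧ m.2 0 ∈ Set.Ioo a b})
    ((measurable_fst (MeasurableSet.of_discrete (s := ({1} : Set ℕ)))).inter
    (((measurable_pi_apply 0).comp measurable_snd) measurableSet_Ioo))
  have h2 := ptsLaw_count_time (T := T) {1} (S := Set.Ioo a b) measurableSet_Ioo 0
  have h3 : (prodLaw (ptsLaw T) (GE n d k)).real {η | (η e).1 = 1 ∧ (η e).2 0 ∈ Set.Ioo a b} =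
      (poissonMeasure T.toNNReal {1} * unif T (Set.Ioo a b)).toReal := by
    rw [← h2]
    change ((prodLaw (ptsLaw T) (GE n d k)) {η | η e ∈ {m : Marks | m.1 = 1 ∧ m.2 0 ∈
      Set.Ioo a b}}).toReal = _
    rw [h1]
    rfl
  rw [h3, po_one hT.le, unif_Ioo hT ha hb, hab, ENNReal.toReal_mul,
    ENNReal.toReal_ofReal (by positivity), ENNReal.toReal_ofReal (by norm_num)]
  ring

lemma top_ne {hn : 0 < n} {L₁ L₂ : YE n d} (hne : top hn L₁ ≠ top hn L₂) : L₁ ≠ L₂ := by
  rintro rfl; exact hne rfl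

lemma prob_Qset {T : ℝ} (hT : 0 < T) (hn : 0 < n) (hk : k ≤ K) {L₁ L₂ : YE n d}
    (hne : top hn L₁ ≠ top hn L₂) :
    (prodLaw (ptsLaw T) (GE n d k)).real (Qset k hn T L₁ L₂) =
      (T * Real.exp (-T)) ^ 4 / 16 * qval T K hn L₁ L₂ k := by
  have hA := depOn_quarter (Sum.inl (top hn L₁) : GE n d k) 0 (T / 4)
  have hB := depOn_quarter (Sum.inl (top hn L₂) : GE n d k) (T / 2) (3 * T / 4)
  have hH := depOn_Hset (k := k) hn L₁ L₂
  have i1 := indep_disjoint (ptsLaw T) hB hH (by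
    rw [Set.disjoint_singleton_left]
    rintro ⟨_, h⟩
    exact h rfl)
  have i2 := indep_disjoint (ptsLaw T) hA ((hB.mono (subset_union_left (t :=
    {e : GE n d k | e ≠ Sum.inl (top hn L₁) ∧ e ≠ Sum.inl (top hn L₂)}))).inter
    (hH.mono subset_union_right)) (by
      rw [Set.disjoint_singleton_left]
      rintro (h | ⟨h, _⟩)
      · exact hne (Sum.inl.inj h)
      · exact h rfl)
  have h1 := prob_quarter hT (Sum.inl (top hn L₁) : GE n d k) (a := 0) (b := T / 4) le_rfl
    (by linarith) (by field_simp; ring)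
  have h2 := prob_quarter hT (Sum.inl (top hn L₂) : GE n d k) (a := T / 2) (b := 3 * T / 4)
    (by linarith) (by linarith) (by field_simp; ring)
  rw [Qset, Measure.real, i2, i1, ENNReal.toReal_mul, ENNReal.toReal_mul]
  have h3 := prob_Hset (k := k) (K := K) hT.le hn hk (top_ne hne)
  rw [Measure.real] at h1 h2 h3
  rw [h1, h2, h3]
  ring

open Classical in
/-- pairs of paths that separate at the root -/
noncomputable def pairs (n d : ℕ) (hn : 0 < n) : Finset (YE n d × YE n d) :=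
  Finset.univ.filter (fun p => top hn p.1 ≠ top hn p.2)

lemma card_pairs (hn : 0 < n) (hd : 2 ≤ d) :
    ((d : ℝ) ^ n) ^ 2 / 2 ≤ ((pairs n d hn).card : ℝ) := by
  classical
  -- complement
  have h1 : (Finset.univ.filter (fun p : YE n d × YE n d => ¬ (top hn p.1 ≠ top hn p.2))).card ≤
      d ^ n * d ^ (n - 1) := by
    have h3 : (Finset.univ.filter (fun p : YE n d × YE n d => ¬ (top hn p.1 ≠ top hn p.2))).card =
        ∑ L : YE n d, (Finset.univ.filter (fun L' : YE n d => ¬ (top hn L ≠ top hn L'))).card := by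
      rw [Finset.card_eq_sum_ones, Finset.sum_filter, Fintype.sum_prod_type]
      refine Finset.sum_congr rfl (fun L _ => ?_)
      rw [Finset.card_eq_sum_ones, Finset.sum_filter]
    rw [h3]
    have h4 : ∀ L : YE n d, (Finset.univ.filter (fun L' : YE n d =>
        ¬ (top hn L ≠ top hn L'))).card ≤ d ^ (n - 1) := by
      intro L
      have h5 := card_below (n := n) (top hn L).1
      rw [top_length] at h5
      refine (Finset.card_le_card ?_).trans h5
      intro L' hL'
      simp only [Finset.mem_filter, Finset.mem_univ, true_and, ne_eq, not_not] at hL' ⊢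
      rw [hL']
      exact top_suffix hn L'
    calc ∑ L : YE n d, (Finset.univ.filter (fun L' : YE n d => ¬ (top hn L ≠ top hn L'))).card
        ≤ ∑ _L : YE n d, d ^ (n - 1) := Finset.sum_le_sum (fun L _ => h4 L)
      _ = d ^ n * d ^ (n - 1) := by
        rw [Finset.sum_const, Finset.card_univ, card_YE, smul_eq_mul]
  have h2 : (pairs n d hn).card + (Finset.univ.filter (fun p : YE n d × YE n d =>
      ¬ (top hn p.1 ≠ top hn p.2))).card = d ^ n * d ^ n := by
    rw [pairs, Finset.card_filter_add_card_filter_not, Finset.card_univ, Fintype.card_prod,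
      card_YE]
  have h3 : 2 * (d ^ n * d ^ (n - 1)) ≤ d ^ n * d ^ n := by
    obtain ⟨m, rfl⟩ : ∃ m, n = m + 1 := ⟨n - 1, by omega⟩
    rw [Nat.add_sub_cancel]
    have : d ^ (m + 1) * d ^ (m + 1) = d * (d ^ (m + 1) * d ^ m) := by ring
    rw [this]
    exact Nat.mul_le_mul_right _ hd
  have h4 : d ^ n * d ^ n ≤ 2 * (pairs n d hn).card := by omega
  have h5 : ((d ^ n * d ^ n : ℕ) : ℝ) ≤ ((2 * (pairs n d hn).card : ℕ) : ℝ) := by exact_mod_cast h4
  push_cast at h5
  have h6 : ((d : ℝ) ^ n) ^ 2 = (d : ℝ) ^ n * (d : ℝ) ^ n := by ring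
  rw [h6]
  linarith

/-- the blocking event -/
def Qall (k : ℕ) (hn : 0 < n) (T : ℝ) : Set (GE n d k → Marks) :=
  ⋃ p ∈ pairs n d hn, Qset k hn T p.1 p.2

lemma measurableSet_Qset (hn : 0 < n) (T : ℝ) (L₁ L₂ : YE n d) :
    MeasurableSet (Qset k hn T L₁ L₂) :=
  (depOn_quarter _ _ _).meas.inter ((depOn_quarter _ _ _).meas.inter (depOn_Hset hn L₁ L₂).meas)

lemma measurableSet_Qall (hn : 0 < n) (T : ℝ) : MeasurableSet (Qall (d := d) k hn T) :=
  Finset.measurableSet_biUnion _ (fun p _ => measurableSet_Qset hn T p.1 p.2)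

theorem exists_leaves {T : ℝ} (hT : 0 < T) (hT8 : T ≤ 1 / 8) (hn : 0 < n) (hd2 : 2 ≤ d)
    (h2 : 2 ≤ d * T) (hlam : (d : ℝ) ^ n * T ^ (n + 1) ≤ 1 / 32)
    (hd : 2 * n * d * T ^ 2 ≤ 1 / 8) :
    ∃ k : ℕ, ((d : ℝ) ^ n * (T * Real.exp (-T)) ^ (n + 1)) ^ 2 / 256 ≤
      (prodLaw (ptsLaw T) (GE n d k)).real (Qall k hn T) := by
  classical
  set cr := Nat.card (TV n d) + 1 with hcr
  obtain ⟨K, hK⟩ := exists_nat_gt ((cr : ℝ) * 8 / T ^ 2)
  have hT2 : 0 < T ^ 2 := by positivity
  have hK' : (cr : ℝ) ≤ K * T ^ 2 / 8 := by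
    rw [div_lt_iff₀ hT2] at hK
    linarith
  have hK0 : 0 < K := by
    have h1 : (0 : ℝ) ≤ (cr : ℝ) * 8 / T ^ 2 := by positivity
    have h3 : (0 : ℝ) < K := lt_of_le_of_lt h1 hK
    exact_mod_cast h3
  have hcard : Nat.card (GV n d K) = cr + K := by
    have hfin : Finite (TV n d) := List.finite_length_le _ _
    rw [Nat.card_sum, Nat.card_eq_fintype_card (α := Option (Fin K)), Fintype.card_option,
      Fintype.card_fin, hcr]
    ring
  have hav : ∀ p : YE n d × YE n d,
      (prodLaw (ptsLaw T) (GE n d K)).real (Dset K p.1 p.2) * (K / 4) ≤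
      ∑ r : Fin K, qval T K hn p.1 p.2 r := by
    intro p
    refine hub_average locFin_gends hT hT8 (lf := leafE K) (ℓ := fun r => Sum.inr (some r))
      (y := ghub) ?_ ?_ (fun r => rfl) ?_ ?_ ?_ (depOn_Dset p.1 p.2) ?_ ?_ hcard hK'
    · intro r r' h
      exact Sum.inr.inj (Sum.inr.inj h)
    · intro r r' h
      exact Option.some.inj (Sum.inr.inj h)
    · intro r h
      simp [ghub] at h
    · rintro r (c | l | r') h
      · simp [gends] at h
      · simp [gends] at h
      · simp only [gends, Sum.inr.injEq, Option.some.injEq, reduceCtorEq, or_false] at h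
        rw [h]
        rfl
    · intro r h
      simp [fourEdges, leafE] at h
    · intro e he
      exact SDset_subset hn p.1 p.2 he
    · rintro r (⟨c, h, _⟩ | ⟨l, h, _⟩)
      · simp [leafE] at h
      · simp [leafE] at h
  -- choose the number of leaves
  have hsum : ∑ _r : Fin K, (∑ p ∈ pairs n d hn,
      (prodLaw (ptsLaw T) (GE n d K)).real (Dset K p.1 p.2) / 4) ≤
      ∑ r : Fin K, ∑ p ∈ pairs n d hn, qval T K hn p.1 p.2 r := by
    rw [Finset.sum_comm (s := (Finset.univ : Finset (Fin K))) (t := pairs n d hn)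
      (f := fun r p => qval T K hn p.1 p.2 r.1), Finset.sum_const, Finset.card_univ,
      Fintype.card_fin, nsmul_eq_mul, Finset.mul_sum]
    refine Finset.sum_le_sum (fun p _ => ?_)
    have := hav p
    linarith
  have hne : (Finset.univ : Finset (Fin K)).Nonempty := ⟨⟨0, hK0⟩, Finset.mem_univ _⟩
  obtain ⟨r, _, hr⟩ := Finset.exists_le_of_sum_le hne hsum
  refine ⟨r.1, ?_⟩
  have hk : r.1 ≤ K := r.2.le
  set p1 := T * Real.exp (-T) with hp1
  have hp10 : 0 < p1 := by positivity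
  -- disjoint union
  have hdisj : (pairs n d hn : Set (YE n d × YE n d)).PairwiseDisjoint
      (fun p => Qset (k := r.1) hn T p.1 p.2) := by
    intro p hp p' _ hne'
    rw [Function.onFun, Set.disjoint_left]
    intro η h3 h4
    apply hne'
    have hp' : top hn p.1 ≠ top hn p.2 := by
      have := hp
      simp only [pairs, Finset.coe_filter, Finset.mem_univ, true_and, mem_ofPred_eq] at this
      exact this
    obtain ⟨h5, h6⟩ := Qset_disjoint hp' hT h3 h4
    exact Prod.ext h5 h6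
  have hprob : (prodLaw (ptsLaw T) (GE n d r.1)).real (Qall r.1 hn T) =
      ∑ p ∈ pairs n d hn, p1 ^ 4 / 16 * qval T K hn p.1 p.2 r.1 := by
    rw [Qall, Measure.real, measure_biUnion_finset hdisj
      (fun p _ => measurableSet_Qset hn T p.1 p.2),
      ENNReal.toReal_sum (fun p _ => measure_ne_top _ _)]
    refine Finset.sum_congr rfl (fun p hp => ?_)
    have hp' : top hn p.1 ≠ top hn p.2 := by
      simp only [pairs, Finset.mem_filter, Finset.mem_univ, true_and] at hp
      exact hp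
    have := prob_Qset hT hn hk hp'
    rw [Measure.real] at this
    exact this
  rw [hprob, ← Finset.mul_sum]
  have hlow : ((d : ℝ) ^ n) ^ 2 / 2 * (p1 ^ (2 * (n - 1)) / 8) ≤
      ∑ p ∈ pairs n d hn, qval T K hn p.1 p.2 r.1 := by
    refine le_trans ?_ hr
    have h3 : ∀ p ∈ pairs n d hn, p1 ^ (2 * (n - 1)) / 8 ≤
        (prodLaw (ptsLaw T) (GE n d K)).real (Dset K p.1 p.2) / 4 := by
      intro p _
      have := prob_Dset (k := K) hT (by linarith) hn h2 hlam hd p.1 p.2
      rw [← hp1] at this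
      linarith
    calc ((d : ℝ) ^ n) ^ 2 / 2 * (p1 ^ (2 * (n - 1)) / 8)
        ≤ ((pairs n d hn).card : ℝ) * (p1 ^ (2 * (n - 1)) / 8) :=
          mul_le_mul_of_nonneg_right (card_pairs hn hd2) (by positivity)
      _ = ∑ _p ∈ pairs n d hn, p1 ^ (2 * (n - 1)) / 8 := by
          rw [Finset.sum_const, nsmul_eq_mul]
      _ ≤ _ := Finset.sum_le_sum h3
  have hpow : p1 ^ 4 * p1 ^ (2 * (n - 1)) = (p1 ^ (n + 1)) ^ 2 := by
    rw [← pow_add, ← pow_mul]
    congr 1
    omega
  calc ((d : ℝ) ^ n * p1 ^ (n + 1)) ^ 2 / 256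
      = p1 ^ 4 / 16 * (((d : ℝ) ^ n) ^ 2 / 2 * (p1 ^ (2 * (n - 1)) / 8)) := by
        rw [mul_pow, ← hpow]; ring
    _ ≤ p1 ^ 4 / 16 * ∑ p ∈ pairs n d hn, qval T K hn p.1 p.2 r.1 :=
        mul_le_mul_of_nonneg_left hlow (by positivity)

end Pool.Agent.H98.RS
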