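import Pool.Agent.H98.RSFinal

/-! The decorated tree as a simple graph. -/

set_option autoImplicit false

open Set MeasureTheory ProbabilityTheory Filter
open scoped ENNReal NNReal Topology

namespace Pool.Agent.H98.RS

section general

variable {V E : Type*}

/-- the simple graph with the given edges -/
def gr (ends : E → V × V) : SimpleGraph V :=
  SimpleGraph.fromEdgeSet (Set.range fun e => s((ends e).1, (ends e).2))

/-- no loops, no multiple edges -/
structure Simp (ends : E → V × V) : Prop where
  ne : ∀ e, (ends e).1 ≠ (ends e).2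
  inj : Function.Injective (fun e => s((ends e).1, (ends e).2))

variable {ends : E → V × V}

lemma Simp.mem (h : Simp ends) (e : E) : s((ends e).1, (ends e).2) ∈ (gr ends).edgeSet := by
  rw [gr, SimpleGraph.edgeSet_fromEdgeSet]
  refine ⟨⟨e, rfl⟩, ?_⟩
  have := h.ne e
  simpa using this

/-- the edge of the graph given by `e` -/
def Simp.toEdge (h : Simp ends) (e : E) : (gr ends).edgeSet := ⟨_, h.mem e⟩

lemma Simp.toEdge_injective (h : Simp ends) : Function.Injective h.toEdge := fun _ _ hh =>
  h.inj (congrArg Subtype.val hh)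

lemma Simp.toEdge_surjective (h : Simp ends) : Function.Surjective h.toEdge := by
  rintro ⟨s, hs⟩
  have hs' := hs
  rw [gr, SimpleGraph.edgeSet_fromEdgeSet] at hs'
  obtain ⟨e, rfl⟩ := hs'.1
  exact ⟨e, rfl⟩

lemma Simp.adj_iff (h : Simp ends) (x y : V) : (gr ends).Adj x y ↔
    ∃ e, ((ends e).1 = x ∧ (ends e).2 = y) ∨ ((ends e).1 = y ∧ (ends e).2 = x) := by
  rw [gr, SimpleGraph.fromEdgeSet_adj]
  constructor
  · rintro ⟨⟨e, he⟩, _⟩
    exact ⟨e, Sym2.eq_iff.mp he⟩
  · rintro ⟨e, he⟩
    refine ⟨⟨e, ?_⟩, ?_⟩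
    · exact Sym2.eq_iff.mpr he
    · have := h.ne e
      rcases he with ⟨h1, h2⟩ | ⟨h1, h2⟩
      · rw [← h1, ← h2]; exact this
      · rw [← h1, ← h2]; exact this.symm

/-- the bars on the edges of a graph -/
def gbar (G : SimpleGraph V) (ω : G.edgeSet → Marks) (x y : V) (t : ℝ) : Prop :=
  ∃ e : G.edgeSet, (e : Sym2 V) = s(x, y) ∧ ∃ i < (ω e).1, (ω e).2 i = t

lemma gbar_gr (h : Simp ends) (ω : (gr ends).edgeSet → Marks) :
    gbar (gr ends) ω = bars ends (fun e => ω (h.toEdge e)) := by
  funext x y t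
  simp only [gbar, bars, eq_iff_iff]
  constructor
  · rintro ⟨e, he, i, hi, ht⟩
    obtain ⟨e', rfl⟩ := h.toEdge_surjective e
    refine ⟨e', ?_, i, hi, ht⟩
    have he' : s((ends e').1, (ends e').2) = s(x, y) := he
    exact Sym2.eq_iff.mp he'
  · rintro ⟨e, he, i, hi, ht⟩
    refine ⟨h.toEdge e, ?_, i, hi, ht⟩
    change s((ends e).1, (ends e).2) = s(x, y)
    exact Sym2.eq_iff.mpr he

lemma ae_gr (h : Simp ends) (ν : Measure Marks) [IsProbabilityMeasure ν]
    {P : (V → V → ℝ → Prop) → Prop}
    (hP : ∀ᵐ ω ∂(prodLaw ν E), P (bars ends ω)) :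
    ∀ᵐ ω ∂(prodLaw ν (gr ends).edgeSet), P (gbar (gr ends) ω) := by
  have h1 : Measurable (fun ω : (gr ends).edgeSet → Marks => fun e => ω (h.toEdge e)) :=
    measurable_pi_lambda _ (fun i => measurable_pi_apply _)
  have h2 := Measure.map_infinitePi_infinitePi_of_inj (P := fun _ : (gr ends).edgeSet => ν)
    h.toEdge_injective
  have h3 : ∀ᵐ ω ∂(Measure.map (fun ω : (gr ends).edgeSet → Marks => fun e => ω (h.toEdge e))
      (prodLaw ν (gr ends).edgeSet)), P (bars ends ω) := by
    have h4 : Measure.map (fun ω : (gr ends).edgeSet → Marks => fun e => ω (h.toEdge e))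
      (prodLaw ν (gr ends).edgeSet) = prodLaw ν E := h2
    rw [h4]
    exact hP
  have h5 := ae_of_ae_map h1.aemeasurable h3
  filter_upwards [h5] with ω hω
  rw [gbar_gr h]
  exact hω

end general

variable {n d k b : ℕ}

lemma simp_gends : Simp (gends : GE n d k → GV n d k × GV n d k) where
  ne := by
    rintro (c | l | r)
    · intro h
      have h1 : c.1.tail = c.1 := by
        have := Sum.inl.inj h
        exact congrArg Subtype.val this
      have h2 := congrArg List.length h1
      have h3 := List.length_pos_iff.mpr c.2.1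
      rw [List.length_tail] at h2
      omega
    · simp [gends]
    · simp [gends]
  inj := by
    have hlen : ∀ c : TE n d, c.1.tail.length < c.1.length := by
      intro c
      have := List.length_pos_iff.mpr c.2.1
      rw [List.length_tail]
      omega
    rintro (c | l | r) (c' | l' | r') h
    · simp only [gends, Sym2.eq_iff, Sum.inl.injEq, Subtype.mk.injEq] at h
      rcases h with ⟨_, h⟩ | ⟨h1, h2⟩
      · rw [Subtype.ext h]
      · exfalso
        have h3 := hlen c
        have h4 := hlen c'
        rw [h1] at h3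
        rw [← h2] at h4
        omega
    · simp [gends] at h
    · simp [gends] at h
    · simp [gends] at h
    · simp only [gends, Sym2.eq_iff, Sum.inl.injEq, Subtype.mk.injEq, and_true, reduceCtorEq,
        and_self, or_false] at h
      rw [Subtype.ext h]
    · simp [gends] at h
    · simp [gends] at h
    · simp [gends] at h
    · simp only [gends, Sym2.eq_iff, Sum.inr.injEq, Option.some.injEq, and_true, reduceCtorEq,
        and_self, or_false] at h
      rw [h]

lemma simp_tends {Γ E' : Type*} {ge : E' → Γ × Γ} {w : Γ} (h : Simp ge) :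
    Simp (tends (b := b) ge w) where
  ne := by
    rintro ⟨v, i | e⟩ hh
    · have := congrArg List.length (Prod.ext_iff.mp hh).1
      simp [tends] at this
    · exact h.ne e (Prod.ext_iff.mp hh).2
  inj := by
    rintro ⟨v, i | e⟩ ⟨v', i' | e'⟩ hh
    · simp only [tends, Sym2.eq_iff, Prod.mk.injEq, and_true, List.cons.injEq] at hh
      rcases hh with ⟨h1, h2, _⟩ | ⟨h1, h2⟩
      · rw [h1, h2]
      · exfalso
        have h3 := congrArg List.length h1
        have h4 := congrArg List.length h2
        simp only [List.length_cons] at h3 h4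
        omega
    · exfalso
      simp only [tends, Sym2.eq_iff, Prod.mk.injEq] at hh
      have : v = i :: v := by
        rcases hh with ⟨⟨h1, _⟩, h2, _⟩ | ⟨⟨h1, _⟩, h2, _⟩
        · rw [h1] at h2 ⊢; exact h2.symm
        · rw [h1] at h2 ⊢; exact h2.symm
      have := congrArg List.length this
      simp at this
    · exfalso
      simp only [tends, Sym2.eq_iff, Prod.mk.injEq] at hh
      have : v' = i' :: v' := by
        rcases hh with ⟨⟨h1, _⟩, h2, _⟩ | ⟨⟨h1, _⟩, h2, _⟩
        · rw [← h1]; rw [h1] at h2 ⊢; exact h2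
        · rw [h2] at h1; exact h1
      have := congrArg List.length this
      simp at this
    · simp only [tends, Sym2.eq_iff, Prod.mk.injEq] at hh
      have h1 : v = v' := by
        rcases hh with ⟨⟨h1, _⟩, _⟩ | ⟨⟨h1, _⟩, _⟩ <;> exact h1
      have h2 : e = e' := by
        apply h.inj
        simp only [Sym2.eq_iff]
        rcases hh with ⟨⟨_, h1⟩, _, h2⟩ | ⟨⟨_, h1⟩, _, h2⟩
        · left; exact ⟨h1, h2⟩
        · right; exact ⟨h1, h2⟩
      rw [h1, h2]

/-- the counterexample graph -/
def dtree (b n d k : ℕ) : SimpleGraph (List (Fin b) × GV n d k) :=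
  gr (tends (b := b) (gends (n := n) (d := d) (k := k)) groot)

lemma simp_dtree : Simp (tends (b := b) (gends (n := n) (d := d) (k := k)) groot) :=
  simp_tends simp_gends

lemma dtree_connected (hd : 0 < d) : (dtree b n d k).Connected := by
  have hadj := simp_dtree (b := b) (n := n) (d := d) (k := k) |>.adj_iff
  -- down the gadget tree
  have h1 : ∀ (v : List (Fin b)) (m : ℕ) (c : TV n d), c.1.length = m →
      (dtree b n d k).Reachable (v, Sum.inl c) (v, groot) := by
    intro v m
    induction m with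
    | zero =>
      rintro ⟨c, hc⟩ h
      have : c = [] := List.length_eq_zero_iff.mp h
      subst this
      exact SimpleGraph.Reachable.refl _
    | succ m ih =>
      rintro ⟨c, hc⟩ h
      simp only at h
      have hne : c ≠ [] := by
        intro h'
        rw [h'] at h
        simp at h
      have ht : c.tail.length ≤ n := by
        rw [List.length_tail]
        omega
      have h2 : (dtree b n d k).Adj (v, Sum.inl ⟨c, hc⟩) (v, Sum.inl ⟨c.tail, ht⟩) := by
        refine (hadj _ _).mpr ⟨(v, Sum.inr (Sum.inl ⟨c, hne, hc⟩)), ?_⟩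
        right
        exact ⟨rfl, rfl⟩
      refine h2.reachable.trans (ih ⟨c.tail, ht⟩ ?_)
      simp only [List.length_tail]
      omega
  -- the hub
  have h2 : ∀ (v : List (Fin b)), (dtree b n d k).Reachable (v, ghub) (v, groot) := by
    intro v
    set l : List (Fin d) := List.replicate n ⟨0, hd⟩ with hl
    have hll : l.length = n := by simp [hl]
    have h3 : (dtree b n d k).Adj (v, ghub) (v, Sum.inl ⟨l, hll.le⟩) := by
      refine (hadj _ _).mpr ⟨(v, Sum.inr (Sum.inr (Sum.inl ⟨l, hll⟩))), ?_⟩
      right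
      exact ⟨rfl, rfl⟩
    exact h3.reachable.trans (h1 v n ⟨l, hll.le⟩ hll)
  have h3 : ∀ (v : List (Fin b)) (x : GV n d k), (dtree b n d k).Reachable (v, x) (v, groot) := by
    rintro v (c | _ | r)
    · exact h1 v _ c rfl
    · exact h2 v
    · have h4 : (dtree b n d k).Adj (v, Sum.inr (some r)) (v, ghub) := by
        refine (hadj _ _).mpr ⟨(v, Sum.inr (Sum.inr (Sum.inr r))), ?_⟩
        left
        exact ⟨rfl, rfl⟩
      exact h4.reachable.trans (h2 v)
  have h4 : ∀ v : List (Fin b), (dtree b n d k).Reachable (v, groot) ([], groot) := by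
    intro v
    induction v with
    | nil => exact SimpleGraph.Reachable.refl _
    | cons i v ih =>
      have h5 : (dtree b n d k).Adj (i :: v, groot) (v, groot) := by
        refine (hadj _ _).mpr ⟨(v, Sum.inl i), ?_⟩
        right
        exact ⟨rfl, rfl⟩
      exact h5.reachable.trans ih
  have h5 : ∀ p : List (Fin b) × GV n d k, (dtree b n d k).Reachable p ([], groot) := by
    rintro ⟨v, x⟩
    exact (h3 v x).trans (h4 v)
  rw [SimpleGraph.connected_iff]
  exact ⟨fun p q => (h5 p).trans (h5 q).symm, ⟨([], groot)⟩⟩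

lemma dtree_degree : ∃ D : ℕ, ∀ p : List (Fin b) × GV n d k,
    ((dtree b n d k).neighborSet p).encard ≤ D := by
  have hadj := simp_dtree (b := b) (n := n) (d := d) (k := k) |>.adj_iff
  have hfin : Finite (GV n d k) := inferInstance
  refine ⟨Nat.card (GV n d k) + Nat.card (Fin b) + 1, ?_⟩
  rintro ⟨v, x⟩
  have hsub : (dtree b n d k).neighborSet (v, x) ⊆
      (range (fun y : GV n d k => (v, y)) ∪ range (fun i : Fin b => (i :: v, groot))) ∪
      {(v.tail, groot)} := by
    rintro ⟨v', x'⟩ h
    obtain ⟨⟨u, i | e⟩, he⟩ := (hadj _ _).mp h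
    · rcases he with ⟨h1, h2⟩ | ⟨h1, h2⟩
      · left; right
        obtain ⟨h3, h4⟩ := Prod.ext_iff.mp h1
        refine ⟨i, ?_⟩
        rw [← h2]
        change (i :: v, groot) = (i :: u, groot)
        rw [show u = v from h3]
      · right
        obtain ⟨h3, h4⟩ := Prod.ext_iff.mp h2
        rw [mem_singleton_iff, ← h1]
        change (u, groot) = (v.tail, groot)
        rw [← show i :: u = v from h3]
        rfl
    · left; left
      rcases he with ⟨h1, h2⟩ | ⟨h1, h2⟩
      · refine ⟨x', ?_⟩
        obtain ⟨h3, h4⟩ := Prod.ext_iff.mp h1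
        obtain ⟨h5, h6⟩ := Prod.ext_iff.mp h2
        rw [← show u = v from h3, ← show u = v' from h5]
      · refine ⟨x', ?_⟩
        obtain ⟨h3, h4⟩ := Prod.ext_iff.mp h1
        obtain ⟨h5, h6⟩ := Prod.ext_iff.mp h2
        rw [← show u = v from h5, ← show u = v' from h3]
  have hc1 : (range (fun y : GV n d k => ((v, y) : List (Fin b) × GV n d k))).encard ≤
      (Nat.card (GV n d k) : ℕ∞) := by
    rw [← image_univ]
    refine (encard_image_le _ _).trans ?_
    rw [encard_univ, ENat.card_eq_coe_natCard]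
  have hc2 : (range (fun i : Fin b => ((i :: v, groot) : List (Fin b) × GV n d k))).encard ≤
      (Nat.card (Fin b) : ℕ∞) := by
    rw [← image_univ]
    refine (encard_image_le _ _).trans ?_
    rw [encard_univ, ENat.card_eq_coe_natCard]
  refine (encard_le_encard hsub).trans ((encard_union_le _ _).trans ?_)
  rw [encard_singleton]
  push_cast
  refine add_le_add ((encard_union_le _ _).trans (add_le_add hc1 ?_)) le_rfl
  simpa using hc2

/-- The result for the graph. -/
theorem graph_main : ∃ (b n d k : ℕ) (T₁ T₂ : ℝ), 0 < d ∧ 0 < T₁ ∧ T₁ < T₂ ∧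
    (∀ T : ℝ, 0 < T → ∀ᵐ ω ∂(prodLaw (ptsLaw T) (dtree b n d k).edgeSet),
      Returns (gbar (dtree b n d k) ω)) ∧
    (∀ᵐ ω ∂(prodLaw (ptsLaw T₁) (dtree b n d k).edgeSet),
      ∃ v, (cyc (gbar (dtree b n d k) ω) v).Infinite) ∧
    (∀ᵐ ω ∂(prodLaw (ptsLaw T₂) (dtree b n d k).edgeSet),
      ∀ v, ¬ (cyc (gbar (dtree b n d k) ω) v).Infinite) := by
  obtain ⟨b, n, d, k, T₁, T₂, _, hd2, _, hT₁, hT₁₂, h1, h2⟩ := tree_main
  refine ⟨b, n, d, k, T₁, T₂, by omega, hT₁, hT₁₂, ?_, ?_, ?_⟩
  · intro T hT
    exact ae_gr simp_dtree (ptsLaw T) (P := fun B => Returns B) (ae_returns locFin_gends hT)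
  · exact ae_gr simp_dtree (ptsLaw T₁) (P := fun B => ∃ v, (cyc B v).Infinite) h1
  · exact ae_gr simp_dtree (ptsLaw T₂) (P := fun B => ∀ v, ¬ (cyc B v).Infinite) h2

end Pool.Agent.H98.RS
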