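import Pool.Agent.H98.RSBlock

/-! The averaged hub inequality. -/

set_option autoImplicit false

open Set MeasureTheory ProbabilityTheory Filter
open scoped ENNReal NNReal Topology

namespace Pool.Agent.H98.RS

variable {V E : Type*} {ends : E → V × V} {K : ℕ}

/-- the edges present at stage `r` -/
def stage (Z : Set E) (lf : Fin K → E) (r : ℕ) : Set E := {e | e ∉ Z ∧ ∀ r' : Fin K, r ≤ r'.1 → lf r' ≠ e}

/-- the configuration of the edges in `S` -/
def subBars (ends : E → V × V) (S : Set E) (ω : E → Marks) : V → V → ℝ → Prop :=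
  bars (fun e : S => ends e.1) (fun e : S => ω e.1)

lemma stage_eq (Z : Set E) (lf : Fin K → E) (r : ℕ) (ω : E → Marks) :
    bars ends (setN (rem Z ω) (cutN lf (rem Z ω) r)) = subBars ends (stage Z lf r) ω := by
  classical
  funext x y t
  simp only [bars, subBars, eq_iff_iff]
  constructor
  · rintro ⟨e, h1, i, h2, h3⟩
    have h4 : e ∈ stage Z lf r := by
      constructor
      · intro hZ
        have h5 := rem_of_mem (ω := ω) hZ
        simp only [setN, cutN] at h2
        split_ifs at h2 <;> omega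
      · intro r' hr' hlf
        simp only [setN, cutN] at h2
        rw [if_pos ⟨r', hlf, hr'⟩] at h2
        exact absurd h2 (Nat.not_lt_zero _)
    refine ⟨⟨e, h4⟩, h1, i, ?_, h3⟩
    have h5 : ¬ ∃ r', lf r' = e ∧ r ≤ r'.1 := by
      rintro ⟨r', h6, h7⟩
      exact h4.2 r' h7 h6
    simp only [setN, cutN] at h2
    rw [if_neg h5, rem_of_notMem h4.1] at h2
    exact h2
  · rintro ⟨⟨e, h4⟩, h1, i, h2, h3⟩
    refine ⟨e, h1, i, ?_, h3⟩
    have h5 : ¬ ∃ r', lf r' = e ∧ r ≤ r'.1 := by
      rintro ⟨r', h6, h7⟩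
      exact h4.2 r' h7 h6
    simp only [setN, cutN]
    rw [if_neg h5, rem_of_notMem h4.1]
    exact h2

lemma locFin_sub (hl : LocFin ends) (S : Set E) : LocFin (fun e : S => ends e.1) := by
  intro v
  refine Set.Finite.of_finite_image (f := Subtype.val) ((hl v).subset ?_) Subtype.val_injective.injOn
  rintro _ ⟨e, he, rfl⟩
  exact he

lemma Generic.sub {ω : E → Marks} (h : Generic ω) (S : Set E) :
    Generic (fun e : S => ω e.1) where
  pos e i := h.pos _ _
  inj e i e' i' hh := by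
    obtain ⟨h1, h2⟩ := h.inj _ _ _ _ hh
    exact ⟨Subtype.ext h1, h2⟩

/-- the event in the (marks, two times) space -/
def hubSet (ends : E → V × V) (y : V) (S : Set E) (D : Set (E → Marks)) :
    Set ((E → Marks) × (ℝ × ℝ)) :=
  {p | p.1 ∈ D ∧ Generic (fun e : S => p.1 e.1) ∧
    Same (subBars ends S p.1) (y, p.2.1) (y, p.2.2)}

lemma measurableSet_hubSet [Finite V] [Countable E] (hl : LocFin ends) (y : V) (S : Set E)
    {D : Set (E → Marks)} (hD : MeasurableSet D) : MeasurableSet (hubSet ends y S D) := by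
  have h1 := measurableSet_same (locFin_sub hl S) y
  have h2 : Measurable (fun p : (E → Marks) × (ℝ × ℝ) => ((fun e : S => p.1 e.1), p.2)) :=
    (measurable_pi_lambda _ (fun e => (measurable_pi_apply e.1).comp measurable_fst)).prodMk
      measurable_snd
  exact (measurable_fst hD).inter (h2 h1)

lemma hubSet_dep (ends : E → V × V) (y : V) {S : Set E} {D : Set (E → Marks)}
    (hD : DepOn S D) (ω ω' : E → Marks) (hh : ∀ i ∈ S, ω i = ω' i) (x : ℝ × ℝ) :
    (ω, x) ∈ hubSet ends y S D ↔ (ω', x) ∈ hubSet ends y S D := by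
  have h1 : (fun e : S => ω e.1) = (fun e : S => ω' e.1) := funext (fun e => hh e.1 e.2)
  simp only [hubSet, mem_ofPred_eq, subBars]
  rw [hD.dep ω ω' hh, h1]

theorem hub_average [Finite V] [Countable E] (hl : LocFin ends) {T : ℝ} (hT : 0 < T)
    (hT8 : T ≤ 1 / 8) {lf : Fin K → E} {ℓ : Fin K → V} {y : V} (hlf : Function.Injective lf)
    (hℓ : Function.Injective ℓ)
    (hends : ∀ r, ends (lf r) = (ℓ r, y)) (hly : ∀ r, ℓ r ≠ y)
    (honly : ∀ r e, ((ends e).1 = ℓ r ∨ (ends e).2 = ℓ r) → e = lf r)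
    {Z : Set E} (hZ : ∀ r, lf r ∉ Z) {SD : Set E} {D : Set (E → Marks)} (hD : DepOn SD D)
    (hSDZ : ∀ e ∈ SD, e ∉ Z) (hSDl : ∀ r, lf r ∉ SD) {cr : ℕ} (hcard : Nat.card V = cr + K)
    (hK : (cr : ℝ) ≤ K * T ^ 2 / 8) :
    (prodLaw (ptsLaw T) E).real D * (K / 4) ≤
      ∑ r : Fin K, (((prodLaw (ptsLaw T) E).prod ((unif T).prod (unif T)))
        (hubSet ends y (stage Z lf r) D)).toReal := by
  classical
  set P := prodLaw (ptsLaw T) E with hP
  set po := poissonMeasure T.toNNReal with hpo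
  -- independence of `D` and the number of bars of a leaf
  have hcoordD : ∀ (r : Fin K) (s : Set ℕ), P (D ∩ {ω | (ω (lf r)).1 ∈ s}) = P D * po s := by
    intro r s
    have h1 : DepOn ({lf r} : Set E) {ω : E → Marks | (ω (lf r)).1 ∈ s} :=
      depOn_coord (lf r) (A := {m : Marks | m.1 ∈ s})
        (measurable_fst (MeasurableSet.of_discrete (s := s)))
    have h2 := indep_disjoint (ptsLaw T) hD h1 (Set.disjoint_singleton_right.mpr (hSDl r))
    have h4 := prodLaw_coord (ptsLaw T) (lf r) (A := {m : Marks | m.1 ∈ s})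
      (measurable_fst (MeasurableSet.of_discrete (s := s)))
    rw [ptsLaw_count] at h4
    rw [h2]
    congr 1
  have hSsub : ∀ r : ℕ, SD ⊆ stage Z lf r := fun r e he =>
    ⟨hSDZ e he, fun r' _ h => hSDl r' (h ▸ he)⟩
  have hlfS : ∀ r : Fin K, lf r ∉ stage Z lf r := fun r h => h.2 r le_rfl rfl
  -- the events
  set G : Fin K → Set (E → Marks) := fun r =>
    {ω | (ω (lf r)).1 = 2 ∧ (ω, ((ω (lf r)).2 0, (ω (lf r)).2 1)) ∈
      hubSet ends y (stage Z lf r) D} with hG
  have mN : ∀ (r : Fin K) (s : Set ℕ), MeasurableSet {ω : E → Marks | (ω (lf r)).1 ∈ s} :=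
    fun r s => (measurable_count (lf r)) (MeasurableSet.of_discrete (s := s))
  have mG : ∀ r, MeasurableSet (G r) := by
    intro r
    have h3 : Measurable (fun ω : E → Marks => (ω, ((ω (lf r)).2 0, (ω (lf r)).2 1))) :=
      measurable_id.prodMk ((measurable_time (lf r) 0).prodMk (measurable_time (lf r) 1))
    exact (mN r {2}).inter (h3 (measurableSet_hubSet hl y _ hD.meas))
  have hGprob : ∀ r, P (G r) = po {2} * (P.prod ((unif T).prod (unif T)))
      (hubSet ends y (stage Z lf r) D) := fun r =>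
    block_leaf (hlfS r) (measurableSet_hubSet hl y _ hD.meas)
      (hubSet_dep ends y (hD.mono (hSsub r)))
  set N1 : Fin K → Set (E → Marks) := fun r => D ∩ {ω | (ω (lf r)).1 ∈ {n : ℕ | n ≤ 1}} with hN1
  set B2 : Fin K → Set (E → Marks) := fun r => (D ∩ {ω | (ω (lf r)).1 ∈ ({2} : Set ℕ)}) \ G r with hB2
  have mN1 : ∀ r, MeasurableSet (N1 r) := fun r => hD.meas.inter (mN r _)
  have mB2 : ∀ r, MeasurableSet (B2 r) := fun r => (hD.meas.inter (mN r _)).diff (mG r)
  -- the pointwise inequality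
  have hpt : ∀ᵐ ω ∂P, (∑ r : Fin K, ((N1 r).indicator (fun _ => (1 : ℝ≥0∞)) ω +
      2 * (B2 r).indicator (fun _ => (1 : ℝ≥0∞)) ω)) ≤
      D.indicator (fun ω => (Nat.card V : ℝ≥0∞) + ∑ r : Fin K, (((ω (lf r)).1.choose 3 : ℕ) : ℝ≥0∞))
        ω := by
    filter_upwards [ae_generic (E := E) hT] with ω hω
    by_cases hωD : ω ∈ D
    · rw [indicator_of_mem hωD]
      have h1 := hub_inequality hl (hω.1.rem Z) hlf hℓ hends hly honly
      have h2 : ∀ r : Fin K, rem Z ω (lf r) = ω (lf r) := fun r => rem_of_notMem (hZ r)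
      simp only [h2] at h1
      have h3 : (∑ r : Fin K, ((N1 r).indicator (fun _ => (1 : ℝ≥0∞)) ω +
          2 * (B2 r).indicator (fun _ => (1 : ℝ≥0∞)) ω)) =
          ((∑ r : Fin K, (if (ω (lf r)).1 ≤ 1 then 1 else if (ω (lf r)).1 = 2 ∧
          ¬ Same (bars ends (setN (rem Z ω) (cutN lf (rem Z ω) r))) (y, (ω (lf r)).2 0)
            (y, (ω (lf r)).2 1) then 2 else 0) : ℕ) : ℝ≥0∞) := by
        push_cast
        refine Finset.sum_congr rfl (fun r _ => ?_)
        rw [stage_eq]
        by_cases hc1 : (ω (lf r)).1 ≤ 1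
        · have h4 : ω ∈ N1 r := ⟨hωD, hc1⟩
          have h5 : ω ∉ B2 r := by
            rintro ⟨⟨_, h6⟩, _⟩
            have h7 : (ω (lf r)).1 = 2 := h6
            omega
          rw [indicator_of_mem h4, indicator_of_notMem h5, if_pos hc1]
          simp
        · have h4 : ω ∉ N1 r := fun h => hc1 h.2
          rw [indicator_of_notMem h4, if_neg hc1]
          by_cases hc2 : (ω (lf r)).1 = 2 ∧ ¬ Same (subBars ends (stage Z lf r) ω)
              (y, (ω (lf r)).2 0) (y, (ω (lf r)).2 1)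
          · have h5 : ω ∈ B2 r := by
              refine ⟨⟨hωD, hc2.1⟩, ?_⟩
              rintro ⟨_, _, _, h6⟩
              exact hc2.2 h6
            rw [indicator_of_mem h5, if_pos hc2]
            simp
          · have h5 : ω ∉ B2 r := by
              rintro ⟨⟨_, h6⟩, h7⟩
              apply hc2
              refine ⟨h6, fun h8 => h7 ⟨h6, hωD, hω.1.sub _, h8⟩⟩
            rw [indicator_of_notMem h5, if_neg hc2]
            simp
      rw [h3]
      have h4 : Nat.card V + ∑ r : Fin K, ((ω (lf r)).1 - 2) ≤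
          Nat.card V + ∑ r : Fin K, ((ω (lf r)).1.choose 3) := by
        apply Nat.add_le_add_left
        refine Finset.sum_le_sum (fun r _ => ?_)
        rcases Nat.lt_or_ge (ω (lf r)).1 3 with h | h
        · have : (ω (lf r)).1 - 2 = 0 := by omega
          rw [this]; exact Nat.zero_le _
        · obtain ⟨m, hm⟩ : ∃ m, (ω (lf r)).1 = m + 3 := ⟨(ω (lf r)).1 - 3, by omega⟩
          rw [hm]
          have h6 : ∀ m : ℕ, m + 1 ≤ (m + 3).choose 3 := by
            intro m
            induction m with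
            | zero => decide
            | succ m ih =>
              have : (m + 1 + 3).choose 3 = (m + 3).choose 2 + (m + 3).choose 3 := by
                have := Nat.choose_succ_succ (m + 3) 2
                simpa using this
              have h7 : 1 ≤ (m + 3).choose 2 := Nat.choose_pos (by omega)
              omega
          have := h6 m
          omega
      have h5 := h1.trans h4
      have h6 : ((∑ r : Fin K, (if (ω (lf r)).1 ≤ 1 then 1 else if (ω (lf r)).1 = 2 ∧
          ¬ Same (bars ends (setN (rem Z ω) (cutN lf (rem Z ω) r))) (y, (ω (lf r)).2 0)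
            (y, (ω (lf r)).2 1) then 2 else 0) : ℕ) : ℝ≥0∞) ≤
          ((Nat.card V + ∑ r : Fin K, ((ω (lf r)).1.choose 3) : ℕ) : ℝ≥0∞) := by
        exact_mod_cast h5
      refine h6.trans (le_of_eq ?_)
      push_cast
      rfl
    · have h1 : ∀ r, ω ∉ N1 r := fun r h => hωD h.1
      have h2 : ∀ r, ω ∉ B2 r := fun r h => hωD h.1.1
      simp only [indicator_of_notMem (h1 _), indicator_of_notMem (h2 _)]
      simp
  -- integrate
  have hint := lintegral_mono_ae hpt
  have hleft : ∫⁻ ω, (∑ r : Fin K, ((N1 r).indicator (fun _ => (1 : ℝ≥0∞)) ω +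
      2 * (B2 r).indicator (fun _ => (1 : ℝ≥0∞)) ω)) ∂P = ∑ r : Fin K, (P (N1 r) + 2 * P (B2 r)) := by
    rw [lintegral_finset_sum]
    · refine Finset.sum_congr rfl (fun r _ => ?_)
      rw [lintegral_add_left (measurable_const.indicator (mN1 r)), lintegral_const_mul _
        (measurable_const.indicator (mB2 r)), lintegral_indicator (mN1 r),
        lintegral_indicator (mB2 r)]
      simp
    · intro r _
      exact (measurable_const.indicator (mN1 r)).add
        ((measurable_const.indicator (mB2 r)).const_mul _)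
  have hchoose : ∀ r : Fin K, ∫⁻ ω in D, (((ω (lf r)).1.choose 3 : ℕ) : ℝ≥0∞) ∂P =
      P D * ENNReal.ofReal (T ^ 3 / 6) := by
    intro r
    have h1 : (P.restrict D).map (fun ω => (ω (lf r)).1) = P D • po := by
      ext s hs
      rw [Measure.map_apply (measurable_count (lf r)) hs, Measure.restrict_apply
        ((measurable_count (lf r)) hs), inter_comm, Measure.smul_apply, smul_eq_mul,
        ← hcoordD r s]
      rfl
    have h2 : ∫⁻ ω in D, (((ω (lf r)).1.choose 3 : ℕ) : ℝ≥0∞) ∂P =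
        ∫⁻ n, ((n.choose 3 : ℕ) : ℝ≥0∞) ∂((P.restrict D).map (fun ω => (ω (lf r)).1)) := by
      rw [lintegral_map (measurable_from_nat) (measurable_count (lf r))]
    rw [h2, h1, lintegral_smul_measure, smul_eq_mul, lintegral_countable', ← po_third hT.le]
    congr 1
    refine tsum_congr (fun n => ?_)
    rw [mul_comm]
  have hright : ∫⁻ ω, D.indicator (fun ω => (Nat.card V : ℝ≥0∞) +
      ∑ r : Fin K, (((ω (lf r)).1.choose 3 : ℕ) : ℝ≥0∞)) ω ∂P =
      P D * Nat.card V + K * (P D * ENNReal.ofReal (T ^ 3 / 6)) := by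
    rw [lintegral_indicator hD.meas, lintegral_add_left measurable_const, lintegral_finset_sum]
    · rw [Finset.sum_congr rfl (fun r _ => hchoose r)]
      simp [mul_comm]
    · intro r _
      exact (measurable_from_nat (f := fun n : ℕ => ((n.choose 3 : ℕ) : ℝ≥0∞))).comp
        (measurable_count (lf r))
  rw [hleft, hright] at hint
  -- real numbers
  set qr : Fin K → ℝ := fun r => ((P.prod ((unif T).prod (unif T)))
        (hubSet ends y (stage Z lf r) D)).toReal with hqr
  set Pd := P.real D with hPd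
  set p1 := (1 + T) * Real.exp (-T) with hp1
  set p2 := T ^ 2 * Real.exp (-T) / 2 with hp2
  have hPN1 : ∀ r, (P (N1 r)).toReal = Pd * p1 := by
    intro r
    rw [hN1]
    simp only
    rw [hcoordD r {n | n ≤ 1}, ENNReal.toReal_mul, hpo, po_le_one hT.le,
      ENNReal.toReal_ofReal (by positivity)]
    rfl
  have hPB2 : ∀ r, (P (B2 r)).toReal = Pd * p2 - p2 * qr r := by
    intro r
    have h1 : G r ⊆ D ∩ {ω | (ω (lf r)).1 ∈ ({2} : Set ℕ)} := by
      rintro ω ⟨h2, h3, _⟩
      exact ⟨h3, h2⟩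
    have h2 := measureReal_sdiff (μ := P) h1 (mG r)
    have h3 : P.real (B2 r) = (P (B2 r)).toReal := rfl
    rw [← h3, hB2]
    simp only
    rw [h2, Measure.real, Measure.real, hcoordD r {2}, hGprob r, ENNReal.toReal_mul,
      ENNReal.toReal_mul, hpo, po_two hT.le, ENNReal.toReal_ofReal (by positivity)]
    rfl
  have hfin : P D * Nat.card V + K * (P D * ENNReal.ofReal (T ^ 3 / 6)) ≠ ∞ := by
    apply ENNReal.add_ne_top.mpr
    constructor
    · exact ENNReal.mul_ne_top (measure_ne_top _ _) (ENNReal.natCast_ne_top _)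
    · exact ENNReal.mul_ne_top (ENNReal.natCast_ne_top _)
        (ENNReal.mul_ne_top (measure_ne_top _ _) ENNReal.ofReal_ne_top)
  have hreal := ENNReal.toReal_mono hfin hint
  rw [ENNReal.toReal_sum (fun r _ => ENNReal.add_ne_top.mpr ⟨measure_ne_top _ _,
    ENNReal.mul_ne_top (by simp) (measure_ne_top _ _)⟩)] at hreal
  have h4 : ∀ r : Fin K, (P (N1 r) + 2 * P (B2 r)).toReal = Pd * p1 + 2 * (Pd * p2 - p2 * qr r) := by
    intro r
    rw [ENNReal.toReal_add (measure_ne_top _ _) (ENNReal.mul_ne_top (by simp)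
      (measure_ne_top _ _)), ENNReal.toReal_mul, hPN1, hPB2]
    simp
  rw [Finset.sum_congr rfl (fun r _ => h4 r), ENNReal.toReal_add
    (ENNReal.mul_ne_top (measure_ne_top _ _) (ENNReal.natCast_ne_top _))
    (ENNReal.mul_ne_top (ENNReal.natCast_ne_top _)
        (ENNReal.mul_ne_top (measure_ne_top _ _) ENNReal.ofReal_ne_top)),
    ENNReal.toReal_mul, ENNReal.toReal_mul, ENNReal.toReal_mul, ENNReal.toReal_natCast,
    ENNReal.toReal_natCast, ENNReal.toReal_ofReal (by positivity), hcard] at hreal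
  have h5 : (P D).toReal = Pd := rfl
  rw [h5] at hreal
  have h6 : ∑ r : Fin K, (Pd * p1 + 2 * (Pd * p2 - p2 * qr r)) =
      K * (Pd * p1 + 2 * (Pd * p2)) - 2 * p2 * ∑ r : Fin K, qr r := by
    rw [Finset.mul_sum]
    simp only [mul_sub, Finset.sum_add_distrib, Finset.sum_sub_distrib, Finset.sum_const,
      Finset.card_univ, Fintype.card_fin, nsmul_eq_mul]
    have : ∑ r : Fin K, 2 * (p2 * qr r) = ∑ r : Fin K, 2 * p2 * qr r :=
      Finset.sum_congr rfl (fun r _ => by ring)
    rw [this]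
    ring
  rw [h6] at hreal
  push_cast at hreal
  have hPd0 : 0 ≤ Pd := measureReal_nonneg
  have hexp : 1 - T + T ^ 2 / 2 - 2 / 9 * T ^ 3 ≤ Real.exp (-T) := by
    have h7 := Real.exp_bound (x := -T) (n := 3) (by rw [abs_neg, abs_of_pos hT]; linarith)
      (by norm_num)
    rw [abs_neg, abs_of_pos hT] at h7
    have h8 := (abs_le.mp h7).1
    simp only [Finset.sum_range_succ, Finset.sum_range_zero, Nat.factorial] at h8
    norm_num at h8
    nlinarith
  have hexp0 : 0 < Real.exp (-T) := Real.exp_pos _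
  have hexp1 : Real.exp (-T) ≤ 1 := by
    rw [Real.exp_le_one_iff]; linarith
  have hg : 3 / 8 * T ^ 2 ≤ p1 + 2 * p2 - 1 - T ^ 3 / 6 := by
    have h9 : p1 + 2 * p2 = (1 + T + T ^ 2) * Real.exp (-T) := by rw [hp1, hp2]; ring
    rw [h9]
    have h10 : (1 + T + T ^ 2) * (1 - T + T ^ 2 / 2 - 2 / 9 * T ^ 3) ≤
        (1 + T + T ^ 2) * Real.exp (-T) := mul_le_mul_of_nonneg_left hexp (by positivity)
    have h11 : (1 + T + T ^ 2) * (1 - T + T ^ 2 / 2 - 2 / 9 * T ^ 3) =
        1 + T ^ 2 / 2 - 13 / 18 * T ^ 3 + 5 / 18 * T ^ 4 - 2 / 9 * T ^ 5 := by ring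
    have h12 : T ^ 3 ≤ T ^ 2 / 8 := by
      have : 0 ≤ T ^ 2 * (1 / 8 - T) := by
        apply mul_nonneg (by positivity); linarith
      nlinarith
    have h13 : T ^ 5 ≤ T ^ 2 / 512 := by
      have h14 : T ^ 3 ≤ (1 / 8) ^ 3 := pow_le_pow_left₀ hT.le hT8 3
      have : T ^ 5 = T ^ 2 * T ^ 3 := by ring
      rw [this]
      have := mul_le_mul_of_nonneg_left h14 (sq_nonneg T)
      nlinarith
    have h15 : 0 ≤ T ^ 4 := by positivity
    nlinarith
  have hp2le : p2 ≤ T ^ 2 / 2 := by
    rw [hp2]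
    have := mul_le_mul_of_nonneg_left hexp1 (sq_nonneg T)
    linarith
  have hp2pos : 0 < p2 := by rw [hp2]; positivity
  have hK0 : (0 : ℝ) ≤ K := Nat.cast_nonneg _
  -- `2 p2 Σ q ≥ Pd (K g - cr)`
  have h16 : Pd * (K * (p1 + 2 * p2 - 1 - T ^ 3 / 6) - cr) ≤ 2 * p2 * ∑ r : Fin K, qr r := by
    nlinarith
  have h17 : Pd * (K * (T ^ 2 / 4)) ≤ 2 * p2 * ∑ r : Fin K, qr r := by
    refine le_trans (mul_le_mul_of_nonneg_left ?_ hPd0) h16
    have := mul_le_mul_of_nonneg_left hg hK0
    nlinarith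
  have h18 : 2 * p2 * (Pd * (K / 4)) ≤ 2 * p2 * ∑ r : Fin K, qr r := by
    refine le_trans ?_ h17
    have h19 : 0 ≤ Pd * K := mul_nonneg hPd0 hK0
    nlinarith
  exact le_of_mul_le_mul_left h18 (by positivity)

end Pool.Agent.H98.RS
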