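import Pool.Agent.H98.RSCount

/-! Configurations of bars given by marks on the edges; the hub inequality. -/

set_option autoImplicit false

open Set

namespace Pool.Agent.H98.RS

/-- marks of an edge: number of bars and their times -/
abbrev Marks := ℕ × (ℕ → ℝ)

variable {V E : Type*}

/-- the bars given by the marks -/
def bars (ends : E → V × V) (ω : E → Marks) : V → V → ℝ → Prop :=
  fun x y t => ∃ e, (((ends e).1 = x ∧ (ends e).2 = y) ∨ ((ends e).1 = y ∧ (ends e).2 = x)) ∧
    ∃ i, i < (ω e).1 ∧ (ω e).2 i = t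

/-- all potential times are positive and distinct -/
structure Generic (ω : E → Marks) : Prop where
  pos : ∀ e i, 0 < (ω e).2 i
  inj : ∀ e i e' i', (ω e).2 i = (ω e').2 i' → e = e' ∧ i = i'

/-- finitely many edges at each vertex -/
def LocFin (ends : E → V × V) : Prop := ∀ v, {e | (ends e).1 = v ∨ (ends e).2 = v}.Finite

lemma good_bars {ends : E → V × V} (hl : LocFin ends) {ω : E → Marks} (hω : Generic ω) :
    Good (bars ends ω) where
  symm := by
    rintro u v t ⟨e, h, h'⟩
    exact ⟨e, h.symm, h'⟩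
  pos := by
    rintro u v t ⟨e, _, i, _, h⟩
    rw [← h]
    exact hω.pos e i
  uniq := by
    rintro v u u' t ⟨e, h1, i, _, h3⟩ ⟨e', h1', i', _, h3'⟩
    obtain ⟨he, _⟩ := hω.inj e i e' i' (h3.trans h3'.symm)
    subst he
    rcases h1 with ⟨h, h'⟩ | ⟨h, h'⟩ <;> rcases h1' with ⟨k, k'⟩ | ⟨k, k'⟩
    · rw [← h', ← k']
    · rw [← h', k', ← h, k]
    · rw [← h, k, ← h', k']
    · rw [← h, ← k]
  fin := by
    intro v
    have : {t | ∃ u, bars ends ω v u t} ⊆ ⋃ e ∈ {e | (ends e).1 = v ∨ (ends e).2 = v},
        (fun i => (ω e).2 i) '' (Set.Iio (ω e).1) := by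
      rintro t ⟨u, e, h, i, hi, h'⟩
      rw [mem_iUnion₂]
      refine ⟨e, ?_, i, hi, h'⟩
      rcases h with h | h
      · left; exact h.1
      · right; exact h.2
    exact ((hl v).biUnion (fun e _ => (Set.finite_Iio _).image _)).subset this

/-- bars with marks that have the same times but other numbers -/
def SameTimes (ω ω' : E → Marks) : Prop := ∀ e, (ω e).2 = (ω' e).2

lemma Generic.sameTimes {ω ω' : E → Marks} (h : Generic ω) (h' : SameTimes ω ω') :
    Generic ω' where
  pos e i := by rw [← h' e]; exact h.pos e i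
  inj e i e' i' hh := by
    rw [← h' e, ← h' e'] at hh
    exact h.inj e i e' i' hh

/-- change of the number of bars of the edges -/
def setN (ω : E → Marks) (n : E → ℕ) : E → Marks := fun e => (n e, (ω e).2)

lemma sameTimes_setN (ω : E → Marks) (n : E → ℕ) : SameTimes ω (setN ω n) := fun _ => rfl

lemma Generic.setN {ω : E → Marks} (h : Generic ω) (n : E → ℕ) : Generic (setN ω n) :=
  h.sameTimes (sameTimes_setN ω n)

/-- raising the number of bars at one edge -/
lemma bars_addBars [DecidableEq E] (ends : E → V × V) (ω : E → Marks) (e : E)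
    (h0 : (ω e).1 = 0) (n : ℕ) :
    bars ends (Function.update ω e (n, (ω e).2)) =
      addBars (bars ends ω) (ends e).1 (ends e).2 (ω e).2 n := by
  funext a b s
  simp only [bars, addBars, eq_iff_iff]
  constructor
  · rintro ⟨e', h1, i, h2, h3⟩
    by_cases he : e' = e
    · subst he
      rw [Function.update_self] at h2 h3
      right
      refine ⟨i, h2, h3.symm, ?_⟩
      rcases h1 with h | h
      · left; exact ⟨h.1.symm, h.2.symm⟩
      · right; exact ⟨h.2.symm, h.1.symm⟩
    · rw [Function.update_of_ne he] at h2 h3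
      left
      exact ⟨e', h1, i, h2, h3⟩
  · rintro (⟨e', h1, i, h2, h3⟩ | ⟨i, h1, h2, h3⟩)
    · have he : e' ≠ e := by
        rintro rfl
        rw [h0] at h2
        exact absurd h2 (Nat.not_lt_zero _)
      refine ⟨e', h1, i, ?_, ?_⟩
      · rw [Function.update_of_ne he]; exact h2
      · rw [Function.update_of_ne he]; exact h3
    · refine ⟨e, ?_, i, ?_, ?_⟩
      · rcases h3 with ⟨h, h'⟩ | ⟨h, h'⟩
        · left; exact ⟨h.symm, h'.symm⟩
        · right; exact ⟨h'.symm, h.symm⟩
      · rw [Function.update_self]; exact h1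
      · rw [Function.update_self]; exact h2.symm

/-- two points in the same cycle -/
def Same (B : V → V → ℝ → Prop) (p q : V × ℝ) : Prop := ∀ I, Inv B I → (p ∈ I ↔ q ∈ I)

section hub

variable {ends : E → V × V} {K : ℕ}

/-- configuration in which only the leaves with number `< k` keep their bars -/
noncomputable def cutN (lf : Fin K → E) (ω : E → Marks) (k : ℕ) : E → ℕ :=
  open Classical in fun e => if ∃ r, lf r = e ∧ k ≤ r.1 then 0 else (ω e).1

open Classical in
/-- The hub inequality. -/
theorem hub_inequality [Finite V] (hl : LocFin ends) {ω : E → Marks} (hω : Generic ω)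
    {lf : Fin K → E} {ℓ : Fin K → V} {y : V} (hlf : Function.Injective lf)
    (hℓ : Function.Injective ℓ)
    (hends : ∀ r, ends (lf r) = (ℓ r, y)) (hly : ∀ r, ℓ r ≠ y)
    (honly : ∀ r e, ((ends e).1 = ℓ r ∨ (ends e).2 = ℓ r) → e = lf r) :
    (∑ r : Fin K, (if (ω (lf r)).1 ≤ 1 then 1 else if (ω (lf r)).1 = 2 ∧
      ¬ Same (bars ends (setN ω (cutN lf ω r))) (y, (ω (lf r)).2 0) (y, (ω (lf r)).2 1)
      then 2 else 0)) ≤ Nat.card V + ∑ r : Fin K, ((ω (lf r)).1 - 2) := by
  set C : ℕ → V → V → ℝ → Prop := fun k => bars ends (setN ω (cutN lf ω k)) with hC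
  have hgood : ∀ k, Good (C k) := fun k => good_bars hl (hω.setN _)
  -- one step
  have hstep : ∀ r : Fin K, zc (C (r + 1)) * 2 ^ (if (ω (lf r)).1 = 1 then 1 else
      if (ω (lf r)).1 = 2 ∧ ¬ Same (C r) (y, (ω (lf r)).2 0) (y, (ω (lf r)).2 1) then 2 else 0) ≤
      zc (C r) * 2 ^ ((ω (lf r)).1 - 2) := by
    intro r
    have h0 : (setN ω (cutN lf ω r) (lf r)).1 = 0 := by
      simp only [setN, cutN]
      rw [if_pos ⟨r, rfl, le_refl _⟩]
    have h1 : C (r + 1) = addBars (C r) (ℓ r) y (ω (lf r)).2 (ω (lf r)).1 := by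
      have h2 := bars_addBars ends (setN ω (cutN lf ω r)) (lf r) h0 (ω (lf r)).1
      rw [hends] at h2
      have h3 : Function.update (setN ω (cutN lf ω r)) (lf r)
          ((ω (lf r)).1, (setN ω (cutN lf ω r) (lf r)).2) = setN ω (cutN lf ω (r + 1)) := by
        funext e
        by_cases he : e = lf r
        · subst he
          rw [Function.update_self]
          simp only [setN, cutN]
          rw [if_neg]
          rintro ⟨r', h4, h5⟩
          have := hlf h4
          subst this
          omega
        · rw [Function.update_of_ne he]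
          simp only [setN, cutN]
          have : (∃ r', lf r' = e ∧ r.1 ≤ r'.1) ↔ (∃ r', lf r' = e ∧ r.1 + 1 ≤ r'.1) := by
            constructor
            · rintro ⟨r', h4, h5⟩
              refine ⟨r', h4, ?_⟩
              rcases Nat.lt_or_eq_of_le h5 with h | h
              · exact h
              · exact absurd (by rw [← h4, Fin.ext h]) he
            · rintro ⟨r', h4, h5⟩
              exact ⟨r', h4, by omega⟩
          by_cases hh : ∃ r', lf r' = e ∧ r.1 ≤ r'.1
          · rw [if_pos hh, if_pos (this.mp hh)]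
          · rw [if_neg hh, if_neg (fun h => hh (this.mpr h))]
      rw [h3] at h2
      exact h2
    have hiso : ∀ u t, ¬ C r (ℓ r) u t := by
      rintro u t ⟨e, h2, i, h3, h4⟩
      have : e = lf r := by
        apply honly r e
        rcases h2 with h | h
        · left; exact h.1
        · right; exact h.2
      subst this
      rw [h0] at h3
      exact absurd h3 (Nat.not_lt_zero _)
    have hfresh : ∀ i u, ¬ C r y u ((ω (lf r)).2 i) := by
      rintro i u ⟨e, h2, j, h3, h4⟩
      have h5 : (ω e).2 j = (ω (lf r)).2 i := h4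
      obtain ⟨h6, _⟩ := hω.inj _ _ _ _ h5
      subst h6
      rw [h0] at h3
      exact absurd h3 (Nat.not_lt_zero _)
    have hinj : Function.Injective (ω (lf r)).2 := fun i j h => (hω.inj _ _ _ _ h).2
    rw [h1]
    exact leaf_step (hgood r) hiso hinj (fun i => hω.pos _ i) hfresh (hly r) _
  -- telescoping
  have htel : ∀ k : ℕ, k ≤ K → zc (C k) * 2 ^ (∑ r : Fin K, if r.1 < k then
      (if (ω (lf r)).1 = 1 then 1 else if (ω (lf r)).1 = 2 ∧
      ¬ Same (C r) (y, (ω (lf r)).2 0) (y, (ω (lf r)).2 1) then 2 else 0) else 0) ≤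
      zc (C 0) * 2 ^ (∑ r : Fin K, if r.1 < k then ((ω (lf r)).1 - 2) else 0) := by
    intro k
    induction k with
    | zero => intro _; simp
    | succ k ih =>
      intro hk
      have ih' := ih (by omega)
      have hs := hstep ⟨k, by omega⟩
      simp only at hs
      have split : ∀ f : Fin K → ℕ, (∑ r : Fin K, if r.1 < k + 1 then f r else 0) =
          (∑ r : Fin K, if r.1 < k then f r else 0) + f ⟨k, by omega⟩ := by
        intro f
        have : ∀ r : Fin K, (if r.1 < k + 1 then f r else 0) =
            (if r.1 < k then f r else 0) + (if r = ⟨k, by omega⟩ then f r else 0) := by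
          intro r
          by_cases h1 : r.1 < k
          · rw [if_pos (by omega), if_pos h1, if_neg (by intro h; rw [h] at h1; simp at h1)]
            simp
          · by_cases h2 : r.1 = k
            · rw [if_pos (by omega), if_neg h1, if_pos (Fin.ext h2)]
              simp
            · rw [if_neg (by omega), if_neg h1, if_neg (by intro h; rw [h] at h2; simp at h2)]
        rw [Finset.sum_congr rfl (fun r _ => this r), Finset.sum_add_distrib]
        simp
      rw [split, split, pow_add, pow_add]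
      set P1 := ∑ r : Fin K, if r.1 < k then
        (if (ω (lf r)).1 = 1 then 1 else if (ω (lf r)).1 = 2 ∧
        ¬ Same (C r) (y, (ω (lf r)).2 0) (y, (ω (lf r)).2 1) then 2 else 0) else 0
      set P2 := ∑ r : Fin K, if r.1 < k then ((ω (lf r)).1 - 2) else 0
      generalize (2 : ℕ) ^ (if (ω (lf ⟨k, by omega⟩)).1 = 1 then 1 else
        if (ω (lf ⟨k, by omega⟩)).1 = 2 ∧
        ¬ Same (C k) (y, (ω (lf ⟨k, by omega⟩)).2 0) (y, (ω (lf ⟨k, by omega⟩)).2 1) then 2
        else 0) = X at hs ⊢
      generalize (2 : ℕ) ^ ((ω (lf ⟨k, by omega⟩)).1 - 2) = Y at hs ⊢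
      calc zc (C (k + 1)) * (2 ^ P1 * X) = (zc (C (k + 1)) * X) * 2 ^ P1 := by ring
        _ ≤ (zc (C k) * Y) * 2 ^ P1 := Nat.mul_le_mul_right _ hs
        _ = (zc (C k) * 2 ^ P1) * Y := by ring
        _ ≤ (zc (C 0) * 2 ^ P2) * Y := Nat.mul_le_mul_right _ ih'
        _ = _ := by ring
  have hfinal := htel K le_rfl
  simp only [Fin.is_lt, if_true] at hfinal
  -- lower bound for the final number
  have hlow : 2 ^ (∑ r : Fin K, if (ω (lf r)).1 = 0 then 1 else 0) ≤ zc (C K) := by
    have h1 : (∑ r : Fin K, if (ω (lf r)).1 = 0 then 1 else 0) =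
        (ℓ '' {r | (ω (lf r)).1 = 0}).ncard := by
      rw [Set.ncard_image_of_injective _ hℓ, ← Finset.card_filter, ← Set.ncard_coe_finset]
      congr 1
      ext r
      simp
    rw [h1]
    apply le_zc (hgood K)
    rintro _ ⟨r, hr, rfl⟩ u t ⟨e, h2, i, h3, h4⟩
    have : e = lf r := by
      apply honly r e
      rcases h2 with h | h
      · left; exact h.1
      · right; exact h.2
    subst this
    have hr' : (ω (lf r)).1 = 0 := hr
    simp only [setN, cutN] at h3
    split_ifs at h3 <;> omega
  have hup := zc_le (hgood 0)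
  have hpow : (2 : ℕ) ^ ((∑ r : Fin K, if (ω (lf r)).1 = 0 then 1 else 0) + (∑ r : Fin K,
      (if (ω (lf r)).1 = 1 then 1 else if (ω (lf r)).1 = 2 ∧
      ¬ Same (C r) (y, (ω (lf r)).2 0) (y, (ω (lf r)).2 1) then 2 else 0))) ≤
      2 ^ (Nat.card V + ∑ r : Fin K, ((ω (lf r)).1 - 2)) := by
    rw [pow_add, pow_add]
    exact (Nat.mul_le_mul_right _ hlow).trans (hfinal.trans (Nat.mul_le_mul_right _ hup))
  have hle := (Nat.pow_le_pow_iff_right (by norm_num : 1 < 2)).mp hpow
  refine le_trans (le_of_eq ?_) hle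
  rw [← Finset.sum_add_distrib]
  refine Finset.sum_congr rfl (fun r _ => ?_)
  rcases Nat.lt_trichotomy (ω (lf r)).1 1 with h | h | h
  · have h0 : (ω (lf r)).1 = 0 := by omega
    simp [h0]
  · simp [h]
  · have h1 : ¬ (ω (lf r)).1 ≤ 1 := by omega
    have h2 : (ω (lf r)).1 ≠ 0 := by omega
    have h3 : (ω (lf r)).1 ≠ 1 := by omega
    simp only [h1, h2, h3, if_false, zero_add, hC]

end hub

end Pool.Agent.H98.RS
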