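import Pool.Agent.H98.RSDeco

/-! The separation of two times at the root of the gadget. -/

set_option autoImplicit false

open Set

namespace Pool.Agent.H98.RS

section rem

variable {V E : Type*}

open Classical in
/-- remove the bars of the edges in `S` -/
noncomputable def rem (S : Set E) (ω : E → Marks) : E → Marks :=
  setN ω (fun e => if e ∈ S then 0 else (ω e).1)

lemma rem_of_mem {S : Set E} {ω : E → Marks} {e : E} (h : e ∈ S) : (rem S ω e).1 = 0 := by
  simp [rem, setN, h]

lemma rem_of_notMem {S : Set E} {ω : E → Marks} {e : E} (h : e ∉ S) : rem S ω e = ω e := by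
  simp [rem, setN, h]

lemma rem_snd {S : Set E} {ω : E → Marks} {e : E} : (rem S ω e).2 = (ω e).2 := rfl

lemma Generic.rem {ω : E → Marks} (h : Generic ω) (S : Set E) : Generic (rem S ω) := h.setN _

lemma rem_le {S : Set E} {ω : E → Marks} {e : E} : (rem S ω e).1 ≤ (ω e).1 := by
  by_cases h : e ∈ S
  · rw [rem_of_mem h]; exact Nat.zero_le _
  · rw [rem_of_notMem h]

/-- one more edge removed, with one bar -/
lemma bars_rem_insert (ends : E → V × V) (ω : E → Marks) (S : Set E) (e : E) (he : e ∉ S)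
    (h1 : (ω e).1 = 1) :
    bars ends (rem S ω) =
      addBar (bars ends (rem (insert e S) ω)) (ends e).1 (ends e).2 ((ω e).2 0) := by
  classical
  have h := bars_addBars ends (rem (insert e S) ω) e (rem_of_mem (mem_insert _ _)) 1
  rw [addBars_succ, addBars_zero] at h
  have h2 : Function.update (rem (insert e S) ω) e (1, (rem (insert e S) ω e).2) = rem S ω := by
    funext e'
    by_cases hh : e' = e
    · subst hh
      rw [Function.update_self, rem_of_notMem he, ← h1]
      rfl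
    · rw [Function.update_of_ne hh]
      by_cases h3 : e' ∈ S
      · simp [rem, setN, h3]
      · rw [rem_of_notMem h3, rem_of_notMem]
        simp [hh, h3]
  rw [h2] at h
  exact h

lemma fresh_rem {ends : E → V × V} {ω : E → Marks} (hω : Generic ω) (S : Set E) (e : E)
    (he : e ∈ S) (v u : V) (i : ℕ) : ¬ bars ends (rem S ω) v u ((ω e).2 i) := by
  rintro ⟨e', h1, j, h2, h3⟩
  have h4 : (ω e').2 j = (ω e).2 i := h3
  obtain ⟨h5, _⟩ := hω.inj _ _ _ _ h4
  subst h5
  rw [rem_of_mem he] at h2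
  exact absurd h2 (Nat.not_lt_zero _)

lemma inv_rem_insert {ends : E → V × V} (hl : LocFin ends) {ω : E → Marks} (hω : Generic ω)
    (S : Set E) (e : E) (he : e ∉ S) (h1 : (ω e).1 = 1) {I : Set (V × ℝ)}
    (hI : ((ends e).1, (ω e).2 0) ∈ I ↔ ((ends e).2, (ω e).2 0) ∈ I) :
    Inv (bars ends (rem S ω)) I ↔ Inv (bars ends (rem (insert e S) ω)) I := by
  rw [bars_rem_insert ends ω S e he h1]
  exact inv_addBar_iff (good_bars hl (hω.rem _)) (hω.pos e 0)
    (fun u => fresh_rem hω _ e (mem_insert _ _) _ u 0)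
    (fun u => fresh_rem hω _ e (mem_insert _ _) _ u 0) hI

end rem

variable {n d k : ℕ}

/-- the four edges that are removed -/
def fourEdges (x₁ x₂ : TE n d) (L₁ L₂ : YE n d) : Set (GE n d k) :=
  {Sum.inr (Sum.inl L₁), Sum.inr (Sum.inl L₂), Sum.inl x₁, Sum.inl x₂}

lemma conn_mono {η η' : GE n d k → Marks} (h : ∀ e, (η e).1 ≤ (η' e).1) {u c : List (Fin d)}
    (hc : conn η u c) : conn η' u c := by
  refine ⟨hc.1, fun c' h1 h2 => (hc.2 c' h1 h2).trans ?_⟩
  unfold tN
  split_ifs with h3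
  · exact h _
  · exact le_rfl

theorem separated {η : GE n d k → Marks} (hη : Generic η) (L₁ L₂ : YE n d) (x₁ x₂ : TE n d)
    (hx₁ : x₁.1.length = 1) (hx₂ : x₂.1.length = 1) (hxL₁ : x₁.1 <:+ L₁.1)
    (hxL₂ : x₂.1 <:+ L₂.1) (hne : x₁ ≠ x₂)
    (h1 : ∀ c : TE n d, c.1 <:+ L₁.1 ∨ c.1 <:+ L₂.1 → (η (Sum.inl c)).1 = 1)
    (hy₁ : (η (Sum.inr (Sum.inl L₁))).1 = 1) (hy₂ : (η (Sum.inr (Sum.inl L₂))).1 = 1)
    (h2 : ∀ c : TE n d, c.1.tail <:+ L₁.1 ∨ c.1.tail <:+ L₂.1 → (η (Sum.inl c)).1 ≤ 1)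
    (h3 : ∀ l : YE n d, l ≠ L₁ → l ≠ L₂ → conn η [] l.1 → (η (Sum.inr (Sum.inl l))).1 = 0)
    {a b : ℝ} (ha₁ : (η (Sum.inl x₁)).2 0 < a) (ha₂ : a < (η (Sum.inl x₂)).2 0)
    (hb : (η (Sum.inl x₂)).2 0 < b)
    (hR : Same (bars gends (rem (fourEdges x₁ x₂ L₁ L₂) η))
      (ghub, (η (Sum.inr (Sum.inl L₁))).2 0) (ghub, (η (Sum.inr (Sum.inl L₂))).2 0)) :
    ∃ I, Inv (bars gends η) I ∧ (groot, a) ∈ I ∧ (groot, b) ∉ I := by
  -- a suffix of length one is unique
  have huniq : ∀ (c x : TE n d) (L : YE n d), x.1.length = 1 → x.1 <:+ L.1 → c.1 <:+ L.1 →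
      c.1.length = 1 → c = x := by
    intro c x L hx hxL hcL hc
    apply Subtype.ext
    exact (List.suffix_of_suffix_length_le hcL hxL (by omega)).eq_of_length (by omega)
  have hx12 : ∀ (c : List (Fin d)), x₂.1 <:+ c → ¬ x₁.1 <:+ c := by
    intro c hc hc'
    apply hne
    apply Subtype.ext
    exact (List.suffix_of_suffix_length_le hc' hc (by omega)).eq_of_length (by omega)
  have hlenpos : ∀ c : TE n d, 0 < c.1.length := fun c => List.length_pos_iff.mpr c.2.1
  have hL12 : L₁ ≠ L₂ := by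
    rintro rfl
    exact hx12 _ hxL₂ hxL₁
  -- the configuration without the second bar at the root
  set η₀ := rem {(Sum.inl x₂ : GE n d k)} η with hη₀
  have hη₀g : Generic η₀ := hη.rem _
  have hη₀y : ∀ l, η₀ (Sum.inr l) = η (Sum.inr l) := fun l =>
    rem_of_notMem (by simp)
  have hη₀c : ∀ c, c ≠ x₂ → η₀ (Sum.inl c) = η (Sum.inl c) := fun c hc =>
    rem_of_notMem (by simp [hc])
  have hη₀x : (η₀ (Sum.inl x₂)).1 = 0 := rem_of_mem rfl
  have hle : ∀ e, (η₀ e).1 ≤ (η e).1 := fun e => rem_le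
  have hn : 0 < n := by
    have := x₁.2.2
    omega
  -- path one
  have hp1 : ∀ {I : Set (GV n d k × ℝ)}, Inv (bars gends η₀) I → ∀ (c : TV n d),
      c.1 <:+ L₁.1 → ∀ s, ((Sum.inl c, s) ∈ I ↔
        (ghub, (η (Sum.inr (Sum.inl L₁))).2 0) ∈ I) := by
    intro I hI c hc s
    have := clean_path hη₀g L₁ [] List.nil_suffix ?_ ?_ ?_ ?_ ?_ hI c hc (Nat.zero_le _) s
    · rw [hη₀y] at this
      exact this
    · intro c' hc'
      exact absurd hc' c'.2.1
    · intro c' hc' _
      rw [hη₀c c' (by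
        rintro rfl
        exact hx12 _ hc' hxL₁)]
      exact h1 c' (Or.inl hc')
    · rw [hη₀y]; exact hy₁
    · intro c' hc' _
      exact (hle _).trans (h2 c' (Or.inl hc'))
    · intro l hl hconn
      rw [hη₀y]
      refine h3 l hl ?_ (conn_mono hle hconn)
      rintro rfl
      have := hconn.2 x₂.1 hxL₂ (by simp [hx₂])
      rw [tN_eq x₂, hη₀x] at this
      omega
  have hp2 : ∀ {I : Set (GV n d k × ℝ)}, Inv (bars gends η₀) I → ∀ (c : TV n d),
      c.1 <:+ L₂.1 → 1 ≤ c.1.length → ∀ s, ((Sum.inl c, s) ∈ I ↔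
        (ghub, (η (Sum.inr (Sum.inl L₂))).2 0) ∈ I) := by
    intro I hI c hc hc1 s
    have := clean_path hη₀g L₂ x₂.1 hxL₂ ?_ ?_ ?_ ?_ ?_ hI c hc (by omega) s
    · rw [hη₀y] at this
      exact this
    · intro c' hc'
      have : c' = x₂ := Subtype.ext hc'
      rw [this, hη₀x]
    · intro c' hc' hlt
      rw [hη₀c c' (by
        rintro rfl
        omega)]
      exact h1 c' (Or.inr hc')
    · rw [hη₀y]; exact hy₂
    · intro c' hc' _
      exact (hle _).trans (h2 c' (Or.inr hc'))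
    · intro l hl hconn
      rw [hη₀y]
      refine h3 l ?_ hl ⟨List.nil_suffix, fun c' h4 h5 => ?_⟩
      · rintro rfl
        exact hx12 _ hconn.1 hxL₁
      · rcases Nat.lt_or_ge x₂.1.length c'.length with h6 | h6
        · exact (conn_mono hle hconn).2 c' h4 h6
        · have h7 : c' = x₂.1 := by
            simp only [List.length_nil] at h5
            exact (List.suffix_of_suffix_length_le h4 hconn.1 h6).eq_of_length (by omega)
          rw [h7, tN_eq x₂, h1 x₂ (Or.inr hxL₂)]
  -- the time of the second bar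
  set α₂ := (η (Sum.inl x₂)).2 0 with hα₂
  have hsame : ∀ I, Inv (bars gends η₀) I →
      ((groot, α₂) ∈ I ↔ ((Sum.inl ⟨x₂.1, x₂.2.2⟩ : GV n d k), α₂) ∈ I) := by
    intro I hI
    have e1 : (groot, α₂) ∈ I ↔ (ghub, (η (Sum.inr (Sum.inl L₁))).2 0) ∈ I :=
      hp1 hI ⟨[], Nat.zero_le _⟩ List.nil_suffix α₂
    have e2 := hp2 hI ⟨x₂.1, x₂.2.2⟩ hxL₂ hx₂.ge α₂
    rw [e1, e2]
    -- pass to the configuration without the four edges
    apply hR
    have s1 : Inv (bars gends (rem (insert (Sum.inl x₁) {(Sum.inl x₂ : GE n d k)}) η)) I := by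
      refine (inv_rem_insert locFin_gends hη _ _ ?_ ?_ ?_).mp hI
      · simp [hne]
      · exact h1 x₁ (Or.inl hxL₁)
      · have e3 := hp1 hI ⟨x₁.1, x₁.2.2⟩ hxL₁ ((η (Sum.inl x₁)).2 0)
        have e4 := hp1 hI ⟨x₁.1.tail, by
          have := x₁.2.2
          rw [List.length_tail]; omega⟩ ((List.tail_suffix _).trans hxL₁) ((η (Sum.inl x₁)).2 0)
        exact e4.trans e3.symm
    have s2 : Inv (bars gends (rem (insert (Sum.inr (Sum.inl L₂)) (insert (Sum.inl x₁)
        {(Sum.inl x₂ : GE n d k)})) η)) I := by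
      refine (inv_rem_insert locFin_gends hη _ _ ?_ hy₂ ?_).mp s1
      · simp
      · exact hp2 hI ⟨L₂.1, L₂.2.le⟩ List.suffix_rfl (by
          change 1 ≤ L₂.1.length
          rw [L₂.2]; exact hn) _
    refine (inv_rem_insert locFin_gends hη _ _ ?_ hy₁ ?_).mp s2
    · simp [hL12]
    · exact hp1 hI ⟨L₁.1, L₁.2.le⟩ List.suffix_rfl _
  -- splitting
  have hCC : bars gends η = addBar (bars gends η₀) groot
      (Sum.inl ⟨x₂.1, x₂.2.2⟩ : GV n d k) α₂ := by
    have h4 := bars_rem_insert (gends : GE n d k → _) η ∅ (Sum.inl x₂) (by simp)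
      (h1 x₂ (Or.inr hxL₂))
    have h5 : rem (∅ : Set (GE n d k)) η = η := by
      funext e
      exact rem_of_notMem (by simp)
    have h6 : (gends (k := k) (Sum.inl x₂)).1 = groot := by
      change (Sum.inl _ : GV n d k) = Sum.inl _
      congr 1
      apply Subtype.ext
      change x₂.1.tail = []
      apply List.eq_nil_of_length_eq_zero
      rw [List.length_tail]
      omega
    rw [h5, h6, insert_empty_eq] at h4
    exact h4
  have hG := good_gbars hη
  have hG₀ := good_gbars hη₀g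
  have hab : (groot : GV n d k) ≠ Sum.inl ⟨x₂.1, x₂.2.2⟩ := by
    intro h
    have := congrArg Subtype.val (Sum.inl.inj h)
    exact x₂.2.1 this.symm
  rcases split_or_merge hG₀ hab (hη.pos (Sum.inl x₂) 0)
    (fun u => fresh_rem hη _ (Sum.inl x₂) (mem_singleton _) _ u 0)
    (fun u => fresh_rem hη _ (Sum.inl x₂) (mem_singleton _) _ u 0) with ⟨_, J, hJ, hJ1, hJ2⟩ | ⟨⟨I, hI, h4, h5⟩, _⟩
  swap
  · exact absurd ((hsame I hI).mp h4) h5
  rw [← hα₂] at hJ hJ1 hJ2
  rw [← hCC] at hJ
  -- bars at the root other than the two special ones agree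
  have hroot : ∀ (x : GV n d k) (t : ℝ), bars gends η groot x t → t ≠ (η (Sum.inl x₁)).2 0 →
      t ≠ α₂ → ((groot, t) ∈ J ↔ (x, t) ∈ J) := by
    intro x t hB ht1 ht2
    rcases gbar_cases hB with ⟨c, i, hi, hit, hc⟩ | ⟨l, i, hi, hit, hc⟩ | ⟨r, i, hi, hit, hc⟩
    · rcases hc with ⟨h4, h5⟩ | ⟨h4, h5⟩
      · have h6 : c.1.tail = [] := by
          have := Sum.inl.inj h4
          exact (congrArg Subtype.val this).symm
        have hlen : c.1.length = 1 := by
          have h7 := hlenpos c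
          have h8 : c.1.tail.length = 0 := by rw [h6]; rfl
          rw [List.length_tail] at h8
          omega
        have hc1 : (η (Sum.inl c)).1 ≤ 1 := h2 c (Or.inl (by rw [h6]; exact List.nil_suffix))
        have hi0 : i = 0 := by omega
        subst hi0
        have hcx1 : c ≠ x₁ := by
          rintro rfl
          exact ht1 hit.symm
        have hcx2 : c ≠ x₂ := by
          rintro rfl
          exact ht2 hit.symm
        have hB' : bars gends η (gends (k := k) (Sum.inl c)).2 (gends (k := k) (Sum.inl c)).1 t :=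
          ⟨Sum.inl c, Or.inr ⟨rfl, rfl⟩, 0, hi, hit⟩
        obtain ⟨W, hW1, hW2, hW3⟩ := below_cross (k := k) c (fun l hl => by
          refine h3 l ?_ ?_ ⟨List.nil_suffix, fun c' h7 h8 => ?_⟩
          · rintro rfl
            exact hcx1 (huniq c x₁ l hx₁ hxL₁ hl.1 hlen)
          · rintro rfl
            exact hcx2 (huniq c x₂ l hx₂ hxL₂ hl.1 hlen)
          · rcases Nat.lt_or_ge c.1.length c'.length with h9 | h9
            · exact hl.2 c' h7 h9
            · have h10 : c' = c.1 := by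
                simp only [List.length_nil] at h8
                exact (List.suffix_of_suffix_length_le h7 hl.1 h9).eq_of_length (by omega)
              rw [h10, tN_eq c]
              omega) hc1 hB'
        rw [h4, h5]
        exact (Inv.conservation hG hJ ((finite_isSt hG).subset (fun p hp => hp.1)) hW1 hW2 hB'
          hW3).symm
      · exfalso
        have : c.1 = [] := (congrArg Subtype.val (Sum.inl.inj h5)).symm
        exact c.2.1 this
    · exfalso
      rcases hc with ⟨h4, h5⟩ | ⟨h4, h5⟩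
      · have h6 : l.1 = [] := (congrArg Subtype.val (Sum.inl.inj h4)).symm
        have := l.2
        rw [h6] at this
        simp at this
        omega
      · simp [groot, ghub] at h5
    · exfalso
      rcases hc with ⟨h4, h5⟩ | ⟨h4, h5⟩
      · simp [groot] at h4
      · simp [groot, ghub] at h5
  refine ⟨Jᶜ, hJ.compl, ?_, ?_⟩
  · rw [mem_compl_iff]
    intro hin
    apply hJ2
    refine (hJ.agree_pre hG ha₂ ?_ ?_).mp hin
    · rw [hCC]
      exact Or.inr ⟨rfl, Or.inl ⟨rfl, rfl⟩⟩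
    · intro u t' h4 h5 h6
      exact hroot u t' h6 (by linarith [ha₁]) (by linarith)
  · rw [mem_compl_iff, not_not]
    refine (hJ.agree_interval hG hb.le ?_).mp hJ1
    intro u t' h4 _ h6
    exact hroot u t' h6 (by linarith [ha₁, ha₂]) (by linarith)

end Pool.Agent.H98.RS
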