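import Pool.Agent.H98.RSPois
import Pool.Agent.H98.RSSep

/-! Measurability of the relation of being in the same cycle. -/

set_option autoImplicit false

open Set MeasureTheory ProbabilityTheory Filter
open scoped ENNReal NNReal Topology

namespace Pool.Agent.H98.RS

/-- In a finite system, two states at which nothing happens are in the same cycle if and only if
the trajectory of the first one meets that of the second. -/
theorem same_iff_orbit {V : Type*} [Finite V] {B : V → V → ℝ → Prop} (hG : Good B)
    (p q : V × ℝ) : Same B p q ↔ ∃ n : ℕ, (step B)^[n] (step B p) = step B q := by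
  constructor
  · intro h
    have hst : IsSt B (step B p) := isSt_step hG p
    have hstn : ∀ n : ℕ, IsSt B ((step B)^[n] (step B p)) := by
      intro n
      cases n with
      | zero => exact hst
      | succ n => rw [Function.iterate_succ_apply']; exact isSt_step hG _
    have hfin : {q | ∃ n : ℕ, (step B)^[n] (step B p) = q}.Finite :=
      (finite_isSt hG).subset (by rintro _ ⟨n, rfl⟩; exact hstn n)
    obtain ⟨m, hm, hper⟩ := periodic_of_finite hG hst hfin
    have hinv := inv_orbitSet hG hst hm hper
    exact (h _ hinv).mp ⟨0, rfl⟩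
  · rintro ⟨n, hn⟩ I hI
    rw [hI p, hI q, ← hn]
    exact inv_iterate hI n _

section

variable {V E : Type*} [MeasurableSpace V] [DiscreteMeasurableSpace V] [Countable V] [Countable E]

/-- the edge joins the two vertices -/
def joins (ends : E → V × V) (e : E) (v u : V) : Prop :=
  ((ends e).1 = v ∧ (ends e).2 = u) ∨ ((ends e).1 = u ∧ (ends e).2 = v)

open Classical in
/-- the step on generic marks, the identity otherwise -/
noncomputable def gstep (ends : E → V × V) (p : (E → Marks) × (V × ℝ)) : V × ℝ :=
  if Generic p.1 then step (bars ends p.1) p.2 else p.2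

theorem measurable_gstep {ends : E → V × V} (hl : LocFin ends) : Measurable (gstep ends) := by
  intro S hS
  have mtime : ∀ (e : E) (i : ℕ), Measurable (fun p : (E → Marks) × (V × ℝ) => (p.1 e).2 i) :=
    fun e i => (measurable_time e i).comp measurable_fst
  have mcount : ∀ (e : E) (i : ℕ), MeasurableSet {p : (E → Marks) × (V × ℝ) | i < (p.1 e).1} :=
    fun e i => ((measurable_count e).comp measurable_fst)
      (MeasurableSet.of_discrete (s := {n : ℕ | i < n}))
  have mt : Measurable (fun p : (E → Marks) × (V × ℝ) => p.2.2) :=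
    measurable_snd.comp measurable_snd
  have mv : ∀ v : V, MeasurableSet {p : (E → Marks) × (V × ℝ) | p.2.1 = v} := fun v =>
    (measurable_fst.comp measurable_snd) (MeasurableSet.of_discrete (s := {v}))
  have mgen : MeasurableSet {p : (E → Marks) × (V × ℝ) | Generic p.1} :=
    measurable_fst measurableSet_generic
  -- the pieces
  set P1 : V → E → ℕ → V → Set ((E → Marks) × (V × ℝ)) := fun v e i u =>
    {p | joins ends e v u ∧ (u, (p.1 e).2 i) ∈ S ∧ p.2.1 = v ∧ i < (p.1 e).1 ∧
      p.2.2 < (p.1 e).2 i ∧ ∀ e' i', (∃ u', joins ends e' v u') → i' < (p.1 e').1 →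
        p.2.2 < (p.1 e').2 i' → (p.1 e).2 i ≤ (p.1 e').2 i'} with hP1
  set P2 : V → Set ((E → Marks) × (V × ℝ)) := fun v =>
    {p | (v, (0 : ℝ)) ∈ S ∧ p.2.1 = v ∧ ∀ e' i', (∃ u', joins ends e' v u') → i' < (p.1 e').1 →
        ¬ p.2.2 < (p.1 e').2 i'} with hP2
  have hset : gstep ends ⁻¹' S = ({p | Generic p.1}ᶜ ∩ {p | p.2 ∈ S}) ∪
      ({p | Generic p.1} ∩ ((⋃ v, ⋃ e, ⋃ i, ⋃ u, P1 v e i u) ∪ (⋃ v, P2 v))) := by
    ext p
    by_cases hg : Generic p.1
    · have hG := good_bars hl hg
      have h1 : p ∈ gstep ends ⁻¹' S ↔ step (bars ends p.1) p.2 ∈ S := by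
        simp only [mem_preimage, gstep, hg, if_true]
      rw [h1]
      simp only [mem_union, mem_inter_iff, mem_compl_iff, mem_ofPred_eq, hg, not_true_eq_false,
        false_and, false_or, true_and, mem_iUnion]
      constructor
      · intro hs
        rcases step_cases hG p.2 with h | ⟨h, h'⟩
        · left
          obtain ⟨h2, ⟨e, he, i, hi, hit⟩, h4⟩ := h
          refine ⟨p.2.1, e, i, (step (bars ends p.1) p.2).1, he, ?_, rfl, hi, ?_, ?_⟩
          · rw [hit]; exact hs
          · rw [hit]; exact h2
          · rintro e' i' ⟨u', hu'⟩ hi' hlt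
            rw [hit]
            exact h4 u' _ hlt ⟨e', hu', i', hi', rfl⟩
        · right
          rw [h'] at hs
          refine ⟨p.2.1, hs, rfl, ?_⟩
          rintro e' i' ⟨u', hu'⟩ hi' hlt
          exact h u' _ hlt ⟨e', hu', i', hi', rfl⟩
      · rintro (⟨v, e, i, u, he, hS', hv, hi, hlt, hmin⟩ | ⟨v, hS', hv, hno⟩)
        · rw [step_of_next hG (q := (u, (p.1 e).2 i)) ⟨hlt, ⟨e, by rw [hv]; exact he, i, hi, rfl⟩, ?_⟩]
          · exact hS'
          · rintro u' t ht ⟨e', he', i', hi', hit'⟩
            rw [← hit']
            rw [← hit'] at ht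
            exact hmin e' i' ⟨u', by rw [← hv]; exact he'⟩ hi' ht
        · rw [step_of_none, hv]
          · exact hS'
          · rintro u' t ht ⟨e', he', i', hi', hit'⟩
            rw [← hit'] at ht
            exact hno e' i' ⟨u', by rw [← hv]; exact he'⟩ hi' ht
    · simp only [mem_preimage, gstep, hg, if_false, mem_union, mem_inter_iff, mem_compl_iff,
        mem_ofPred_eq, not_false_eq_true, true_and, false_and, or_false]
  rw [hset]
  refine (mgen.compl.inter (measurable_snd hS)).union (mgen.inter (MeasurableSet.union ?_ ?_))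
  · refine MeasurableSet.iUnion fun v => MeasurableSet.iUnion fun e => MeasurableSet.iUnion fun i =>
      MeasurableSet.iUnion fun u => ?_
    by_cases hj : joins ends e v u
    · have h1 : P1 v e i u = {p | (u, (p.1 e).2 i) ∈ S} ∩ ({p | p.2.1 = v} ∩ ({p | i < (p.1 e).1} ∩
          ({p | p.2.2 < (p.1 e).2 i} ∩ ⋂ e', ⋂ i', {p | (∃ u', joins ends e' v u') →
            i' < (p.1 e').1 → p.2.2 < (p.1 e').2 i' → (p.1 e).2 i ≤ (p.1 e').2 i'}))) := by
        ext p
        simp only [hP1, mem_ofPred_eq, mem_inter_iff, mem_iInter, hj, true_and]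
      rw [h1]
      refine MeasurableSet.inter ?_ (MeasurableSet.inter (mv v) (MeasurableSet.inter (mcount e i)
        (MeasurableSet.inter (measurableSet_lt mt (mtime e i)) ?_)))
      · exact (measurable_const.prodMk (mtime e i)) hS
      · refine MeasurableSet.iInter fun e' => MeasurableSet.iInter fun i' => ?_
        by_cases hj' : ∃ u', joins ends e' v u'
        · have h2 : {p : (E → Marks) × (V × ℝ) | (∃ u', joins ends e' v u') →
              i' < (p.1 e').1 → p.2.2 < (p.1 e').2 i' → (p.1 e).2 i ≤ (p.1 e').2 i'} =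
              {p | i' < (p.1 e').1}ᶜ ∪ ({p | p.2.2 < (p.1 e').2 i'}ᶜ ∪
                {p | (p.1 e).2 i ≤ (p.1 e').2 i'}) := by
            ext p
            simp only [mem_ofPred_eq, mem_union, mem_compl_iff, hj', true_implies]
            tauto
          rw [h2]
          exact (mcount e' i').compl.union ((measurableSet_lt mt (mtime e' i')).compl.union
            (measurableSet_le (mtime e i) (mtime e' i')))
        · have h2 : {p : (E → Marks) × (V × ℝ) | (∃ u', joins ends e' v u') →
              i' < (p.1 e').1 → p.2.2 < (p.1 e').2 i' → (p.1 e).2 i ≤ (p.1 e').2 i'} = Set.univ := by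
            ext p
            simp only [mem_ofPred_eq, mem_univ, iff_true]
            exact fun h => absurd h hj'
          rw [h2]
          exact MeasurableSet.univ
    · have h1 : P1 v e i u = ∅ := by
        ext p
        simp only [hP1, mem_ofPred_eq, hj, false_and, mem_empty_iff_false]
      rw [h1]
      exact MeasurableSet.empty
  · refine MeasurableSet.iUnion fun v => ?_
    by_cases hv : (v, (0 : ℝ)) ∈ S
    · have h1 : P2 v = {p | p.2.1 = v} ∩ ⋂ e', ⋂ i', {p | (∃ u', joins ends e' v u') →
            i' < (p.1 e').1 → ¬ p.2.2 < (p.1 e').2 i'} := by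
        ext p
        simp only [hP2, mem_ofPred_eq, mem_inter_iff, mem_iInter, hv, true_and]
      rw [h1]
      refine MeasurableSet.inter (mv v) ?_
      refine MeasurableSet.iInter fun e' => MeasurableSet.iInter fun i' => ?_
      by_cases hj' : ∃ u', joins ends e' v u'
      · have h2 : {p : (E → Marks) × (V × ℝ) | (∃ u', joins ends e' v u') →
            i' < (p.1 e').1 → ¬ p.2.2 < (p.1 e').2 i'} =
            {p | i' < (p.1 e').1}ᶜ ∪ {p | p.2.2 < (p.1 e').2 i'}ᶜ := by
          ext p
          simp only [mem_ofPred_eq, mem_union, mem_compl_iff, hj', true_implies]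
          tauto
        rw [h2]
        exact (mcount e' i').compl.union (measurableSet_lt mt (mtime e' i')).compl
      · have h2 : {p : (E → Marks) × (V × ℝ) | (∃ u', joins ends e' v u') →
            i' < (p.1 e').1 → ¬ p.2.2 < (p.1 e').2 i'} = Set.univ := by
          ext p
          simp only [mem_ofPred_eq, mem_univ, iff_true]
          exact fun h => absurd h hj'
        rw [h2]
        exact MeasurableSet.univ
    · have h1 : P2 v = ∅ := by
        ext p
        simp only [hP2, mem_ofPred_eq, hv, false_and, mem_empty_iff_false]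
      rw [h1]
      exact MeasurableSet.empty

lemma measurable_gstep_iterate {ends : E → V × V} (hl : LocFin ends) (n : ℕ) :
    Measurable (fun p : (E → Marks) × (V × ℝ) => (fun q => gstep ends (p.1, q))^[n] p.2) := by
  induction n with
  | zero => exact measurable_snd
  | succ n ih =>
    have : (fun p : (E → Marks) × (V × ℝ) => (fun q => gstep ends (p.1, q))^[n + 1] p.2) =
        fun p => gstep ends (p.1, (fun q => gstep ends (p.1, q))^[n] p.2) := by
      funext p
      rw [Function.iterate_succ_apply']
    rw [this]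
    exact (measurable_gstep hl).comp (measurable_fst.prodMk ih)

end

/-- Measurability of being in the same cycle. -/
theorem measurableSet_same {V E : Type*} [Finite V] [Countable E] {ends : E → V × V}
    (hl : LocFin ends) (y : V) :
    MeasurableSet {p : (E → Marks) × (ℝ × ℝ) | Generic p.1 ∧
      Same (bars ends p.1) (y, p.2.1) (y, p.2.2)} := by
  letI : MeasurableSpace V := ⊤
  haveI : DiscreteMeasurableSpace V := ⟨fun _ => trivial⟩
  have h1 : {p : (E → Marks) × (ℝ × ℝ) | Generic p.1 ∧
      Same (bars ends p.1) (y, p.2.1) (y, p.2.2)} =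
      {p | Generic p.1} ∩ ⋃ n : ℕ, {p | (fun q => gstep ends (p.1, q))^[n]
        (gstep ends (p.1, (y, p.2.1))) = gstep ends (p.1, (y, p.2.2))} := by
    ext p
    simp only [mem_ofPred_eq, mem_inter_iff, mem_iUnion]
    refine and_congr_right (fun hg => ?_)
    rw [same_iff_orbit (good_bars hl hg)]
    refine exists_congr (fun n => ?_)
    have h2 : ∀ q, gstep ends (p.1, q) = step (bars ends p.1) q := fun q => by
      simp only [gstep, hg, if_true]
    have h3 : (fun q => gstep ends (p.1, q)) = step (bars ends p.1) := funext h2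
    rw [h3, h2, h2]
  rw [h1]
  refine (measurable_fst measurableSet_generic).inter (MeasurableSet.iUnion fun n => ?_)
  have m1 : Measurable (fun p : (E → Marks) × (ℝ × ℝ) => gstep ends (p.1, (y, p.2.1))) :=
    (measurable_gstep hl).comp (measurable_fst.prodMk (measurable_const.prodMk
      (measurable_fst.comp measurable_snd)))
  have m2 : Measurable (fun p : (E → Marks) × (ℝ × ℝ) => gstep ends (p.1, (y, p.2.2))) :=
    (measurable_gstep hl).comp (measurable_fst.prodMk (measurable_const.prodMk
      (measurable_snd.comp measurable_snd)))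
  have m3 : Measurable (fun p : (E → Marks) × (ℝ × ℝ) => (fun q => gstep ends (p.1, q))^[n]
        (gstep ends (p.1, (y, p.2.1)))) :=
    (measurable_gstep_iterate hl n).comp (measurable_fst.prodMk m1)
  have h4 : {p : (E → Marks) × (ℝ × ℝ) | (fun q => gstep ends (p.1, q))^[n]
        (gstep ends (p.1, (y, p.2.1))) = gstep ends (p.1, (y, p.2.2))} =
      (⋃ v : V, {p | ((fun q => gstep ends (p.1, q))^[n] (gstep ends (p.1, (y, p.2.1)))).1 ∈
        ({v} : Set V)} ∩ {p | (gstep ends (p.1, (y, p.2.2))).1 ∈ ({v} : Set V)}) ∩
      {p | ((fun q => gstep ends (p.1, q))^[n] (gstep ends (p.1, (y, p.2.1)))).2 =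
        (gstep ends (p.1, (y, p.2.2))).2} := by
    ext p
    simp only [mem_ofPred_eq, mem_inter_iff, mem_iUnion, mem_singleton_iff]
    constructor
    · intro h
      exact ⟨⟨_, congrArg Prod.fst h, rfl⟩, congrArg Prod.snd h⟩
    · rintro ⟨⟨v, h5, h6⟩, h7⟩
      exact Prod.ext (h5.trans h6.symm) h7
  rw [h4]
  refine MeasurableSet.inter (MeasurableSet.iUnion fun v => MeasurableSet.inter ?_ ?_) ?_
  · exact (measurable_fst.comp m3) (MeasurableSet.of_discrete (s := {v}))
  · exact (measurable_fst.comp m2) (MeasurableSet.of_discrete (s := {v}))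
  · exact measurableSet_eq_fun (measurable_snd.comp m3) (measurable_snd.comp m2)

end Pool.Agent.H98.RS
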