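import Pool.Agent.H98.RSTreeProb

/-! The decorated tree: infinite cycles when there are clean rays. -/

set_option autoImplicit false

open Set MeasureTheory ProbabilityTheory Filter
open scoped ENNReal NNReal Topology

namespace Pool.Agent.H98.RS

variable {b : ℕ} {Γ E' : Type*}

/-- clean paths of length `n` from `v` -/
def reach (Cl : Set (E' → Marks)) : ℕ → List (Fin b) → Set (TrE b E' → Marks)
  | 0, _ => Set.univ
  | n + 1, v => {ω | gad ω v ∈ Cl} ∩ ({ω | ∀ i, (ω (v, Sum.inl i)).1 ≤ 1} ∩
      ⋃ i, ({ω | (ω (v, Sum.inl i)).1 = 1} ∩ reach Cl n (i :: v)))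

lemma reach_anti (Cl : Set (E' → Marks)) : ∀ (n : ℕ) (v : List (Fin b)),
    reach Cl (n + 1) v ⊆ reach Cl n v := by
  intro n
  induction n with
  | zero => intro v; exact subset_univ _
  | succ n ih =>
    intro v
    refine inter_subset_inter subset_rfl (inter_subset_inter subset_rfl ?_)
    exact iUnion_mono (fun i => inter_subset_inter subset_rfl (ih (i :: v)))

lemma reach_anti' (Cl : Set (E' → Marks)) (v : List (Fin b)) {m n : ℕ} (h : m ≤ n) :
    reach Cl n v ⊆ reach Cl m v := by
  induction n, h using Nat.le_induction with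
  | base => exact subset_rfl
  | succ n _ ih => exact (reach_anti Cl n v).trans ih

section

variable {Cl : Set (E' → Marks)} (hCl : MeasurableSet Cl)

include hCl

lemma depOn_gad (v : List (Fin b)) :
    DepOn (Set.range (fun e : E' => ((v, Sum.inr e) : TrE b E')))
      {ω : TrE b E' → Marks | gad ω v ∈ Cl} :=
  depOn_reindex (fun e : E' => ((v, Sum.inr e) : TrE b E')) hCl

lemma depOn_reach : ∀ (n : ℕ) (v : List (Fin b)), DepOn (below E' v) (reach Cl n v) := by
  have hcoord : ∀ (e : TrE b E') (s : Set ℕ), DepOn {e} {ω : TrE b E' → Marks | (ω e).1 ∈ s} :=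
    fun e s => depOn_coord e (A := {m : Marks | m.1 ∈ s})
      (measurable_fst (MeasurableSet.of_discrete (s := s)))
  intro n
  induction n with
  | zero => intro v; exact DepOn.univ
  | succ n ih =>
    intro v
    refine DepOn.inter ((depOn_gad hCl v).mono ?_) (DepOn.inter ?_ ?_)
    · rintro _ ⟨e, rfl⟩
      exact List.suffix_rfl
    · have : {ω : TrE b E' → Marks | ∀ i, (ω (v, Sum.inl i)).1 ≤ 1} =
          ⋂ i, {ω : TrE b E' → Marks | (ω (v, Sum.inl i)).1 ∈ {n : ℕ | n ≤ 1}} := by
        ext ω
        simp only [mem_ofPred_eq, mem_iInter]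
      rw [this]
      refine DepOn.iInter (fun i => (hcoord _ _).mono ?_)
      rintro _ rfl
      exact List.suffix_rfl
    · refine DepOn.iUnion (fun i => DepOn.inter ((hcoord (v, Sum.inl i) {1}).mono ?_)
        ((ih (i :: v)).mono (below_mono (List.suffix_cons _ _))))
      rintro _ rfl
      exact List.suffix_rfl

lemma reach_prob {T : ℝ} (hT : 0 < T) {κ r : ℝ}
    (hκ : 1 - κ ≤ (prodLaw (ptsLaw T) E').real Cl) (hr0 : 0 ≤ r) (hr1 : r ≤ 1)
    (hnum : r ≤ (1 - κ) * (((1 + T) * Real.exp (-T)) ^ b -
      ((1 + T) * Real.exp (-T) - T * Real.exp (-T) * r) ^ b)) :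
    ∀ (n : ℕ) (v : List (Fin b)), r ≤ (prodLaw (ptsLaw T) (TrE b E')).real (reach Cl n v) := by
  set P := prodLaw (ptsLaw T) (TrE b E') with hP
  set u := (1 + T) * Real.exp (-T) with hu
  set p := T * Real.exp (-T) with hp
  have hp0 : 0 ≤ p := by positivity
  have hpu : p ≤ u := by
    have := Real.exp_pos (-T)
    rw [hp, hu]
    nlinarith
  have hcoord : ∀ (e : TrE b E') (s : Set ℕ), DepOn {e} {ω : TrE b E' → Marks | (ω e).1 ∈ s} :=
    fun e s => depOn_coord e (A := {m : Marks | m.1 ∈ s})
      (measurable_fst (MeasurableSet.of_discrete (s := s)))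
  have hcount : ∀ (e : TrE b E') (s : Set ℕ), P {ω : TrE b E' → Marks | (ω e).1 ∈ s} =
      poissonMeasure T.toNNReal s := by
    intro e s
    have h4 := prodLaw_coord (ptsLaw T) e (A := {m : Marks | m.1 ∈ s})
      (measurable_fst (MeasurableSet.of_discrete (s := s)))
    rw [ptsLaw_count] at h4
    exact h4
  have hle1 : ∀ e : TrE b E', P.real {ω : TrE b E' → Marks | (ω e).1 ≤ 1} = u := by
    intro e
    rw [Measure.real]
    have := hcount e {n | n ≤ 1}
    rw [po_le_one hT.le] at this
    change (P {ω : TrE b E' → Marks | (ω e).1 ∈ {n : ℕ | n ≤ 1}}).toReal = u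
    rw [this, ENNReal.toReal_ofReal (by positivity)]
  have heq1 : ∀ e : TrE b E', P.real {ω : TrE b E' → Marks | (ω e).1 = 1} = p := by
    intro e
    rw [Measure.real]
    have := hcount e {1}
    rw [po_one hT.le] at this
    change (P {ω : TrE b E' → Marks | (ω e).1 ∈ ({1} : Set ℕ)}).toReal = p
    rw [this, ENNReal.toReal_ofReal (by positivity)]
  intro n
  induction n with
  | zero => intro v; simp [reach, hr1]
  | succ n ih =>
    intro v
    -- the events for the children
    set U : Fin b → Set (TrE b E' → Marks) := fun i => {ω | (ω (v, Sum.inl i)).1 ≤ 1} with hU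
    set A : Fin b → Set (TrE b E' → Marks) := fun i =>
      {ω | (ω (v, Sum.inl i)).1 = 1} ∩ reach Cl n (i :: v) with hA
    have hAU : ∀ i, A i ⊆ U i := by
      rintro i ω ⟨h, _⟩
      have h' : (ω (v, Sum.inl i)).1 = 1 := h
      exact h'.le
    set S : Fin b → Set (TrE b E') := fun i => {(v, Sum.inl i)} ∪ below E' (i :: v) with hS
    have hdepU : ∀ i, DepOn (S i) (U i) := fun i =>
      (hcoord (v, Sum.inl i) {n | n ≤ 1}).mono subset_union_left
    have hdepA : ∀ i, DepOn (S i) (A i) := fun i =>
      ((hcoord (v, Sum.inl i) {1}).mono subset_union_left).inter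
        ((depOn_reach hCl n (i :: v)).mono subset_union_right)
    have hvnot : ∀ i : Fin b, ¬ (i :: v) <:+ v := by
      intro i h
      have := h.length_le
      simp at this
    have hdisj : ∀ i ∈ (Finset.univ : Finset (Fin b)), ∀ j ∈ (Finset.univ : Finset (Fin b)),
        i ≠ j → Disjoint (S i) (S j) := by
      intro i _ j _ hij
      rw [Set.disjoint_left]
      rintro e (h | h) (h' | h')
      · rw [mem_singleton_iff] at h h'
        rw [h] at h'
        exact hij (Sum.inl.inj (Prod.ext_iff.mp h').2)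
      · rw [mem_singleton_iff] at h
        rw [h] at h'
        exact hvnot j h'
      · rw [mem_singleton_iff] at h'
        rw [h'] at h
        exact hvnot i h
      · have h1 : (i :: v) <:+ e.1 := h
        have h2 : (j :: v) <:+ e.1 := h'
        have := (List.suffix_of_suffix_length_le h1 h2 (by simp)).eq_of_length (by simp)
        exact hij (List.cons.inj this).1
    have hset : reach Cl (n + 1) v = {ω | gad ω v ∈ Cl} ∩ ((⋂ i ∈ (Finset.univ : Finset (Fin b)),
        U i) \ (⋂ i ∈ (Finset.univ : Finset (Fin b)), (U i \ A i))) := by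
      rw [reach]
      congr 1
      ext ω
      simp only [mem_inter_iff, mem_ofPred_eq, mem_iUnion, Set.mem_sdiff, mem_iInter,
        Finset.mem_univ, true_implies, hU, hA]
      constructor
      · rintro ⟨h1, i, h2, h3⟩
        exact ⟨h1, fun h => (h i).2 ⟨h2, h3⟩⟩
      · rintro ⟨h1, h2⟩
        push Not at h2
        obtain ⟨i, hi⟩ := h2
        exact ⟨h1, i, hi (h1 i)⟩
    have hdep1 : DepOn (⋃ i, S i) (⋂ i ∈ (Finset.univ : Finset (Fin b)), U i) := by
      have : (⋂ i ∈ (Finset.univ : Finset (Fin b)), U i) = ⋂ i, U i := by simp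
      rw [this]
      exact DepOn.iInter (fun i => (hdepU i).mono (subset_iUnion S i))
    have hdep2 : DepOn (⋃ i, S i) (⋂ i ∈ (Finset.univ : Finset (Fin b)), (U i \ A i)) := by
      have : (⋂ i ∈ (Finset.univ : Finset (Fin b)), (U i \ A i)) = ⋂ i, (U i \ A i) := by simp
      rw [this]
      exact DepOn.iInter (fun i => ((hdepU i).diff (hdepA i)).mono (subset_iUnion S i))
    have hG : P.real (reach Cl (n + 1) v) = P.real {ω | gad ω v ∈ Cl} *
        P.real ((⋂ i ∈ (Finset.univ : Finset (Fin b)), U i) \
          (⋂ i ∈ (Finset.univ : Finset (Fin b)), (U i \ A i))) := by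
      rw [hset, Measure.real, Measure.real, Measure.real, ← ENNReal.toReal_mul,
        ← indep_disjoint (ptsLaw T) (depOn_gad hCl v) (hdep1.diff hdep2)]
      rw [Set.disjoint_left]
      rintro _ ⟨e, rfl⟩ h
      rw [mem_iUnion] at h
      obtain ⟨i, h | h⟩ := h
      · rw [mem_singleton_iff] at h
        have := (Prod.ext_iff.mp h).2
        simp at this
      · exact hvnot i h
    have hgad : P.real {ω | gad ω v ∈ Cl} = (prodLaw (ptsLaw T) E').real Cl := by
      rw [Measure.real, Measure.real, ← prodLaw_reindex (ptsLaw T)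
        (j := fun e : E' => ((v, Sum.inr e) : TrE b E')) (fun e e' h => by simpa using h) hCl]
      rfl
    have hdiff : P.real ((⋂ i ∈ (Finset.univ : Finset (Fin b)), U i) \
          (⋂ i ∈ (Finset.univ : Finset (Fin b)), (U i \ A i))) =
        P.real (⋂ i ∈ (Finset.univ : Finset (Fin b)), U i) -
        P.real (⋂ i ∈ (Finset.univ : Finset (Fin b)), (U i \ A i)) := by
      apply measureReal_sdiff _ hdep2.meas
      exact iInter₂_mono (fun i _ => sdiff_subset)
    have hprodU : P.real (⋂ i ∈ (Finset.univ : Finset (Fin b)), U i) = u ^ b := by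
      rw [Measure.real, indep_finset (ptsLaw T) _ (fun i _ => hdepU i) hdisj,
        ENNReal.toReal_prod]
      have : ∀ i ∈ (Finset.univ : Finset (Fin b)), (P (U i)).toReal = u := fun i _ =>
        hle1 (v, Sum.inl i)
      rw [Finset.prod_congr rfl this, Finset.prod_const, Finset.card_univ, Fintype.card_fin]
    have hprodD : P.real (⋂ i ∈ (Finset.univ : Finset (Fin b)), (U i \ A i)) =
        ∏ i : Fin b, P.real (U i \ A i) := by
      rw [Measure.real, indep_finset (ptsLaw T) _ (fun i _ => (hdepU i).diff (hdepA i)) hdisj,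
        ENNReal.toReal_prod]
      rfl
    have hD : ∀ i, P.real (U i \ A i) ≤ u - p * r := by
      intro i
      rw [measureReal_sdiff (hAU i) (hdepA i).meas, hU]
      simp only
      rw [hle1]
      have h1 : P.real (A i) = p * P.real (reach Cl n (i :: v)) := by
        rw [← heq1 (v, Sum.inl i), Measure.real, Measure.real, Measure.real, ← ENNReal.toReal_mul]
        congr 1
        refine indep_disjoint (ptsLaw T) (hcoord (v, Sum.inl i) {1}) (depOn_reach hCl n (i :: v)) ?_
        rw [Set.disjoint_singleton_left]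
        exact hvnot i
      rw [h1]
      have := mul_le_mul_of_nonneg_left (ih (i :: v)) hp0
      linarith
    have hD0 : ∀ i, 0 ≤ P.real (U i \ A i) := fun i => measureReal_nonneg
    have hprodle : ∏ i : Fin b, P.real (U i \ A i) ≤ (u - p * r) ^ b := by
      calc ∏ i : Fin b, P.real (U i \ A i) ≤ ∏ _i : Fin b, (u - p * r) :=
            Finset.prod_le_prod (fun i _ => hD0 i) (fun i _ => hD i)
        _ = (u - p * r) ^ b := by simp
    rw [hG, hgad, hdiff, hprodU, hprodD]
    have hnn : 0 ≤ u ^ b - (u - p * r) ^ b := by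
      have h1 : (u - p * r) ^ b ≤ u ^ b := by
        apply pow_le_pow_left₀
        · nlinarith
        · nlinarith
      linarith
    calc r ≤ (1 - κ) * (u ^ b - (u - p * r) ^ b) := hnum
      _ ≤ (prodLaw (ptsLaw T) E').real Cl * (u ^ b - (u - p * r) ^ b) :=
          mul_le_mul_of_nonneg_right hκ hnn
      _ ≤ _ := mul_le_mul_of_nonneg_left (by linarith) measureReal_nonneg

end

variable {ge : E' → Γ × Γ} {w : Γ}

theorem ae_infinite [Finite Γ] [Countable E'] (hl : LocFin ge) {T : ℝ} (hT : 0 < T) (hb : 2 ≤ b)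
    {Cl : Set (E' → Marks)} (hCl : MeasurableSet Cl)
    (hclean : ∀ η, Generic η → η ∈ Cl → Clean ge w η) {κ r : ℝ}
    (hκ : 1 - κ ≤ (prodLaw (ptsLaw T) E').real Cl) (hr0 : 0 < r) (hr1 : r ≤ 1)
    (hnum : r ≤ (1 - κ) * (((1 + T) * Real.exp (-T)) ^ b -
      ((1 + T) * Real.exp (-T) - T * Real.exp (-T) * r) ^ b)) :
    ∀ᵐ ω ∂(prodLaw (ptsLaw T) (TrE b E')), ∃ v, (cyc (bars (tends ge w) ω) v).Infinite := by
  set P := prodLaw (ptsLaw T) (TrE b E') with hP
  set inf : List (Fin b) → Set (TrE b E' → Marks) := fun v => ⋂ n, reach Cl n v with hinf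
  have hdep : ∀ v, DepOn (below E' v) (inf v) := fun v => DepOn.iInter (fun n => depOn_reach hCl n v)
  have hprob : ∀ v, ENNReal.ofReal r ≤ P (inf v) := by
    intro v
    have h1 : Tendsto (fun n => P (reach Cl n v)) atTop (𝓝 (P (⋂ n, reach Cl n v))) :=
      tendsto_measure_iInter_atTop (fun n => (depOn_reach hCl n v).meas.nullMeasurableSet)
        (fun m n h => reach_anti' Cl v h) ⟨0, measure_ne_top _ _⟩
    refine ge_of_tendsto' h1 (fun n => ?_)
    have := reach_prob hCl hT hκ hr0.le hr1 hnum n v
    rw [Measure.real] at this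
    exact ENNReal.ofReal_le_of_le_toReal this
  -- some clean infinite ray exists almost surely
  have hex : ∀ᵐ ω ∂P, ∃ v, ω ∈ inf v := by
    set zero : Fin b := ⟨0, by omega⟩ with hzero
    set one : Fin b := ⟨1, by omega⟩ with hone
    set vk : ℕ → List (Fin b) := fun k => one :: List.replicate k zero with hvk
    have hne : zero ≠ one := by
      intro h
      have := congrArg Fin.val h
      simp [hzero, hone] at this
    have hdisj : ∀ k l : ℕ, k < l → Disjoint (below E' (vk k)) (below E' (vk l)) := by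
      intro k l hkl
      rw [Set.disjoint_left]
      intro e h1 h2
      have h3 : vk k <:+ vk l := List.suffix_of_suffix_length_le h1 h2 (by simp [hvk]; omega)
      have h4 : vk k <:+ List.replicate l zero := by
        rw [hvk] at h3
        simp only at h3
        rw [List.suffix_cons_iff] at h3
        rcases h3 with h3 | h3
        · have := congrArg List.length h3
          simp at this
          omega
        · exact h3
      have h5 : one ∈ List.replicate l zero := h4.subset (by simp [hvk])
      exact hne (List.eq_of_mem_replicate h5).symm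
    have hbound : ∀ K : ℕ, P {ω | ¬ ∃ v, ω ∈ inf v} ≤ (1 - ENNReal.ofReal r) ^ K := by
      intro K
      calc P {ω | ¬ ∃ v, ω ∈ inf v} ≤ P (⋂ k ∈ Finset.range K, (inf (vk k))ᶜ) := by
            apply measure_mono
            intro ω hω
            simp only [mem_ofPred_eq, not_exists] at hω
            simp only [mem_iInter]
            exact fun k _ => hω (vk k)
        _ = ∏ k ∈ Finset.range K, P ((inf (vk k))ᶜ) := by
            refine indep_finset (ptsLaw T) _ (fun k _ => (hdep (vk k)).compl) ?_
            intro k _ l _ hkl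
            rcases lt_or_gt_of_ne hkl with h | h
            · exact hdisj k l h
            · exact (hdisj l k h).symm
        _ ≤ ∏ _k ∈ Finset.range K, (1 - ENNReal.ofReal r) := by
            refine Finset.prod_le_prod' (fun k _ => ?_)
            rw [prob_compl_eq_one_sub (hdep (vk k)).meas]
            exact tsub_le_tsub_left (hprob _) _
        _ = _ := by simp
    rw [ae_iff]
    have h2 : Tendsto (fun n : ℕ => (1 - ENNReal.ofReal r) ^ n) atTop (𝓝 0) := by
      apply ENNReal.tendsto_pow_atTop_nhds_zero_of_lt_one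
      exact ENNReal.sub_lt_self ENNReal.one_ne_top one_ne_zero (by
        rw [Ne, ENNReal.ofReal_eq_zero]
        linarith)
    exact le_antisymm (ge_of_tendsto' h2 hbound) bot_le
  filter_upwards [hex, ae_returns (b := b) (w := w) hl hT, ae_generic (E := TrE b E') hT]
    with ω hω hret hgen
  obtain ⟨v₀, hv₀⟩ := hω
  -- structure of `inf`
  have hnext : ∀ v, ω ∈ inf v → gad ω v ∈ Cl ∧ (∀ i, (ω (v, Sum.inl i)).1 ≤ 1) ∧
      ∃ i, (ω (v, Sum.inl i)).1 = 1 ∧ ω ∈ inf (i :: v) := by
    intro v hv
    have h1 : ∀ n, ω ∈ reach Cl n v := fun n => mem_iInter.mp hv n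
    refine ⟨(h1 1).1, (h1 1).2.1, ?_⟩
    by_contra hcon
    push Not at hcon
    -- for each child choose a length that fails
    have h2 : ∀ i, ∃ n, (ω (v, Sum.inl i)).1 = 1 → ω ∉ reach Cl n (i :: v) := by
      intro i
      by_cases h : (ω (v, Sum.inl i)).1 = 1
      · have h3 := hcon i h
        rw [hinf] at h3
        simp only [mem_iInter, not_forall] at h3
        obtain ⟨n, hn⟩ := h3
        exact ⟨n, fun _ => hn⟩
      · exact ⟨0, fun h' => absurd h' h⟩
    choose N hN using h2
    obtain ⟨M, hM⟩ : ∃ M, ∀ i, N i ≤ M := ⟨Finset.univ.sup N, fun i =>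
      Finset.le_sup (Finset.mem_univ i)⟩
    have h4 := (h1 (M + 1)).2.2
    rw [mem_iUnion] at h4
    obtain ⟨i, h5, h6⟩ := h4
    exact hN i h5 (reach_anti' Cl (i :: v) (hM i) h6)
  -- the ray
  have hne : Nonempty (Fin b) := ⟨⟨0, by omega⟩⟩
  choose! f hf using fun v => fun hv => (hnext v hv).2.2
  set r' : ℕ → List (Fin b) := fun n => Nat.rec v₀ (fun _ v => f v :: v) n with hr'
  have hr'mem : ∀ n, ω ∈ inf (r' n) := by
    intro n
    induction n with
    | zero => exact hv₀
    | succ n ih => exact (hf (r' n) ih).2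
  exact infinite_of_clean_ray hl hgen.1 hret r' (fun n => f (r' n)) (fun n => rfl)
    (fun n => (hf (r' n) (hr'mem n)).1) (fun n => (hnext _ (hr'mem n)).2.1)
    (fun n => hclean _ (hgen.1.gad _) (hnext _ (hr'mem n)).1)

end Pool.Agent.H98.RS
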