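import Pool.Agent.H98.RSGadD
import Pool.Agent.H98.RSTreeProb2

/-! Choice of the parameters. -/

set_option autoImplicit false

open Set MeasureTheory ProbabilityTheory Filter
open scoped ENNReal NNReal Topology

namespace Pool.Agent.H98.RS

variable {n d k b : ℕ}

/-! ### Cleanness at the smaller time -/

/-- the event on which the root of the gadget is clean -/
def Clset (n d k : ℕ) : Set (GE n d k → Marks) :=
  {η | (∀ c : TE n d, c.1.length = 1 → (η (Sum.inl c)).1 ≤ 1) ∧
    ∀ l : YE n d, ¬ ((∀ c : TE n d, c.1 <:+ l.1 → 0 < c.1.length → 1 ≤ (η (Sum.inl c)).1) ∧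
      1 ≤ (η (Sum.inr (Sum.inl l))).1)}

lemma clean_of_Clset (hn : 0 < n) {η : GE n d k → Marks} (h : η ∈ Clset n d k) :
    Clean gends groot η := by
  intro x t hB
  refine clean_root h.1 (fun l hl => ?_) hn x t hB
  by_contra hne
  refine h.2 l ⟨fun c hc hlen => ?_, Nat.one_le_iff_ne_zero.mpr hne⟩
  have := hl.2 c.1 hc hlen
  rw [tN_eq c] at this
  exact this

lemma measurableSet_Clset : MeasurableSet (Clset n d k) := by
  have h : Clset n d k = (⋂ c : TE n d, {η | c.1.length = 1 →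
      η ∈ {η : GE n d k → Marks | (η (Sum.inl c)).1 ∈ ({n | n ≤ 1} : Set ℕ)}}) ∩
      ⋂ l : YE n d, ((⋂ c : TE n d, {η | (c.1 <:+ l.1 ∧ 0 < c.1.length) →
      η ∈ {η : GE n d k → Marks | (η (Sum.inl c)).1 ∈ ({n | 1 ≤ n} : Set ℕ)}}) ∩
      {η : GE n d k → Marks | (η (Sum.inr (Sum.inl l))).1 ∈ ({n | 1 ≤ n} : Set ℕ)})ᶜ := by
    ext η
    simp only [Clset, mem_ofPred_eq, mem_inter_iff, mem_iInter, mem_compl_iff, and_imp]
  rw [h]
  refine MeasurableSet.inter (MeasurableSet.iInter fun c =>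
    (depOn_imp (S := Set.univ) _ (fun _ => (depOn_count _ _).mono (subset_univ _))).meas)
    (MeasurableSet.iInter fun l => MeasurableSet.compl (MeasurableSet.inter
      (MeasurableSet.iInter fun c =>
        (depOn_imp (S := Set.univ) _ (fun _ => (depOn_count _ _).mono (subset_univ _))).meas)
      (depOn_count _ _).meas))

lemma prob_Clset {T : ℝ} (hT : 0 ≤ T) :
    1 - (d * T ^ 2 + (d : ℝ) ^ n * T ^ (n + 1)) ≤
      (prodLaw (ptsLaw T) (GE n d k)).real (Clset n d k) := by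
  classical
  set P := prodLaw (ptsLaw T) (GE n d k) with hP
  have h1 : (Clset n d k)ᶜ ⊆ (⋃ c ∈ (Finset.univ.filter (fun c : TE n d => c.1.length = 1)),
      {η : GE n d k → Marks | (η (Sum.inl c)).1 ∈ {n : ℕ | 2 ≤ n}}) ∪
      ⋃ l ∈ (Finset.univ : Finset (YE n d)), {η : GE n d k → Marks |
        (∀ c : TE n d, c.1 <:+ l.1 → 0 < c.1.length → 1 ≤ (η (Sum.inl c)).1) ∧
        1 ≤ (η (Sum.inr (Sum.inl l))).1} := by
    intro η hη
    by_contra hno
    apply hη
    rw [mem_union, not_or] at hno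
    refine ⟨fun c hc => ?_, fun l hl => ?_⟩
    · by_contra h3
      apply hno.1
      simp only [mem_iUnion]
      exact ⟨c, by simp [hc], by change 2 ≤ (η (Sum.inl c)).1; exact Nat.lt_of_not_le h3⟩
    · apply hno.2
      simp only [mem_iUnion]
      exact ⟨l, Finset.mem_univ _, hl⟩
  have hcard : (Finset.univ.filter (fun c : TE n d => c.1.length = 1)).card ≤ d := by
    have h2 : (Finset.univ : Finset (Fin d)).card = d := by simp
    refine le_trans ?_ h2.le
    refine Finset.card_le_card_of_injOn (fun c : TE n d => c.1.head c.2.1)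
      (fun _ _ => Finset.mem_coe.mpr (Finset.mem_univ _)) ?_
    intro c hc c' hc' h
    simp only [Finset.coe_filter, Finset.mem_univ, true_and, mem_ofPred_eq] at hc hc'
    apply Subtype.ext
    obtain ⟨i, hi⟩ := List.length_eq_one_iff.mp hc
    obtain ⟨i', hi'⟩ := List.length_eq_one_iff.mp hc'
    have e1 : c.1.head c.2.1 = i := by simp only [hi, List.head_cons]
    have e2 : c'.1.head c'.2.1 = i' := by simp only [hi', List.head_cons]
    rw [hi, hi', ← e1, ← e2]
    simp only at h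
    rw [h]
  have h2 : P (Clset n d k)ᶜ ≤ ENNReal.ofReal (d * T ^ 2 + (d : ℝ) ^ n * T ^ (n + 1)) := by
    refine (measure_mono h1).trans ((measure_union_le _ _).trans ?_)
    rw [ENNReal.ofReal_add (by positivity) (by positivity)]
    refine add_le_add ?_ ?_
    · refine (measure_biUnion_finset_le _ _).trans ?_
      calc ∑ c ∈ (Finset.univ.filter (fun c : TE n d => c.1.length = 1)),
          P {η | (η (Sum.inl c)).1 ∈ {n : ℕ | 2 ≤ n}}
          ≤ ∑ _c ∈ (Finset.univ.filter (fun c : TE n d => c.1.length = 1)),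
            ENNReal.ofReal (T ^ 2) := by
            refine Finset.sum_le_sum (fun c _ => ?_)
            rw [hP, prob_count]
            exact po_ge_two hT
        _ ≤ (d : ℝ≥0∞) * ENNReal.ofReal (T ^ 2) := by
            rw [Finset.sum_const, nsmul_eq_mul]
            refine mul_le_mul' ?_ le_rfl
            exact_mod_cast hcard
        _ = ENNReal.ofReal (d * T ^ 2) := by
            rw [← ENNReal.ofReal_natCast, ← ENNReal.ofReal_mul (by positivity)]
    · refine (measure_biUnion_finset_le _ _).trans ?_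
      calc ∑ l : YE n d, P {η | (∀ c : TE n d, c.1 <:+ l.1 → 0 < c.1.length →
            1 ≤ (η (Sum.inl c)).1) ∧ 1 ≤ (η (Sum.inr (Sum.inl l))).1}
          ≤ ∑ _l : YE n d, ENNReal.ofReal T ^ (n - 0 + 1) :=
            Finset.sum_le_sum (fun l _ => prob_path hT l 0)
        _ = ENNReal.ofReal ((d : ℝ) ^ n * T ^ (n + 1)) := by
            rw [Finset.sum_const, Finset.card_univ, card_YE, nsmul_eq_mul,
              ← ENNReal.ofReal_natCast, Nat.sub_zero, ← ENNReal.ofReal_pow hT,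
              ← ENNReal.ofReal_mul (by positivity)]
            push_cast
            rfl
  have h3 : P.real (Clset n d k)ᶜ ≤ d * T ^ 2 + (d : ℝ) ^ n * T ^ (n + 1) := by
    rw [Measure.real]
    have := ENNReal.toReal_mono ENNReal.ofReal_ne_top h2
    rwa [ENNReal.toReal_ofReal (by positivity)] at this
  rw [probReal_compl_eq_one_sub measurableSet_Clset] at h3
  linarith

/-! ### Blocking at the larger time -/

/-- the blocking event in the decorated tree -/
def Blset (b k : ℕ) (hn : 0 < n) (T : ℝ) (u : List (Fin b)) (j i : Fin b) :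
    Set (TrE b (GE n d k) → Marks) :=
  {ω | (ω (u, Sum.inl j)).1 = 1 ∧ (ω (u, Sum.inl j)).2 0 ∈ Set.Ioo (T / 4) (T / 2)} ∩
  ({ω | (ω (j :: u, Sum.inl i)).1 = 1 ∧ (ω (j :: u, Sum.inl i)).2 0 ∈ Set.Ioo (3 * T / 4) T} ∩
  ({ω | ∀ i', i' ≠ i → (ω (j :: u, Sum.inl i')).1 ≤ 1} ∩ {ω | gad ω (j :: u) ∈ Qall k hn T}))

section

variable {E : Type*}

lemma depOn_quarter' (e : E) (a b : ℝ) :
    DepOn {e} {η : E → Marks | (η e).1 = 1 ∧ (η e).2 0 ∈ Set.Ioo a b} := by
  refine depOn_coord e (A := {m : Marks | m.1 = 1 ∧ m.2 0 ∈ Set.Ioo a b}) ?_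
  exact (measurable_fst (MeasurableSet.of_discrete (s := ({1} : Set ℕ)))).inter
    (((measurable_pi_apply 0).comp measurable_snd) measurableSet_Ioo)

lemma prob_quarter' {T : ℝ} (hT : 0 < T) (e : E) {a b : ℝ} (ha : 0 ≤ a) (hb : b ≤ T)
    (hab : (b - a) / T = 1 / 4) :
    (prodLaw (ptsLaw T) E).real {η | (η e).1 = 1 ∧ (η e).2 0 ∈ Set.Ioo a b} =
      T * Real.exp (-T) / 4 := by
  have h1 := prodLaw_coord (ptsLaw T) e (A := {m : Marks | m.1 = 1 ∧ m.2 0 ∈ Set.Ioo a b})
    ((measurable_fst (MeasurableSet.of_discrete (s := ({1} : Set ℕ)))).inter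
    (((measurable_pi_apply 0).comp measurable_snd) measurableSet_Ioo))
  have h2 := ptsLaw_count_time (T := T) {1} (S := Set.Ioo a b) measurableSet_Ioo 0
  have h3 : (prodLaw (ptsLaw T) E).real {η | (η e).1 = 1 ∧ (η e).2 0 ∈ Set.Ioo a b} =
      (poissonMeasure T.toNNReal {1} * unif T (Set.Ioo a b)).toReal := by
    rw [← h2]
    change ((prodLaw (ptsLaw T) E) {η | η e ∈ {m : Marks | m.1 = 1 ∧ m.2 0 ∈
      Set.Ioo a b}}).toReal = _
    rw [h1]
    rfl
  rw [h3, po_one hT.le, unif_Ioo hT ha hb, hab, ENNReal.toReal_mul,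
    ENNReal.toReal_ofReal (by positivity), ENNReal.toReal_ofReal (by norm_num)]
  ring

end

lemma prob_Blset {T : ℝ} (hT : 0 < T) (hn : 0 < n) (u : List (Fin b)) (j i : Fin b) :
    (T * Real.exp (-T)) ^ 2 / 16 * (1 - b * T ^ 2) *
      (prodLaw (ptsLaw T) (GE n d k)).real (Qall k hn T) ≤
    (prodLaw (ptsLaw T) (TrE b (GE n d k))).real (Blset b k hn T u j i) := by
  classical
  set P := prodLaw (ptsLaw T) (TrE b (GE n d k)) with hP
  have hcoord : ∀ (e : TrE b (GE n d k)) (s : Set ℕ),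
      DepOn {e} {ω : TrE b (GE n d k) → Marks | (ω e).1 ∈ s} :=
    fun e s => depOn_coord e (A := {m : Marks | m.1 ∈ s})
      (measurable_fst (MeasurableSet.of_discrete (s := s)))
  have hA := depOn_quarter' ((u, Sum.inl j) : TrE b (GE n d k)) (T / 4) (T / 2)
  have hB := depOn_quarter' ((j :: u, Sum.inl i) : TrE b (GE n d k)) (3 * T / 4) T
  have hC : DepOn {e : TrE b (GE n d k) | ∃ i', i' ≠ i ∧ e = (j :: u, Sum.inl i')}
      {ω : TrE b (GE n d k) → Marks | ∀ i', i' ≠ i → (ω (j :: u, Sum.inl i')).1 ≤ 1} := by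
    have h : {ω : TrE b (GE n d k) → Marks | ∀ i', i' ≠ i → (ω (j :: u, Sum.inl i')).1 ≤ 1} =
        ⋂ i', {ω | i' ≠ i → ω ∈ {ω : TrE b (GE n d k) → Marks |
          (ω (j :: u, Sum.inl i')).1 ∈ {n : ℕ | n ≤ 1}}} := by
      ext ω
      simp only [mem_ofPred_eq, mem_iInter]
    rw [h]
    refine DepOn.iInter (fun i' => depOn_imp _ (fun hi' => (hcoord _ _).mono ?_))
    rintro _ rfl
    exact ⟨i', hi', rfl⟩
  have hD : DepOn (Set.range (fun e : GE n d k => ((j :: u, Sum.inr e) : TrE b (GE n d k))))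
      {ω : TrE b (GE n d k) → Marks | gad ω (j :: u) ∈ Qall k hn T} :=
    depOn_gad (measurableSet_Qall hn T) (j :: u)
  have i1 := indep_disjoint (ptsLaw T) hC hD (by
    rw [Set.disjoint_left]
    rintro _ ⟨i', _, rfl⟩ ⟨e, he⟩
    have := (Prod.ext_iff.mp he).2
    simp at this)
  have i2 := indep_disjoint (ptsLaw T) hB ((hC.mono (subset_union_left (t :=
    Set.range (fun e : GE n d k => ((j :: u, Sum.inr e) : TrE b (GE n d k)))))).inter
    (hD.mono subset_union_right)) (by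
      rw [Set.disjoint_singleton_left]
      rintro (⟨i', h, h'⟩ | ⟨e, he⟩)
      · have := (Prod.ext_iff.mp h').2
        exact h (Sum.inl.inj this).symm
      · have := (Prod.ext_iff.mp he).2
        simp at this)
  have i3 := indep_disjoint (ptsLaw T) hA ((hB.mono (S' := {e : TrE b (GE n d k) |
    e.1 = j :: u}) (by rintro _ rfl; rfl)).inter ((hC.mono (S' := {e : TrE b (GE n d k) |
    e.1 = j :: u}) (by rintro _ ⟨i', _, rfl⟩; rfl)).inter (hD.mono (S' :=
    {e : TrE b (GE n d k) | e.1 = j :: u}) (by rintro _ ⟨e, rfl⟩; rfl)))) (by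
      rw [Set.disjoint_singleton_left]
      intro h
      have := congrArg List.length (show u = j :: u from h)
      simp at this)
  have p1 := prob_quarter' hT ((u, Sum.inl j) : TrE b (GE n d k)) (a := T / 4) (b := T / 2)
    (by linarith) (by linarith) (by field_simp; ring)
  have p2 := prob_quarter' hT ((j :: u, Sum.inl i) : TrE b (GE n d k)) (a := 3 * T / 4) (b := T)
    (by linarith) (by linarith) (by field_simp; ring)
  have p3 : 1 - b * T ^ 2 ≤ P.real {ω : TrE b (GE n d k) → Marks | ∀ i', i' ≠ i →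
      (ω (j :: u, Sum.inl i')).1 ≤ 1} := by
    have h1 : P {ω : TrE b (GE n d k) → Marks | ∀ i', i' ≠ i →
      (ω (j :: u, Sum.inl i')).1 ≤ 1}ᶜ ≤ ENNReal.ofReal (b * T ^ 2) := by
      have h2 : {ω : TrE b (GE n d k) → Marks | ∀ i', i' ≠ i →
        (ω (j :: u, Sum.inl i')).1 ≤ 1}ᶜ ⊆ ⋃ i' ∈ (Finset.univ : Finset (Fin b)),
          {ω | (ω (j :: u, Sum.inl i')).1 ∈ {n : ℕ | 2 ≤ n}} := by
        intro ω hω
        simp only [mem_compl_iff, mem_ofPred_eq, not_forall] at hω
        obtain ⟨i', _, h3⟩ := hω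
        simp only [mem_iUnion]
        exact ⟨i', Finset.mem_univ _, by
          change 2 ≤ (ω (j :: u, Sum.inl i')).1; exact Nat.lt_of_not_le h3⟩
      refine (measure_mono h2).trans ((measure_biUnion_finset_le _ _).trans ?_)
      have h3 : ∀ i' : Fin b, P {ω | (ω (j :: u, Sum.inl i')).1 ∈ {n : ℕ | 2 ≤ n}} ≤
          ENNReal.ofReal (T ^ 2) := by
        intro i'
        have h4 := prodLaw_coord (ptsLaw T) ((j :: u, Sum.inl i') : TrE b (GE n d k))
          (A := {m : Marks | m.1 ∈ {n : ℕ | 2 ≤ n}})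
          (measurable_fst (MeasurableSet.of_discrete (s := {n : ℕ | 2 ≤ n})))
        rw [ptsLaw_count] at h4
        change P {ω | ω (j :: u, Sum.inl i') ∈ {m : Marks | m.1 ∈ {n : ℕ | 2 ≤ n}}} ≤ _
        rw [h4]
        exact po_ge_two hT.le
      calc ∑ i' : Fin b, P {ω | (ω (j :: u, Sum.inl i')).1 ∈ {n : ℕ | 2 ≤ n}}
          ≤ ∑ _i' : Fin b, ENNReal.ofReal (T ^ 2) := Finset.sum_le_sum (fun i' _ => h3 i')
        _ = ENNReal.ofReal (b * T ^ 2) := by
            rw [Finset.sum_const, Finset.card_univ, Fintype.card_fin, nsmul_eq_mul,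
              ← ENNReal.ofReal_natCast, ← ENNReal.ofReal_mul (by positivity)]
    have h5 : P.real {ω : TrE b (GE n d k) → Marks | ∀ i', i' ≠ i →
      (ω (j :: u, Sum.inl i')).1 ≤ 1}ᶜ ≤ b * T ^ 2 := by
      rw [Measure.real]
      have := ENNReal.toReal_mono ENNReal.ofReal_ne_top h1
      rwa [ENNReal.toReal_ofReal (by positivity)] at this
    rw [probReal_compl_eq_one_sub hC.meas] at h5
    linarith
  have p4 : P.real {ω : TrE b (GE n d k) → Marks | gad ω (j :: u) ∈ Qall k hn T} =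
      (prodLaw (ptsLaw T) (GE n d k)).real (Qall k hn T) := by
    rw [Measure.real, Measure.real, ← prodLaw_reindex (ptsLaw T)
      (j := fun e : GE n d k => ((j :: u, Sum.inr e) : TrE b (GE n d k)))
      (fun e e' h => by simpa using h) (measurableSet_Qall hn T)]
    rfl
  have key : P.real (Blset b k hn T u j i) = T * Real.exp (-T) / 4 * (T * Real.exp (-T) / 4 *
      (P.real {ω | ∀ i', i' ≠ i → (ω (j :: u, Sum.inl i')).1 ≤ 1} *
      (prodLaw (ptsLaw T) (GE n d k)).real (Qall k hn T))) := by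
    have i4 := i3.trans (congrArg (fun x => (prodLaw (ptsLaw T)
      (List (Fin b) × (Fin b ⊕ GE n d k))) {η | (η (u, Sum.inl j)).1 = 1 ∧
      (η (u, Sum.inl j)).2 0 ∈ Ioo (T / 4) (T / 2)} * x)
      (i2.trans (congrArg (fun x => (prodLaw (ptsLaw T)
      (List (Fin b) × (Fin b ⊕ GE n d k))) {η | (η (j :: u, Sum.inl i)).1 = 1 ∧
      (η (j :: u, Sum.inl i)).2 0 ∈ Ioo (3 * T / 4) T} * x) i1)))
    have i5 := congrArg ENNReal.toReal i4
    simp only [ENNReal.toReal_mul] at i5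
    simp only [Measure.real] at p1 p2 p4 ⊢
    rw [p1, p2] at i5
    rw [← p4]
    exact i5
  rw [key]
  have e2 : T * Real.exp (-T) / 4 * (T * Real.exp (-T) / 4 *
      (P.real {ω | ∀ i', i' ≠ i → (ω (j :: u, Sum.inl i')).1 ≤ 1} *
      (prodLaw (ptsLaw T) (GE n d k)).real (Qall k hn T))) =
      (T * Real.exp (-T)) ^ 2 / 16 * P.real {ω | ∀ i', i' ≠ i →
        (ω (j :: u, Sum.inl i')).1 ≤ 1} *
      (prodLaw (ptsLaw T) (GE n d k)).real (Qall k hn T) := by
    ring
  rw [e2]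
  refine mul_le_mul_of_nonneg_right ?_ measureReal_nonneg
  exact mul_le_mul_of_nonneg_left p3 (by positivity)

lemma depOn_Blset (hn : 0 < n) (T : ℝ) (u : List (Fin b)) (j i : Fin b) :
    DepOn ({(u, Sum.inl j)} ∪ {e | e.1 = j :: u}) (Blset (d := d) b k hn T u j i) := by
  have hcoord : ∀ (e : TrE b (GE n d k)) (s : Set ℕ),
      DepOn {e} {ω : TrE b (GE n d k) → Marks | (ω e).1 ∈ s} :=
    fun e s => depOn_coord e (A := {m : Marks | m.1 ∈ s})
      (measurable_fst (MeasurableSet.of_discrete (s := s)))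
  refine DepOn.inter ((depOn_quarter' _ _ _).mono subset_union_left)
    (DepOn.inter ((depOn_quarter' _ _ _).mono ?_) (DepOn.inter ?_
      ((depOn_gad (measurableSet_Qall hn T) (j :: u)).mono ?_)))
  · rintro _ rfl
    exact Or.inr rfl
  · have h : {ω : TrE b (GE n d k) → Marks | ∀ i', i' ≠ i → (ω (j :: u, Sum.inl i')).1 ≤ 1} =
        ⋂ i', {ω | i' ≠ i → ω ∈ {ω : TrE b (GE n d k) → Marks |
          (ω (j :: u, Sum.inl i')).1 ∈ {n : ℕ | n ≤ 1}}} := by
      ext ω
      simp only [mem_ofPred_eq, mem_iInter]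
    rw [h]
    refine DepOn.iInter (fun i' => depOn_imp _ (fun hi' => (hcoord _ _).mono ?_))
    rintro _ rfl
    exact Or.inr rfl
  · rintro _ ⟨e, rfl⟩
    exact Or.inr rfl

lemma blocked_of_Blset (hn : 0 < n) {T : ℝ} (u : List (Fin b)) (j i : Fin b)
    {ω : TrE b (GE n d k) → Marks} (hω : Generic ω) (h : ω ∈ Blset b k hn T u j i) :
    Blocked gends groot ω u j i := by
  obtain ⟨⟨h1, h2⟩, ⟨h3, h4⟩, h5, h6⟩ := h
  refine ⟨h1, fun i' => ?_, ?_⟩
  · by_cases hi : i' = i
    · rw [hi, h3]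
    · exact h5 i' hi
  · have h7 : gad ω (j :: u) ∈ Qall k hn T := h6
    rw [Qall] at h7
    simp only [mem_iUnion] at h7
    obtain ⟨p, hp, hQ⟩ := h7
    have hp' : top hn p.1 ≠ top hn p.2 := by
      simp only [pairs, Finset.mem_filter, Finset.mem_univ, true_and] at hp
      exact hp
    exact sep_of_Qset hp' (hω.gad _) hQ h2 h4

/-! ### Elementary inequalities -/

lemma pow_sub_pow_ge {u v : ℝ} (hv : 0 ≤ v) (hvu : v ≤ u) (hu : u ≤ 1) (b : ℕ) :
    b * (u - v) * v ^ b ≤ u ^ b - v ^ b := by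
  induction b with
  | zero => simp
  | succ b ih =>
    have h1 : 0 ≤ v ^ b := pow_nonneg hv b
    have h2 : v ^ (b + 1) ≤ v ^ b := by
      rw [pow_succ]
      nlinarith [hvu.trans hu]
    have h3 : 0 ≤ (b : ℝ) * (u - v) * v ^ b :=
      mul_nonneg (mul_nonneg (Nat.cast_nonneg b) (by linarith)) h1
    have h4 : u ^ (b + 1) - v ^ (b + 1) = u * (u ^ b - v ^ b) + (u - v) * v ^ b := by ring
    rw [h4]
    push_cast
    have h5 : v * ((b : ℝ) * (u - v) * v ^ b) ≤ u * (u ^ b - v ^ b) := by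
      have h6 := mul_le_mul_of_nonneg_left ih (hv.trans hvu)
      have h7 := mul_le_mul_of_nonneg_right hvu h3
      linarith
    have h8 : (u - v) * v ^ (b + 1) ≤ (u - v) * v ^ b := mul_le_mul_of_nonneg_left h2 (by linarith)
    have h9 : ((b : ℝ) + 1) * (u - v) * v ^ (b + 1) = v * ((b : ℝ) * (u - v) * v ^ b) +
        (u - v) * v ^ (b + 1) := by ring
    linarith

lemma pow_ge_bernoulli {v : ℝ} (hv : 0 ≤ v) (b : ℕ) : 1 - b * (1 - v) ≤ v ^ b := by
  have h := one_add_mul_le_pow (a := v - 1) (by linarith) b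
  have h1 : 1 + (v - 1) = v := by ring
  rw [h1] at h
  linarith

end Pool.Agent.H98.RS
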