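import Pool.Agent.H98.RSProb

/-! Almost sure genericity of the marks; estimates for the Poisson law. -/

set_option autoImplicit false

open Set MeasureTheory ProbabilityTheory
open scoped ENNReal NNReal

namespace Pool.Agent.H98.RS

lemma prod_unif_diag {T : ℝ} (hT : 0 < T) :
    ((unif T).prod (unif T)) {p | p.1 = p.2} = 0 := by
  have hm : MeasurableSet {p : ℝ × ℝ | p.1 = p.2} := measurableSet_eq_fun measurable_fst
    measurable_snd
  rw [Measure.measure_prod_null hm]
  refine Filter.Eventually.of_forall (fun x => ?_)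
  change unif T (Prod.mk x ⁻¹' {p : ℝ × ℝ | p.1 = p.2}) = 0
  have : Prod.mk x ⁻¹' {p : ℝ × ℝ | p.1 = p.2} = {x} := by
    ext y
    simp [eq_comm]
  rw [this, unif_singleton hT]

lemma ptsLaw_snd {T : ℝ} : (ptsLaw T).map Prod.snd = Measure.infinitePi fun _ : ℕ => unif T := by
  rw [ptsLaw, Measure.map_snd_prod]
  simp

lemma ptsLaw_time {T : ℝ} (j : ℕ) : (ptsLaw T).map (fun m => m.2 j) = unif T := by
  have h : (fun m : Marks => m.2 j) = (fun t : ℕ → ℝ => t j) ∘ Prod.snd := rfl
  rw [h, ← Measure.map_map (measurable_pi_apply j) measurable_snd, ptsLaw_snd,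
    Measure.infinitePi_map_eval]

section generic

variable {E : Type*} [Countable E]

omit [Countable E] in
lemma measurable_time (e : E) (j : ℕ) : Measurable (fun ω : E → Marks => (ω e).2 j) :=
  (measurable_pi_apply j).comp (measurable_snd.comp (measurable_pi_apply e))

omit [Countable E] in
lemma measurable_count (e : E) : Measurable (fun ω : E → Marks => (ω e).1) :=
  measurable_fst.comp (measurable_pi_apply e)

theorem measurableSet_generic : MeasurableSet {ω : E → Marks | Generic ω} := by
  have h : {ω : E → Marks | Generic ω} =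
      (⋂ e : E, ⋂ j : ℕ, {ω | 0 < (ω e).2 j}) ∩
      (⋂ e : E, ⋂ j : ℕ, ⋂ e' : E, ⋂ j' : ℕ, {ω | (ω e).2 j = (ω e').2 j' → e = e' ∧ j = j'}) := by
    ext ω
    simp only [mem_ofPred_eq, mem_inter_iff, mem_iInter]
    exact ⟨fun h => ⟨h.pos, h.inj⟩, fun h => ⟨h.1, h.2⟩⟩
  rw [h]
  refine MeasurableSet.inter ?_ ?_
  · exact MeasurableSet.iInter fun e => MeasurableSet.iInter fun j =>
      measurableSet_lt measurable_const (measurable_time e j)
  · refine MeasurableSet.iInter fun e => MeasurableSet.iInter fun j =>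
      MeasurableSet.iInter fun e' => MeasurableSet.iInter fun j' => ?_
    by_cases hh : e = e' ∧ j = j'
    · simp [hh]
    · have : {ω : E → Marks | (ω e).2 j = (ω e').2 j' → e = e' ∧ j = j'} =
          {ω : E → Marks | (ω e).2 j = (ω e').2 j'}ᶜ := by
        ext ω
        simp only [mem_ofPred_eq, mem_compl_iff]
        tauto
      rw [this]
      exact (measurableSet_eq_fun (measurable_time e j) (measurable_time e' j')).compl

theorem ae_generic {T : ℝ} (hT : 0 < T) :
    ∀ᵐ ω ∂(prodLaw (ptsLaw T) E), Generic ω ∧ ∀ e j, (ω e).2 j ≤ T := by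
  have h1 : ∀ᵐ ω ∂(prodLaw (ptsLaw T) E), ∀ e : E, ∀ j : ℕ, 0 < (ω e).2 j ∧ (ω e).2 j ≤ T := by
    rw [ae_all_iff]
    intro e
    rw [ae_all_iff]
    intro j
    have h2 : (prodLaw (ptsLaw T) E).map (fun ω => (ω e).2 j) = unif T := by
      have h : (fun ω : E → Marks => (ω e).2 j) = (fun m : Marks => m.2 j) ∘ (fun ω => ω e) := rfl
      have m1 : Measurable (fun m : Marks => m.2 j) := (measurable_pi_apply j).comp measurable_snd
      rw [h, ← Measure.map_map m1 (measurable_pi_apply e), Measure.infinitePi_map_eval,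
        ptsLaw_time]
    have h3 := unif_range hT
    rw [← h2] at h3
    exact ae_of_ae_map (measurable_time e j).aemeasurable h3
  have h2 : ∀ᵐ ω ∂(prodLaw (ptsLaw T) E), ∀ e : E, ∀ j : ℕ, ∀ e' : E, ∀ j' : ℕ,
      (ω e).2 j = (ω e').2 j' → e = e' ∧ j = j' := by
    rw [ae_all_iff]; intro e
    rw [ae_all_iff]; intro j
    rw [ae_all_iff]; intro e'
    rw [ae_all_iff]; intro j'
    by_cases hh : e = e' ∧ j = j'
    · exact Filter.Eventually.of_forall (fun ω _ => hh)
    · have hlaw : (prodLaw (ptsLaw T) E).map (fun ω => ((ω e).2 j, (ω e').2 j')) =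
          (unif T).prod (unif T) := by
        by_cases he : e = e'
        · subst he
          have hj : j ≠ j' := fun h => hh ⟨rfl, h⟩
          have h : (fun ω : E → Marks => ((ω e).2 j, (ω e).2 j')) =
              (fun t : ℕ → ℝ => (t j, t j')) ∘ Prod.snd ∘ (fun ω => ω e) := rfl
          rw [h, ← Measure.map_map (by fun_prop) (by fun_prop),
            ← Measure.map_map measurable_snd (measurable_pi_apply e),
            Measure.infinitePi_map_eval, ptsLaw_snd]
          exact Measure.infinitePi_map_eval_prod hj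
        · have h : (fun ω : E → Marks => ((ω e).2 j, (ω e').2 j')) =
              (Prod.map (fun m : Marks => m.2 j) (fun m : Marks => m.2 j')) ∘
              (fun ω => (ω e, ω e')) := rfl
          have m1 : Measurable (fun m : Marks => m.2 j) :=
            (measurable_pi_apply j).comp measurable_snd
          have m2 : Measurable (fun m : Marks => m.2 j') :=
            (measurable_pi_apply j').comp measurable_snd
          rw [h, ← Measure.map_map (m1.prodMap m2) (by fun_prop),
            Measure.infinitePi_map_eval_prod he, ← Measure.map_prod_map _ _ m1 m2, ptsLaw_time,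
            ptsLaw_time]
      have h3 : ∀ᵐ p ∂((unif T).prod (unif T)), p.1 ≠ p.2 := by
        rw [ae_iff]
        simpa using prod_unif_diag hT
      rw [← hlaw] at h3
      have h4 := ae_of_ae_map
        ((measurable_time e j).prodMk (measurable_time e' j')).aemeasurable h3
      filter_upwards [h4] with ω hω h
      exact absurd h hω
  filter_upwards [h1, h2] with ω h1 h2
  exact ⟨⟨fun e i => (h1 e i).1, h2⟩, fun e i => (h1 e i).2⟩

end generic

/-! ### Poisson estimates -/

section poisson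

variable {T : ℝ}

lemma po_singleton (hT : 0 ≤ T) (n : ℕ) :
    poissonMeasure T.toNNReal {n} =
      ENNReal.ofReal (Real.exp (-T) * T ^ n / (n.factorial : ℝ)) := by
  rw [poissonMeasure_singleton, Real.coe_toNNReal T hT]

lemma po_real_singleton (hT : 0 ≤ T) (n : ℕ) :
    (poissonMeasure T.toNNReal).real {n} = Real.exp (-T) * T ^ n / (n.factorial : ℝ) := by
  rw [poissonMeasure_real_singleton, Real.coe_toNNReal T hT]

lemma po_zero (hT : 0 ≤ T) : poissonMeasure T.toNNReal {0} = ENNReal.ofReal (Real.exp (-T)) := by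
  rw [po_singleton hT]; simp

lemma po_one (hT : 0 ≤ T) :
    poissonMeasure T.toNNReal {1} = ENNReal.ofReal (T * Real.exp (-T)) := by
  rw [po_singleton hT]; simp [mul_comm]

lemma po_two (hT : 0 ≤ T) :
    poissonMeasure T.toNNReal {2} = ENNReal.ofReal (T ^ 2 * Real.exp (-T) / 2) := by
  rw [po_singleton hT]
  congr 1
  simp [Nat.factorial]
  ring

lemma po_ge_one (hT : 0 ≤ T) :
    poissonMeasure T.toNNReal {n | 1 ≤ n} ≤ ENNReal.ofReal T := by
  have h : {n : ℕ | 1 ≤ n} = {0}ᶜ := by
    ext n; simp [Nat.one_le_iff_ne_zero]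
  rw [h, prob_compl_eq_one_sub (measurableSet_singleton _), po_zero hT]
  rw [← ENNReal.ofReal_one, ← ENNReal.ofReal_sub _ (Real.exp_pos _).le]
  apply ENNReal.ofReal_le_ofReal
  have := Real.add_one_le_exp (-T)
  linarith

lemma po_le_one (hT : 0 ≤ T) :
    poissonMeasure T.toNNReal {n | n ≤ 1} = ENNReal.ofReal ((1 + T) * Real.exp (-T)) := by
  have h : {n : ℕ | n ≤ 1} = {0} ∪ {1} := by
    ext n; simp; omega
  rw [h, measure_union (by simp) (measurableSet_singleton _), po_zero hT, po_one hT,
    ← ENNReal.ofReal_add (Real.exp_pos _).le (by positivity)]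
  congr 1
  ring

lemma po_ge_two (hT : 0 ≤ T) :
    poissonMeasure T.toNNReal {n | 2 ≤ n} ≤ ENNReal.ofReal (T ^ 2) := by
  have h : {n : ℕ | 2 ≤ n} = {n | n ≤ 1}ᶜ := by
    ext n; simp; omega
  rw [h, prob_compl_eq_one_sub (MeasurableSet.of_discrete), po_le_one hT]
  rw [← ENNReal.ofReal_one, ← ENNReal.ofReal_sub _ (by positivity)]
  apply ENNReal.ofReal_le_ofReal
  have := Real.add_one_le_exp (-T)
  nlinarith [sq_nonneg T]

lemma po_le_one_ge (hT : 0 ≤ T) :
    ENNReal.ofReal (1 - T ^ 2) ≤ poissonMeasure T.toNNReal {n | n ≤ 1} := by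
  rw [po_le_one hT]
  apply ENNReal.ofReal_le_ofReal
  have := Real.add_one_le_exp (-T)
  nlinarith [sq_nonneg T]

lemma po_total (T : ℝ) : ∑' n : ℕ, poissonMeasure T.toNNReal {n} = 1 := by
  have h1 := measure_univ (μ := poissonMeasure T.toNNReal)
  have h2 : (Set.univ : Set ℕ) = ⋃ n : ℕ, {n} := by
    ext n; simp
  rw [h2, measure_iUnion (fun i j hij => by simpa using hij)
    (fun i => measurableSet_singleton _)] at h1
  exact h1

/-- mean of the number of bars -/
lemma po_mean (hT : 0 ≤ T) :
    ∑' n : ℕ, poissonMeasure T.toNNReal {n} * (n : ℝ≥0∞) = ENNReal.ofReal T := by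
  have h1 : ∀ n : ℕ, poissonMeasure T.toNNReal {n + 1} * ((n + 1 : ℕ) : ℝ≥0∞) =
      ENNReal.ofReal T * poissonMeasure T.toNNReal {n} := by
    intro n
    rw [po_singleton hT, po_singleton hT, ← ENNReal.ofReal_natCast,
      ← ENNReal.ofReal_mul (by positivity), ← ENNReal.ofReal_mul hT]
    congr 1
    rw [Nat.factorial_succ]
    push_cast
    have : (n.factorial : ℝ) ≠ 0 := by positivity
    have h2 : (n : ℝ) + 1 ≠ 0 := by positivity
    field_simp
    ring
  rw [tsum_eq_zero_add' ENNReal.summable, tsum_congr h1, ENNReal.tsum_mul_left]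
  have h2 := po_total T
  rw [h2]
  simp

/-- third factorial moment -/
lemma po_third (hT : 0 ≤ T) :
    ∑' n : ℕ, poissonMeasure T.toNNReal {n} * (n.choose 3 : ℝ≥0∞) = ENNReal.ofReal (T ^ 3 / 6) := by
  have h1 : ∀ n : ℕ, poissonMeasure T.toNNReal {n + 3} * ((n + 3).choose 3 : ℝ≥0∞) =
      ENNReal.ofReal (T ^ 3 / 6) * poissonMeasure T.toNNReal {n} := by
    intro n
    rw [po_singleton hT, po_singleton hT, ← ENNReal.ofReal_natCast,
      ← ENNReal.ofReal_mul (by positivity), ← ENNReal.ofReal_mul (by positivity)]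
    congr 1
    have h3 : ((n + 3).choose 3 : ℝ) = ((n + 3).factorial : ℝ) / (6 * (n.factorial : ℝ)) := by
      rw [Nat.choose_eq_factorial_div_factorial (by omega : 3 ≤ n + 3), Nat.add_sub_cancel,
        Nat.cast_div]
      · have : ((Nat.factorial 3 : ℕ) : ℝ) = 6 := by norm_num [Nat.factorial]
        push_cast
        rw [this]
      · have := Nat.factorial_mul_factorial_dvd_factorial (by omega : 3 ≤ n + 3)
        rwa [Nat.add_sub_cancel] at this
      · positivity
    rw [h3]
    have h4 : (n.factorial : ℝ) ≠ 0 := by positivity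
    have h5 : ((n + 3).factorial : ℝ) ≠ 0 := by positivity
    field_simp
    ring
  have hsplit : ∀ f : ℕ → ℝ≥0∞, f 0 = 0 → f 1 = 0 → f 2 = 0 → ∑' n, f n = ∑' n, f (n + 3) := by
    intro f h0 h1 h2
    rw [tsum_eq_zero_add' ENNReal.summable, h0, zero_add, tsum_eq_zero_add' ENNReal.summable]
    simp only [zero_add, h1]
    rw [tsum_eq_zero_add' ENNReal.summable]
    simp only [zero_add, Nat.reduceAdd, h2]
  rw [hsplit _ (by simp) (by simp [Nat.choose]) (by simp [Nat.choose]), tsum_congr h1,
    ENNReal.tsum_mul_left]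
  have h2 := po_total T
  rw [h2]
  simp

/-- probability of a bar in a given set of times -/
lemma ptsLaw_slab (hT : 0 ≤ T) {S : Set ℝ} (hS : MeasurableSet S) :
    ptsLaw T {m | ∃ j, j < m.1 ∧ m.2 j ∈ S} ≤ ENNReal.ofReal T * unif T S := by
  have h1 : {m : Marks | ∃ j, j < m.1 ∧ m.2 j ∈ S} ⊆
      ⋃ n : ℕ, ⋃ j ∈ Finset.range n, {m | m.1 ∈ ({n} : Set ℕ) ∧ m.2 j ∈ S} := by
    rintro m ⟨j, hj, hm⟩
    simp only [mem_iUnion]
    exact ⟨m.1, j, Finset.mem_range.mpr hj, rfl, hm⟩
  refine (measure_mono h1).trans ((measure_iUnion_le _).trans ?_)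
  have h2 : ∀ n : ℕ, ptsLaw T (⋃ j ∈ Finset.range n, {m | m.1 ∈ ({n} : Set ℕ) ∧ m.2 j ∈ S}) ≤
      poissonMeasure T.toNNReal {n} * (n : ℝ≥0∞) * unif T S := by
    intro n
    refine (measure_biUnion_finset_le _ _).trans ?_
    rw [Finset.sum_congr rfl (fun j _ => ptsLaw_count_time {n} hS j), Finset.sum_const,
      Finset.card_range, nsmul_eq_mul]
    apply le_of_eq
    ring
  refine (ENNReal.tsum_le_tsum h2).trans ?_
  rw [ENNReal.tsum_mul_right, po_mean hT]

end poisson

end Pool.Agent.H98.RS
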