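import Pool.Agent.H98.RSMarks

/-! Probability toolkit: product measures, dependence on coordinates, the law of the marks. -/

set_option autoImplicit false

open Set MeasureTheory ProbabilityTheory
open scoped ENNReal NNReal

namespace Pool.Agent.H98.RS

section dep

variable {ι X : Type*} [MeasurableSpace X]

/-- a measurable event that depends only on the coordinates in `S` -/
structure DepOn (S : Set ι) (A : Set (ι → X)) : Prop where
  meas : MeasurableSet A
  dep : ∀ ω ω' : ι → X, (∀ i ∈ S, ω i = ω' i) → (ω ∈ A ↔ ω' ∈ A)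

lemma DepOn.mono {S S' : Set ι} {A : Set (ι → X)} (h : DepOn S A) (hS : S ⊆ S') : DepOn S' A :=
  ⟨h.meas, fun ω ω' hh => h.dep ω ω' (fun i hi => hh i (hS hi))⟩

lemma DepOn.compl {S : Set ι} {A : Set (ι → X)} (h : DepOn S A) : DepOn S Aᶜ :=
  ⟨h.meas.compl, fun ω ω' hh => not_congr (h.dep ω ω' hh)⟩

lemma DepOn.inter {S : Set ι} {A B : Set (ι → X)} (h : DepOn S A) (h' : DepOn S B) :
    DepOn S (A ∩ B) :=
  ⟨h.meas.inter h'.meas, fun ω ω' hh => and_congr (h.dep ω ω' hh) (h'.dep ω ω' hh)⟩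

lemma DepOn.union {S : Set ι} {A B : Set (ι → X)} (h : DepOn S A) (h' : DepOn S B) :
    DepOn S (A ∪ B) :=
  ⟨h.meas.union h'.meas, fun ω ω' hh => or_congr (h.dep ω ω' hh) (h'.dep ω ω' hh)⟩

lemma DepOn.diff {S : Set ι} {A B : Set (ι → X)} (h : DepOn S A) (h' : DepOn S B) :
    DepOn S (A \ B) := h.inter h'.compl

lemma DepOn.univ {S : Set ι} : DepOn S (Set.univ : Set (ι → X)) :=
  ⟨MeasurableSet.univ, fun _ _ _ => Iff.rfl⟩

lemma DepOn.empty {S : Set ι} : DepOn S (∅ : Set (ι → X)) :=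
  ⟨MeasurableSet.empty, fun _ _ _ => Iff.rfl⟩

lemma DepOn.iUnion {κ : Type*} [Countable κ] {S : Set ι} {A : κ → Set (ι → X)}
    (h : ∀ k, DepOn S (A k)) : DepOn S (⋃ k, A k) := by
  refine ⟨MeasurableSet.iUnion (fun k => (h k).meas), fun ω ω' hh => ?_⟩
  simp only [mem_iUnion]
  exact exists_congr (fun k => (h k).dep ω ω' hh)

lemma DepOn.iInter {κ : Type*} [Countable κ] {S : Set ι} {A : κ → Set (ι → X)}
    (h : ∀ k, DepOn S (A k)) : DepOn S (⋂ k, A k) := by
  refine ⟨MeasurableSet.iInter (fun k => (h k).meas), fun ω ω' hh => ?_⟩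
  simp only [mem_iInter]
  exact forall_congr' (fun k => (h k).dep ω ω' hh)

lemma depOn_coord (i : ι) {A : Set X} (hA : MeasurableSet A) :
    DepOn ({i} : Set ι) {ω : ι → X | ω i ∈ A} :=
  ⟨measurable_pi_apply i hA, fun ω ω' hh => by
    change ω i ∈ A ↔ ω' i ∈ A
    rw [hh i rfl]⟩

lemma depOn_reindex {ι' : Type*} (j : ι' → ι) {A : Set (ι' → X)} (hA : MeasurableSet A) :
    DepOn (Set.range j) {ω : ι → X | (fun i => ω (j i)) ∈ A} := by
  refine ⟨?_, fun ω ω' hh => ?_⟩
  · have : Measurable (fun ω : ι → X => fun i => ω (j i)) :=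
      measurable_pi_lambda _ (fun i => measurable_pi_apply _)
    exact this hA
  · change (fun i => ω (j i)) ∈ A ↔ (fun i => ω' (j i)) ∈ A
    have : (fun i => ω (j i)) = (fun i => ω' (j i)) := funext (fun i => hh _ ⟨i, rfl⟩)
    rw [this]

lemma DepOn.reindex {ι' : Type*} (j : ι' → ι) {S : Set ι'} {A : Set (ι' → X)} (h : DepOn S A) :
    DepOn (j '' S) {ω : ι → X | (fun i => ω (j i)) ∈ A} :=
  ⟨(depOn_reindex j h.meas).meas, fun ω ω' hh =>
    h.dep _ _ (fun i hi => hh _ ⟨i, hi, rfl⟩)⟩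

variable (ν : Measure X) [IsProbabilityMeasure ν]

/-- the product measure -/
noncomputable abbrev prodLaw (ι : Type*) : Measure (ι → X) := Measure.infinitePi (fun _ : ι => ν)

lemma DepOn.measurable_iSup {S : Set ι} {A : Set (ι → X)} (h : DepOn S A) (ω₀ : ι → X) :
    MeasurableSet[⨆ i ∈ S, MeasurableSpace.comap (fun ω : ι → X => ω i) inferInstance] A := by
  classical
  set F : (ι → X) → (ι → X) := fun ω i => if i ∈ S then ω i else ω₀ i with hF
  have h1 : A = F ⁻¹' A := by
    ext ω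
    refine h.dep ω (F ω) (fun i hi => ?_)
    rw [hF]
    simp only [hi, if_true]
  rw [h1]
  have h2 : @Measurable _ _ (⨆ i ∈ S, MeasurableSpace.comap (fun ω : ι → X => ω i) inferInstance)
      _ F := by
    refine @measurable_pi_lambda _ _ _ (⨆ i ∈ S, MeasurableSpace.comap (fun ω : ι → X => ω i)
      inferInstance) _ F (fun i => ?_)
    by_cases hi : i ∈ S
    · simp only [hF, hi, if_true]
      refine Measurable.mono (comap_measurable _) ?_ le_rfl
      exact le_iSup₂_of_le i hi le_rfl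
    · simp only [hF, hi, if_false]
      exact measurable_const
  exact h2 h.meas

theorem indep_disjoint {S S' : Set ι} {A B : Set (ι → X)} (h : DepOn S A) (h' : DepOn S' B)
    (hd : Disjoint S S') : prodLaw ν ι (A ∩ B) = prodLaw ν ι A * prodLaw ν ι B := by
  have hne : Nonempty X := ν.nonempty_of_neZero
  obtain ⟨x₀⟩ := hne
  have h1 : iIndep (fun i => MeasurableSpace.comap (fun ω : ι → X => ω i) inferInstance)
      (prodLaw ν ι) := by
    have := iIndepFun_infinitePi (P := fun _ : ι => ν) (X := fun _ (x : X) => x)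
      (fun i => measurable_id)
    exact this
  have h2 := indep_iSup_of_disjoint (fun i => (measurable_pi_apply i).comap_le) h1 hd
  exact (Indep_iff _ _ _).mp h2 A B (h.measurable_iSup (fun _ => x₀))
    (h'.measurable_iSup (fun _ => x₀))

theorem indep_finset {κ : Type*} (s : Finset κ) {S : κ → Set ι} {A : κ → Set (ι → X)}
    (h : ∀ k ∈ s, DepOn (S k) (A k))
    (hd : ∀ k ∈ s, ∀ l ∈ s, k ≠ l → Disjoint (S k) (S l)) :
    prodLaw ν ι (⋂ k ∈ s, A k) = ∏ k ∈ s, prodLaw ν ι (A k) := by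
  classical
  induction s using Finset.induction_on with
  | empty => simp
  | insert a s ha ih =>
    rw [Finset.prod_insert ha, Finset.set_biInter_insert, ← ih (fun k hk => h k
      (Finset.mem_insert_of_mem hk)) (fun k hk l hl => hd k (Finset.mem_insert_of_mem hk) l
      (Finset.mem_insert_of_mem hl))]
    have h1 : DepOn (⋃ k ∈ s, S k) (⋂ k ∈ s, A k) := by
      refine ⟨Finset.measurableSet_biInter _ (fun k hk => (h k
        (Finset.mem_insert_of_mem hk)).meas), fun ω ω' hh => ?_⟩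
      simp only [mem_iInter]
      refine forall₂_congr (fun k hk => (h k (Finset.mem_insert_of_mem hk)).dep ω ω'
        (fun i hi => hh i (mem_iUnion₂.mpr ⟨k, hk, hi⟩)))
    refine indep_disjoint ν (h a (Finset.mem_insert_self _ _)) h1 ?_
    rw [Set.disjoint_iUnion₂_right]
    intro k hk
    exact hd a (Finset.mem_insert_self _ _) k (Finset.mem_insert_of_mem hk)
      (by rintro rfl; exact ha hk)

lemma prodLaw_reindex {ι' : Type*} {j : ι' → ι} (hj : Function.Injective j) {A : Set (ι' → X)}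
    (hA : MeasurableSet A) :
    prodLaw ν ι {ω | (fun i => ω (j i)) ∈ A} = prodLaw ν ι' A := by
  have h1 : Measurable (fun ω : ι → X => fun i => ω (j i)) :=
    measurable_pi_lambda _ (fun i => measurable_pi_apply _)
  have h2 := Measure.map_infinitePi_infinitePi_of_inj (P := fun _ : ι => ν) hj
  change prodLaw ν ι ((fun ω : ι → X => fun i => ω (j i)) ⁻¹' A) = _
  rw [← Measure.map_apply h1 hA, h2]

lemma prodLaw_coord (i : ι) {A : Set X} (hA : MeasurableSet A) :
    prodLaw ν ι {ω | ω i ∈ A} = ν A := by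
  change prodLaw ν ι ((fun ω : ι → X => ω i) ⁻¹' A) = _
  rw [← Measure.map_apply (measurable_pi_apply i) hA, Measure.infinitePi_map_eval]

lemma prodLaw_finset (s : Finset ι) {A : ι → Set X} (hA : ∀ i ∈ s, MeasurableSet (A i)) :
    prodLaw ν ι {ω | ∀ i ∈ s, ω i ∈ A i} = ∏ i ∈ s, ν (A i) :=
  Measure.infinitePi_pi (μ := fun _ : ι => ν) hA

end dep

/-! ### The law of the marks -/

/-- uniform law on `[0, T]` -/
noncomputable def unif (T : ℝ) : Measure ℝ :=
  (volume.restrict (Set.Icc (0 : ℝ) 1)).map (fun x => T * x)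

instance : IsProbabilityMeasure (volume.restrict (Set.Icc (0 : ℝ) 1)) :=
  ⟨by simp⟩

instance (T : ℝ) : IsProbabilityMeasure (unif T) :=
  Measure.isProbabilityMeasure_map (by fun_prop)

/-- law of a Poisson process of rate one on `[0, T]`: a Poisson number of independent uniform
times -/
noncomputable def ptsLaw (T : ℝ) : Measure Marks :=
  (poissonMeasure T.toNNReal).prod (Measure.infinitePi fun _ : ℕ => unif T)

instance (T : ℝ) : IsProbabilityMeasure (ptsLaw T) := by
  rw [ptsLaw]; infer_instance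

lemma unif_apply {T : ℝ} {S : Set ℝ} (hS : MeasurableSet S) :
    unif T S = volume ({x | T * x ∈ S} ∩ Set.Icc 0 1) := by
  rw [unif, Measure.map_apply (by fun_prop) hS, Measure.restrict_apply]
  · rfl
  · exact (by fun_prop : Measurable fun x : ℝ => T * x) hS

lemma unif_Ioo {T a c : ℝ} (hT : 0 < T) (ha : 0 ≤ a) (hc : c ≤ T) :
    unif T (Set.Ioo a c) = ENNReal.ofReal ((c - a) / T) := by
  rw [unif_apply measurableSet_Ioo]
  have : {x | T * x ∈ Set.Ioo a c} ∩ Set.Icc 0 1 = Set.Ioo (a / T) (c / T) := by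
    ext x
    simp only [mem_inter_iff, mem_ofPred_eq, mem_Ioo, mem_Icc, div_lt_iff₀ hT, lt_div_iff₀ hT]
    constructor
    · rintro ⟨⟨h1, h2⟩, _⟩
      exact ⟨by linarith, by linarith⟩
    · rintro ⟨h1, h2⟩
      refine ⟨⟨by linarith, by linarith⟩, ?_, ?_⟩
      · by_contra h
        push Not at h
        have : x * T < 0 := mul_neg_of_neg_of_pos h hT
        linarith
      · by_contra h
        push Not at h
        have : T < x * T := by nlinarith
        linarith
  rw [this, Real.volume_Ioo]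
  congr 1
  ring

lemma unif_Ioc_le {T a c : ℝ} (hT : 0 < T) :
    unif T (Set.Ioc a c) ≤ ENNReal.ofReal ((c - a) / T) := by
  rw [unif_apply measurableSet_Ioc]
  have : {x | T * x ∈ Set.Ioc a c} ∩ Set.Icc 0 1 ⊆ Set.Ioc (a / T) (c / T) := by
    intro x
    simp only [mem_inter_iff, mem_ofPred_eq, mem_Ioc, mem_Icc, div_lt_iff₀ hT, le_div_iff₀ hT]
    rintro ⟨⟨h1, h2⟩, _⟩
    exact ⟨by linarith, by linarith⟩
  refine (measure_mono this).trans ?_
  rw [Real.volume_Ioc]
  apply ENNReal.ofReal_le_ofReal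
  apply le_of_eq
  ring

lemma unif_singleton {T : ℝ} (hT : 0 < T) (x : ℝ) : unif T {x} = 0 := by
  rw [unif_apply (measurableSet_singleton x)]
  refine measure_mono_null (t := {x / T}) ?_ (by simp)
  rintro y ⟨h, _⟩
  have : T * y = x := h
  rw [mem_singleton_iff, ← this]
  field_simp

lemma unif_range {T : ℝ} (hT : 0 < T) : ∀ᵐ x ∂(unif T), 0 < x ∧ x ≤ T := by
  rw [ae_iff]
  have h1 : {x : ℝ | ¬ (0 < x ∧ x ≤ T)} ⊆ {0} ∪ (Set.Icc 0 T)ᶜ := by
    intro x hx
    by_cases h : x = 0
    · left; exact h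
    · right
      rintro ⟨h2, h3⟩
      exact hx ⟨lt_of_le_of_ne h2 (Ne.symm h), h3⟩
  refine measure_mono_null h1 ?_
  refine measure_union_null (unif_singleton hT 0) ?_
  rw [unif_apply measurableSet_Icc.compl]
  convert measure_empty (μ := (volume : Measure ℝ))
  ext x
  simp only [mem_inter_iff, mem_ofPred_eq, mem_compl_iff, mem_Icc, mem_empty_iff_false, iff_false,
    not_and]
  intro h h2 h4
  have h3 : T * x ≤ T * 1 := mul_le_mul_of_nonneg_left h4 hT.le
  exact h (mul_nonneg hT.le h2) (by linarith)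

/-- the count and the first time -/
lemma ptsLaw_rect {T : ℝ} (A : Set ℕ) {C : Set (ℕ → ℝ)} :
    ptsLaw T {m | m.1 ∈ A ∧ m.2 ∈ C} = poissonMeasure T.toNNReal A *
      (Measure.infinitePi fun _ : ℕ => unif T) C := by
  have : {m : Marks | m.1 ∈ A ∧ m.2 ∈ C} = A ×ˢ C := rfl
  rw [this, ptsLaw, Measure.prod_prod]

lemma ptsLaw_count {T : ℝ} (A : Set ℕ) :
    ptsLaw T {m | m.1 ∈ A} = poissonMeasure T.toNNReal A := by
  have h := ptsLaw_rect (T := T) A (C := Set.univ)
  simp only [mem_univ, and_true, measure_univ, mul_one] at h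
  exact h

lemma ptsLaw_count_time {T : ℝ} (A : Set ℕ) {S : Set ℝ} (hS : MeasurableSet S) (j : ℕ) :
    ptsLaw T {m | m.1 ∈ A ∧ m.2 j ∈ S} = poissonMeasure T.toNNReal A * unif T S := by
  have h := ptsLaw_rect (T := T) A (C := {t | t j ∈ S})
  have h2 := prodLaw_coord (unif T) (ι := ℕ) j hS
  rw [h2] at h
  exact h

end Pool.Agent.H98.RS
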