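import Pool.Agent.H98.RSTree

/-! Rays crossed by long trajectories. -/

set_option autoImplicit false

open Set

namespace Pool.Agent.H98.RS

variable {b : ℕ} {Γ E' : Type*}

/-- A sequence moving in the tree that visits each vertex finitely often crosses the edges of a
descending ray. -/
theorem exists_ray (z : ℕ → List (Fin b))
    (hadj : ∀ n, z (n + 1) = z n ∨ (∃ i, z (n + 1) = i :: z n) ∨ (∃ i, z n = i :: z (n + 1)))
    (hfin : ∀ v, {n | z n = v}.Finite) :
    ∃ (r : ℕ → List (Fin b)) (i : ℕ → Fin b), (∀ m, r (m + 1) = i m :: r m) ∧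
      ∀ m, ∃ n, z n = r m ∧ z (n + 1) = i m :: r m := by
  -- eventually the suffix of length `m` is constant
  have key : ∀ m : ℕ, ∃ v : List (Fin b), v.length = m ∧ ∃ N, ∀ n ≥ N, v <:+ z n := by
    intro m
    induction m with
    | zero => exact ⟨[], rfl, 0, fun n _ => List.nil_suffix⟩
    | succ m ih =>
      obtain ⟨v, hv, N, hN⟩ := ih
      obtain ⟨N', hN'⟩ := (hfin v).bddAbove
      set M := max N (N' + 1) with hM
      have h1 : ∀ n ≥ M, v <:+ z n ∧ z n ≠ v := by
        intro n hn
        refine ⟨hN n (le_trans (le_max_left _ _) hn), fun h => ?_⟩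
        have := hN' h
        have h2 : N' + 1 ≤ n := le_trans (le_max_right _ _) hn
        omega
      have h2 : ∀ w : List (Fin b), v <:+ w → w ≠ v → ∃ i, (i :: v) <:+ w := by
        intro w hw hne
        obtain ⟨p, hp⟩ := hw
        rcases List.eq_nil_or_concat p with h | ⟨q, i', h⟩
        · exact absurd (by rw [← hp, h]; rfl) hne
        · refine ⟨i', q, ?_⟩
          rw [← hp, h]
          simp
      obtain ⟨i, hi⟩ := h2 _ (h1 M le_rfl).1 (h1 M le_rfl).2
      refine ⟨i :: v, by simp [hv], M, fun n hn => ?_⟩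
      obtain ⟨k, rfl⟩ := Nat.exists_eq_add_of_le hn
      clear hn
      induction k with
      | zero => exact hi
      | succ k ihk =>
        have e : M + (k + 1) = M + k + 1 := by ring
        rw [e]
        rcases hadj (M + k) with h | ⟨i', h⟩ | ⟨i', h⟩
        · rw [h]; exact ihk
        · rw [h]; exact ihk.trans (List.suffix_cons _ _)
        · rw [h, List.suffix_cons_iff] at ihk
          rcases ihk with h3 | h3
          · exfalso
            have h4 := (h1 (M + k + 1) (by omega)).2
            exact h4 (List.cons.inj h3).2.symm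
          · exact h3
  choose v hvl hvs using key
  have hnest : ∀ m, ∃ i, v (m + 1) = i :: v m := by
    intro m
    obtain ⟨N, hN⟩ := hvs m
    obtain ⟨N', hN'⟩ := hvs (m + 1)
    have h1 := hN (max N N') (le_max_left _ _)
    have h2 := hN' (max N N') (le_max_right _ _)
    have h3 : v m <:+ v (m + 1) := List.suffix_of_suffix_length_le h1 h2 (by rw [hvl, hvl]; omega)
    obtain ⟨p, hp⟩ := h3
    have h4 : p.length = 1 := by
      have := congrArg List.length hp
      rw [List.length_append, hvl, hvl] at this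
      omega
    obtain ⟨i, rfl⟩ := List.length_eq_one_iff.mp h4
    exact ⟨i, hp.symm⟩
  choose i hi using hnest
  set D := (z 0).length with hD
  refine ⟨fun m => v (D + m), fun m => i (D + m), fun m => hi (D + m), fun m => ?_⟩
  -- the first time below `v (D + m + 1)`
  have hex : ∃ n, v (D + m + 1) <:+ z n := by
    obtain ⟨N, hN⟩ := hvs (D + m + 1)
    exact ⟨N, hN N le_rfl⟩
  classical
  set n₀ := Nat.find hex with hn₀
  have h1 : v (D + m + 1) <:+ z n₀ := Nat.find_spec hex
  have h2 : n₀ ≠ 0 := by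
    intro h
    rw [h] at h1
    have := h1.length_le
    rw [hvl] at this
    omega
  obtain ⟨n, hn⟩ : ∃ n, n₀ = n + 1 := ⟨n₀ - 1, by omega⟩
  have h3 : ¬ v (D + m + 1) <:+ z n := Nat.find_min hex (by omega)
  rw [hn] at h1
  refine ⟨n, ?_⟩
  rcases hadj n with h | ⟨i', h⟩ | ⟨i', h⟩
  · rw [h] at h1; exact absurd h1 h3
  · rw [h, List.suffix_cons_iff] at h1
    rcases h1 with h4 | h4
    · rw [hi (D + m)] at h4
      obtain ⟨h5, h6⟩ := List.cons.inj h4
      refine ⟨h6.symm, ?_⟩
      change z (n + 1) = i (D + m) :: v (D + m)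
      rw [h, h5, h6]
    · exact absurd h4 h3
  · exfalso
    apply h3
    rw [h]
    exact h1.trans (List.suffix_cons _ _)

section orbit

variable {ge : E' → Γ × Γ} {w : Γ}

/-- positions along a trajectory move along the tree -/
lemma step_adj (hl : LocFin ge) {ω : TrE b E' → Marks} (hω : Generic ω)
    (p : (List (Fin b) × Γ) × ℝ) :
    (step (bars (tends ge w) ω) p).1.1 = p.1.1 ∨
    (∃ i, (step (bars (tends ge w) ω) p).1.1 = i :: p.1.1 ∧
      ∃ j, j < (ω (p.1.1, Sum.inl i)).1 ∧
        (ω (p.1.1, Sum.inl i)).2 j = (step (bars (tends ge w) ω) p).2) ∨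
    (∃ i, p.1.1 = i :: (step (bars (tends ge w) ω) p).1.1) := by
  have hG : Good (bars (tends (b := b) ge w) ω) := good_bars (locFin_tends hl) hω
  rcases step_cases hG p with hnext | ⟨_, hst⟩
  · have h := hnext.2.1
    have h' : bars (tends ge w) ω (p.1.1, p.1.2)
      ((step (bars (tends ge w) ω) p).1.1, (step (bars (tends ge w) ω) p).1.2)
      (step (bars (tends ge w) ω) p).2 := h
    rcases tbar_cases h' with ⟨hz', _⟩ | ⟨_, _, i, j, hz', hj, ht⟩ | ⟨_, _, i, j, hz', _, _⟩
    · left; exact hz'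
    · right; left; exact ⟨i, hz', j, hj, ht⟩
    · right; right; exact ⟨i, hz'⟩
  · left
    rw [hst]

/-- the trajectory from `(v, 0)` comes back to time zero, for every `v` -/
def Returns {V : Type*} (B : V → V → ℝ → Prop) : Prop :=
  ∀ v, ∃ n : ℕ, 0 < n ∧ ((step B)^[n] (v, 0)).2 = 0

/-- the cycle of a vertex -/
def cyc {V : Type*} (B : V → V → ℝ → Prop) (v : V) : Set V :=
  {u | ∃ n : ℕ, (step B)^[n] (v, 0) = (u, 0)}

/-- If the cycle is finite then the whole trajectory is finite. -/
lemma finite_orbit {V : Type*} {B : V → V → ℝ → Prop} (hR : Returns B) (v : V)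
    (hfin : (cyc B v).Finite) : {q | ∃ n : ℕ, (step B)^[n] (v, 0) = q}.Finite := by
  choose N hN0 hN using hR
  have hsub : {q | ∃ n : ℕ, (step B)^[n] (v, 0) = q} ⊆
      ⋃ u ∈ cyc B v, (fun j => (step B)^[j] (u, 0)) '' (Set.Iio (N u)) := by
    have key : ∀ n : ℕ, ∃ u ∈ cyc B v, ∃ j < N u, (step B)^[j] (u, 0) = (step B)^[n] (v, 0) := by
      intro n
      induction n with
      | zero => exact ⟨v, ⟨0, rfl⟩, 0, hN0 v, rfl⟩
      | succ n ih =>
        obtain ⟨u, hu, j, hj, h⟩ := ih
        by_cases h1 : j + 1 < N u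
        · refine ⟨u, hu, j + 1, h1, ?_⟩
          rw [Function.iterate_succ_apply', Function.iterate_succ_apply', h]
        · have h2 : j + 1 = N u := by omega
          have h3 := hN u
          rw [← h2, Function.iterate_succ_apply', h, ← Function.iterate_succ_apply' (step B)] at h3
          have h4 : (step B)^[n + 1] (v, 0) = (((step B)^[n + 1] (v, 0)).1, 0) :=
            Prod.ext rfl h3
          exact ⟨((step B)^[n + 1] (v, 0)).1, ⟨n + 1, h4⟩, 0, hN0 _, h4.symm⟩
    rintro q ⟨n, rfl⟩
    obtain ⟨u, hu, j, hj, h⟩ := key n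
    rw [mem_iUnion₂]
    exact ⟨u, hu, j, hj, h⟩
  exact (hfin.biUnion (fun u _ => (Set.finite_Iio _).image _)).subset hsub

/-- finitely many states over one vertex of the tree -/
lemma finite_states_at [Finite Γ] (hl : LocFin ge) {ω : TrE b E' → Marks} (hω : Generic ω)
    (z : List (Fin b)) :
    {p : (List (Fin b) × Γ) × ℝ | IsSt (bars (tends ge w) ω) p ∧ p.1.1 = z}.Finite := by
  have hG : Good (bars (tends (b := b) ge w) ω) := good_bars (locFin_tends hl) hω
  have : {p : (List (Fin b) × Γ) × ℝ | IsSt (bars (tends ge w) ω) p ∧ p.1.1 = z} ⊆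
      ⋃ x : Γ, (fun t => ((z, x), t)) '' (insert 0 {t | ∃ u, bars (tends ge w) ω (z, x) u t}) := by
    rintro ⟨⟨z', x⟩, t⟩ ⟨h, rfl⟩
    rw [mem_iUnion]
    refine ⟨x, t, ?_, rfl⟩
    rcases h with h | h
    · left; exact h
    · right; exact h
  exact (Set.finite_iUnion (fun x => ((hG.fin (z, x)).insert 0).image _)).subset this

/-- An infinite trajectory visits each place finitely often. -/
lemma visits_finite [Finite Γ] (hl : LocFin ge) {ω : TrE b E' → Marks} (hω : Generic ω)
    (p : (List (Fin b) × Γ) × ℝ)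
    (hinf : {q | ∃ n : ℕ, (step (bars (tends ge w) ω))^[n] p = q}.Infinite)
    (z : List (Fin b)) :
    {n : ℕ | ((step (bars (tends ge w) ω))^[n] p).1.1 = z}.Finite := by
  have hG : Good (bars (tends (b := b) ge w) ω) := good_bars (locFin_tends hl) hω
  set f := step (bars (tends (b := b) ge w) ω) with hf
  -- the iterates are injective
  have hinj : Function.Injective (fun n : ℕ => f^[n] p) := by
    intro i j h
    by_contra hne
    -- eventually periodic, hence finite
    wlog hlt : i < j generalizing i j with H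
    · exact H h.symm (fun h => hne h.symm) (by omega)
    apply hinf
    have hper : ∀ n, ∃ m < j, f^[m] p = f^[n] p := by
      intro n
      induction n with
      | zero => exact ⟨0, by omega, rfl⟩
      | succ n ih =>
        obtain ⟨m, hm, h1⟩ := ih
        by_cases h2 : m + 1 < j
        · refine ⟨m + 1, h2, ?_⟩
          rw [Function.iterate_succ_apply', Function.iterate_succ_apply', h1]
        · have h3 : m + 1 = j := by omega
          refine ⟨i, hlt, ?_⟩
          simp only at h
          rw [h, ← h3, Function.iterate_succ_apply', Function.iterate_succ_apply', h1]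
    refine ((Set.finite_Iio j).image (fun m => f^[m] p)).subset ?_
    rintro q ⟨n, rfl⟩
    obtain ⟨m, hm, h1⟩ := hper n
    exact ⟨m, hm, h1⟩
  have hst : ∀ n : ℕ, IsSt (bars (tends (b := b) ge w) ω) (f^[n + 1] p) := by
    intro n
    rw [Function.iterate_succ_apply']
    exact isSt_step hG _
  have h1 : {n : ℕ | (f^[n + 1] p).1.1 = z}.Finite := by
    refine Set.Finite.of_finite_image (f := fun n => f^[n + 1] p)
      ((finite_states_at (w := w) hl hω z).subset ?_) ?_
    · rintro _ ⟨n, hn, rfl⟩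
      exact ⟨hst n, hn⟩
    · intro i _ j _ h
      have := hinj h
      omega
  refine ((h1.image (fun n => n + 1)).insert 0).subset ?_
  intro n hn
  rcases Nat.eq_zero_or_pos n with h | h
  · left; exact h
  · right
    refine ⟨n - 1, ?_, by simp; omega⟩
    have e : n - 1 + 1 = n := by omega
    change (f^[n - 1 + 1] p).1.1 = z
    rw [e]
    exact hn

/-- blocked at the child `j :: u` of `u`, with respect to the grandchild `i` -/
def Blocked (ge : E' → Γ × Γ) (w : Γ) (ω : TrE b E' → Marks) (u : List (Fin b)) (j i : Fin b) :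
    Prop :=
  (ω (u, Sum.inl j)).1 = 1 ∧ (∀ i', (ω (j :: u, Sum.inl i')).1 ≤ 1) ∧
    ∃ I, Inv (bars ge (gad ω (j :: u))) I ∧ (w, (ω (u, Sum.inl j)).2 0) ∈ I ∧
      (w, (ω (j :: u, Sum.inl i)).2 0) ∉ I

/-- An infinite cycle gives a ray with open edges that is not blocked. -/
theorem ray_of_infinite [Finite Γ] (hl : LocFin ge) {ω : TrE b E' → Marks} (hω : Generic ω)
    (v : List (Fin b) × Γ) (hinf : (cyc (bars (tends ge w) ω) v).Infinite) :
    ∃ (r : ℕ → List (Fin b)) (i : ℕ → Fin b), (∀ m, r (m + 1) = i m :: r m) ∧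
      (∀ m, 1 ≤ (ω (r m, Sum.inl (i m))).1) ∧
      ∀ m, ¬ Blocked ge w ω (r m) (i m) (i (m + 1)) := by
  set f := step (bars (tends (b := b) ge w) ω) with hf
  have hinf' : {q | ∃ n : ℕ, f^[n] (v, 0) = q}.Infinite := by
    intro hfin
    apply hinf
    have : cyc (bars (tends ge w) ω) v ⊆ Prod.fst '' {q | ∃ n : ℕ, f^[n] (v, 0) = q} := by
      rintro u ⟨n, hn⟩
      exact ⟨(u, 0), ⟨n, hn⟩, rfl⟩
    exact (hfin.image _).subset this
  have hadj : ∀ n, (f^[n + 1] (v, 0)).1.1 = (f^[n] (v, 0)).1.1 ∨
      (∃ i, (f^[n + 1] (v, 0)).1.1 = i :: (f^[n] (v, 0)).1.1 ∧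
        ∃ j, j < (ω ((f^[n] (v, 0)).1.1, Sum.inl i)).1 ∧
          (ω ((f^[n] (v, 0)).1.1, Sum.inl i)).2 j = (f^[n + 1] (v, 0)).2) ∨
      (∃ i, (f^[n] (v, 0)).1.1 = i :: (f^[n + 1] (v, 0)).1.1) := by
    intro n
    rw [Function.iterate_succ_apply']
    exact step_adj hl hω _
  obtain ⟨r, i, hr, hcross⟩ := exists_ray (fun n => (f^[n] (v, 0)).1.1)
    (fun n => by
      rcases hadj n with h | ⟨i, h, _⟩ | h
      · left; exact h
      · right; left; exact ⟨i, h⟩
      · right; right; exact h)
    (fun z => visits_finite hl hω (v, 0) hinf' z)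
  refine ⟨r, i, hr, fun m => ?_, fun m hblock => ?_⟩
  · obtain ⟨n, hn1, hn2⟩ := hcross m
    rcases hadj n with h | ⟨i', h, j, hj, _⟩ | ⟨i', h⟩
    · rw [hn1, hn2] at h
      exact absurd (congrArg List.length h) (by simp)
    · rw [hn1, hn2] at h
      have := (List.cons.inj h).1
      rw [hn1, ← this] at hj
      omega
    · rw [hn1, hn2] at h
      have := congrArg List.length h
      simp only [List.length_cons] at this
      omega
  · obtain ⟨h1, h2, I, hI, ha, hc⟩ := hblock
    obtain ⟨S, hS, hS1, hS2⟩ := blocking hl hω (r m) (i m) (i (m + 1)) h1 h2 hI ha hc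
    obtain ⟨n, hn1, _⟩ := hcross m
    obtain ⟨n', _, hn2⟩ := hcross (m + 1)
    have hmem : ∀ k : ℕ, (v, 0) ∈ S ↔ f^[k] (v, 0) ∈ S := by
      intro k
      induction k with
      | zero => rfl
      | succ k ih =>
        rw [Function.iterate_succ_apply', ih]
        exact hS _
    have h3 : f^[n] (v, 0) ∈ S := by
      have := hS1 (f^[n] (v, 0)).1.1 (f^[n] (v, 0)).1.2 (f^[n] (v, 0)).2 (by
        rw [hn1]
        intro h
        have := h.length_le
        simp at this)
      exact this
    have h4 : f^[n' + 1] (v, 0) ∉ S := by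
      have := hS2 (f^[n' + 1] (v, 0)).1.1 (f^[n' + 1] (v, 0)).1.2 (f^[n' + 1] (v, 0)).2 (by
        rw [hn2, hr m])
      exact this
    exact h4 ((hmem _).mp ((hmem _).mpr h3))

end orbit

end Pool.Agent.H98.RS
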