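import Pool.Agent.H98.RSRay

/-! Clean rays give infinite cycles; trajectories that do not return cross rays in a short time. -/

set_option autoImplicit false

open Set

namespace Pool.Agent.H98.RS

variable {b : ℕ} {Γ E' : Type*} {ge : E' → Γ × Γ} {w : Γ}

/-- the root of the gadget is clean: each bar at the root is the only bar between some set and
its complement -/
def Clean (ge : E' → Γ × Γ) (w : Γ) (η : E' → Marks) : Prop :=
  ∀ x t, bars ge η w x t → ∃ W : Set Γ, x ∈ W ∧ w ∉ W ∧
    ∀ p q s, p ∈ W → q ∉ W → bars ge η p q s → p = x ∧ q = w ∧ s = t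

lemma agree_tree_edge (hl : LocFin ge) {ω : TrE b E' → Marks} (hω : Generic ω)
    {J : Set ((List (Fin b) × Γ) × ℝ)} (hJ : Inv (bars (tends ge w) ω) J)
    (hfin : {p | IsSt (bars (tends ge w) ω) p ∧ p ∈ J}.Finite) (u : List (Fin b)) (i : Fin b)
    (h1 : (ω (u, Sum.inl i)).1 = 1) :
    ((u, w), (ω (u, Sum.inl i)).2 0) ∈ J ↔ ((i :: u, w), (ω (u, Sum.inl i)).2 0) ∈ J := by
  have hG : Good (bars (tends (b := b) ge w) ω) := good_bars (locFin_tends hl) hω
  have hB : bars (tends (b := b) ge w) ω (i :: u, w) (u, w) ((ω (u, Sum.inl i)).2 0) :=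
    ⟨(u, Sum.inl i), Or.inr ⟨rfl, rfl⟩, 0, by rw [h1]; norm_num, rfl⟩
  refine (Inv.conservation hG hJ hfin (W := {p | (i :: u) <:+ p.1}) List.suffix_rfl ?_ hB ?_).symm
  · intro h
    have := List.IsSuffix.length_le h
    simp at this
  · rintro ⟨z, x⟩ ⟨z', x'⟩ t hx hy hbar
    change (i :: u) <:+ z at hx
    change ¬ (i :: u) <:+ z' at hy
    rcases tbar_cases hbar with ⟨hz', _⟩ | ⟨_, _, i', j, hz', _, _⟩ | ⟨hx1, hx2, i', j, hz', hj, ht⟩
    · rw [hz'] at hy
      exact absurd hx hy
    · rw [hz'] at hy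
      exact absurd (hx.trans (List.suffix_cons _ _)) hy
    · rw [hz', List.suffix_cons_iff] at hx
      rcases hx with h | h
      · obtain ⟨h2, h3⟩ := List.cons.inj h
        subst h2
        subst h3
        have : j = 0 := by omega
        subst this
        rw [hz', hx1, hx2]
        exact ⟨rfl, rfl, ht.symm⟩
      · exact absurd h hy

/-- A clean ray gives an infinite cycle. -/
theorem infinite_of_clean_ray [Finite Γ] (hl : LocFin ge) {ω : TrE b E' → Marks}
    (hω : Generic ω) (hR : Returns (bars (tends ge w) ω)) (r : ℕ → List (Fin b)) (i : ℕ → Fin b)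
    (hr : ∀ m, r (m + 1) = i m :: r m) (h1 : ∀ m, (ω (r m, Sum.inl (i m))).1 = 1)
    (h2 : ∀ m i', (ω (r m, Sum.inl i')).1 ≤ 1) (h3 : ∀ m, Clean ge w (gad ω (r m))) :
    ∃ v, (cyc (bars (tends ge w) ω) v).Infinite := by
  refine ⟨(r 1, w), fun hfin => ?_⟩
  have hG : Good (bars (tends (b := b) ge w) ω) := good_bars (locFin_tends hl) hω
  have horb := finite_orbit hR _ hfin
  have hst : IsSt (bars (tends (b := b) ge w) ω) ((r 1, w), 0) := Or.inl rfl
  obtain ⟨m₀, hm₀, hper⟩ := periodic_of_finite hG hst horb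
  set J := orbitSet (bars (tends (b := b) ge w) ω) ((r 1, w), 0) with hJdef
  have hJ := inv_orbitSet hG hst hm₀ hper
  have hJfin := finite_isSt_orbitSet hG horb
  -- all bars at `(r m, w)` agree
  have hagree : ∀ m, ∀ x t, bars (tends (b := b) ge w) ω (r (m + 1), w) x t →
      (((r (m + 1), w), t) ∈ J ↔ (x, t) ∈ J) := by
    rintro m ⟨z', x'⟩ t hB
    rcases tbar_cases hB with ⟨hz', hb⟩ | ⟨_, hx2, i', j, hz', hj, ht⟩ |
      ⟨_, hx2, i', j, hz', hj, ht⟩
    · subst hz'
      obtain ⟨W, hW1, hW2, hW3⟩ := h3 (m + 1) x' t hb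
      refine (Inv.conservation hG hJ hJfin
        (W := {p : List (Fin b) × Γ | p.1 = r (m + 1) ∧ p.2 ∈ W}) ⟨rfl, hW1⟩ ?_
        (hG.symm hB) ?_).symm
      · rintro ⟨_, h⟩
        exact hW2 h
      · rintro ⟨z, x⟩ ⟨z'', x''⟩ s ⟨hz, hx⟩ hy hbar
        change z = r (m + 1) at hz
        change x ∈ W at hx
        subst hz
        rcases tbar_cases hbar with ⟨h4, h5⟩ | ⟨h4, _⟩ | ⟨h4, _⟩
        · subst h4
          have h6 : x'' ∉ W := fun h => hy ⟨rfl, h⟩
          obtain ⟨h7, h8, h9⟩ := hW3 x x'' s hx h6 h5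
          rw [h7, h8, h9]
          exact ⟨rfl, rfl, rfl⟩
        · rw [h4] at hx; exact absurd hx hW2
        · rw [h4] at hx; exact absurd hx hW2
    · have h4 := h2 (m + 1) i'
      have h5 : j = 0 := by omega
      subst h5
      have h6 : (ω (r (m + 1), Sum.inl i')).1 = 1 := by omega
      have := agree_tree_edge hl hω hJ hJfin (r (m + 1)) i' h6
      rw [hz', hx2, ← ht]
      exact this
    · rw [hr m] at hz'
      obtain ⟨h4, h5⟩ := List.cons.inj hz'
      subst h4
      subst h5
      have h5 : j = 0 := by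
        rw [h1 m] at hj
        omega
      subst h5
      have := agree_tree_edge hl hω hJ hJfin (r m) (i m) (h1 m)
      rw [hr m, hx2, ← ht]
      exact this.symm
  -- membership along the ray
  have hall : ∀ m, ∀ s, ((r (m + 1), w), s) ∈ J := by
    intro m
    induction m with
    | zero =>
      intro s
      rw [hJ.agree_all hG (hagree 0) s 0]
      exact mem_orbitSet_self _
    | succ m ih =>
      intro s
      rw [hJ.agree_all hG (hagree (m + 1)) s ((ω (r (m + 1), Sum.inl (i (m + 1)))).2 0)]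
      have := agree_tree_edge hl hω hJ hJfin (r (m + 1)) (i (m + 1)) (h1 (m + 1))
      rw [← hr (m + 1)] at this
      exact this.mp (ih _)
  have hlen : ∀ m, (r m).length = (r 0).length + m := by
    intro m
    induction m with
    | zero => rfl
    | succ m ih => rw [hr m, List.length_cons, ih]; ring
  have hinj : Function.Injective (fun m : ℕ => (((r (m + 1), w), 0) :
      (List (Fin b) × Γ) × ℝ)) := by
    intro a c h
    have h4 : r (a + 1) = r (c + 1) := (Prod.ext_iff.mp (Prod.ext_iff.mp h).1).1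
    have := congrArg List.length h4
    rw [hlen (a + 1), hlen (c + 1)] at this
    omega
  exact Set.infinite_range_of_injective hinj (hJfin.subset (by
    rintro _ ⟨m, rfl⟩
    exact ⟨Or.inl rfl, hall m 0⟩))

/-- A trajectory that never returns to time zero crosses a ray during a short time interval. -/
theorem ray_of_not_returns [Finite Γ] (hl : LocFin ge) {ω : TrE b E' → Marks}
    (hω : Generic ω) {T : ℝ} (hT : 0 < T) (hle : ∀ e j, (ω e).2 j ≤ T) {M : ℕ} (hM : 0 < M)
    (hR : ¬ Returns (bars (tends ge w) ω)) :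
    ∃ k < M, ∃ (r : ℕ → List (Fin b)) (i : ℕ → Fin b), (∀ m, r (m + 1) = i m :: r m) ∧
      ∀ m, ∃ j, j < (ω (r m, Sum.inl (i m))).1 ∧
        (ω (r m, Sum.inl (i m))).2 j ∈ Set.Ioc (k * (T / M)) ((k + 1) * (T / M)) := by
  have hG : Good (bars (tends (b := b) ge w) ω) := good_bars (locFin_tends hl) hω
  rw [Returns] at hR
  push Not at hR
  obtain ⟨v, hv⟩ := hR
  set f := step (bars (tends (b := b) ge w) ω) with hf
  set t : ℕ → ℝ := fun n => (f^[n] (v, 0)).2 with ht
  have hnext : ∀ n, IsNext (bars (tends (b := b) ge w) ω) (f^[n] (v, 0)) (f^[n + 1] (v, 0)) := by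
    intro n
    rw [Function.iterate_succ_apply']
    rcases step_cases hG (f^[n] (v, 0)) with h | ⟨_, h⟩
    · exact h
    · exfalso
      apply hv (n + 1) (Nat.succ_pos n)
      rw [Function.iterate_succ_apply', hf, h]
  have hmono : StrictMono t := strictMono_nat_of_lt_succ (fun n => (hnext n).1)
  have hpos : ∀ n, 0 < t (n + 1) := fun n => by
    have := hmono (Nat.succ_pos n)
    exact this
  have hTle : ∀ n, t (n + 1) ≤ T := by
    intro n
    obtain ⟨e, _, j, _, h⟩ := (hnext n).2.1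
    have h2 : t (n + 1) = (ω e).2 j := h.symm
    rw [h2]
    exact hle e j
  -- slabs
  have hMr : (0 : ℝ) < M := by exact_mod_cast hM
  have hδ : 0 < T / M := div_pos hT hMr
  set κ : ℕ → ℕ := fun n => ⌈t (n + 1) / (T / M)⌉₊ with hκ
  have hκmono : Monotone κ := by
    intro a c hac
    apply Nat.ceil_mono
    exact div_le_div_of_nonneg_right (hmono.monotone (by omega)) hδ.le
  have hκle : ∀ n, κ n ≤ M := by
    intro n
    apply Nat.ceil_le.mpr
    rw [div_le_iff₀ hδ]
    have : (M : ℝ) * (T / M) = T := by field_simp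
    rw [this]
    exact hTle n
  have hκpos : ∀ n, 0 < κ n := fun n => Nat.ceil_pos.mpr (div_pos (hpos n) hδ)
  obtain ⟨N, hN⟩ : ∃ N, ∀ n ≥ N, κ n = κ N := by
    obtain ⟨N, hN⟩ : ∃ N, ∀ n, M - κ N ≤ M - κ n :=
      ⟨Function.argmin (fun n => M - κ n), fun n => Function.argmin_le (fun n => M - κ n) n⟩
    refine ⟨N, fun n hn => ?_⟩
    have h1 := hN n
    have h2 := hκmono hn
    have h3 := hκle n
    have h4 := hκle N
    omega
  have hslab : ∀ n ≥ N, t (n + 1) ∈ Set.Ioc ((κ N - 1 : ℕ) * (T / M)) (((κ N - 1 : ℕ) + 1) * (T / M)) := by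
    intro n hn
    have hk := hN n hn
    have hkp := hκpos N
    have e1 : ((κ N - 1 : ℕ) : ℝ) = (κ N : ℝ) - 1 := by
      rw [Nat.cast_sub hkp]; simp
    rw [e1]
    constructor
    · have h1 : (κ N : ℝ) < t (n + 1) / (T / M) + 1 := by
        rw [← hk]
        exact Nat.ceil_lt_add_one (div_nonneg (hpos n).le hδ.le)
      have h2 : (κ N : ℝ) - 1 < t (n + 1) / (T / M) := by linarith
      rwa [lt_div_iff₀ hδ] at h2
    · have h1 : t (n + 1) / (T / M) ≤ κ N := by
        rw [← hk]
        exact Nat.le_ceil _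
      rw [div_le_iff₀ hδ] at h1
      have : (κ N : ℝ) - 1 + 1 = κ N := by ring
      rw [this]
      exact h1
  refine ⟨κ N - 1, by have := hκle N; have := hκpos N; omega, ?_⟩
  -- the ray
  have hshift : ∀ n, f^[n] (f^[N] (v, 0)) = f^[n + N] (v, 0) := fun n =>
    (Function.iterate_add_apply f n N (v, 0)).symm
  have hinf : {q | ∃ n : ℕ, f^[n] (f^[N] (v, 0)) = q}.Infinite := by
    have hinj : Function.Injective (fun n : ℕ => f^[n] (f^[N] (v, 0))) := by
      intro a c h
      simp only [hshift] at h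
      have : t (a + N) = t (c + N) := congrArg Prod.snd h
      have := hmono.injective this
      omega
    have := Set.infinite_range_of_injective hinj
    refine this.mono ?_
    rintro _ ⟨n, rfl⟩
    exact ⟨n, rfl⟩
  have hadj : ∀ n, (f^[n + 1] (f^[N] (v, 0))).1.1 = (f^[n] (f^[N] (v, 0))).1.1 ∨
      (∃ i, (f^[n + 1] (f^[N] (v, 0))).1.1 = i :: (f^[n] (f^[N] (v, 0))).1.1 ∧
        ∃ j, j < (ω ((f^[n] (f^[N] (v, 0))).1.1, Sum.inl i)).1 ∧
          (ω ((f^[n] (f^[N] (v, 0))).1.1, Sum.inl i)).2 j = (f^[n + 1] (f^[N] (v, 0))).2) ∨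
      (∃ i, (f^[n] (f^[N] (v, 0))).1.1 = i :: (f^[n + 1] (f^[N] (v, 0))).1.1) := by
    intro n
    rw [Function.iterate_succ_apply']
    exact step_adj hl hω _
  obtain ⟨r, i, hr, hcross⟩ := exists_ray (fun n => (f^[n] (f^[N] (v, 0))).1.1)
    (fun n => by
      rcases hadj n with h | ⟨i, h, _⟩ | h
      · left; exact h
      · right; left; exact ⟨i, h⟩
      · right; right; exact h)
    (fun z => visits_finite hl hω _ hinf z)
  refine ⟨r, i, hr, fun m => ?_⟩
  obtain ⟨n, hn1, hn2⟩ := hcross m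
  rcases hadj n with h | ⟨i', h, j, hj, hjt⟩ | ⟨i', h⟩
  · rw [hn1, hn2] at h
    exact absurd (congrArg List.length h) (by simp)
  · rw [hn1, hn2] at h
    have h5 := (List.cons.inj h).1
    rw [hn1, ← h5] at hj hjt
    refine ⟨j, hj, ?_⟩
    rw [hjt, hshift]
    have e : n + 1 + N = (n + N) + 1 := by ring
    rw [e]
    exact hslab (n + N) (by omega)
  · rw [hn1, hn2] at h
    have := congrArg List.length h
    simp only [List.length_cons] at this
    omega

end Pool.Agent.H98.RS
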