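import Pool.Agent.H98.RSMarks

/-! The decorated tree: deterministic part. -/

set_option autoImplicit false

open Set

namespace Pool.Agent.H98.RS

variable {b : ℕ} {Γ E' : Type*}

/-- edges of the decorated tree: `(v, inl i)` joins `v` to its child `i :: v`, and `(v, inr e)`
is the edge `e` of the gadget at `v` -/
abbrev TrE (b : ℕ) (E' : Type*) := List (Fin b) × (Fin b ⊕ E')

/-- endpoints in the decorated tree -/
def tends (ge : E' → Γ × Γ) (w : Γ) : TrE b E' → (List (Fin b) × Γ) × (List (Fin b) × Γ)
  | (v, Sum.inl i) => ((v, w), (i :: v, w))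
  | (v, Sum.inr e) => ((v, (ge e).1), (v, (ge e).2))

/-- the marks of the gadget at `v` -/
def gad (ω : TrE b E' → Marks) (v : List (Fin b)) : E' → Marks := fun e => ω (v, Sum.inr e)

lemma Generic.gad {ω : TrE b E' → Marks} (h : Generic ω) (v : List (Fin b)) :
    Generic (gad ω v) where
  pos e i := h.pos _ i
  inj e i e' i' hh := by
    obtain ⟨h1, h2⟩ := h.inj _ _ _ _ hh
    exact ⟨Sum.inr.inj (Prod.ext_iff.mp h1).2, h2⟩

lemma locFin_tends {ge : E' → Γ × Γ} {w : Γ} (hl : LocFin ge) :
    LocFin (tends (b := b) ge w) := by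
  rintro ⟨v, x⟩
  have : {e : TrE b E' | (tends ge w e).1 = (v, x) ∨ (tends ge w e).2 = (v, x)} ⊆
      (fun s => (v, s)) '' (Sum.inl '' (Set.univ : Set (Fin b))) ∪
      (fun s => (v.tail, s)) '' (Sum.inl '' (Set.univ : Set (Fin b))) ∪
      (fun s => (v, s)) '' (Sum.inr '' {e | (ge e).1 = x ∨ (ge e).2 = x}) := by
    rintro ⟨u, i | e⟩ h
    · left
      rcases h with h | h
      · left
        have : u = v := (Prod.ext_iff.mp h).1
        subst this
        exact ⟨Sum.inl i, ⟨i, mem_univ _, rfl⟩, rfl⟩
      · right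
        have : i :: u = v := (Prod.ext_iff.mp h).1
        subst this
        exact ⟨Sum.inl i, ⟨i, mem_univ _, rfl⟩, rfl⟩
    · right
      rcases h with h | h
      · have h1 : u = v := (Prod.ext_iff.mp h).1
        have h2 : (ge e).1 = x := (Prod.ext_iff.mp h).2
        subst h1
        exact ⟨Sum.inr e, ⟨e, Or.inl h2, rfl⟩, rfl⟩
      · have h1 : u = v := (Prod.ext_iff.mp h).1
        have h2 : (ge e).2 = x := (Prod.ext_iff.mp h).2
        subst h1
        exact ⟨Sum.inr e, ⟨e, Or.inr h2, rfl⟩, rfl⟩
  refine Set.Finite.subset ?_ this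
  refine Set.Finite.union (Set.Finite.union ?_ ?_) ?_
  · exact ((Set.finite_univ.image _).image _)
  · exact ((Set.finite_univ.image _).image _)
  · exact (((hl x).image _).image _)

/-- a bar of the decorated tree -/
lemma tbar_cases {ge : E' → Γ × Γ} {w : Γ} {ω : TrE b E' → Marks}
    {z z' : List (Fin b)} {x x' : Γ} {t : ℝ} (h : bars (tends ge w) ω (z, x) (z', x') t) :
    (z' = z ∧ bars ge (gad ω z) x x' t) ∨
    (x = w ∧ x' = w ∧ ∃ i j, z' = i :: z ∧ j < (ω (z, Sum.inl i)).1 ∧
      (ω (z, Sum.inl i)).2 j = t) ∨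
    (x = w ∧ x' = w ∧ ∃ i j, z = i :: z' ∧ j < (ω (z', Sum.inl i)).1 ∧
      (ω (z', Sum.inl i)).2 j = t) := by
  obtain ⟨⟨u, i | e⟩, h1, j, h2, h3⟩ := h
  · right
    rcases h1 with ⟨h, h'⟩ | ⟨h, h'⟩
    · left
      obtain ⟨h4, h5⟩ := Prod.ext_iff.mp h
      obtain ⟨h6, h7⟩ := Prod.ext_iff.mp h'
      change u = z at h4
      change w = x at h5
      change i :: u = z' at h6
      change w = x' at h7
      subst h4
      exact ⟨h5.symm, h7.symm, i, j, h6.symm, h2, h3⟩
    · right
      obtain ⟨h4, h5⟩ := Prod.ext_iff.mp h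
      obtain ⟨h6, h7⟩ := Prod.ext_iff.mp h'
      change u = z' at h4
      change w = x' at h5
      change i :: u = z at h6
      change w = x at h7
      subst h4
      exact ⟨h7.symm, h5.symm, i, j, h6.symm, h2, h3⟩
  · left
    rcases h1 with ⟨h, h'⟩ | ⟨h, h'⟩
    · obtain ⟨h4, h5⟩ := Prod.ext_iff.mp h
      obtain ⟨h6, h7⟩ := Prod.ext_iff.mp h'
      change u = z at h4
      change (ge e).1 = x at h5
      change u = z' at h6
      change (ge e).2 = x' at h7
      subst h4
      exact ⟨h6.symm, e, Or.inl ⟨h5, h7⟩, j, h2, h3⟩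
    · obtain ⟨h4, h5⟩ := Prod.ext_iff.mp h
      obtain ⟨h6, h7⟩ := Prod.ext_iff.mp h'
      change u = z' at h4
      change (ge e).1 = x' at h5
      change u = z at h6
      change (ge e).2 = x at h7
      subst h4
      subst h6
      exact ⟨rfl, e, Or.inr ⟨h5, h7⟩, j, h2, h3⟩

lemma tbar_of_gad {ge : E' → Γ × Γ} {w : Γ} {ω : TrE b E' → Marks}
    {z : List (Fin b)} {x x' : Γ} {t : ℝ} (h : bars ge (gad ω z) x x' t) :
    bars (tends ge w) ω (z, x) (z, x') t := by
  obtain ⟨e, h1, j, h2, h3⟩ := h
  refine ⟨(z, Sum.inr e), ?_, j, h2, h3⟩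
  rcases h1 with ⟨h, h'⟩ | ⟨h, h'⟩
  · left; exact ⟨Prod.ext rfl h, Prod.ext rfl h'⟩
  · right; exact ⟨Prod.ext rfl h, Prod.ext rfl h'⟩

/-- Blocking: no trajectory from outside the subtree of `v = j :: u` enters the subtree of
`i :: v`. -/
theorem blocking {ge : E' → Γ × Γ} {w : Γ} (hl : LocFin ge) {ω : TrE b E' → Marks}
    (hω : Generic ω) (u : List (Fin b)) (j i : Fin b)
    (h1 : (ω (u, Sum.inl j)).1 = 1)
    (h2 : ∀ i', (ω (j :: u, Sum.inl i')).1 ≤ 1)
    {I : Set (Γ × ℝ)} (hI : Inv (bars ge (gad ω (j :: u))) I)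
    (ha : (w, (ω (u, Sum.inl j)).2 0) ∈ I) (hc : (w, (ω (j :: u, Sum.inl i)).2 0) ∉ I) :
    ∃ S : Set ((List (Fin b) × Γ) × ℝ), Inv (bars (tends ge w) ω) S ∧
      (∀ z x t, ¬ (j :: u) <:+ z → ((z, x), t) ∈ S) ∧
      (∀ z x t, (i :: j :: u) <:+ z → ((z, x), t) ∉ S) := by
  have hG : Good (bars (tends (b := b) ge w) ω) := good_bars (locFin_tends hl) hω
  have hGg : Good (bars ge (gad ω (j :: u))) := good_bars hl (hω.gad _)
  set v := j :: u with hv
  set B := bars (tends (b := b) ge w) ω with hB
  set S : Set ((List (Fin b) × Γ) × ℝ) := {p | ¬ v <:+ p.1.1 ∨ (p.1.1 = v ∧ (p.1.2, p.2) ∈ I) ∨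
    (∃ i', (i' :: v) <:+ p.1.1 ∧ (w, (ω (v, Sum.inl i')).2 0) ∈ I)} with hS
  have hns : ∀ i' : Fin b, ¬ (i' :: v) <:+ v := by
    intro i' h
    have := h.length_le
    simp at this
  have hmemA : ∀ z x t, ¬ v <:+ z → ((z, x), t) ∈ S := fun z x t h => Or.inl h
  have hmemB : ∀ x t, ((v, x), t) ∈ S ↔ (x, t) ∈ I := by
    intro x t
    constructor
    · rintro (h | ⟨_, h⟩ | ⟨i', h, _⟩)
      · exact absurd List.suffix_rfl h
      · exact h
      · exact absurd h (hns i')
    · intro h
      exact Or.inr (Or.inl ⟨rfl, h⟩)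
  have hmemC : ∀ z x t i', (i' :: v) <:+ z → (((z, x), t) ∈ S ↔
      (w, (ω (v, Sum.inl i')).2 0) ∈ I) := by
    intro z x t i' hz
    constructor
    · rintro (h | ⟨h, _⟩ | ⟨i'', h, h'⟩)
      · exact absurd ((List.suffix_cons i' v).trans hz) h
      · change z = v at h
        rw [h] at hz
        exact absurd hz (hns i')
      · have e1 : i'' :: v = i' :: v :=
          (List.suffix_of_suffix_length_le h hz (by simp)).eq_of_length (by simp)
        have e2 : i'' = i' := (List.cons.inj e1).1
        rw [← e2]; exact h'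
    · intro h
      exact Or.inr (Or.inr ⟨i', hz, h⟩)
  -- a vertex below `v` is `v` or below a child of `v`
  have hbelow : ∀ z, v <:+ z → z = v ∨ ∃ i', (i' :: v) <:+ z := by
    intro z hz
    obtain ⟨p, hp⟩ := hz
    rcases List.eq_nil_or_concat p with h | ⟨q, i', h⟩
    · left; rw [← hp, h]; rfl
    · right
      refine ⟨i', q, ?_⟩
      rw [← hp, h]
      simp
  have hsingle : ∀ i' j', j' < (ω (v, Sum.inl i')).1 → j' = 0 := by
    intro i' j' h
    have := h2 i'
    omega
  refine ⟨S, ?_, hmemA, ?_⟩
  · rintro ⟨⟨z, x⟩, s⟩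
    rcases step_cases hG ((z, x), s) with hnext | ⟨hnone, hst⟩
    · -- there is a next bar
      set q := step B ((z, x), s) with hq
      obtain ⟨⟨z', x'⟩, t⟩ := q
      obtain ⟨hst, hbar, hmin⟩ := hnext
      simp only at hst hbar hmin
      by_cases hvz : v <:+ z
      · rcases hbelow z hvz with rfl | ⟨i', hi'⟩
        · -- at the vertex `v`
          rw [hmemB]
          -- the gadget has no bars before `t` at `x`
          have hnobar : ∀ u' t', s < t' → t' < t → ¬ bars ge (gad ω v) x u' t' := by
            intro u' t' h3 h4 h5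
            have := hmin (v, u') t' h3 (tbar_of_gad h5)
            linarith
          rcases tbar_cases hbar with ⟨hz', hb⟩ | ⟨hxw, hx'w, i', j', hz', hj', ht⟩ |
              ⟨hxw, hx'w, i', j', hz', hj', ht⟩
          · subst hz'
            rw [hmemB]
            exact hI.cross hGg hst hb hnobar
          · have := hsingle i' j' hj'
            subst this
            rw [hmemC z' x' t i' (by rw [hz'])]
            subst hxw
            rw [ht]
            refine hI.const hGg hst.le (fun u' t' h3 h4 h5 => ?_)
            rcases lt_or_eq_of_le h4 with h6 | h6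
            · exact hnobar u' t' h3 h6 h5
            · subst h6
              obtain ⟨e, _, j'', hj'', h7⟩ := h5
              have := (hω.inj _ _ _ _ (h7.trans ht.symm)).1
              simp at this
          · have e1 : j = i' ∧ u = z' := by
              have := List.cons.inj hz'
              exact this
            obtain ⟨rfl, rfl⟩ := e1
            have hj0 : j' = 0 := by omega
            subst hj0
            have hin : ((u, x'), t) ∈ S := hmemA _ _ _ (by
              intro h
              have := h.length_le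
              rw [hv] at this
              simp at this)
            refine iff_of_true ?_ hin
            subst hxw
            rw [← ht] at hnobar hst
            refine (hI.const hGg hst.le (fun u' t' h3 h4 h5 => ?_)).mpr ha
            rcases lt_or_eq_of_le h4 with h6 | h6
            · exact hnobar u' t' h3 h6 h5
            · subst h6
              obtain ⟨e, _, j'', hj'', h7⟩ := h5
              have := (hω.inj _ _ _ _ h7).1
              have h8 := (Prod.ext_iff.mp this).2
              simp at h8
        · -- strictly below `v`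
          rw [hmemC z x s i' hi']
          rcases tbar_cases hbar with ⟨hz', hb⟩ | ⟨hxw, hx'w, i'', j', hz', hj', ht⟩ |
              ⟨hxw, hx'w, i'', j', hz', hj', ht⟩
          · subst hz'
            rw [hmemC z' x' t i' hi']
          · rw [hmemC z' x' t i' (by rw [hz']; exact hi'.trans (List.suffix_cons _ _))]
          · rw [hz', List.suffix_cons_iff] at hi'
            rcases hi' with h | h
            · obtain ⟨h4, h5⟩ := List.cons.inj h
              subst h4
              subst h5
              have := hsingle i' j' hj'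
              subst this
              rw [hmemB, hx'w, ← ht]
            · rw [hmemC z' x' t i' h]
      · refine iff_of_true (hmemA _ _ _ hvz) ?_
        rcases tbar_cases hbar with ⟨hz', hb⟩ | ⟨hxw, hx'w, i'', j', hz', hj', ht⟩ |
              ⟨hxw, hx'w, i'', j', hz', hj', ht⟩
        · subst hz'
          exact hmemA _ _ _ hvz
        · by_cases hvz' : v <:+ z'
          · rw [hz', List.suffix_cons_iff] at hvz'
            rcases hvz' with h | h
            · obtain ⟨h4, h5⟩ := List.cons.inj h
              subst h4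
              subst h5
              have hj0 : j' = 0 := by omega
              subst hj0
              rw [hz', ← hv, hmemB, hx'w, ← ht]
              exact ha
            · exact absurd h hvz
          · exact hmemA _ _ _ hvz'
        · refine hmemA _ _ _ (fun h => hvz ?_)
          rw [hz']
          exact h.trans (List.suffix_cons _ _)
    · -- no bar
      rw [hst]
      by_cases hvz : v <:+ z
      · rcases hbelow z hvz with rfl | ⟨i', hi'⟩
        · rw [hmemB]
          have : step (bars ge (gad ω v)) (x, s) = (x, 0) := by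
            refine step_of_none (fun u' t' h3 h5 => ?_)
            exact hnone (v, u') t' h3 (tbar_of_gad h5)
          rw [hI (x, s), this]
          exact (hmemB x 0).symm
        · rw [hmemC z x s i' hi']
          exact (hmemC z x 0 i' hi').symm
      · exact iff_of_true (hmemA _ _ _ hvz) (hmemA _ _ _ hvz)
  · intro z x t hz
    rw [hmemC z x t i hz]
    exact hc

end Pool.Agent.H98.RS
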