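import Pool.Agent.H98.RSPois
import Pool.Agent.H98.RSRay2

/-! The decorated tree: probability part. -/

set_option autoImplicit false

open Set MeasureTheory ProbabilityTheory Filter
open scoped ENNReal NNReal Topology

namespace Pool.Agent.H98.RS

variable {b : ℕ} {Γ E' : Type*}

/-- the edges at or below the vertex `v` -/
def below (E' : Type*) (v : List (Fin b)) : Set (TrE b E') := {e | v <:+ e.1}

lemma below_mono {u v : List (Fin b)} (h : u <:+ v) : below E' v ⊆ below E' u :=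
  fun _ he => h.trans he

section noray

variable {X J : Type*} [MeasurableSpace X] [Fintype J] (ν : Measure X) [IsProbabilityMeasure ν]

/-- existence of a chain of `n` moves all of whose events occur -/
def chain {Ω : Type*} (nx : List (Fin b) → J → List (Fin b)) (A : List (Fin b) → J → Set Ω) :
    ℕ → List (Fin b) → Set Ω
  | 0, _ => Set.univ
  | n + 1, v => ⋃ j, (A v j ∩ chain nx A n (nx v j))

/-- No infinite chain when the expected number of continuations is smaller than one. -/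
theorem ae_no_chain (nx : List (Fin b) → J → List (Fin b))
    (A : List (Fin b) → J → Set (TrE b E' → X)) (C : List (Fin b) → J → Set (TrE b E'))
    (hA : ∀ v j, DepOn (C v j) (A v j)) (hC : ∀ v j, C v j ⊆ below E' v)
    (hnx : ∀ v j, v <:+ nx v j) (hd : ∀ v j, Disjoint (C v j) (below E' (nx v j)))
    (q : J → ℝ≥0∞) (hq : ∀ v j, prodLaw ν (TrE b E') (A v j) ≤ q j) (hsum : ∑ j, q j < 1) :
    ∀ᵐ ω ∂(prodLaw ν (TrE b E')), ∀ v, ¬ ∃ (js : ℕ → J) (r : ℕ → List (Fin b)), r 0 = v ∧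
      (∀ m, r (m + 1) = nx (r m) (js m)) ∧ ∀ m, ω ∈ A (r m) (js m) := by
  have hdep : ∀ n v, DepOn (below E' v) (chain nx A n v) := by
    intro n
    induction n with
    | zero => intro v; exact DepOn.univ
    | succ n ih =>
      intro v
      exact DepOn.iUnion (fun j => ((hA v j).mono (hC v j)).inter
        ((ih (nx v j)).mono (below_mono (hnx v j))))
  have hprob : ∀ n v, prodLaw ν (TrE b E') (chain nx A n v) ≤ (∑ j, q j) ^ n := by
    intro n
    induction n with
    | zero => intro v; simp [chain]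
    | succ n ih =>
      intro v
      refine (measure_iUnion_fintype_le _ _).trans ?_
      calc ∑ j, prodLaw ν (TrE b E') (A v j ∩ chain nx A n (nx v j))
          = ∑ j, prodLaw ν (TrE b E') (A v j) * prodLaw ν (TrE b E') (chain nx A n (nx v j)) :=
            Finset.sum_congr rfl (fun j _ => indep_disjoint ν (hA v j) (hdep n _) (hd v j))
        _ ≤ ∑ j, q j * (∑ j, q j) ^ n :=
            Finset.sum_le_sum (fun j _ => mul_le_mul' (hq v j) (ih _))
        _ = (∑ j, q j) ^ (n + 1) := by rw [← Finset.sum_mul, pow_succ, mul_comm]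
  have hnull : ∀ v, prodLaw ν (TrE b E') (⋂ n, chain nx A n v) = 0 := by
    intro v
    have h1 : ∀ n, prodLaw ν (TrE b E') (⋂ n, chain nx A n v) ≤ (∑ j, q j) ^ n := fun n =>
      (measure_mono (iInter_subset _ n)).trans (hprob n v)
    have h2 : Tendsto (fun n : ℕ => (∑ j, q j) ^ n) atTop (𝓝 0) :=
      ENNReal.tendsto_pow_atTop_nhds_zero_of_lt_one hsum
    exact le_antisymm (ge_of_tendsto' h2 h1) bot_le
  rw [ae_all_iff]
  intro v
  rw [ae_iff]
  refine measure_mono_null ?_ (hnull v)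
  intro ω hω
  simp only [mem_ofPred_eq, not_not] at hω
  obtain ⟨js, r, hr0, hr, hω⟩ := hω
  have key : ∀ n m, ω ∈ chain nx A n (r m) := by
    intro n
    induction n with
    | zero => intro m; exact mem_univ _
    | succ n ih =>
      intro m
      rw [chain, mem_iUnion]
      exact ⟨js m, hω m, by rw [← hr m]; exact ih (m + 1)⟩
  rw [mem_iInter]
  intro n
  rw [← hr0]
  exact key n 0

end noray

variable {ge : E' → Γ × Γ} {w : Γ}

/-- The trajectories are well defined, for every `T`. -/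
theorem ae_returns [Finite Γ] [Countable E'] (hl : LocFin ge) {T : ℝ} (hT : 0 < T) :
    ∀ᵐ ω ∂(prodLaw (ptsLaw T) (TrE b E')), Returns (bars (tends ge w) ω) := by
  -- number of slabs
  obtain ⟨M, hM⟩ := exists_nat_gt (b * T)
  have hM0 : 0 < M := by
    have : (0 : ℝ) ≤ b * T := by positivity
    have h2 : (0 : ℝ) < M := lt_of_le_of_lt this hM
    exact_mod_cast h2
  have hMr : (0 : ℝ) < M := by exact_mod_cast hM0
  have hslab : ∀ k : ℕ, ∀ᵐ ω ∂(prodLaw (ptsLaw T) (TrE b E')), ∀ v,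
      ¬ ∃ (js : ℕ → Fin b) (r : ℕ → List (Fin b)), r 0 = v ∧
      (∀ m, r (m + 1) = js m :: r m) ∧ ∀ m, ω ∈ {ω : TrE b E' → Marks | ω (r m, Sum.inl (js m)) ∈
        {m : Marks | ∃ j, j < m.1 ∧ m.2 j ∈ Set.Ioc (k * (T / M)) ((k + 1) * (T / M))}} := by
    intro k
    have hmeas : MeasurableSet {m : Marks | ∃ j, j < m.1 ∧
        m.2 j ∈ Set.Ioc (k * (T / M)) ((k + 1) * (T / M))} := by
      have : {m : Marks | ∃ j, j < m.1 ∧ m.2 j ∈ Set.Ioc (k * (T / M)) ((k + 1) * (T / M))} =
          ⋃ j : ℕ, ({m : Marks | j < m.1} ∩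
            {m : Marks | m.2 j ∈ Set.Ioc (k * (T / M)) ((k + 1) * (T / M))}) := by
        ext m
        simp only [mem_ofPred_eq, mem_iUnion, mem_inter_iff]
      rw [this]
      refine MeasurableSet.iUnion (fun j => MeasurableSet.inter ?_ ?_)
      · exact measurable_fst (MeasurableSet.of_discrete (s := {n : ℕ | j < n}))
      · exact ((measurable_pi_apply j).comp measurable_snd) measurableSet_Ioc
    refine ae_no_chain (ptsLaw T) (fun v i => i :: v)
      (fun v i => {ω : TrE b E' → Marks | ω (v, Sum.inl i) ∈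
        {m : Marks | ∃ j, j < m.1 ∧ m.2 j ∈ Set.Ioc (k * (T / M)) ((k + 1) * (T / M))}})
      (fun v i => {(v, Sum.inl i)}) (fun v i => depOn_coord _ hmeas) ?_
      (fun v i => List.suffix_cons _ _) ?_ (fun _ => ENNReal.ofReal (T / M)) ?_ ?_
    · rintro v i e rfl
      exact List.suffix_rfl
    · intro v i
      rw [Set.disjoint_singleton_left]
      intro h
      have := List.IsSuffix.length_le h
      simp at this
    · intro v i
      rw [prodLaw_coord (ptsLaw T) _ hmeas]
      refine (ptsLaw_slab hT.le measurableSet_Ioc).trans ?_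
      refine (mul_le_mul' le_rfl (unif_Ioc_le hT)).trans ?_
      rw [← ENNReal.ofReal_mul hT.le]
      apply ENNReal.ofReal_le_ofReal
      apply le_of_eq
      field_simp
      ring
    · rw [Finset.sum_const, Finset.card_univ, Fintype.card_fin, nsmul_eq_mul,
        ← ENNReal.ofReal_natCast, ← ENNReal.ofReal_mul (by positivity), ← ENNReal.ofReal_one]
      apply (ENNReal.ofReal_lt_ofReal_iff (by norm_num)).mpr
      rw [← mul_div_assoc, div_lt_one hMr]
      exact hM
  have hall : ∀ᵐ ω ∂(prodLaw (ptsLaw T) (TrE b E')), ∀ k : ℕ, ∀ v,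
      ¬ ∃ (js : ℕ → Fin b) (r : ℕ → List (Fin b)), r 0 = v ∧
      (∀ m, r (m + 1) = js m :: r m) ∧ ∀ m, ω ∈ {ω : TrE b E' → Marks | ω (r m, Sum.inl (js m)) ∈
        {m : Marks | ∃ j, j < m.1 ∧ m.2 j ∈ Set.Ioc (k * (T / M)) ((k + 1) * (T / M))}} :=
    ae_all_iff.mpr hslab
  filter_upwards [hall, ae_generic (E := TrE b E') hT] with ω h1 h2
  by_contra hR
  obtain ⟨k, _, r, i, hr, hray⟩ := ray_of_not_returns hl h2.1 hT h2.2 hM0 hR
  exact h1 k (r 0) ⟨i, r, rfl, hr, hray⟩

/-- No infinite cycle under the blocking hypotheses. -/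
theorem ae_no_infinite [Finite Γ] [Countable E'] (hl : LocFin ge) {T : ℝ} (hT : 0 < T)
    (Bl : List (Fin b) → Fin b → Fin b → Set (TrE b E' → Marks))
    (hBl : ∀ u j i, DepOn ({(u, Sum.inl j)} ∪ {e | e.1 = j :: u}) (Bl u j i))
    (hBl' : ∀ u j i ω, Generic ω → ω ∈ Bl u j i → Blocked ge w ω u j i)
    (hBl1 : ∀ u j i, Bl u j i ⊆ {ω | 1 ≤ (ω (u, Sum.inl j)).1 ∧ 1 ≤ (ω (j :: u, Sum.inl i)).1})
    {β : ℝ≥0∞} (hβ : ∀ u j i, β ≤ prodLaw (ptsLaw T) (TrE b E') (Bl u j i))
    (hlt : (b : ℝ≥0∞) * b * (ENNReal.ofReal (T * T) - β) < 1) :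
    ∀ᵐ ω ∂(prodLaw (ptsLaw T) (TrE b E')), ∀ v, ¬ (cyc (bars (tends ge w) ω) v).Infinite := by
  set A : List (Fin b) → Fin b × Fin b → Set (TrE b E' → Marks) := fun u ji =>
    {ω | 1 ≤ (ω (u, Sum.inl ji.1)).1 ∧ 1 ≤ (ω (ji.1 :: u, Sum.inl ji.2)).1} \ Bl u ji.1 ji.2 with hA
  have hcoord : ∀ e : TrE b E', DepOn {e} {ω : TrE b E' → Marks | 1 ≤ (ω e).1} := fun e =>
    depOn_coord e (A := {m : Marks | 1 ≤ m.1})
      (measurable_fst (MeasurableSet.of_discrete (s := {n : ℕ | 1 ≤ n})))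
  have hopen : ∀ u (ji : Fin b × Fin b), DepOn ({(u, Sum.inl ji.1)} ∪ {e | e.1 = ji.1 :: u})
      {ω : TrE b E' → Marks | 1 ≤ (ω (u, Sum.inl ji.1)).1 ∧ 1 ≤ (ω (ji.1 :: u, Sum.inl ji.2)).1} := by
    intro u ji
    refine DepOn.inter ((hcoord (u, Sum.inl ji.1)).mono ?_)
      ((hcoord (ji.1 :: u, Sum.inl ji.2)).mono ?_)
    · exact subset_union_left
    · rintro e rfl
      right; rfl
  have hnoch := ae_no_chain (E' := E') (ptsLaw T) (fun u (ji : Fin b × Fin b) => ji.2 :: ji.1 :: u) A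
    (fun u ji => {(u, Sum.inl ji.1)} ∪ {e | e.1 = ji.1 :: u})
    (fun u ji => (hopen u ji).diff (hBl u ji.1 ji.2)) ?_ ?_ ?_
    (fun _ => ENNReal.ofReal (T * T) - β) ?_ ?_
  · filter_upwards [hnoch, ae_generic (E := TrE b E') hT] with ω h1 h2
    intro v hinf
    obtain ⟨r, i, hr, hop, hbl⟩ := ray_of_infinite hl h2.1 v hinf
    refine h1 (r 0) ⟨fun m => (i (2 * m), i (2 * m + 1)), fun m => r (2 * m), rfl, ?_, ?_⟩
    · intro m
      have e : 2 * (m + 1) = 2 * m + 1 + 1 := by ring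
      change r (2 * (m + 1)) = _
      rw [e, hr, hr]
    · intro m
      refine ⟨⟨hop (2 * m), ?_⟩, fun h => ?_⟩
      · have := hop (2 * m + 1)
        rw [hr] at this
        exact this
      · exact hbl (2 * m) (hBl' _ _ _ ω h2.1 h)
  · rintro v ⟨j, i⟩ e (h | h)
    · rw [mem_singleton_iff] at h
      rw [h]
      exact List.suffix_rfl
    · change v <:+ e.1
      rw [show e.1 = j :: v from h]
      exact List.suffix_cons _ _
  · rintro v ⟨j, i⟩
    exact (List.suffix_cons _ _).trans (List.suffix_cons _ _)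
  · rintro v ⟨j, i⟩
    rw [Set.disjoint_left]
    rintro e (h | h) h'
    · rw [mem_singleton_iff] at h
      rw [h] at h'
      have := List.IsSuffix.length_le h'
      simp at this
    · have h2 := List.IsSuffix.length_le h'
      rw [show e.1 = j :: v from h] at h2
      simp at h2
  · rintro v ⟨j, i⟩
    have h1 : prodLaw (ptsLaw T) (TrE b E')
        {ω | 1 ≤ (ω (v, Sum.inl j)).1 ∧ 1 ≤ (ω (j :: v, Sum.inl i)).1} ≤ ENNReal.ofReal (T * T) := by
      have h2 := indep_disjoint (ptsLaw T) (hcoord (v, Sum.inl j)) (hcoord (j :: v, Sum.inl i))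
        (by
          rw [Set.disjoint_singleton]
          intro h
          have := congrArg List.length (Prod.ext_iff.mp h).1
          simp at this)
      have h3 : ∀ e : TrE b E', prodLaw (ptsLaw T) (TrE b E') {ω | 1 ≤ (ω e).1} ≤
          ENNReal.ofReal T := by
        intro e
        have h4 := prodLaw_coord (ptsLaw T) e (A := {m : Marks | 1 ≤ m.1})
          (measurable_fst (MeasurableSet.of_discrete (s := {n : ℕ | 1 ≤ n})))
        change prodLaw (ptsLaw T) (TrE b E') {ω | ω e ∈ {m : Marks | 1 ≤ m.1}} ≤ _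
        rw [h4]
        have := ptsLaw_count (T := T) {n | 1 ≤ n}
        change ptsLaw T {m | m.1 ∈ {n : ℕ | 1 ≤ n}} ≤ _
        rw [this]
        exact po_ge_one hT.le
      change prodLaw (ptsLaw T) (TrE b E') ({ω | 1 ≤ (ω (v, Sum.inl j)).1} ∩
            {ω | 1 ≤ (ω (j :: v, Sum.inl i)).1}) ≤ _
      rw [h2, ENNReal.ofReal_mul hT.le]
      exact mul_le_mul' (h3 _) (h3 _)
    rw [hA]
    change prodLaw (ptsLaw T) (TrE b E')
      ({ω | 1 ≤ (ω (v, Sum.inl j)).1 ∧ 1 ≤ (ω (j :: v, Sum.inl i)).1} \ Bl v j i) ≤ _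
    rw [measure_diff (hBl1 v j i) (hBl v j i).meas.nullMeasurableSet (measure_ne_top _ _)]
    exact tsub_le_tsub h1 (hβ v j i)
  · rw [Finset.sum_const, Finset.card_univ, Fintype.card_prod, Fintype.card_fin, nsmul_eq_mul]
    push_cast
    exact hlt

end Pool.Agent.H98.RS
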